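import Pool.Agent.Lib.MP_8ce23f_nt.R2.Defs

/-!
# Calculus of asymptotic expansions

Job AsyCalc.  Elementary.  Uniqueness: by strong induction on the coefficients
(`c_N t^N + O(t^(N+1)) = c'_N t^N + O(t^(N+1))`, divide by `t^N`).
`P_ext`: `MvPolynomial.funext_set`-like statement (`MvPolynomial.funext_set` with infinite sets, or
induction through `Polynomial`).  `patch`: the polynomials for `N` and `N' ` agree for `k < min N N'`
by uniqueness at every real point and `P_ext`; take `Γ = mk fun k => p_{k+1} k`.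
-/

open Filter Topology Asymptotics MeasureTheory
open scoped Real

namespace Pool.Agent.Lib.MP_8ce23f_nt.R2

/-- powers near zero -/
theorem asycalc_pow {m n : ℕ} (h : n ≤ m) :
    (fun t : ℝ => t ^ m) =O[𝓝[>] 0] fun t : ℝ => t ^ n := by
  refine Asymptotics.IsBigO.of_bound 1 ?_
  have h1 : Set.Ioo (0 : ℝ) 1 ∈ 𝓝[>] (0 : ℝ) := Ioo_mem_nhdsGT one_pos
  filter_upwards [h1] with t ht
  rw [norm_pow, norm_pow, Real.norm_of_nonneg ht.1.le, one_mul]
  exact pow_le_pow_of_le_one ht.1.le ht.2.le h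

theorem asycalc_term (z : ℂ) {m n : ℕ} (h : n ≤ m) :
    (fun t : ℝ => z * (t : ℂ) ^ m) =O[𝓝[>] 0] fun t : ℝ => t ^ n := by
  have h1 : (fun t : ℝ => (t : ℂ) ^ m) =O[𝓝[>] 0] fun t : ℝ => t ^ m := by
    refine Asymptotics.IsBigO.of_bound 1 (Filter.Eventually.of_forall fun t => ?_)
    rw [norm_pow, norm_pow, Complex.norm_real, one_mul]
  exact (h1.const_mul_left z).trans (asycalc_pow h)

/-- lowering the order -/
theorem asycalc_mono {f : ℝ → ℂ} {a : ℕ → ℂ} {N N' : ℕ} (hN : N ≤ N')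
    (h : (fun t : ℝ => f t - ∑ k ∈ Finset.range N', a k * (t : ℂ) ^ k)
      =O[𝓝[>] 0] fun t : ℝ => t ^ N') :
    (fun t : ℝ => f t - ∑ k ∈ Finset.range N, a k * (t : ℂ) ^ k)
      =O[𝓝[>] 0] fun t : ℝ => t ^ N := by
  have h1 : (fun t : ℝ => f t - ∑ k ∈ Finset.range N, a k * (t : ℂ) ^ k) =
      fun t : ℝ => (f t - ∑ k ∈ Finset.range N', a k * (t : ℂ) ^ k) +
        ∑ k ∈ Finset.Ico N N', a k * (t : ℂ) ^ k := by
    funext t
    have h2 := Finset.sum_range_add_sum_Ico (fun k => a k * (t : ℂ) ^ k) hN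
    rw [← h2]
    ring
  rw [h1]
  have h3 : (∑ k ∈ Finset.Ico N N', fun t : ℝ => a k * (t : ℂ) ^ k)
      =O[𝓝[>] 0] fun t : ℝ => t ^ N :=
    Asymptotics.IsBigO.sum fun k hk => asycalc_term (a k) (Finset.mem_Ico.1 hk).1
  have h4 : (∑ k ∈ Finset.Ico N N', fun t : ℝ => a k * (t : ℂ) ^ k) =
      fun t : ℝ => ∑ k ∈ Finset.Ico N N', a k * (t : ℂ) ^ k := by
    funext t
    rw [Finset.sum_apply]
  rw [h4] at h3
  exact (h.trans (asycalc_pow hN)).add h3

/-- finite order uniqueness -/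
theorem asycalc_zero {a : ℕ → ℂ} {N : ℕ}
    (h : (fun t : ℝ => ∑ k ∈ Finset.range N, a k * (t : ℂ) ^ k)
      =O[𝓝[>] 0] fun t : ℝ => t ^ N) : ∀ k < N, a k = 0 := by
  intro k
  induction k using Nat.strong_induction_on with
  | _ n ih =>
    intro hn
    have h0 : (fun t : ℝ => (0 : ℂ) - ∑ k ∈ Finset.range N, (-a k) * (t : ℂ) ^ k)
        =O[𝓝[>] 0] fun t : ℝ => t ^ N := by
      refine h.congr_left fun t => ?_
      rw [zero_sub, ← Finset.sum_neg_distrib]
      refine Finset.sum_congr rfl fun k _ => ?_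
      ring
    have h1 := asycalc_mono (N := n + 1) (by omega) h0
    have h2 : (fun t : ℝ => a n * (t : ℂ) ^ n) =O[𝓝[>] 0] fun t : ℝ => t ^ (n + 1) := by
      refine h1.congr_left fun t => ?_
      rw [Finset.sum_range_succ]
      have h3 : ∑ k ∈ Finset.range n, (-a k) * (t : ℂ) ^ k = 0 := by
        refine Finset.sum_eq_zero fun k hk => ?_
        have hk' := Finset.mem_range.1 hk
        rw [ih k hk' (by omega), neg_zero, zero_mul]
      rw [h3]
      ring
    obtain ⟨C, hC⟩ := h2.bound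
    have hlim : Tendsto (fun t : ℝ => C * t) (𝓝[>] 0) (𝓝 0) := by
      have h4 : Continuous fun t : ℝ => C * t := by fun_prop
      have h5 := (h4.tendsto 0).mono_left (nhdsWithin_le_nhds (s := Set.Ioi (0 : ℝ)))
      simpa using h5
    have hle : ‖a n‖ ≤ 0 := by
      refine ge_of_tendsto hlim ?_
      have h1 : Set.Ioo (0 : ℝ) 1 ∈ 𝓝[>] (0 : ℝ) := Ioo_mem_nhdsGT one_pos
      filter_upwards [hC, h1] with t ht ht1
      rw [norm_mul, norm_pow, Complex.norm_real, norm_pow, Real.norm_of_nonneg ht1.1.le] at ht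
      have h6 : 0 < t ^ n := pow_pos ht1.1 n
      have h7 : ‖a n‖ * t ^ n ≤ C * t * t ^ n := by
        calc ‖a n‖ * t ^ n ≤ C * t ^ (n + 1) := ht
          _ = C * t * t ^ n := by ring
      exact le_of_mul_le_mul_right h7 h6
    exact norm_le_zero_iff.1 hle

theorem asycalc_unique {f : ℝ → ℂ} {a b : ℕ → ℂ} {N : ℕ}
    (ha : (fun t : ℝ => f t - ∑ k ∈ Finset.range N, a k * (t : ℂ) ^ k)
      =O[𝓝[>] 0] fun t : ℝ => t ^ N)
    (hb : (fun t : ℝ => f t - ∑ k ∈ Finset.range N, b k * (t : ℂ) ^ k)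
      =O[𝓝[>] 0] fun t : ℝ => t ^ N) : ∀ k < N, a k = b k := by
  intro k hk
  have h1 : (fun t : ℝ => ∑ k ∈ Finset.range N, (a k - b k) * (t : ℂ) ^ k)
      =O[𝓝[>] 0] fun t : ℝ => t ^ N := by
    refine (hb.sub ha).congr_left fun t => ?_
    have h2 : ∑ k ∈ Finset.range N, (a k - b k) * (t : ℂ) ^ k =
        ∑ k ∈ Finset.range N, a k * (t : ℂ) ^ k - ∑ k ∈ Finset.range N, b k * (t : ℂ) ^ k := by
      rw [← Finset.sum_sub_distrib]
      refine Finset.sum_congr rfl fun k _ => ?_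
      ring
    rw [h2]
    ring
  exact sub_eq_zero.1 (asycalc_zero h1 k hk)

/-- truncated sums are bounded -/
theorem asycalc_bd (p : Polynomial ℂ) :
    (fun t : ℝ => p.eval (t : ℂ)) =O[𝓝[>] 0] fun _ : ℝ => (1 : ℝ) := by
  have h1 : Continuous fun t : ℝ => p.eval (t : ℂ) := by fun_prop
  have h2 := (h1.tendsto 0).mono_left (nhdsWithin_le_nhds (s := Set.Ioi (0 : ℝ)))
  exact h2.isBigO_one ℝ

theorem asycalc_eval (c : PowerSeries ℂ) (N : ℕ) (t : ℂ) :
    (PowerSeries.trunc N c).eval t = ∑ k ∈ Finset.range N, PowerSeries.coeff k c * t ^ k := by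
  have h1 := PowerSeries.eval₂_trunc_eq_sum_range t (RingHom.id ℂ) N c
  rw [Polynomial.eval]
  exact h1

/-- exponentially small terms -/
theorem asycalc_exp {δ : ℝ} (hδ : 0 < δ) (N : ℕ) :
    (fun t : ℝ => Real.exp (-(δ / t ^ 2))) =O[𝓝[>] 0] fun t : ℝ => t ^ N := by
  have h1 : Tendsto (fun t : ℝ => δ / t ^ 2) (𝓝[>] 0) atTop := by
    have h2 : Tendsto (fun t : ℝ => t ^ 2) (𝓝[>] 0) (𝓝[>] 0) := by
      refine tendsto_nhdsWithin_iff.2 ⟨?_, ?_⟩
      · have h4 : Continuous fun t : ℝ => t ^ 2 := by fun_prop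
        have h5 := (h4.tendsto 0).mono_left (nhdsWithin_le_nhds (s := Set.Ioi (0 : ℝ)))
        simpa using h5
      · filter_upwards [self_mem_nhdsWithin] with t ht
        have ht' : 0 < t := ht
        exact pow_pos ht' 2
    have h3 := (tendsto_inv_nhdsGT_zero.comp h2).const_mul_atTop hδ
    exact h3
  have h2 := (Real.tendsto_pow_mul_exp_neg_atTop_nhds_zero N).comp h1
  have h3 : (fun t : ℝ => (δ / t ^ 2) ^ N * Real.exp (-(δ / t ^ 2))) =O[𝓝[>] 0]
      fun _ : ℝ => (1 : ℝ) := h2.isBigO_one ℝ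
  have h4 : (fun t : ℝ => (δ ^ N)⁻¹ * t ^ (2 * N)) =O[𝓝[>] 0] fun t : ℝ => t ^ N :=
    (asycalc_pow (by omega)).const_mul_left _
  have h5 := h4.mul h3
  refine (h5.congr' ?_ ?_)
  · filter_upwards [self_mem_nhdsWithin] with t ht
    have ht' : (t : ℝ) ≠ 0 := ne_of_gt ht
    rw [div_pow, ← pow_mul]
    field_simp
  · exact Filter.Eventually.of_forall fun t => mul_one _

theorem Asy.congr' {f f' : ℝ → ℂ} {c : PowerSeries ℂ} (h : f =ᶠ[𝓝[>] 0] f') (hf : Asy f c) :
    Asy f' c := by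
  intro N
  refine (hf N).congr' ?_ (Filter.Eventually.of_forall fun _ => rfl)
  filter_upwards [h] with t ht
  rw [ht]

theorem Asy.unique {f : ℝ → ℂ} {c c' : PowerSeries ℂ} (h : Asy f c) (h' : Asy f c') : c = c' := by
  ext k
  exact asycalc_unique (h (k + 1)) (h' (k + 1)) k (Nat.lt_succ_self k)

theorem Asy.add {f f' : ℝ → ℂ} {c c' : PowerSeries ℂ} (h : Asy f c) (h' : Asy f' c') :
    Asy (fun t => f t + f' t) (c + c') := by
  intro N
  refine ((h N).add (h' N)).congr_left fun t => ?_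
  have h2 : ∑ k ∈ Finset.range N, PowerSeries.coeff k (c + c') * (t : ℂ) ^ k =
      ∑ k ∈ Finset.range N, PowerSeries.coeff k c * (t : ℂ) ^ k +
        ∑ k ∈ Finset.range N, PowerSeries.coeff k c' * (t : ℂ) ^ k := by
    rw [← Finset.sum_add_distrib]
    refine Finset.sum_congr rfl fun k _ => ?_
    rw [map_add]
    ring
  rw [h2]
  ring

theorem Asy.const_mul {f : ℝ → ℂ} {c : PowerSeries ℂ} (h : Asy f c) (z : ℂ) :
    Asy (fun t => z * f t) (PowerSeries.C z * c) := by
  intro N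
  refine ((h N).const_mul_left z).congr_left fun t => ?_
  have h2 : ∑ k ∈ Finset.range N, PowerSeries.coeff k (PowerSeries.C z * c) * (t : ℂ) ^ k =
      z * ∑ k ∈ Finset.range N, PowerSeries.coeff k c * (t : ℂ) ^ k := by
    rw [Finset.mul_sum]
    refine Finset.sum_congr rfl fun k _ => ?_
    rw [PowerSeries.coeff_C_mul]
    ring
  rw [h2]
  ring

theorem Asy.mul {f f' : ℝ → ℂ} {c c' : PowerSeries ℂ} (h : Asy f c) (h' : Asy f' c') :
    Asy (fun t => f t * f' t) (c * c') := by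
  intro N
  set A := PowerSeries.trunc N c with hA
  set B := PowerSeries.trunc N c' with hB
  have hdvd : (Polynomial.X : Polynomial ℂ) ^ N ∣ A * B - PowerSeries.trunc N (c * c') := by
    rw [Polynomial.X_pow_dvd_iff]
    intro d hd
    have h1 := PowerSeries.trunc_trunc_mul_trunc (n := N) c c'
    have h2 := congrArg (fun p : Polynomial ℂ => p.coeff d) h1
    simp only [PowerSeries.coeff_trunc, if_pos hd] at h2
    rw [Polynomial.coeff_sub, PowerSeries.coeff_trunc, if_pos hd, ← h2, ← Polynomial.coe_mul,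
      Polynomial.coeff_coe, sub_self]
  obtain ⟨r, hr⟩ := hdvd
  have hf : (fun t : ℝ => f t - A.eval (t : ℂ)) =O[𝓝[>] 0] fun t : ℝ => t ^ N :=
    (h N).congr_left fun t => by rw [hA, asycalc_eval]
  have hf' : (fun t : ℝ => f' t - B.eval (t : ℂ)) =O[𝓝[>] 0] fun t : ℝ => t ^ N :=
    (h' N).congr_left fun t => by rw [hB, asycalc_eval]
  have hf'1 : (fun t : ℝ => f' t) =O[𝓝[>] 0] fun _ : ℝ => (1 : ℝ) := by
    have h1 : (fun t : ℝ => (f' t - B.eval (t : ℂ)) + B.eval (t : ℂ)) =O[𝓝[>] 0]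
        fun _ : ℝ => (1 : ℝ) := by
      refine (hf'.trans ?_).add (asycalc_bd B)
      exact (asycalc_pow (Nat.zero_le N)).congr_right fun t => pow_zero t
    exact h1.congr_left fun t => by ring
  have h1 := hf.mul hf'1
  have h2 := (asycalc_bd A).mul hf'
  have h3 : (fun t : ℝ => (t : ℂ) ^ N * r.eval (t : ℂ)) =O[𝓝[>] 0] fun t : ℝ => t ^ N * 1 := by
    have h4 : (fun t : ℝ => (1 : ℂ) * (t : ℂ) ^ N) =O[𝓝[>] 0] fun t : ℝ => t ^ N :=
      asycalc_term 1 (le_refl N)
    exact (h4.mul (asycalc_bd r)).congr_left fun t => by ring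
  have h5 : (fun t : ℝ => t ^ N * (1 : ℝ)) = fun t : ℝ => t ^ N := by
    funext t
    ring
  have h6 : (fun t : ℝ => (1 : ℝ) * t ^ N) = fun t : ℝ => t ^ N := by
    funext t
    ring
  rw [h5] at h1 h3
  rw [h6] at h2
  refine ((h1.add h2).add h3).congr_left fun t => ?_
  rw [← asycalc_eval]
  have h7 := congrArg (fun p : Polynomial ℂ => p.eval (t : ℂ)) hr
  simp only [Polynomial.eval_sub, Polynomial.eval_mul, Polynomial.eval_pow,
    Polynomial.eval_X] at h7
  linear_combination -h7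

theorem Asy.exp_sq (z : ℂ) : Asy (fun t => Complex.exp (z * t ^ 2)) (E2 z) := by
  intro N
  have h1 : (fun t : ℝ => Complex.exp (z * t ^ 2) -
      ∑ k ∈ Finset.range (2 * N), PowerSeries.coeff k (E2 z) * (t : ℂ) ^ k) =O[𝓝[>] 0]
      fun t : ℝ => t ^ (2 * N) := by
    have h2 : Tendsto (fun t : ℝ => z * (t : ℂ) ^ 2) (𝓝[>] 0) (𝓝 0) := by
      have h4 : Continuous fun t : ℝ => z * (t : ℂ) ^ 2 := by fun_prop
      have h5 := (h4.tendsto 0).mono_left (nhdsWithin_le_nhds (s := Set.Ioi (0 : ℝ)))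
      simpa using h5
    have h3 := (Complex.exp_sub_sum_range_isBigO_pow N).comp_tendsto h2
    have h4 : (fun t : ℝ => (z * (t : ℂ) ^ 2) ^ N) =O[𝓝[>] 0] fun t : ℝ => t ^ (2 * N) := by
      refine (asycalc_term (z ^ N) (le_refl (2 * N))).congr_left fun t => ?_
      rw [mul_pow, ← pow_mul]
    refine (h3.trans h4).congr_left fun t => ?_
    show Complex.exp (z * (t : ℂ) ^ 2) - ∑ i ∈ Finset.range N, (z * (t : ℂ) ^ 2) ^ i /
      (i.factorial : ℂ) = _
    congr 1
    have h5 : ∀ M : ℕ, ∑ i ∈ Finset.range M, (z * (t : ℂ) ^ 2) ^ i / (i.factorial : ℂ) =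
        ∑ k ∈ Finset.range (2 * M), PowerSeries.coeff k (E2 z) * (t : ℂ) ^ k := by
      intro M
      induction M with
      | zero => simp
      | succ M ih =>
        rw [Finset.sum_range_succ, ih, show 2 * (M + 1) = 2 * M + 1 + 1 by ring,
          Finset.sum_range_succ, Finset.sum_range_succ, add_assoc]
        congr 1
        have e1 : PowerSeries.coeff (2 * M) (E2 z) = ((M.factorial : ℂ)⁻¹) * z ^ M := by
          unfold E2
          rw [PowerSeries.coeff_mk, if_pos (even_two_mul M)]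
          have e3 : 2 * M / 2 = M := by omega
          rw [e3]
          rfl
        have e2 : PowerSeries.coeff (2 * M + 1) (E2 z) = 0 := by
          unfold E2
          rw [PowerSeries.coeff_mk, if_neg]
          rw [Nat.not_even_iff_odd]
          exact odd_two_mul_add_one M
        rw [e1, e2, mul_pow, ← pow_mul]
        ring
    exact h5 N
  exact asycalc_mono (by omega) h1

theorem Asy.tendsto {f : ℝ → ℂ} {c : PowerSeries ℂ} (h : Asy f c) :
    Tendsto f (𝓝[>] 0) (𝓝 (PowerSeries.constantCoeff c)) := by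
  have h1 := h 1
  have h2 : Tendsto (fun t : ℝ => t ^ 1) (𝓝[>] 0) (𝓝 0) := by
    have h4 : Continuous fun t : ℝ => t ^ 1 := by fun_prop
    have h5 := (h4.tendsto 0).mono_left (nhdsWithin_le_nhds (s := Set.Ioi (0 : ℝ)))
    simpa using h5
  have h3 := (h1.trans_tendsto h2).add_const (PowerSeries.constantCoeff c)
  rw [zero_add] at h3
  refine h3.congr fun t => ?_
  rw [Finset.sum_range_one, pow_zero, mul_one, PowerSeries.coeff_zero_eq_constantCoeff_apply]
  ring

/-- An exponentially small relative perturbation does not change the expansion. -/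
theorem Asy.perturb {f E : ℝ → ℂ} {c : PowerSeries ℂ} (h : Asy f c) {δ : ℝ} (hδ : 0 < δ)
    (hE : E =O[𝓝[>] 0] fun t : ℝ => Real.exp (-(δ / t ^ 2))) :
    Asy (fun t => f t * (1 + E t)) c := by
  intro N
  have h1 : (fun t : ℝ => f t) =O[𝓝[>] 0] fun _ : ℝ => (1 : ℝ) := h.tendsto.isBigO_one ℝ
  have h2 := h1.mul (hE.trans (asycalc_exp hδ N))
  have h3 : (fun t : ℝ => (1 : ℝ) * t ^ N) = fun t : ℝ => t ^ N := by
    funext t
    ring
  rw [h3] at h2
  exact ((h N).add h2).congr_left fun t => by ring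

theorem map_E2 {R S : Type*} [CommRing R] [Algebra ℂ R] [CommRing S] [Algebra ℂ S]
    (φ : R →ₐ[ℂ] S) (r : R) : PowerSeries.map (φ : R →+* S) (E2 r) = E2 (φ r) := by
  ext n
  rw [PowerSeries.coeff_map]
  unfold E2
  rw [PowerSeries.coeff_mk, PowerSeries.coeff_mk]
  split_ifs with hn
  · show φ (algebraMap ℂ R (((n / 2).factorial : ℂ)⁻¹) * r ^ (n / 2)) = _
    rw [map_mul, map_pow, AlgHom.commutes]
  · exact map_zero _

theorem map_ev_E2 (x y : ℂ) (p : P) : PowerSeries.map (ev x y) (E2 p) = E2 (ev x y p) := by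
  ext n
  rw [PowerSeries.coeff_map]
  unfold E2
  rw [PowerSeries.coeff_mk, PowerSeries.coeff_mk]
  split_ifs with hn
  · rw [map_mul, map_pow]
    congr 1
    show MvPolynomial.eval ![x, y] (MvPolynomial.C _) = _
    rw [MvPolynomial.eval_C]
    rfl
  · exact map_zero _

/-- A polynomial is determined by its values at real points. -/
theorem P_ext {p p' : P} (h : ∀ x y : ℝ, ev x y p = ev x y p') : p = p' := by
  refine MvPolynomial.funext_set (fun _ => Set.range ((↑) : ℝ → ℂ)) (fun _ => ?_) ?_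
  · exact Set.infinite_range_of_injective Complex.ofReal_injective
  · intro v hv
    obtain ⟨x, hx⟩ := hv 0 (Set.mem_univ _)
    obtain ⟨y, hy⟩ := hv 1 (Set.mem_univ _)
    have h1 : v = ![(x : ℂ), (y : ℂ)] := by
      funext i
      fin_cases i
      · exact hx.symm
      · exact hy.symm
    rw [h1]
    exact h x y

/-- Patching of the expansions of finite order. -/
theorem patch (f : ℝ → ℝ → ℝ → ℂ) (p0 : P) (h : ∀ N : ℕ, ∃ p : ℕ → P, p 0 = p0 ∧ ∀ x y : ℝ,
      (fun t : ℝ => f x y t - ∑ k ∈ Finset.range (N + 1), ev x y (p k) * (t : ℂ) ^ k)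
        =O[𝓝[>] 0] fun t : ℝ => t ^ (N + 1)) :
    ∃ Γ : PowerSeries P, PowerSeries.constantCoeff Γ = p0 ∧
      ∀ x y : ℝ, Asy (f x y) (PowerSeries.map (ev x y) Γ) := by
  choose p hp0 hp using h
  have hagree : ∀ N N' k : ℕ, k ≤ N → N ≤ N' → p N k = p N' k := by
    intro N N' k hk hN
    refine P_ext fun x y => ?_
    have h1 := hp N x y
    have h2 := asycalc_mono (a := fun k => ev x y (p N' k)) (N := N + 1) (by omega) (hp N' x y)
    exact asycalc_unique (a := fun k => ev x y (p N k)) (b := fun k => ev x y (p N' k)) h1 h2 k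
      (by omega)
  refine ⟨PowerSeries.mk fun k => p k k, ?_, fun x y N => ?_⟩
  · rw [← PowerSeries.coeff_zero_eq_constantCoeff_apply, PowerSeries.coeff_mk, hp0]
  · have h1 := asycalc_mono (a := fun k => ev x y (p N k)) (N := N) (by omega) (hp N x y)
    refine h1.congr_left fun t => ?_
    congr 1
    refine Finset.sum_congr rfl fun k hk => ?_
    rw [PowerSeries.coeff_map, PowerSeries.coeff_mk,
      hagree k N k (le_refl k) (Finset.mem_range.1 hk).le]

end Pool.Agent.Lib.MP_8ce23f_nt.R2
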