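import Pool.Agent.Lib.MP_8ce23f_nt.R2.LamSum

/-!
# Summability and the functional equations

Job FShift.  `a n₁² + 2 h n₁ n₂ + d n₂² ≥ α (n₁² + n₂²)` with `α > 0`, so the terms are bounded by
`C exp (-t² α' (n₁² + n₂²))`-like terms (`exists_rp_lower`), summable.  Functional equation:
`(1 - q^{n₁})/(q)_{n₁} = 1/(q)_{n₁-1}` for `n₁ ≥ 1`, and substitute `n₁ → n₁ + 1`.
-/

open Filter Topology Asymptotics MeasureTheory
open scoped Real

namespace Pool.Agent.Lib.MP_8ce23f_nt.R2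

theorem FShift_q {t : ℝ} (ht : 0 < t) : 0 ≤ Real.exp (-t ^ 2) ∧ Real.exp (-t ^ 2) < 1 := by
  refine ⟨(Real.exp_pos _).le, ?_⟩
  rw [Real.exp_lt_one_iff]
  have : 0 < t ^ 2 := by positivity
  linarith

theorem FShift_quad {a h d : ℝ} (hA : PD a h d) : ∃ α : ℝ, 0 < α ∧
    ∀ u v : ℝ, α * (u ^ 2 + v ^ 2) ≤ a * u ^ 2 + 2 * h * u * v + d * v ^ 2 := by
  have hs : 0 < a + d := by linarith [hA.ha, hA.hd]
  refine ⟨(a * d - h ^ 2) / (a + d), div_pos hA.hdet hs, fun u v => ?_⟩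
  obtain ⟨α, hα⟩ : ∃ α, α = (a * d - h ^ 2) / (a + d) := ⟨_, rfl⟩
  rw [← hα]
  have h1 : α * (a + d) = a * d - h ^ 2 := by
    rw [hα]; field_simp
  have h2 : 0 < a - α := by
    have h3 : (a - α) * (a + d) = a ^ 2 + h ^ 2 := by
      rw [sub_mul, h1]; ring
    have h4 : 0 < (a - α) * (a + d) := by
      rw [h3]
      have := hA.ha
      positivity
    exact (pos_iff_pos_of_mul_pos h4).2 hs
  have h5 : 0 ≤ (a - α) * ((a * u ^ 2 + 2 * h * u * v + d * v ^ 2) - α * (u ^ 2 + v ^ 2)) := by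
    have h6 : (a - α) * ((a * u ^ 2 + 2 * h * u * v + d * v ^ 2) - α * (u ^ 2 + v ^ 2)) =
        ((a - α) * u + h * v) ^ 2 + (α * v) ^ 2 := by
      linear_combination (-v ^ 2) * h1
    rw [h6]
    positivity
  have h7 := nonneg_of_mul_nonneg_right h5 h2
  linarith

theorem FShift_exp {a h d : ℝ} (hA : PD a h d) (x y : ℝ) : ∃ α C : ℝ, 0 < α ∧ ∀ n : ℕ × ℕ,
    α * (n.1 + n.2) - C ≤
      (a * n.1 ^ 2 + 2 * h * n.1 * n.2 + d * n.2 ^ 2) / 2 + x * n.1 + y * n.2 := by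
  obtain ⟨α, hα, hq⟩ := FShift_quad hA
  refine ⟨α / 4, (x ^ 2 + y ^ 2) / α, by positivity, fun n => ?_⟩
  have h1 := hq n.1 n.2
  have h2 : (n.1 : ℝ) ≤ (n.1 : ℝ) ^ 2 := by
    have : n.1 ≤ n.1 ^ 2 := Nat.le_self_pow (by norm_num) _
    exact_mod_cast this
  have h3 : (n.2 : ℝ) ≤ (n.2 : ℝ) ^ 2 := by
    have : n.2 ≤ n.2 ^ 2 := Nat.le_self_pow (by norm_num) _
    exact_mod_cast this
  have h4 : ∀ u z : ℝ, 0 ≤ α / 4 * u ^ 2 + z * u + z ^ 2 / α := by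
    intro u z
    have h5 : α / 4 * u ^ 2 + z * u + z ^ 2 / α = (α * u + 2 * z) ^ 2 / (4 * α) := by
      field_simp
      ring
    rw [h5]
    positivity
  have h5 := h4 n.1 x
  have h6 := h4 n.2 y
  rw [add_div]
  nlinarith

theorem FShift_bound {a h d : ℝ} (hA : PD a h d) (x y : ℝ) {t : ℝ} (ht : 0 < t) :
    ∃ K r : ℝ, 0 ≤ r ∧ r < 1 ∧ ∀ n : ℕ × ℕ, Fterm a h d x y t n ≤ K * (r ^ n.1 * r ^ n.2) := by
  obtain ⟨hq0, hq1⟩ := FShift_q ht
  obtain ⟨α, C, hα, hn⟩ := FShift_exp hA x y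
  obtain ⟨c, hc, hcn⟩ := exists_rp_lower hq0 hq1
  refine ⟨Real.exp (t ^ 2 * C) / (c * c), Real.exp (-(t ^ 2 * α)), (Real.exp_pos _).le, ?_,
    fun n => ?_⟩
  · rw [Real.exp_lt_one_iff]
    have : 0 < t ^ 2 * α := by positivity
    linarith
  · unfold Fterm
    have h1 : Real.exp (-(t ^ 2 * ((a * n.1 ^ 2 + 2 * h * n.1 * n.2 + d * n.2 ^ 2) / 2 +
        x * n.1 + y * n.2))) ≤ Real.exp (t ^ 2 * C) *
          (Real.exp (-(t ^ 2 * α)) ^ n.1 * Real.exp (-(t ^ 2 * α)) ^ n.2) := by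
      rw [← Real.exp_nat_mul, ← Real.exp_nat_mul, ← Real.exp_add, ← Real.exp_add]
      apply Real.exp_le_exp.2
      have h2 := mul_le_mul_of_nonneg_left (hn n) (sq_nonneg t)
      nlinarith
    have h3 : c * c ≤ rp (Real.exp (-t ^ 2)) n.1 * rp (Real.exp (-t ^ 2)) n.2 :=
      mul_le_mul (hcn _) (hcn _) hc.le (hc.le.trans (hcn _))
    calc _ ≤ (Real.exp (t ^ 2 * C) *
          (Real.exp (-(t ^ 2 * α)) ^ n.1 * Real.exp (-(t ^ 2 * α)) ^ n.2)) / (c * c) :=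
          div_le_div₀ (by positivity) h1 (by positivity) h3
      _ = _ := by ring

theorem FShift_pos (a h d x y : ℝ) {t : ℝ} (ht : 0 < t) (n : ℕ × ℕ) :
    0 < Fterm a h d x y t n := by
  obtain ⟨hq0, hq1⟩ := FShift_q ht
  exact div_pos (Real.exp_pos _) (mul_pos (rp_pos hq0 hq1 _) (rp_pos hq0 hq1 _))

theorem summable_Fterm {a h d : ℝ} (hA : PD a h d) (x y : ℝ) {t : ℝ} (ht : 0 < t) :
    Summable (Fterm a h d x y t) := by
  obtain ⟨K, r, hr0, hr1, hb⟩ := FShift_bound hA x y ht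
  have h1 := summable_geometric_of_lt_one hr0 hr1
  have h2 : Summable fun n : ℕ × ℕ => r ^ n.1 * r ^ n.2 :=
    Summable.mul_of_nonneg h1 h1 (fun n => pow_nonneg hr0 n) (fun n => pow_nonneg hr0 n)
  exact Summable.of_nonneg_of_le (fun n => (FShift_pos a h d x y ht n).le) hb (h2.mul_left K)

theorem Fterm_pos (a h d x y : ℝ) {t : ℝ} (ht : 0 < t) (n : ℕ × ℕ) : 0 < Fterm a h d x y t n :=
  FShift_pos a h d x y ht n

theorem F_pos {a h d : ℝ} (hA : PD a h d) (x y : ℝ) {t : ℝ} (ht : 0 < t) :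
    0 < F a h d x y t :=
  (summable_Fterm hA x y ht).tsum_pos (fun n => (Fterm_pos a h d x y ht n).le) (0, 0)
    (Fterm_pos a h d x y ht _)

/-- the factor `q^n` -/
theorem FShift_shift (a h d x y t : ℝ) (n : ℕ × ℕ) : Fterm a h d (x + 1) y t n =
    Fterm a h d x y t n * Real.exp (-t ^ 2) ^ n.1 := by
  unfold Fterm
  rw [← Real.exp_nat_mul, div_mul_eq_mul_div, ← Real.exp_add]
  congr 2
  ring

theorem FShift_succ (a h d x y : ℝ) {t : ℝ} (ht : 0 < t) (m n : ℕ) :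
    Fterm a h d x y t (m + 1, n) - Fterm a h d (x + 1) y t (m + 1, n) =
      Real.exp (-(t ^ 2 * (a / 2 + x))) * Fterm a h d (x + a) (y + h) t (m, n) := by
  obtain ⟨hq0, hq1⟩ := FShift_q ht
  rw [FShift_shift]
  have h1 : rp (Real.exp (-t ^ 2)) (m + 1) =
      rp (Real.exp (-t ^ 2)) m * (1 - Real.exp (-t ^ 2) ^ (m + 1)) := by
    unfold rp
    rw [Finset.prod_range_succ]
  have h2 : 0 < rp (Real.exp (-t ^ 2)) m := rp_pos hq0 hq1 m
  have h3 : 0 < rp (Real.exp (-t ^ 2)) (m + 1) := rp_pos hq0 hq1 (m + 1)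
  have h4 : 0 < rp (Real.exp (-t ^ 2)) n := rp_pos hq0 hq1 n
  have h5 : 0 < 1 - Real.exp (-t ^ 2) ^ (m + 1) := by
    rw [h1] at h3
    exact (pos_iff_pos_of_mul_pos h3).1 h2
  have h6 : Real.exp (-(t ^ 2 * ((a * ((m + 1 : ℕ) : ℝ) ^ 2 + 2 * h * ((m + 1 : ℕ) : ℝ) * (n : ℝ) +
      d * (n : ℝ) ^ 2) / 2 + x * ((m + 1 : ℕ) : ℝ) + y * (n : ℝ)))) =
      Real.exp (-(t ^ 2 * (a / 2 + x))) * Real.exp (-(t ^ 2 * ((a * (m : ℝ) ^ 2 +
      2 * h * (m : ℝ) * (n : ℝ) + d * (n : ℝ) ^ 2) / 2 + (x + a) * (m : ℝ) +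
      (y + h) * (n : ℝ)))) := by
    rw [← Real.exp_add]
    congr 1
    push_cast
    ring
  unfold Fterm
  simp only
  rw [h6, h1]
  have h2' := h2.ne'
  have h4' := h4.ne'
  have h5' := h5.ne'
  field_simp

theorem F_shift₁ {a h d : ℝ} (hA : PD a h d) (x y : ℝ) {t : ℝ} (ht : 0 < t) :
    F a h d x y t - F a h d (x + 1) y t =
      Real.exp (-(t ^ 2 * (a / 2 + x))) * F a h d (x + a) (y + h) t := by
  unfold F
  rw [← (summable_Fterm hA x y ht).tsum_sub (summable_Fterm hA (x + 1) y ht), ← tsum_mul_left]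
  have hinj : Function.Injective (fun n : ℕ × ℕ => (n.1 + 1, n.2)) := by
    rintro ⟨m, n⟩ ⟨m', n'⟩ h
    simp only [Prod.mk.injEq] at h
    rw [Prod.mk.injEq]
    omega
  rw [← hinj.tsum_eq (f := fun n : ℕ × ℕ => Fterm a h d x y t n - Fterm a h d (x + 1) y t n)]
  · exact tsum_congr fun n => FShift_succ a h d x y ht n.1 n.2
  · rintro ⟨m, n⟩ hn
    rcases m with _ | m
    · exfalso
      apply hn
      show Fterm a h d x y t (0, n) - Fterm a h d (x + 1) y t (0, n) = 0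
      rw [FShift_shift, pow_zero, mul_one, sub_self]
    · exact ⟨(m, n), rfl⟩

theorem FShift_swap (a h d x y t : ℝ) : F a h d x y t = F d h a y x t := by
  unfold F
  rw [← (Equiv.prodComm ℕ ℕ).tsum_eq]
  refine tsum_congr fun n => ?_
  show Fterm a h d x y t (n.2, n.1) = Fterm d h a y x t n
  unfold Fterm
  simp only
  congr 1
  · congr 1
    ring
  · ring

theorem F_shift₂ {a h d : ℝ} (hA : PD a h d) (x y : ℝ) {t : ℝ} (ht : 0 < t) :
    F a h d x y t - F a h d x (y + 1) t =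
      Real.exp (-(t ^ 2 * (d / 2 + y))) * F a h d (x + h) (y + d) t := by
  rw [FShift_swap a h d x y t, FShift_swap a h d x (y + 1) t,
    FShift_swap a h d (x + h) (y + d) t]
  exact F_shift₁ ⟨hA.hd, hA.ha, by have := hA.hdet; linarith⟩ y x ht

end Pool.Agent.Lib.MP_8ce23f_nt.R2
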