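import Pool.Agent.Lib.MP_8ce23f_nt.R2.Holo
import Pool.Agent.Lib.MP_8ce23f_nt.R2.FShift

/-!
# The Nahm sum on the imaginary axis

Job AtIy.  At `τ = i t²/(2π)`: `q = exp (2π i τ) = exp (-t²)`.  Termwise identification
(`Fin 2 → ℕ` versus `ℕ × ℕ`, `Equiv.tsum_eq (finTwoArrowEquiv ℕ)`), `Complex.ofReal_tsum`.
-/

open Filter Topology Asymptotics
open scoped Real MatrixGroups Manifold
open UpperHalfPlane hiding I

namespace Pool.Agent.Lib.MP_8ce23f_nt.R2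

/-- The point `i t²/(2π)`. -/
noncomputable def tp (t : ℝ) (ht : 0 < t) : ℍ := pt 0 (t ^ 2 / (2 * π)) (by positivity)

theorem AtIy_qPow (x : ℚ) {t : ℝ} (ht : 0 < t) :
    qPow x (tp t ht) = ((Real.exp (-((x : ℝ) * t ^ 2)) : ℝ) : ℂ) := by
  unfold qPow tp
  rw [coe_pt, Complex.ofReal_exp]
  congr 1
  have hpi : (π : ℂ) ≠ 0 := by exact_mod_cast Real.pi_ne_zero
  push_cast
  field_simp
  linear_combination ((x : ℂ) * (t : ℂ) ^ 2) * Complex.I_mul_I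

theorem AtIy_qFac (m : ℕ) {t : ℝ} (ht : 0 < t) :
    qFac m (tp t ht) = ((rp (Real.exp (-t ^ 2)) m : ℝ) : ℂ) := by
  unfold qFac rp
  rw [Complex.ofReal_prod]
  refine Finset.prod_congr rfl fun j _ => ?_
  rw [AtIy_qPow, Complex.ofReal_sub, Complex.ofReal_one, ← Real.exp_nat_mul]
  congr 3
  push_cast
  ring

theorem AtIy_exp {A : Matrix (Fin 2) (Fin 2) ℚ} (h10 : A 1 0 = A 0 1) (B : Fin 2 → ℚ) (C : ℚ)
    (p : ℕ × ℕ) : ((nahmExp A B C ((finTwoArrowEquiv ℕ).symm p) : ℚ) : ℝ) =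
      C + (((A 0 0 : ℝ) * p.1 ^ 2 + 2 * (A 0 1 : ℝ) * p.1 * p.2 + (A 1 1 : ℝ) * p.2 ^ 2) / 2
        + (B 0 : ℝ) * p.1 + (B 1 : ℝ) * p.2) := by
  unfold nahmExp
  simp only [Fin.sum_univ_two, finTwoArrowEquiv_symm_apply, Matrix.cons_val_zero,
    Matrix.cons_val_one, h10]
  push_cast
  ring

theorem nahmSum_tp {A : Matrix (Fin 2) (Fin 2) ℚ} (hA : A.PosDef) (B : Fin 2 → ℚ) (C : ℚ)
    {t : ℝ} (ht : 0 < t) : nahmSum A B C (tp t ht) =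
      ((Real.exp (-(C * t ^ 2)) * F (A 0 0) (A 0 1) (A 1 1) (B 0) (B 1) t : ℝ) : ℂ) := by
  have h10 := (pd_of_posDef hA).2
  unfold nahmSum F
  rw [← Equiv.tsum_eq (finTwoArrowEquiv ℕ).symm, ← tsum_mul_left, Complex.ofReal_tsum]
  refine tsum_congr fun p => ?_
  rw [AtIy_qPow, AtIy_exp h10, Fin.prod_univ_two, AtIy_qFac, AtIy_qFac, ← Complex.ofReal_mul,
    ← Complex.ofReal_div]
  congr 1
  unfold Fterm
  simp only [finTwoArrowEquiv_symm_apply, Matrix.cons_val_zero, Matrix.cons_val_one]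
  rw [← mul_div_assoc, ← Real.exp_add]
  congr 2
  ring

theorem nahmSum_ne_zero {A : Matrix (Fin 2) (Fin 2) ℚ} (hA : A.PosDef) (B : Fin 2 → ℚ) (C : ℚ) :
    nahmSum A B C ≠ 0 := by
  intro h
  have h1 := nahmSum_tp hA B C (t := 1) one_pos
  rw [h, Pi.zero_apply] at h1
  have h2 : (Real.exp (-(C * 1 ^ 2)) * F (A 0 0) (A 0 1) (A 1 1) (B 0) (B 1) 1 : ℝ) = 0 := by
    exact_mod_cast h1.symm
  have h3 := mul_pos (Real.exp_pos (-((C : ℝ) * 1 ^ 2)))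
    (F_pos (pd_of_posDef hA).1 (B 0) (B 1) (t := 1) one_pos)
  exact h3.ne' h2

end Pool.Agent.Lib.MP_8ce23f_nt.R2
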