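import Pool.Agent.Lib.MP_8ce23f_nt.R2.Defs

/-!
# Expansion of `1 / (1 - exp (-u))`

Job Bern.  `φ(u) = (1 - exp (-u))/u` is analytic at `0` with `φ(0) = 1` (`dslope`),
so `1/φ` is analytic at `0`, and
`1/(1 - exp(-u)) - 1/u = (1/φ(u) - 1)/u` is `dslope (1/φ) 0`, analytic at `0`.
Near `0` the Taylor remainder of the
analytic function gives the bound (`HasFPowerSeriesAt.isBigO_sub_partialSum_pow`);
for `u ≥ δ` everything is bounded by a constant times `u^J`.
-/

open Filter Topology Asymptotics MeasureTheory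
open scoped Real

namespace Pool.Agent.Lib.MP_8ce23f_nt.R2

private theorem bern_dslope_analytic {f : ℝ → ℝ} (hf : AnalyticAt ℝ f 0) :
    AnalyticAt ℝ (dslope f 0) 0 := by
  obtain ⟨p, hp⟩ := hf
  exact ⟨p.fslope, hp.has_fpower_series_dslope_fslope⟩

/-- The function `1/(1 - exp(-u)) - 1/u` is the restriction of a function analytic at `0`. -/
private theorem bern_analytic : ∃ H : ℝ → ℝ, AnalyticAt ℝ H 0 ∧
    ∀ u : ℝ, 0 < u → H u = 1 / (1 - Real.exp (-u)) - 1 / u := by
  set F : ℝ → ℝ := fun u => 1 - Real.exp (-u) with hF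
  have hFan : AnalyticAt ℝ F 0 := by
    have h1 : AnalyticAt ℝ (fun u : ℝ => Real.exp (-u)) 0 := (analyticAt_id.neg).rexp
    exact analyticAt_const.sub h1
  have hF0 : F 0 = 0 := by simp [hF]
  have hder : deriv F 0 = 1 := by
    have h1 : HasDerivAt (fun u : ℝ => Real.exp (-u)) (Real.exp (-0) * (-1)) 0 :=
      (hasDerivAt_neg (0 : ℝ)).exp
    have h2 : HasDerivAt F (0 - Real.exp (-0) * (-1)) 0 :=
      (hasDerivAt_const (0 : ℝ) (1 : ℝ)).sub h1
    rw [h2.deriv]
    simp
  set φ : ℝ → ℝ := dslope F 0 with hφ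
  have hφan : AnalyticAt ℝ φ 0 := bern_dslope_analytic hFan
  have hφ0 : φ 0 = 1 := by rw [hφ, dslope_same, hder]
  set G : ℝ → ℝ := fun u => (φ u)⁻¹ with hG
  have hGan : AnalyticAt ℝ G 0 := hφan.inv (by rw [hφ0]; norm_num)
  refine ⟨dslope G 0, bern_dslope_analytic hGan, fun u hu => ?_⟩
  have hu' : u ≠ 0 := hu.ne'
  have hφu : φ u = F u / u := by
    rw [hφ, dslope_of_ne _ hu', slope_def_field, hF0]
    simp
  have hFu : F u ≠ 0 := by
    have h1 : Real.exp (-u) < 1 := by
      rw [Real.exp_lt_one_iff]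
      linarith
    simp only [hF]
    linarith
  rw [dslope_of_ne _ hu', slope_def_field]
  simp only [hG, hφ0, hφu, sub_zero, inv_div, inv_one]
  change (u / F u - 1) / u = 1 / F u - 1 / u
  field_simp

theorem exists_bern (J : ℕ) : ∃ (c : ℕ → ℝ) (C : ℝ), ∀ u : ℝ, 0 < u →
    |1 / (1 - Real.exp (-u)) - 1 / u - ∑ j ∈ Finset.range J, c j * u ^ j| ≤ C * u ^ J := by
  obtain ⟨H, hH, hHu⟩ := bern_analytic
  obtain ⟨p, hp⟩ := hH
  have hO := hp.isBigO_sub_partialSum_pow J
  obtain ⟨C1, hC1⟩ := hO.bound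
  obtain ⟨δ, hδ, hball⟩ := Metric.eventually_nhds_iff.mp hC1
  have hsum : ∀ u : ℝ, p.partialSum J u = ∑ j ∈ Finset.range J, p.coeff j * u ^ j := by
    intro u
    rw [FormalMultilinearSeries.partialSum]
    refine Finset.sum_congr rfl fun j _ => ?_
    rw [FormalMultilinearSeries.apply_eq_pow_smul_coeff, smul_eq_mul, mul_comm]
  set η : ℝ := δ / 2 with hη
  have hηpos : 0 < η := by positivity
  have hFη : 0 < 1 - Real.exp (-η) := by
    have h1 : Real.exp (-η) < 1 := by
      rw [Real.exp_lt_one_iff]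
      linarith
    linarith
  set K : ℝ := (1 / (1 - Real.exp (-η)) + 1 / η) / η ^ J +
    ∑ j ∈ Finset.range J, |p.coeff j| / η ^ (J - j) with hK
  refine ⟨fun j => p.coeff j, |C1| + K, fun u hu => ?_⟩
  have hKnn : 0 ≤ K := by
    have h1 : 0 ≤ ∑ j ∈ Finset.range J, |p.coeff j| / η ^ (J - j) :=
      Finset.sum_nonneg fun j _ => by positivity
    have h2 : 0 ≤ (1 / (1 - Real.exp (-η)) + 1 / η) / η ^ J := by positivity
    linarith
  have huJ : 0 < u ^ J := by positivity
  rcases lt_or_ge u δ with hlt | hge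
  · have h1 := hball (y := u) (by rw [Real.dist_eq, sub_zero, abs_of_pos hu]; exact hlt)
    rw [zero_add, hsum, hHu u hu, Real.norm_eq_abs, Real.norm_eq_abs, Real.norm_eq_abs,
      abs_of_pos hu, abs_of_pos huJ] at h1
    calc _ ≤ C1 * u ^ J := h1
      _ ≤ |C1| * u ^ J := by
          exact mul_le_mul_of_nonneg_right (le_abs_self _) huJ.le
      _ ≤ (|C1| + K) * u ^ J := by
          exact mul_le_mul_of_nonneg_right (by linarith) huJ.le
  · have hηu : η ≤ u := by linarith
    have hFu : 1 - Real.exp (-η) ≤ 1 - Real.exp (-u) := by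
      have h1 : Real.exp (-u) ≤ Real.exp (-η) := Real.exp_le_exp.mpr (by linarith)
      linarith
    have hratio : 1 ≤ u ^ J / η ^ J := by
      rw [le_div_iff₀ (by positivity), one_mul]
      exact pow_le_pow_left₀ hηpos.le hηu J
    have b1 : |1 / (1 - Real.exp (-u)) - 1 / u| ≤
        (1 / (1 - Real.exp (-η)) + 1 / η) / η ^ J * u ^ J := by
      have h1 : 0 ≤ 1 / (1 - Real.exp (-u)) := by
        have : 0 < 1 - Real.exp (-u) := by linarith
        positivity
      have h2 : 1 / (1 - Real.exp (-u)) ≤ 1 / (1 - Real.exp (-η)) :=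
        one_div_le_one_div_of_le hFη hFu
      have h3 : 0 ≤ 1 / u := by positivity
      have h4 : 1 / u ≤ 1 / η := one_div_le_one_div_of_le hηpos hηu
      have h5 : |1 / (1 - Real.exp (-u)) - 1 / u| ≤ 1 / (1 - Real.exp (-η)) + 1 / η := by
        rw [abs_le]
        constructor <;> linarith
      have h6 : 0 ≤ 1 / (1 - Real.exp (-η)) + 1 / η := by positivity
      calc _ ≤ (1 / (1 - Real.exp (-η)) + 1 / η) * 1 := by rw [mul_one]; exact h5
        _ ≤ (1 / (1 - Real.exp (-η)) + 1 / η) * (u ^ J / η ^ J) :=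
            mul_le_mul_of_nonneg_left hratio h6
        _ = _ := by ring
    have b2 : |∑ j ∈ Finset.range J, p.coeff j * u ^ j| ≤
        (∑ j ∈ Finset.range J, |p.coeff j| / η ^ (J - j)) * u ^ J := by
      rw [Finset.sum_mul]
      refine (Finset.abs_sum_le_sum_abs _ _).trans (Finset.sum_le_sum fun j hj => ?_)
      have hjJ : j < J := Finset.mem_range.mp hj
      rw [abs_mul, abs_of_pos (show (0:ℝ) < u ^ j by positivity)]
      have h1 : u ^ J = u ^ (J - j) * u ^ j := by
        rw [← pow_add]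
        congr 1
        omega
      have h2 : 1 ≤ u ^ (J - j) / η ^ (J - j) := by
        rw [le_div_iff₀ (by positivity), one_mul]
        exact pow_le_pow_left₀ hηpos.le hηu _
      calc |p.coeff j| * u ^ j = |p.coeff j| * u ^ j * 1 := by ring
        _ ≤ |p.coeff j| * u ^ j * (u ^ (J - j) / η ^ (J - j)) :=
            mul_le_mul_of_nonneg_left h2 (by positivity)
        _ = |p.coeff j| / η ^ (J - j) * (u ^ (J - j) * u ^ j) := by ring
        _ = _ := by rw [h1]
    have h3 : |1 / (1 - Real.exp (-u)) - 1 / u - ∑ j ∈ Finset.range J, p.coeff j * u ^ j| ≤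
        |1 / (1 - Real.exp (-u)) - 1 / u| + |∑ j ∈ Finset.range J, p.coeff j * u ^ j| := by
      exact abs_sub _ _
    have h4 : 0 ≤ |C1| * u ^ J := by positivity
    calc _ ≤ _ := h3
      _ ≤ K * u ^ J := by
          rw [hK, add_mul]
          exact add_le_add b1 b2
      _ ≤ (|C1| + K) * u ^ J := by
          rw [add_mul]
          linarith

end Pool.Agent.Lib.MP_8ce23f_nt.R2
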