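import Pool.Agent.Lib.MP_8ce23f_nt.R2.Defs

/-!
# The system satisfied by the top symbols

`Sys a h d β₁ β₂ D₁ D₂ U₁ U₂`: `(A + D) U = β`, `D_i' = D_i (1 + D_i) U_i`, `D_i(0) = δ_i > 0`.

Job ClassBase: basic lemmas.
`transcend`: if `p(Y) = 0` with `p ≠ 0` then over the algebraically closed field `ℂ`, `p` splits,
some factor `Y - r = 0` (`ℂ⟦X⟧` is a domain), so `Y = C r`.
`wronskian`: differentiate `(A + D) U = β`, multiply by `U` from the left: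
`∑ D_i' U_i² + U·((A+D) U') = 0`, `U·(A+D) U' = β·U' = (β·U)' = 0`.
-/

open Filter Topology
open scoped Real

namespace Pool.Agent.Lib.MP_8ce23f_nt.R2

/-- The system for the top symbols. -/
structure Sys (a h d : ℝ) (β₁ β₂ : ℂ) (D₁ D₂ U₁ U₂ : PowerSeries ℂ) (δ₁ δ₂ : ℝ) : Prop where
  δ₁_pos : 0 < δ₁
  δ₂_pos : 0 < δ₂
  hD₁ : PowerSeries.constantCoeff D₁ = (δ₁ : ℂ)
  hD₂ : PowerSeries.constantCoeff D₂ = (δ₂ : ℂ)
  e₁ : (PowerSeries.C (a : ℂ) + D₁) * U₁ + PowerSeries.C (h : ℂ) * U₂ = PowerSeries.C β₁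
  e₂ : PowerSeries.C (h : ℂ) * U₁ + (PowerSeries.C (d : ℂ) + D₂) * U₂ = PowerSeries.C β₂
  d₁ : PowerSeries.derivative ℂ D₁ = D₁ * (1 + D₁) * U₁
  d₂ : PowerSeries.derivative ℂ D₂ = D₂ * (1 + D₂) * U₂

/-- A nonconstant power series is transcendental over the constants. -/
theorem transcend {Y : PowerSeries ℂ} (hY : ∀ r : ℂ, Y ≠ PowerSeries.C r) {p : Polynomial ℂ}
    (hp : Polynomial.eval₂ (PowerSeries.C (R := ℂ)) Y p = 0) : p = 0 := by
  by_contra hne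
  have hs : p.Splits := IsAlgClosed.splits p
  rw [hs.eq_prod_roots, Polynomial.eval₂_mul, Polynomial.eval₂_C,
    Polynomial.eval₂_multiset_prod] at hp
  rcases mul_eq_zero.mp hp with h | h
  · have h2 := PowerSeries.C_injective (R := ℂ) (a₁ := p.leadingCoeff) (a₂ := 0) (by rw [h, map_zero])
    exact hne (Polynomial.leadingCoeff_eq_zero.mp h2)
  · rw [Multiset.prod_eq_zero_iff] at h
    simp only [Multiset.map_map, Multiset.mem_map, Function.comp_apply] at h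
    obtain ⟨r, _, hr⟩ := h
    rw [Polynomial.eval₂_sub, Polynomial.eval₂_X, Polynomial.eval₂_C, sub_eq_zero] at hr
    exact hY r hr

theorem derivative_eq_zero {Y : PowerSeries ℂ} (h : PowerSeries.derivative ℂ Y = 0) :
    Y = PowerSeries.C (PowerSeries.constantCoeff Y) := by
  apply PowerSeries.derivative.ext
  · rw [h, PowerSeries.derivative_C]
  · simp

variable {a h d : ℝ} {β₁ β₂ : ℂ} {D₁ D₂ U₁ U₂ : PowerSeries ℂ} {δ₁ δ₂ : ℝ}

theorem Sys.D_ne_zero (S : Sys a h d β₁ β₂ D₁ D₂ U₁ U₂ δ₁ δ₂) :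
    D₁ ≠ 0 ∧ D₂ ≠ 0 ∧ 1 + D₁ ≠ 0 ∧ 1 + D₂ ≠ 0 := by
  have h1 := S.δ₁_pos
  have h2 := S.δ₂_pos
  have e1 := S.hD₁
  have e2 := S.hD₂
  refine ⟨?_, ?_, ?_, ?_⟩
  · intro h
    rw [h, map_zero] at e1
    have : (δ₁ : ℝ) = 0 := by exact_mod_cast e1.symm
    linarith
  · intro h
    rw [h, map_zero] at e2
    have : (δ₂ : ℝ) = 0 := by exact_mod_cast e2.symm
    linarith
  · intro h
    have h' := congrArg (PowerSeries.constantCoeff (R := ℂ)) h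
    rw [map_add, map_one, map_zero, e1] at h'
    have : (1 + δ₁ : ℝ) = 0 := by exact_mod_cast h'
    linarith
  · intro h
    have h' := congrArg (PowerSeries.constantCoeff (R := ℂ)) h
    rw [map_add, map_one, map_zero, e2] at h'
    have : (1 + δ₂ : ℝ) = 0 := by exact_mod_cast h'
    linarith

/-- If `D₁` is constant then `U₁ = 0`. -/
theorem Sys.D₁_nonconst (S : Sys a h d β₁ β₂ D₁ D₂ U₁ U₂ δ₁ δ₂) (hU : U₁ ≠ 0) (r : ℂ) :
    D₁ ≠ PowerSeries.C r := by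
  intro hr
  obtain ⟨n1, _, n3, _⟩ := S.D_ne_zero
  have e := S.d₁
  have e' : PowerSeries.derivative ℂ D₁ = 0 := by rw [hr, PowerSeries.derivative_C]
  rw [e'] at e
  exact (mul_ne_zero (mul_ne_zero n1 n3) hU) e.symm

theorem Sys.D₂_nonconst (S : Sys a h d β₁ β₂ D₁ D₂ U₁ U₂ δ₁ δ₂) (hU : U₂ ≠ 0) (r : ℂ) :
    D₂ ≠ PowerSeries.C r := by
  intro hr
  obtain ⟨_, n2, _, n4⟩ := S.D_ne_zero
  have e := S.d₂
  have e' : PowerSeries.derivative ℂ D₂ = 0 := by rw [hr, PowerSeries.derivative_C]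
  rw [e'] at e
  exact (mul_ne_zero (mul_ne_zero n2 n4) hU) e.symm

/-- `β ≠ 0` implies `U ≠ 0`. -/
theorem Sys.U_ne_zero (S : Sys a h d β₁ β₂ D₁ D₂ U₁ U₂ δ₁ δ₂) (hβ : ¬(β₁ = 0 ∧ β₂ = 0)) :
    ¬(U₁ = 0 ∧ U₂ = 0) := by
  rintro ⟨h1, h2⟩
  apply hβ
  have e1 := S.e₁
  have e2 := S.e₂
  rw [h1, h2, mul_zero, mul_zero, add_zero] at e1 e2
  exact ⟨PowerSeries.C_injective (by rw [← e1, map_zero]),
    PowerSeries.C_injective (by rw [← e2, map_zero])⟩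

theorem Sys.wronskian (S : Sys a h d β₁ β₂ D₁ D₂ U₁ U₂ δ₁ δ₂) {c : ℂ}
    (hc : PowerSeries.C β₁ * U₁ + PowerSeries.C β₂ * U₂ = PowerSeries.C c) :
    D₁ * (1 + D₁) * U₁ ^ 3 + D₂ * (1 + D₂) * U₂ ^ 3 = 0 := by
  have E1 := S.e₁
  have E2 := S.e₂
  have e1 := congrArg (PowerSeries.derivative ℂ) S.e₁
  have e2 := congrArg (PowerSeries.derivative ℂ) S.e₂
  have e3 := congrArg (PowerSeries.derivative ℂ) hc
  simp only [map_add, Derivation.leibniz, PowerSeries.derivative_C, smul_eq_mul, mul_zero,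
    add_zero, zero_add] at e1 e2 e3
  rw [S.d₁] at e1
  rw [S.d₂] at e2
  linear_combination U₁ * e1 + U₂ * e2 - e3 -
    (PowerSeries.derivative ℂ U₁) * E1 - (PowerSeries.derivative ℂ U₂) * E2

end Pool.Agent.Lib.MP_8ce23f_nt.R2
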