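import Pool.Agent.Lib.MP_8ce23f_nt.R2.ClassBase

/-!
# The case `β·U` a nonzero constant

Job ClassNZ.  Put `p = a - β₁²/c`, `s = h - β₁β₂/c`, `r = d - β₂²/c` (complex numbers).  Since
`β_i = β_i (β·U)/c`: `(p + D₁) U₁ + s U₂ = 0`, `s U₁ + (r + D₂) U₂ = 0`.
* `s = 0`: if `U₁ ≠ 0` then `D₁ = -p` constant, contradiction (`D₁_nonconst`); so `U₁ = 0`, similarly
  `U₂ = 0`, contradiction with `U_ne_zero`.
* `s ≠ 0`: `U₂ = -(p + D₁) U₁/s`, so `U₁ ≠ 0`, `(p+D₁)(r+D₂) = s²` and by `wronskian`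
  `s³ D₁ (1+D₁) = (p+D₁)³ D₂ (1+D₂)`; multiply out with `D₂ (p+D₁) = s² - r (p+D₁)`:
  `s³ D₁(1+D₁) = (p+D₁)(s² - r(p+D₁))(s² + (1-r)(p+D₁))`.  `D₁` is nonconstant, so by `transcend`
  this is a polynomial identity in `z`.  `z³`: `r (1-r) = 0`.
  `r = 0`: `s z (1+z) = (p+z)(s²+p+z)` (after dividing by `s²`), so `s = 1`, `p = 0`.
  `r = 1`: `s z(1+z) = (p+z)(s²-p-z)`, so `s = -1`, `p = 1`, and `(1+D₁)(1+D₂) = 1`, contradiction
  with `δ₁, δ₂ > 0`.
So `p = 0, s = 1, r = 0`: `a = β₁²/c`, `h = 1 + β₁β₂/c`, `d = β₂²/c`, `D₁ D₂ = 1`,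
`(1-h)² = a d`, and `a d > h²` gives `(1-h)² > h²`, `h < 1/2`.
-/

open Filter Topology
open scoped Real

namespace Pool.Agent.Lib.MP_8ce23f_nt.R2

variable {a h d : ℝ} {β₁ β₂ : ℂ} {D₁ D₂ U₁ U₂ : PowerSeries ℂ} {δ₁ δ₂ : ℝ}

/-- The polynomial identity in the constants. -/
theorem classnz_poly {p s r : ℂ} {D : PowerSeries ℂ} (hD : ∀ x : ℂ, D ≠ PowerSeries.C x)
    (h : PowerSeries.C (s ^ 3) * D * (1 + D) =
      (PowerSeries.C p + D) * (PowerSeries.C (s ^ 2) - PowerSeries.C r * (PowerSeries.C p + D)) *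
      (PowerSeries.C (s ^ 2) + PowerSeries.C (1 - r) * (PowerSeries.C p + D))) (z : ℂ) :
    s ^ 3 * z * (1 + z) = (p + z) * (s ^ 2 - r * (p + z)) * (s ^ 2 + (1 - r) * (p + z)) := by
  have key := transcend hD (p := Polynomial.C (s ^ 3) * Polynomial.X * (1 + Polynomial.X) -
    (Polynomial.C p + Polynomial.X) *
      (Polynomial.C (s ^ 2) - Polynomial.C r * (Polynomial.C p + Polynomial.X)) *
      (Polynomial.C (s ^ 2) + Polynomial.C (1 - r) * (Polynomial.C p + Polynomial.X))) (by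
    simp only [Polynomial.eval₂_sub, Polynomial.eval₂_mul, Polynomial.eval₂_add,
      Polynomial.eval₂_C, Polynomial.eval₂_X, Polynomial.eval₂_one]
    rw [h, sub_self])
  have h2 := congrArg (Polynomial.eval z) key
  simp only [Polynomial.eval_sub, Polynomial.eval_mul, Polynomial.eval_add,
      Polynomial.eval_C, Polynomial.eval_X, Polynomial.eval_one, Polynomial.eval_zero] at h2
  exact sub_eq_zero.mp h2

/-- Solution of the equations for the constants. -/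
theorem classnz_solve {p s r : ℂ} (hs : s ≠ 0)
    (h : ∀ z : ℂ, s ^ 3 * z * (1 + z) =
      (p + z) * (s ^ 2 - r * (p + z)) * (s ^ 2 + (1 - r) * (p + z))) :
    (p = 0 ∧ s = 1 ∧ r = 0) ∨ (p = 1 ∧ s = -1 ∧ r = 1) := by
  have h0 := h 0
  have h1 := h 1
  have h2 := h 2
  have h3 := h 3
  have hm := h (-1)
  have hr : r * (1 - r) = 0 := by
    linear_combination (1 / 6 : ℂ) * (h3 - 3 * h2 + 3 * h1 - h0)
  rcases mul_eq_zero.mp hr with hr | hr
  · left
    subst hr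
    have hs2 : s ^ 2 * (s - 1) = 0 := by
      linear_combination (1 / 2 : ℂ) * (h2 - 2 * h1 + h0)
    have hs1 : s = 1 := by
      rcases mul_eq_zero.mp hs2 with h | h
      · exact absurd (pow_eq_zero_iff (two_ne_zero)|>.mp h) hs
      · exact sub_eq_zero.mp h
    subst hs1
    refine ⟨?_, rfl, rfl⟩
    linear_combination (1 / 2 : ℂ) * (hm - h0)
  · right
    have hr1 : r = 1 := (sub_eq_zero.mp hr).symm
    subst hr1
    have hs2 : s ^ 2 * (s + 1) = 0 := by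
      linear_combination (1 / 2 : ℂ) * (h2 - 2 * h1 + h0)
    have hs1 : s = -1 := by
      rcases mul_eq_zero.mp hs2 with h | h
      · exact absurd (pow_eq_zero_iff (two_ne_zero)|>.mp h) hs
      · exact eq_neg_of_add_eq_zero_left h
    subst hs1
    refine ⟨?_, rfl, rfl⟩
    linear_combination (1 / 2 : ℂ) * (h0 - hm)

theorem Sys.classify_of_ne_zero (hA : PD a h d) (S : Sys a h d β₁ β₂ D₁ D₂ U₁ U₂ δ₁ δ₂)
    (hβ : ¬(β₁ = 0 ∧ β₂ = 0)) {c : ℂ} (hc0 : c ≠ 0)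
    (hc : PowerSeries.C β₁ * U₁ + PowerSeries.C β₂ * U₂ = PowerSeries.C c) :
    (1 - h) ^ 2 = a * d ∧ 0 < 1 - h ∧ (1 - h : ℂ) * β₁ + a * β₂ = 0 ∧ D₁ * D₂ = 1 := by
  obtain ⟨p, hp⟩ : ∃ p : ℂ, p = a - β₁ ^ 2 / c := ⟨_, rfl⟩
  obtain ⟨s, hs⟩ : ∃ s : ℂ, s = h - β₁ * β₂ / c := ⟨_, rfl⟩
  obtain ⟨r, hr⟩ : ∃ r : ℂ, r = d - β₂ ^ 2 / c := ⟨_, rfl⟩
  have k1 : PowerSeries.C β₁ =
      PowerSeries.C (β₁ / c) * (PowerSeries.C β₁ * U₁ + PowerSeries.C β₂ * U₂) := by
    rw [hc, ← map_mul, div_mul_cancel₀ _ hc0]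
  have k2 : PowerSeries.C β₂ =
      PowerSeries.C (β₂ / c) * (PowerSeries.C β₁ * U₁ + PowerSeries.C β₂ * U₂) := by
    rw [hc, ← map_mul, div_mul_cancel₀ _ hc0]
  have hpC : PowerSeries.C (R := ℂ) p = PowerSeries.C (a : ℂ) -
      PowerSeries.C (β₁ / c) * PowerSeries.C β₁ := by
    rw [hp, ← map_mul, ← map_sub]; congr 1; ring
  have hsC : PowerSeries.C (R := ℂ) s = PowerSeries.C (h : ℂ) -
      PowerSeries.C (β₁ / c) * PowerSeries.C β₂ := by
    rw [hs, ← map_mul, ← map_sub]; congr 1; ring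
  have hsC' : PowerSeries.C (R := ℂ) s = PowerSeries.C (h : ℂ) -
      PowerSeries.C (β₂ / c) * PowerSeries.C β₁ := by
    rw [hs, ← map_mul, ← map_sub]; congr 1; ring
  have hrC : PowerSeries.C (R := ℂ) r = PowerSeries.C (d : ℂ) -
      PowerSeries.C (β₂ / c) * PowerSeries.C β₂ := by
    rw [hr, ← map_mul, ← map_sub]; congr 1; ring
  have E1 : (PowerSeries.C p + D₁) * U₁ + PowerSeries.C s * U₂ = 0 := by
    rw [hpC, hsC]
    linear_combination S.e₁ + k1
  have E2 : PowerSeries.C s * U₁ + (PowerSeries.C r + D₂) * U₂ = 0 := by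
    rw [hrC, hsC']
    linear_combination S.e₂ + k2
  have W := S.wronskian hc
  have hU := S.U_ne_zero hβ
  have hs0 : s ≠ 0 := by
    intro h0
    rw [h0, map_zero, zero_mul, add_zero] at E1
    rw [h0, map_zero, zero_mul, zero_add] at E2
    apply hU
    constructor
    · by_contra hU1
      rcases mul_eq_zero.mp E1 with e | e
      · apply S.D₁_nonconst hU1 (-p)
        rw [map_neg]
        exact eq_neg_of_add_eq_zero_right e
      · exact hU1 e
    · by_contra hU2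
      rcases mul_eq_zero.mp E2 with e | e
      · apply S.D₂_nonconst hU2 (-r)
        rw [map_neg]
        exact eq_neg_of_add_eq_zero_right e
      · exact hU2 e
  have hCs : PowerSeries.C (R := ℂ) s ≠ 0 := by
    intro e
    exact hs0 (PowerSeries.C_injective (by rw [e, map_zero]))
  have hU1 : U₁ ≠ 0 := by
    intro e
    apply hU
    refine ⟨e, ?_⟩
    rw [e, mul_zero, zero_add] at E1
    exact (mul_eq_zero.mp E1).resolve_left hCs
  have P1 : (PowerSeries.C p + D₁) * (PowerSeries.C r + D₂) = PowerSeries.C (s ^ 2) := by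
    have e : U₁ * ((PowerSeries.C p + D₁) * (PowerSeries.C r + D₂) - PowerSeries.C (s ^ 2)) = 0 := by
      rw [map_pow]
      linear_combination (PowerSeries.C r + D₂) * E1 - PowerSeries.C s * E2
    exact sub_eq_zero.mp ((mul_eq_zero.mp e).resolve_left hU1)
  have P2 : PowerSeries.C (s ^ 3) * D₁ * (1 + D₁) =
      (PowerSeries.C p + D₁) ^ 3 * (D₂ * (1 + D₂)) := by
    have e : U₁ ^ 3 * (PowerSeries.C (s ^ 3) * D₁ * (1 + D₁) -
      (PowerSeries.C p + D₁) ^ 3 * (D₂ * (1 + D₂))) = 0 := by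
      rw [map_pow]
      have e2 : (PowerSeries.C s * U₂) ^ 3 = - ((PowerSeries.C p + D₁) * U₁) ^ 3 := by
        rw [show PowerSeries.C s * U₂ = - ((PowerSeries.C p + D₁) * U₁) from
          eq_neg_of_add_eq_zero_right E1]
        ring
      linear_combination PowerSeries.C s ^ 3 * W - D₂ * (1 + D₂) * e2
    exact sub_eq_zero.mp ((mul_eq_zero.mp e).resolve_left (pow_ne_zero 3 hU1))
  have P3 : PowerSeries.C (s ^ 3) * D₁ * (1 + D₁) =
      (PowerSeries.C p + D₁) * (PowerSeries.C (s ^ 2) - PowerSeries.C r * (PowerSeries.C p + D₁)) *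
      (PowerSeries.C (s ^ 2) + PowerSeries.C (1 - r) * (PowerSeries.C p + D₁)) := by
    rw [P2, ← P1, map_sub, map_one]
    ring
  have P4 := classnz_poly (S.D₁_nonconst hU1) P3
  rcases classnz_solve hs0 P4 with ⟨hp0, hs1, hr0⟩ | ⟨hp0, hs1, hr0⟩
  · rw [hp0] at hp
    rw [hs1] at hs
    rw [hr0] at hr
    have ha : (a : ℂ) = β₁ ^ 2 / c := (sub_eq_zero.mp hp.symm)
    have hd : (d : ℂ) = β₂ ^ 2 / c := (sub_eq_zero.mp hr.symm)
    have hh : (1 - h : ℂ) = - (β₁ * β₂ / c) := by linear_combination hs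
    have hsq : (1 - h) ^ 2 = a * d := by
      have : ((1 - h : ℂ)) ^ 2 = a * d := by
        rw [hh, ha, hd]; ring
      exact_mod_cast this
    refine ⟨hsq, ?_, ?_, ?_⟩
    · have := hA.hdet
      nlinarith
    · rw [hh, ha]; ring
    · rw [hp0, hs1, hr0, map_zero, zero_add, zero_add, one_pow, map_one] at P1
      exact P1
  · exfalso
    rw [hp0, hs1, hr0] at P1
    have h' := congrArg (PowerSeries.constantCoeff (R := ℂ)) P1
    simp only [map_mul, map_add, PowerSeries.constantCoeff_C, S.hD₁, S.hD₂] at h'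
    have h'' : (1 + δ₁) * (1 + δ₂) = 1 := by
      have : ((1 : ℂ) + δ₁) * (1 + δ₂) = 1 := by
        rw [h']; norm_num
      exact_mod_cast this
    have h1 := S.δ₁_pos
    have h2 := S.δ₂_pos
    nlinarith [mul_pos h1 h2]

end Pool.Agent.Lib.MP_8ce23f_nt.R2
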