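import Pool.Agent.Lib.MP_8ce23f_nt.R2.ClassBase

/-!
# The case `β·U = 0` is impossible

Job ClassZero.  Suppose `β₁ U₁ + β₂ U₂ = 0`, `β ≠ 0`.  Then `U₁ = β₂ u`, `U₂ = -β₁ u` for a power
series `u ≠ 0`.  `wronskian` (with `c = 0`): `D₁(1+D₁) β₂³ = D₂(1+D₂) β₁³`; so `β₁, β₂ ≠ 0`
(otherwise `D₁(1+D₁) = 0` or `D₂ (1+D₂) = 0`).  From `e₁, e₂`: `u ((a+D₁)β₂ - h β₁) = β₁`,
`u (h β₂ - (d+D₂) β₁) = β₂`, so `((a+D₁)β₂ - h β₁) β₂ = (h β₂ - (d+D₂) β₁) β₁`, i.e.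
`K + D₁ β₂² + D₂ β₁² = 0`, `K = a β₂² - 2 h β₁ β₂ + d β₁²`.  Substitute
`D₂ = -(K + D₁ β₂²)/β₁²` in the first relation: with `z = D₁` (nonconstant, `transcend`) the
polynomial identity `β₂³ z (1+z) β₁ = -(K + z β₂²)(β₁² - K - z β₂²)`.  Coefficient of `z²`:
`β₁ = β₂`; coefficient of `z`: `K = β₁²`.  Then `D₂ = -1 - D₁`, and the constant coefficients
`δ₂ = -1 - δ₁ < 0` contradict `δ₂ > 0`.
-/

open Filter Topology
open scoped Real

namespace Pool.Agent.Lib.MP_8ce23f_nt.R2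

variable {a h d : ℝ} {β₁ β₂ : ℂ} {D₁ D₂ U₁ U₂ : PowerSeries ℂ} {δ₁ δ₂ : ℝ}

theorem Sys.c_ne_zero (S : Sys a h d β₁ β₂ D₁ D₂ U₁ U₂ δ₁ δ₂) (hβ : ¬(β₁ = 0 ∧ β₂ = 0)) :
    PowerSeries.C β₁ * U₁ + PowerSeries.C β₂ * U₂ ≠ 0 := by
  intro H
  have hU := S.U_ne_zero hβ
  obtain ⟨hD1, hD2, hD1', hD2'⟩ := S.D_ne_zero
  have hW := S.wronskian (c := 0) (by rw [H, map_zero])
  have Cinj : ∀ z : ℂ, (PowerSeries.C z : PowerSeries ℂ) = 0 → z = 0 := by
    intro z hz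
    have := congrArg PowerSeries.constantCoeff hz
    simpa using this
  have Cne : ∀ z : ℂ, z ≠ 0 → (PowerSeries.C z : PowerSeries ℂ) ≠ 0 :=
    fun z hz h0 => hz (Cinj z h0)
  -- `β₁ ≠ 0`
  have hβ1 : β₁ ≠ 0 := by
    intro h0
    have hβ2 : β₂ ≠ 0 := fun h2 => hβ ⟨h0, h2⟩
    rw [h0, map_zero, zero_mul, zero_add] at H
    have hU2 : U₂ = 0 := (mul_eq_zero.1 H).resolve_left (Cne _ hβ2)
    rw [hU2] at hW
    have hU1 : U₁ = 0 := by
      have h1 : D₁ * (1 + D₁) * U₁ ^ 3 = 0 := by simpa using hW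
      have h2 := (mul_eq_zero.1 h1).resolve_left (mul_ne_zero hD1 hD1')
      exact pow_eq_zero_iff (by norm_num) |>.1 h2
    exact hU ⟨hU1, hU2⟩
  have hβ2 : β₂ ≠ 0 := by
    intro h0
    rw [h0, map_zero, zero_mul, add_zero] at H
    have hU1 : U₁ = 0 := (mul_eq_zero.1 H).resolve_left (Cne _ hβ1)
    rw [hU1] at hW
    have hU2 : U₂ = 0 := by
      have h1 : D₂ * (1 + D₂) * U₂ ^ 3 = 0 := by simpa using hW
      have h2 := (mul_eq_zero.1 h1).resolve_left (mul_ne_zero hD2 hD2')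
      exact pow_eq_zero_iff (by norm_num) |>.1 h2
    exact hU ⟨hU1, hU2⟩
  -- the series `u`
  obtain ⟨u, hu⟩ : ∃ u : PowerSeries ℂ, U₁ = PowerSeries.C β₂ * u := by
    refine ⟨PowerSeries.C β₂⁻¹ * U₁, ?_⟩
    rw [← mul_assoc, ← map_mul, mul_inv_cancel₀ hβ2, map_one, one_mul]
  have hu2 : U₂ = -(PowerSeries.C β₁ * u) := by
    have h1 : PowerSeries.C β₂ * (U₂ + PowerSeries.C β₁ * u) = 0 := by
      rw [hu] at H
      linear_combination H
    have h2 := (mul_eq_zero.1 h1).resolve_left (Cne _ hβ2)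
    linear_combination h2
  have hu0 : u ≠ 0 := by
    intro h0
    exact hU ⟨by rw [hu, h0, mul_zero], by rw [hu2, h0, mul_zero, neg_zero]⟩
  have hU1 : U₁ ≠ 0 := by
    rw [hu]; exact mul_ne_zero (Cne _ hβ2) hu0
  -- the first relation
  have hR1 : D₁ * (1 + D₁) * PowerSeries.C β₂ ^ 3 - D₂ * (1 + D₂) * PowerSeries.C β₁ ^ 3 = 0 := by
    have h1 : (D₁ * (1 + D₁) * PowerSeries.C β₂ ^ 3 - D₂ * (1 + D₂) * PowerSeries.C β₁ ^ 3) *
        u ^ 3 = 0 := by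
      rw [hu, hu2] at hW
      linear_combination hW
    exact (mul_eq_zero.1 h1).resolve_right (pow_ne_zero _ hu0)
  -- the second relation
  set K : ℂ := a * β₂ ^ 2 - 2 * h * β₁ * β₂ + d * β₁ ^ 2 with hK
  have hKC : (PowerSeries.C K : PowerSeries ℂ) = PowerSeries.C (a : ℂ) * PowerSeries.C β₂ ^ 2 -
      2 * PowerSeries.C (h : ℂ) * PowerSeries.C β₁ * PowerSeries.C β₂ +
      PowerSeries.C (d : ℂ) * PowerSeries.C β₁ ^ 2 := by
    rw [hK]
    simp only [map_add, map_sub, map_mul, map_pow, map_ofNat]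
  have hR2 : PowerSeries.C K + D₁ * PowerSeries.C β₂ ^ 2 + D₂ * PowerSeries.C β₁ ^ 2 = 0 := by
    have h1 : (PowerSeries.C K + D₁ * PowerSeries.C β₂ ^ 2 + D₂ * PowerSeries.C β₁ ^ 2) *
        u = 0 := by
      have e1 := S.e₁
      have e2 := S.e₂
      rw [hu, hu2] at e1 e2
      rw [hKC]
      linear_combination PowerSeries.C β₂ * e1 - PowerSeries.C β₁ * e2
    exact (mul_eq_zero.1 h1).resolve_right hu0
  -- the polynomial
  set c2 : ℂ := β₁ * β₂ ^ 3 - β₂ ^ 4 with hc2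
  set c1 : ℂ := β₁ * β₂ ^ 3 + β₂ ^ 2 * (β₁ ^ 2 - K) - K * β₂ ^ 2 with hc1
  set c0 : ℂ := K * (β₁ ^ 2 - K) with hc0
  have hp0 : (Polynomial.C c2 * Polynomial.X ^ 2 + Polynomial.C c1 * Polynomial.X +
      Polynomial.C c0 : Polynomial ℂ) = 0 := by
    refine transcend (Y := D₁) (S.D₁_nonconst hU1) ?_
    simp only [Polynomial.eval₂_add, Polynomial.eval₂_mul, Polynomial.eval₂_C,
      Polynomial.eval₂_pow, Polynomial.eval₂_X]
    rw [hc2, hc1, hc0]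
    simp only [map_add, map_sub, map_mul, map_pow]
    linear_combination PowerSeries.C β₁ * hR1 +
      (D₂ * PowerSeries.C β₁ ^ 2 + PowerSeries.C β₁ ^ 2 - PowerSeries.C K -
        D₁ * PowerSeries.C β₂ ^ 2) * hR2
  have k2 : c2 = 0 := by
    have := congrArg (fun q : Polynomial ℂ => q.coeff 2) hp0
    simpa [Polynomial.coeff_X, Polynomial.coeff_C] using this
  have k1 : c1 = 0 := by
    have := congrArg (fun q : Polynomial ℂ => q.coeff 1) hp0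
    simpa [Polynomial.coeff_X_pow, Polynomial.coeff_C] using this
  have h12 : β₁ = β₂ := by
    have : β₂ ^ 3 * (β₁ - β₂) = 0 := by rw [← k2, hc2]; ring
    have h3 := (mul_eq_zero.1 this).resolve_left (pow_ne_zero _ hβ2)
    linear_combination h3
  have hKβ : K = β₁ ^ 2 := by
    have : β₂ ^ 2 * (2 * (β₁ ^ 2 - K)) = 0 := by
      rw [← k1, hc1, h12]; ring
    have h3 := (mul_eq_zero.1 this).resolve_left (pow_ne_zero _ hβ2)
    have h4 := (mul_eq_zero.1 h3).resolve_left two_ne_zero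
    linear_combination -h4
  have hfin : (1 : PowerSeries ℂ) + D₁ + D₂ = 0 := by
    have h1 : (1 + D₁ + D₂) * PowerSeries.C β₁ ^ 2 = 0 := by
      rw [hKβ, ← h12, map_pow] at hR2
      linear_combination hR2
    exact (mul_eq_zero.1 h1).resolve_right (pow_ne_zero _ (Cne _ hβ1))
  have hconst := congrArg PowerSeries.constantCoeff hfin
  rw [map_add, map_add, S.hD₁, S.hD₂, map_one, map_zero] at hconst
  have hre : (1 : ℝ) + δ₁ + δ₂ = 0 := by exact_mod_cast hconst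
  have h1 := S.δ₁_pos
  have h2 := S.δ₂_pos
  linarith

end Pool.Agent.Lib.MP_8ce23f_nt.R2
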