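import Pool.Agent.Lib.MP_8ce23f_nt.R2.AsyCalc

/-!
# Comparison of two expansions

Job Compare.  `f/f₀ → 1` as `t → 0+` (both tend to the same nonzero constant,
`Asy.tendsto`).  So `K exp (c t² + μ/t²) (1 + E t) → 1`, with `E t → 0`: hence `μ = 0` (otherwise the
absolute value tends to `0` or `∞`) and `K = 1`.  Then `f = f₀ exp (c t²) (1 + E)` eventually, and
`Asy.mul`, `Asy.exp_sq`, `Asy.perturb`, `Asy.unique` give the claim.
-/

open Filter Topology Asymptotics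
open scoped Real MatrixGroups Manifold
open UpperHalfPlane hiding I

namespace Pool.Agent.Lib.MP_8ce23f_nt.R2

theorem Compare_lim {δ : ℝ} (hδ : 0 < δ) :
    Tendsto (fun t : ℝ => Real.exp (-(δ / t ^ 2))) (𝓝[>] 0) (𝓝 0) := by
  have h1 : Tendsto (fun t : ℝ => t⁻¹) (𝓝[>] 0) atTop := tendsto_inv_nhdsGT_zero
  have h2 : Tendsto (fun t : ℝ => (t⁻¹) ^ 2) (𝓝[>] 0) atTop :=
    (tendsto_pow_atTop two_ne_zero).comp h1
  have h3 : Tendsto (fun t : ℝ => δ * (t⁻¹) ^ 2) (𝓝[>] 0) atTop := h2.const_mul_atTop hδ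
  have h4 : Tendsto (fun t : ℝ => Real.exp (-(δ * (t⁻¹) ^ 2))) (𝓝[>] 0) (𝓝 0) :=
    Real.tendsto_exp_neg_atTop_nhds_zero.comp h3
  refine h4.congr (fun t => ?_)
  congr 2
  rw [inv_pow, div_eq_mul_inv]

theorem Compare_lim' {μ : ℝ} (hμ : μ < 0) :
    Tendsto (fun t : ℝ => ((Real.exp (μ / t ^ 2) : ℝ) : ℂ)) (𝓝[>] 0) (𝓝 0) := by
  have h1 := Compare_lim (δ := -μ) (by linarith)
  have h2 : Tendsto (fun t : ℝ => ((Real.exp (-(-μ / t ^ 2)) : ℝ) : ℂ)) (𝓝[>] 0)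
      (𝓝 ((0 : ℝ) : ℂ)) := (Complex.continuous_ofReal.tendsto _).comp h1
  rw [Complex.ofReal_zero] at h2
  refine h2.congr (fun t => ?_)
  congr 3
  ring

theorem compare {f f₀ E : ℝ → ℂ} {p p₀ : PowerSeries ℂ} (hf : Asy f p) (hf₀ : Asy f₀ p₀)
    (h0 : PowerSeries.constantCoeff p = PowerSeries.constantCoeff p₀)
    (hne : PowerSeries.constantCoeff p ≠ 0) {K : ℂ} {c μ δ : ℝ} (hδ : 0 < δ)
    (hE : E =O[𝓝[>] 0] fun t : ℝ => Real.exp (-(δ / t ^ 2)))
    (hrel : ∀ᶠ t in 𝓝[>] (0 : ℝ),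
      f t = f₀ t * (K * Real.exp (c * t ^ 2 + μ / t ^ 2) * (1 + E t))) :
    p = E2 (c : ℂ) * p₀ := by
  have hE0 : Tendsto E (𝓝[>] 0) (𝓝 0) := hE.trans_tendsto (Compare_lim hδ)
  have hft := hf.tendsto
  have hf₀t := hf₀.tendsto
  rw [← h0] at hf₀t
  have hratio : Tendsto (fun t => f t / f₀ t) (𝓝[>] 0) (𝓝 1) := by
    have := hft.div hf₀t hne
    rwa [div_self hne] at this
  have hf₀ne : ∀ᶠ t in 𝓝[>] (0 : ℝ), f₀ t ≠ 0 := hf₀t.eventually_ne hne
  -- the factor `exp (c t²) (1 + E)`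
  have hct : Tendsto (fun t : ℝ => ((Real.exp (c * t ^ 2) : ℝ) : ℂ)) (𝓝[>] 0) (𝓝 1) := by
    have h1 : Continuous (fun t : ℝ => ((Real.exp (c * t ^ 2) : ℝ) : ℂ)) := by fun_prop
    have h2 := (h1.tendsto 0).mono_left (nhdsWithin_le_nhds (s := Set.Ioi (0 : ℝ)))
    simpa using h2
  have h1E : Tendsto (fun t => 1 + E t) (𝓝[>] 0) (𝓝 1) := by
    simpa using (tendsto_const_nhds (x := (1 : ℂ))).add hE0
  have hD : Tendsto (fun t : ℝ => ((Real.exp (c * t ^ 2) : ℝ) : ℂ) * (1 + E t)) (𝓝[>] 0)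
      (𝓝 1) := by
    simpa using hct.mul h1E
  have hKμ : Tendsto (fun t : ℝ => K * ((Real.exp (μ / t ^ 2) : ℝ) : ℂ)) (𝓝[>] 0) (𝓝 1) := by
    have h1 := hratio.div hD one_ne_zero
    rw [div_one] at h1
    refine h1.congr' ?_
    filter_upwards [hrel, hf₀ne, h1E.eventually_ne one_ne_zero] with t ht1 ht2 ht3
    show f t / f₀ t / (((Real.exp (c * t ^ 2) : ℝ) : ℂ) * (1 + E t)) = _
    rw [ht1, Real.exp_add]
    have h4 : ((Real.exp (c * t ^ 2) : ℝ) : ℂ) ≠ 0 := by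
      exact_mod_cast (Real.exp_pos _).ne'
    push_cast at h4 ⊢
    field_simp
  have hμ : μ = 0 := by
    rcases lt_trichotomy μ 0 with h | h | h
    · exfalso
      have h1 := (Compare_lim' h).const_mul K
      rw [mul_zero] at h1
      exact one_ne_zero (tendsto_nhds_unique hKμ h1)
    · exact h
    · exfalso
      have h1 := Compare_lim' (μ := -μ) (by linarith)
      have h2 := hKμ.mul h1
      rw [mul_zero] at h2
      have h3 : Tendsto (fun _ : ℝ => K) (𝓝[>] (0 : ℝ)) (𝓝 0) := by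
        refine h2.congr (fun t => ?_)
        rw [mul_assoc, ← Complex.ofReal_mul, ← Real.exp_add]
        have : μ / t ^ 2 + -μ / t ^ 2 = 0 := by ring
        rw [this, Real.exp_zero, Complex.ofReal_one, mul_one]
      have h4 : K = 0 := tendsto_nhds_unique tendsto_const_nhds h3
      rw [h4] at hKμ
      simp only [zero_mul] at hKμ
      exact zero_ne_one (tendsto_nhds_unique tendsto_const_nhds hKμ)
  have hK : K = 1 := by
    rw [hμ] at hKμ
    simp only [zero_div, Real.exp_zero, Complex.ofReal_one, mul_one] at hKμ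
    exact tendsto_nhds_unique tendsto_const_nhds hKμ
  have h5 : Asy (fun t => Complex.exp ((c : ℂ) * t ^ 2) * f₀ t * (1 + E t)) (E2 (c : ℂ) * p₀) :=
    ((Asy.exp_sq (c : ℂ)).mul hf₀).perturb hδ hE
  have h6 : Asy f (E2 (c : ℂ) * p₀) := by
    refine h5.congr' ?_
    filter_upwards [hrel] with t ht
    rw [ht, hμ, hK, zero_div, add_zero]
    push_cast
    ring
  exact hf.unique h6

end Pool.Agent.Lib.MP_8ce23f_nt.R2
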