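import Pool.Agent.Lib.MP_8ce23f_nt.R2.Defs

/-!
# Coprime polynomials have finitely many common zeros

Job ZerosA.  Transport `P = MvPolynomial (Fin 2) ℂ` to `Polynomial (Polynomial ℂ)`
(`MvPolynomial.finSuccEquiv`, or prove it for `Polynomial (Polynomial ℂ)` first and transport along an
algebra equivalence `e` with `eval z p = (e p).evalEval (z 0) (z 1)`).
For irreducible `f ∈ ℂ[x][y]` not dividing `g`: if `deg_y f = 0`, `f = C f₀` with `f₀` nonconstant:
only finitely many `x` with `f₀ x = 0`; if `deg_y f > 0` then `f` is primitive, irreducible over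
`ℂ(x)` (`Polynomial.IsPrimitive.irreducible_iff_irreducible_map_fraction_map`) and does not divide
`g` there (`IsPrimitive.dvd_iff_fraction_map_dvd_fraction_map`), so `u f + v g = 1` over `ℂ(x)`;
clear denominators: `u f + v g = C r`, `r ≠ 0`.  So in all cases the first coordinates of the
common zeros form a finite set.  By symmetry (swap of the variables) so do the second coordinates.
-/

open Filter Topology
open scoped Real

namespace Pool.Agent.Lib.MP_8ce23f_nt.R2

/-- The algebra equivalence with `ℂ[x][y]`. -/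
noncomputable def zerosA_e : P ≃ₐ[ℂ] Polynomial (Polynomial ℂ) :=
  AlgEquiv.ofAlgHom
    (MvPolynomial.aeval ![Polynomial.C Polynomial.X, Polynomial.X])
    (Polynomial.eval₂AlgHom (Polynomial.aeval (MvPolynomial.X 0 : P)) (MvPolynomial.X 1 : P)
      (fun _ => Commute.all _ _))
    (by
      refine Polynomial.algHom_ext' ?_ ?_
      · refine Polynomial.algHom_ext ?_
        simp
      · simp)
    (by
      refine MvPolynomial.algHom_ext ?_
      intro i
      fin_cases i <;> simp)

theorem zerosA_eval (z : Fin 2 → ℂ) (p : P) :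
    MvPolynomial.eval z p = (zerosA_e p).evalEval (z 0) (z 1) := by
  have h : (MvPolynomial.eval z) =
      (Polynomial.evalEvalRingHom (z 0) (z 1)).comp (zerosA_e : P →+* Polynomial (Polynomial ℂ)) := by
    refine MvPolynomial.ringHom_ext ?_ ?_
    · intro r
      simp [zerosA_e]
    · intro i
      fin_cases i <;> simp [zerosA_e]
  rw [h]
  rfl

theorem zerosA_aux (f g : Polynomial (Polynomial ℂ)) (hf : Irreducible f) (hg : ¬ f ∣ g) :
    {x : ℂ | ∃ y : ℂ, f.evalEval x y = 0 ∧ g.evalEval x y = 0}.Finite := by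
  classical
  by_cases hd : f.natDegree = 0
  · obtain ⟨f₀, rfl⟩ : ∃ f₀, f = Polynomial.C f₀ := ⟨_, Polynomial.eq_C_of_natDegree_eq_zero hd⟩
    have h0 : f₀ ≠ 0 := by
      rintro rfl
      exact hf.ne_zero (by simp)
    refine (f₀.roots.toFinset.finite_toSet).subset ?_
    rintro x ⟨y, hy, -⟩
    have : f₀.eval x = 0 := by simpa [Polynomial.evalEval] using hy
    simpa [h0] using this
  · let : NormalizedGCDMonoid (Polynomial ℂ) := UniqueFactorizationMonoid.toNormalizedGCDMonoid _
    have hprim : f.IsPrimitive := hf.isPrimitive hd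
    have hfK : Irreducible (f.map (algebraMap (Polynomial ℂ) (RatFunc ℂ))) :=
      (Polynomial.IsPrimitive.irreducible_iff_irreducible_map_fraction_map hprim).1 hf
    have hg0 : g ≠ 0 := by
      rintro rfl
      exact hg (dvd_zero f)
    have hgK : ¬ f.map (algebraMap (Polynomial ℂ) (RatFunc ℂ)) ∣
        g.map (algebraMap (Polynomial ℂ) (RatFunc ℂ)) := by
      intro hdvd
      exact hg ((Polynomial.IsPrimitive.dvd_iff_fraction_map_dvd_fraction_map (RatFunc ℂ) hprim).2
        hdvd)
    have hcop : IsCoprime (f.map (algebraMap (Polynomial ℂ) (RatFunc ℂ)))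
        (g.map (algebraMap (Polynomial ℂ) (RatFunc ℂ))) :=
      (hfK.coprime_iff_not_dvd).2 hgK
    obtain ⟨u, v, huv⟩ := hcop
    obtain ⟨r, hr, hU⟩ := IsLocalization.integerNormalization_spec
      (nonZeroDivisors (Polynomial ℂ)) u
    obtain ⟨s, hs, hV⟩ := IsLocalization.integerNormalization_spec
      (nonZeroDivisors (Polynomial ℂ)) v
    set U := IsLocalization.integerNormalization (nonZeroDivisors (Polynomial ℂ)) u
    set V := IsLocalization.integerNormalization (nonZeroDivisors (Polynomial ℂ)) v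
    have hr0 : r ≠ 0 := nonZeroDivisors.ne_zero hr
    have hs0 : s ≠ 0 := nonZeroDivisors.ne_zero hs
    have hU' : U.map (algebraMap (Polynomial ℂ) (RatFunc ℂ)) =
        Polynomial.C (algebraMap (Polynomial ℂ) (RatFunc ℂ) r) * u := by
      rw [hU]
      ext n
      simp [Algebra.smul_def]
    have hV' : V.map (algebraMap (Polynomial ℂ) (RatFunc ℂ)) =
        Polynomial.C (algebraMap (Polynomial ℂ) (RatFunc ℂ) s) * v := by
      rw [hV]
      ext n
      simp [Algebra.smul_def]
    have hid : Polynomial.C s * U * f + Polynomial.C r * V * g = Polynomial.C (r * s) := by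
      apply Polynomial.map_injective (algebraMap (Polynomial ℂ) (RatFunc ℂ))
        (IsFractionRing.injective (Polynomial ℂ) (RatFunc ℂ))
      rw [Polynomial.map_add, Polynomial.map_mul, Polynomial.map_mul, Polynomial.map_mul,
        Polynomial.map_mul, hU', hV', Polynomial.map_C, Polynomial.map_C, Polynomial.map_C,
        map_mul, Polynomial.C_mul]
      linear_combination (Polynomial.C (algebraMap (Polynomial ℂ) (RatFunc ℂ) r) *
        Polynomial.C (algebraMap (Polynomial ℂ) (RatFunc ℂ) s)) * huv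
    refine ((r * s).roots.toFinset.finite_toSet).subset ?_
    rintro x ⟨y, hy1, hy2⟩
    have h1 := congrArg (Polynomial.evalEval x y) hid
    rw [Polynomial.evalEval_add, Polynomial.evalEval_mul, Polynomial.evalEval_mul (p := _ * V),
      hy1, hy2, mul_zero, mul_zero, add_zero, Polynomial.evalEval_C] at h1
    have h2 : r * s ≠ 0 := mul_ne_zero hr0 hs0
    rw [Finset.mem_coe, Multiset.mem_toFinset, Polynomial.mem_roots h2]
    exact h1.symm

theorem zerosA_fst {p p' : P} (hp : Irreducible p) (hp' : ¬ p ∣ p') :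
    {x : ℂ | ∃ z : Fin 2 → ℂ, z 0 = x ∧ MvPolynomial.eval z p = 0 ∧
      MvPolynomial.eval z p' = 0}.Finite := by
  refine (zerosA_aux (zerosA_e p) (zerosA_e p') ?_ ?_).subset ?_
  · exact (MulEquiv.irreducible_iff zerosA_e.toMulEquiv).2 hp
  · intro h
    exact hp' ((map_dvd_iff zerosA_e).1 h)
  · rintro x ⟨z, rfl, h1, h2⟩
    rw [zerosA_eval] at h1 h2
    exact ⟨z 1, h1, h2⟩

theorem zerosA_snd {p p' : P} (hp : Irreducible p) (hp' : ¬ p ∣ p') :
    {x : ℂ | ∃ z : Fin 2 → ℂ, z 1 = x ∧ MvPolynomial.eval z p = 0 ∧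
      MvPolynomial.eval z p' = 0}.Finite := by
  have key := zerosA_fst (p := MvPolynomial.renameEquiv ℂ (Equiv.swap (0 : Fin 2) 1) p)
    (p' := MvPolynomial.renameEquiv ℂ (Equiv.swap (0 : Fin 2) 1) p')
    ((MulEquiv.irreducible_iff (MvPolynomial.renameEquiv ℂ (Equiv.swap (0 : Fin 2) 1)).toMulEquiv).2 hp)
    (fun h => hp' ((map_dvd_iff (MvPolynomial.renameEquiv ℂ (Equiv.swap (0 : Fin 2) 1))).1 h))
  refine key.subset ?_
  rintro x ⟨z, rfl, h1, h2⟩
  have h3 : (fun i => z (Equiv.swap (0 : Fin 2) 1 i)) ∘ (Equiv.swap (0 : Fin 2) 1) = z := by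
    funext i
    simp
  refine ⟨fun i => z (Equiv.swap (0 : Fin 2) 1 i), by simp, ?_, ?_⟩
  · rw [MvPolynomial.renameEquiv_apply, MvPolynomial.eval_rename, h3, h1]
  · rw [MvPolynomial.renameEquiv_apply, MvPolynomial.eval_rename, h3, h2]

theorem finite_common_zeros {p p' : P} (hp : Irreducible p) (hp' : ¬ p ∣ p') :
    {z : Fin 2 → ℂ | MvPolynomial.eval z p = 0 ∧ MvPolynomial.eval z p' = 0}.Finite := by
  refine (Set.Finite.pi' (t := fun i : Fin 2 => {x : ℂ | ∃ z : Fin 2 → ℂ, z i = x ∧
    MvPolynomial.eval z p = 0 ∧ MvPolynomial.eval z p' = 0}) ?_).subset ?_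
  · intro i
    fin_cases i
    · exact zerosA_fst hp hp'
    · exact zerosA_snd hp hp'
  · intro z hz i
    exact ⟨z, rfl, hz.1, hz.2⟩

end Pool.Agent.Lib.MP_8ce23f_nt.R2
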