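import Pool.Agent.Lib.MP_8ce23f_nt.R2.Defs
import Pool.Agent.Lib.MP_8ce23f_nt.R2.ZerosA

/-!
# The zero set of a nonconstant polynomial is unbounded

Job ZerosB.  Write `p` as a polynomial in `X 1` over `ℂ[X 0]` (`MvPolynomial.finSuccEquiv` or any
other way).  If the degree in `X 1` is positive, the leading coefficient is a nonzero polynomial in
`X 0`, so for infinitely many large real `x` it does not vanish and `p(x, ·)` has a root.  Otherwise
`p = f(X 0)` with `f` nonconstant: take a root `x₀` of `f` and `z = (x₀, y)` with `y` large.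
-/

open Filter Topology
open scoped Real

namespace Pool.Agent.Lib.MP_8ce23f_nt.R2

theorem zerosB_large (f : Polynomial ℂ) (hf : f ≠ 0) (B : ℝ) :
    ∃ x : ℂ, B < ‖x‖ ∧ f.eval x ≠ 0 := by
  classical
  have hinf : (Set.Ioi (max B 0)).Infinite := Set.Ioi_infinite _
  have hinj : Set.InjOn (fun x : ℝ => (x : ℂ)) (Set.Ioi (max B 0)) :=
    fun a _ b _ h => Complex.ofReal_injective h
  obtain ⟨x, hx, hxf⟩ := (hinf.image hinj).exists_notMem_finset f.roots.toFinset
  obtain ⟨t, ht, rfl⟩ := hx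
  refine ⟨(t : ℂ), ?_, ?_⟩
  · have h1 : max B 0 < t := ht
    have h2 : 0 < t := (le_max_right _ _).trans_lt h1
    rw [Complex.norm_real, Real.norm_of_nonneg h2.le]
    exact (le_max_left _ _).trans_lt h1
  · intro h0
    apply hxf
    rw [Multiset.mem_toFinset, Polynomial.mem_roots hf]
    exact h0

theorem unbounded_zeros {p : P} (hp : p.totalDegree ≠ 0) (B : ℝ) :
    ∃ z : Fin 2 → ℂ, MvPolynomial.eval z p = 0 ∧ B < ‖z‖ := by
  by_cases hd : (zerosA_e p).natDegree = 0
  · obtain ⟨f, hf⟩ : ∃ f, zerosA_e p = Polynomial.C f :=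
      ⟨_, Polynomial.eq_C_of_natDegree_eq_zero hd⟩
    have hfd : f.degree ≠ 0 := by
      intro h0
      apply hp
      have h1 : f = Polynomial.C (f.coeff 0) := Polynomial.eq_C_of_degree_eq_zero h0
      have h2 : p = MvPolynomial.C (f.coeff 0) := by
        apply zerosA_e.injective
        rw [hf, h1]
        have h3 : zerosA_e (MvPolynomial.C (Polynomial.C (f.coeff 0) |>.coeff 0)) =
            algebraMap ℂ (Polynomial (Polynomial ℂ)) (f.coeff 0) := by
          rw [Polynomial.coeff_C_zero]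
          exact zerosA_e.commutes (f.coeff 0)
        rw [h3]
        rfl
      rw [h2]
      exact MvPolynomial.totalDegree_C _
    by_cases hf0 : f = 0
    · refine ⟨fun _ => ((|B| + 1 : ℝ) : ℂ), ?_, ?_⟩
      · rw [zerosA_eval, hf, hf0]
        simp
      · have h1 : ‖((|B| + 1 : ℝ) : ℂ)‖ ≤ ‖(fun _ : Fin 2 => ((|B| + 1 : ℝ) : ℂ))‖ :=
          norm_le_pi_norm (fun _ : Fin 2 => ((|B| + 1 : ℝ) : ℂ)) 0
        have h2 : ‖((|B| + 1 : ℝ) : ℂ)‖ = |B| + 1 := by
          rw [Complex.norm_real, Real.norm_of_nonneg (by positivity)]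
        have := le_abs_self B
        linarith
    · obtain ⟨x₀, hx₀⟩ := IsAlgClosed.exists_root f hfd
      refine ⟨![x₀, ((|B| + 1 : ℝ) : ℂ)], ?_, ?_⟩
      · rw [zerosA_eval, hf, Polynomial.evalEval_C]
        exact hx₀
      · have h1 := norm_le_pi_norm (![x₀, ((|B| + 1 : ℝ) : ℂ)] : Fin 2 → ℂ) 1
        have h2 : ‖((|B| + 1 : ℝ) : ℂ)‖ = |B| + 1 := by
          rw [Complex.norm_real, Real.norm_of_nonneg (by positivity)]
        have h3 : (![x₀, ((|B| + 1 : ℝ) : ℂ)] : Fin 2 → ℂ) 1 = ((|B| + 1 : ℝ) : ℂ) := rfl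
        rw [h3, h2] at h1
        have := le_abs_self B
        linarith
  · have hF : zerosA_e p ≠ 0 := by
      intro h0
      apply hd
      rw [h0, Polynomial.natDegree_zero]
    have hl : (zerosA_e p).leadingCoeff ≠ 0 := Polynomial.leadingCoeff_ne_zero.2 hF
    obtain ⟨x, hx, hxl⟩ := zerosB_large _ hl B
    have hdeg : ((zerosA_e p).map (Polynomial.evalRingHom x)).natDegree =
        (zerosA_e p).natDegree :=
      Polynomial.natDegree_map_of_leadingCoeff_ne_zero _ hxl
    have hdeg' : ((zerosA_e p).map (Polynomial.evalRingHom x)).degree ≠ 0 := by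
      intro h0
      apply hd
      rw [← hdeg]
      exact Polynomial.natDegree_eq_of_degree_eq_some h0
    obtain ⟨y, hy⟩ := IsAlgClosed.exists_root _ hdeg'
    refine ⟨![x, y], ?_, ?_⟩
    · rw [zerosA_eval]
      have h1 : ((zerosA_e p).map (Polynomial.evalRingHom x)).eval y = 0 := hy
      rw [Polynomial.map_evalRingHom_eval] at h1
      exact h1
    · have h1 := norm_le_pi_norm (![x, y] : Fin 2 → ℂ) 0
      have h3 : (![x, y] : Fin 2 → ℂ) 0 = x := rfl
      rw [h3] at h1
      linarith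

end Pool.Agent.Lib.MP_8ce23f_nt.R2
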