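import Pool.Agent.Lib.MP_8ce23f_nt.R2.Elim
import Pool.Agent.Lib.MP_8ce23f_nt.R2.ZerosB

/-!
# The number of points of a finite set defined by polynomials of bounded degree

Job CountS.  If all `p k = 0` the set is `{ℓ ≠ 0}`, which is empty (`ℓ = 0`) or infinite.  Otherwise take
`k₀` with `p k₀ ≠ 0` and its irreducible factors `f` (at most `m` of them, each of degree `≤ m`; total
degree is additive over a domain, irreducible polynomials have positive degree).  The set `s` is
covered by `s_f = {z ∈ s | f z = 0}`.  If `f ∣ p k` for all `k`, then `s_f = ∅`: a point of `s_f` shows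
`¬ f ∣ ℓ`, so `V(f) ∩ V(ℓ)` is finite (`finite_common_zeros`), `V(f)` is infinite (`unbounded_zeros`), and
`V(f) \ V(ℓ) ⊆ s` would be infinite.  Otherwise `¬ f ∣ p k` for some `k` and `s_f` has at most `bd m`
elements (`ncard_common_zeros`).
-/

open Filter Topology
open scoped Real

namespace Pool.Agent.Lib.MP_8ce23f_nt.R2

theorem countS_deg_pos {f : P} (hf : Irreducible f) : 0 < f.totalDegree := by
  rcases Nat.eq_zero_or_pos f.totalDegree with h | h
  · exfalso
    have h1 := MvPolynomial.totalDegree_eq_zero_iff_eq_C.1 h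
    have h2 : f.coeff 0 ≠ 0 := by
      intro h3
      rw [h3, map_zero] at h1
      exact hf.ne_zero h1
    apply hf.not_isUnit
    rw [h1]
    exact (IsUnit.mk0 _ h2).map MvPolynomial.C
  · exact h

theorem countS_card (s : Multiset P) (hs : ∀ f ∈ s, Irreducible f) :
    s.card ≤ s.prod.totalDegree ∧ s.prod ≠ 0 := by
  induction s using Multiset.induction with
  | empty => simp
  | cons a s ih =>
      obtain ⟨h1, h2⟩ := ih fun f hf => hs f (Multiset.mem_cons_of_mem hf)
      have ha := hs a (Multiset.mem_cons_self a s)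
      have h3 := countS_deg_pos ha
      rw [Multiset.card_cons, Multiset.prod_cons]
      refine ⟨?_, mul_ne_zero ha.ne_zero h2⟩
      rw [MvPolynomial.totalDegree_mul_of_isDomain ha.ne_zero h2]
      omega

theorem countS_zero (s : Multiset P) (z : Fin 2 → ℂ) (h : MvPolynomial.eval z s.prod = 0) :
    ∃ f ∈ s, MvPolynomial.eval z f = 0 := by
  induction s using Multiset.induction with
  | empty => simp at h
  | cons a s ih =>
      rw [Multiset.prod_cons, map_mul] at h
      rcases mul_eq_zero.1 h with h1 | h1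
      · exact ⟨a, Multiset.mem_cons_self a s, h1⟩
      · obtain ⟨f, hf, hz⟩ := ih h1
        exact ⟨f, Multiset.mem_cons_of_mem hf, hz⟩

/-- the complement of a curve is infinite -/
theorem countS_compl {ℓ : P} (hfin : {z : Fin 2 → ℂ | MvPolynomial.eval z ℓ ≠ 0}.Finite) :
    ℓ = 0 := by
  classical
  set q : P := ∏ w ∈ hfin.toFinset, (MvPolynomial.X 0 - MvPolynomial.C (w 0)) with hq
  have hq0 : q ≠ 0 := by
    rw [hq, Finset.prod_ne_zero_iff]
    intro w _ h
    have h1 := congrArg (MvPolynomial.eval (fun _ => w 0 + 1)) h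
    simp at h1
  have h2 : q * ℓ = 0 := by
    apply MvPolynomial.funext
    intro z
    rw [map_mul, map_zero]
    by_cases hz : MvPolynomial.eval z ℓ = 0
    · rw [hz, mul_zero]
    · have h3 : MvPolynomial.eval z q = 0 := by
        rw [hq, map_prod]
        refine Finset.prod_eq_zero (hfin.mem_toFinset.2 hz) ?_
        simp
      rw [h3, zero_mul]
  rcases mul_eq_zero.1 h2 with h3 | h3
  · exact absurd h3 hq0
  · exact h3

theorem countS_infinite {f : P} (hf : Irreducible f)
    (h : {z : Fin 2 → ℂ | MvPolynomial.eval z f = 0}.Finite) : False := by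
  obtain ⟨B, hB⟩ := (h.image norm).bddAbove
  obtain ⟨z, hz, hzB⟩ := unbounded_zeros (countS_deg_pos hf).ne' B
  have h1 := hB ⟨z, hz, rfl⟩
  linarith

theorem ncard_le_of_finite {κ : Type*} (p : κ → P) (ℓ : P) {m : ℕ}
    (hm : ∀ k, (p k).totalDegree ≤ m)
    (hfin : {z : Fin 2 → ℂ | (∀ k, MvPolynomial.eval z (p k) = 0) ∧
      MvPolynomial.eval z ℓ ≠ 0}.Finite) :
    {z : Fin 2 → ℂ | (∀ k, MvPolynomial.eval z (p k) = 0) ∧
      MvPolynomial.eval z ℓ ≠ 0}.ncard ≤ m * bd m := by
  classical
  by_cases hall : ∀ k, p k = 0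
  · have h1 : {z : Fin 2 → ℂ | (∀ k, MvPolynomial.eval z (p k) = 0) ∧
        MvPolynomial.eval z ℓ ≠ 0} = {z : Fin 2 → ℂ | MvPolynomial.eval z ℓ ≠ 0} := by
      ext z
      simp [hall]
    rw [h1] at hfin ⊢
    have h2 := countS_compl hfin
    rw [h2]
    simp
  push Not at hall
  obtain ⟨k₀, hk₀⟩ := hall
  set s : Set (Fin 2 → ℂ) := {z : Fin 2 → ℂ | (∀ k, MvPolynomial.eval z (p k) = 0) ∧
    MvPolynomial.eval z ℓ ≠ 0} with hs
  set F : Multiset P := UniqueFactorizationMonoid.factors (p k₀) with hF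
  have hirr : ∀ f ∈ F, Irreducible f := fun f hf =>
    UniqueFactorizationMonoid.irreducible_of_factor f hf
  have hass : Associated F.prod (p k₀) := UniqueFactorizationMonoid.factors_prod hk₀
  have hcard : F.card ≤ m := by
    refine (countS_card F hirr).1.trans ?_
    exact (MvPolynomial.totalDegree_le_of_dvd_of_isDomain hass.dvd hk₀).trans (hm k₀)
  have hdeg : ∀ f ∈ F, f.totalDegree ≤ m := fun f hf =>
    (MvPolynomial.totalDegree_le_of_dvd_of_isDomain
      ((Multiset.dvd_prod hf).trans hass.dvd) hk₀).trans (hm k₀)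
  have hcover : s ⊆ ⋃ f ∈ F.toFinset, {z | z ∈ s ∧ MvPolynomial.eval z f = 0} := by
    intro z hz
    have h1 : MvPolynomial.eval z F.prod = 0 := by
      obtain ⟨c, hc⟩ := hass.symm.dvd
      rw [hc, map_mul, hz.1 k₀, zero_mul]
    obtain ⟨f, hf, hzf⟩ := countS_zero F z h1
    simp only [Set.mem_iUnion]
    exact ⟨f, Multiset.mem_toFinset.2 hf, hz, hzf⟩
  have hpart : ∀ f ∈ F.toFinset, {z | z ∈ s ∧ MvPolynomial.eval z f = 0}.ncard ≤ bd m := by
    intro f hf'
    have hf := Multiset.mem_toFinset.1 hf'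
    by_cases hdvd : ∀ k, f ∣ p k
    · have hempty : {z | z ∈ s ∧ MvPolynomial.eval z f = 0} = ∅ := by
        rw [Set.eq_empty_iff_forall_notMem]
        rintro z₀ ⟨hz₀, hz₀f⟩
        have hnd : ¬ f ∣ ℓ := by
          rintro ⟨c, hc⟩
          apply hz₀.2
          rw [hc, map_mul, hz₀f, zero_mul]
        apply countS_infinite (hirr f hf)
        refine ((finite_common_zeros (hirr f hf) hnd).union hfin).subset ?_
        intro z hz
        by_cases hzl : MvPolynomial.eval z ℓ = 0
        · exact Or.inl ⟨hz, hzl⟩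
        · refine Or.inr ⟨fun k => ?_, hzl⟩
          obtain ⟨c, hc⟩ := hdvd k
          have hz' : MvPolynomial.eval z f = 0 := hz
          rw [hc, map_mul, hz', zero_mul]
      rw [hempty]
      simp
    · push Not at hdvd
      obtain ⟨k, hk⟩ := hdvd
      refine le_trans (Set.ncard_le_ncard ?_ (finite_common_zeros (hirr f hf) hk))
        (ncard_common_zeros (hirr f hf) hk (hdeg f hf) (hm k))
      rintro z ⟨hz, hzf⟩
      exact ⟨hzf, hz.1 k⟩
  have hfinU : (⋃ f ∈ F.toFinset, {z | z ∈ s ∧ MvPolynomial.eval z f = 0}).Finite := by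
    refine hfin.subset ?_
    intro z hz
    simp only [Set.mem_iUnion] at hz
    obtain ⟨f, _, hzs, _⟩ := hz
    exact hzs
  calc s.ncard ≤ (⋃ f ∈ F.toFinset, {z | z ∈ s ∧ MvPolynomial.eval z f = 0}).ncard :=
        Set.ncard_le_ncard hcover hfinU
    _ ≤ ∑ f ∈ F.toFinset, {z | z ∈ s ∧ MvPolynomial.eval z f = 0}.ncard :=
        Finset.set_ncard_biUnion_le _ _
    _ ≤ ∑ f ∈ F.toFinset, bd m := Finset.sum_le_sum hpart
    _ = F.toFinset.card * bd m := by rw [Finset.sum_const, smul_eq_mul]
    _ ≤ m * bd m := Nat.mul_le_mul_right _ ((Multiset.toFinset_card_le F).trans hcard)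

end Pool.Agent.Lib.MP_8ce23f_nt.R2
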