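import Mathlib

/-!
# Rank two Nahm sums: definitions used in the proof
-/

open Filter Topology Asymptotics
open scoped Real

namespace Pool.Agent.Lib.MP_8ce23f_nt.R2

/-- Polynomials in two variables over `ℂ`. -/
abbrev P : Type := MvPolynomial (Fin 2) ℂ

/-- `(q)_n` for a real number `q`. -/
noncomputable def rp (q : ℝ) (n : ℕ) : ℝ := ∏ j ∈ Finset.range n, (1 - q ^ (j + 1))

/-- The matrix `(a, h; h, d)` is positive definite. -/
structure PD (a h d : ℝ) : Prop where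
  ha : 0 < a
  hd : 0 < d
  hdet : 0 < a * d - h ^ 2

/-- The term of the Nahm sum at `q = exp (-t²)`. -/
noncomputable def Fterm (a h d x y t : ℝ) (n : ℕ × ℕ) : ℝ :=
  Real.exp (-(t ^ 2 * ((a * n.1 ^ 2 + 2 * h * n.1 * n.2 + d * n.2 ^ 2) / 2 + x * n.1 + y * n.2))) /
    (rp (Real.exp (-t ^ 2)) n.1 * rp (Real.exp (-t ^ 2)) n.2)

/-- The Nahm sum of `(a, h; h, d)` and `(x, y)` at `q = exp (-t²)`. -/
noncomputable def F (a h d x y t : ℝ) : ℝ := ∑' n : ℕ × ℕ, Fterm a h d x y t n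

/-- Solutions of Nahm's equation. -/
structure NahmSol (a h d Q₁ Q₂ : ℝ) : Prop where
  pos₁ : 0 < Q₁
  lt₁ : Q₁ < 1
  pos₂ : 0 < Q₂
  lt₂ : Q₂ < 1
  eq₁ : Real.log (1 - Q₁) = a * Real.log Q₁ + h * Real.log Q₂
  eq₂ : Real.log (1 - Q₂) = h * Real.log Q₁ + d * Real.log Q₂

/-- `f` has the asymptotic expansion `c` in powers of `t` as `t → 0+`. -/
def Asy (f : ℝ → ℂ) (c : PowerSeries ℂ) : Prop :=
  ∀ N : ℕ, (fun t : ℝ => f t - ∑ k ∈ Finset.range N, PowerSeries.coeff k c * (t : ℂ) ^ k)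
    =O[𝓝[>] 0] fun t : ℝ => t ^ N

/-- The formal power series `exp (g X²)`. -/
noncomputable def E2 {R : Type*} [CommRing R] [Algebra ℂ R] (g : R) : PowerSeries R :=
  PowerSeries.mk fun n =>
    if Even n then algebraMap ℂ R (((n / 2).factorial : ℂ)⁻¹) * g ^ (n / 2) else 0

/-- The shift of the variables by `v`. -/
noncomputable def sh (v : Fin 2 → ℂ) : P →ₐ[ℂ] P :=
  MvPolynomial.aeval fun i => MvPolynomial.X i + MvPolynomial.C (v i)

/-- Evaluation at `(x, y)`. -/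
noncomputable def ev (x y : ℂ) : P →+* ℂ := MvPolynomial.eval ![x, y]

/-- `∑ X^m / (m (1 - q^m))`, the logarithm of `∑ X^n / (q)_n`, with `q = exp (-t²)`. -/
noncomputable def Lam (X : ℂ) (t : ℝ) : ℂ :=
  ∑' m : ℕ, X ^ (m + 1) / ((m + 1) * (1 - Real.exp (-((m + 1) * t ^ 2))))

/-- The same for real `X`. -/
noncomputable def LamR (X t : ℝ) : ℝ :=
  ∑' m : ℕ, X ^ (m + 1) / ((m + 1) * (1 - Real.exp (-((m + 1) * t ^ 2))))

/-- `Lam (ρ exp (i t y)) - Lam ρ`. -/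
noncomputable def Xi (ρ y t : ℝ) : ℂ :=
  Lam (ρ * Complex.exp (t * y * Complex.I)) t - (LamR ρ t : ℂ)

/-- Entries of the Cholesky factor `L = (l11, 0; l21, l22)` of `(a, h; h, d)`. -/
noncomputable def l11 (a : ℝ) : ℝ := √a
/-- Entry `(2,1)` of the Cholesky factor. -/
noncomputable def l21 (a h : ℝ) : ℝ := h / √a
/-- Entry `(2,2)` of the Cholesky factor. -/
noncomputable def l22 (a h d : ℝ) : ℝ := √(d - h ^ 2 / a)

/-- First component of `L w`. -/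
noncomputable def Lw1 (a : ℝ) (w : ℝ × ℝ) : ℝ := l11 a * w.1
/-- Second component of `L w`. -/
noncomputable def Lw2 (a h d : ℝ) (w : ℝ × ℝ) : ℝ := l21 a h * w.1 + l22 a h d * w.2

/-- `κ = Lᵀ (-log Q)`, first component. -/
noncomputable def κ1 (a h Q₁ Q₂ : ℝ) : ℝ := -(l11 a * Real.log Q₁ + l21 a h * Real.log Q₂)
/-- `κ = Lᵀ (-log Q)`, second component. -/
noncomputable def κ2 (a h d Q₂ : ℝ) : ℝ := -(l22 a h d * Real.log Q₂)

/-- `s = L⁻¹ (x, y)`, first component. -/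
noncomputable def s1 (a x : ℝ) : ℝ := x / l11 a
/-- `s = L⁻¹ (x, y)`, second component. -/
noncomputable def s2 (a h d x y : ℝ) : ℝ := (y - l21 a h * s1 a x) / l22 a h d

/-- The integrand. -/
noncomputable def g (a h d Q₁ Q₂ t : ℝ) (w : ℝ × ℝ) : ℂ :=
  Complex.exp (-((w.1 ^ 2 + w.2 ^ 2) / 2 : ℝ) -
    ((w.1 * κ1 a h Q₁ Q₂ + w.2 * κ2 a h d Q₂) / t : ℝ) * Complex.I +
    Xi (1 - Q₁) (Lw1 a w) t + Xi (1 - Q₂) (Lw2 a h d w) t)

/-- The quadratic form in the exponent. -/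
noncomputable def qf (a h d Q₁ Q₂ : ℝ) (w : ℝ × ℝ) : ℝ :=
  (w.1 ^ 2 + w.2 ^ 2 + (1 - Q₁) / Q₁ * Lw1 a w ^ 2 + (1 - Q₂) / Q₂ * Lw2 a h d w ^ 2) / 2

/-- The normalising factor, which does not depend on `(x, y)`. -/
noncomputable def Nf (a h d Q₁ Q₂ t : ℝ) : ℝ :=
  Real.exp (-((κ1 a h Q₁ Q₂ ^ 2 + κ2 a h d Q₂ ^ 2) / (2 * t ^ 2)) - LamR (1 - Q₁) t - LamR (1 - Q₂) t)

/-- `F` times the normalising factor, times `Q₁^{-x} Q₂^{-y}`. -/
noncomputable def FN (a h d Q₁ Q₂ x y t : ℝ) : ℝ :=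
  F a h d x y t * Nf a h d Q₁ Q₂ t * Real.exp (-(x * Real.log Q₁ + y * Real.log Q₂))

/-- Expansions in powers of `t` with polynomial coefficients and polynomially bounded errors. -/
def PolyExp (f : ℝ → ℝ × ℝ → ℂ) (N : ℕ) (p : ℕ → P) : Prop :=
  ∃ (M : ℕ) (C : ℝ), ∀ t ∈ Set.Ioc (0 : ℝ) 1, ∀ w : ℝ × ℝ,
    ‖f t w - ∑ k ∈ Finset.range N, (t : ℂ) ^ k * ev w.1 w.2 (p k)‖ ≤
      C * t ^ N * (1 + |w.1| + |w.2|) ^ M

/-- The matrix as a complex matrix. -/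
def Am (a h d : ℝ) : Matrix (Fin 2) (Fin 2) ℂ := !![(a : ℂ), (h : ℂ); (h : ℂ), (d : ℂ)]

/-- The vector of the `Q`'s. -/
def Qv (Q₁ Q₂ : ℝ) : Fin 2 → ℂ := ![(Q₁ : ℂ), (Q₂ : ℂ)]

/-- The formal functional equation for the asymptotic series. -/
def IsFE (A : Matrix (Fin 2) (Fin 2) ℂ) (Q : Fin 2 → ℂ) (Γ : PowerSeries P) : Prop :=
  ∀ i : Fin 2, Γ =
    PowerSeries.C (MvPolynomial.C (Q i)) *
      PowerSeries.map (sh (Pi.single i 1) : P →+* P) Γ +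
    PowerSeries.C (MvPolynomial.C (1 - Q i)) *
      E2 (-(MvPolynomial.X i + MvPolynomial.C (A i i / 2)) : P) *
      PowerSeries.map (sh (A i) : P →+* P) Γ

/-- The nondegeneracy condition. -/
def Nondeg (A : Matrix (Fin 2) (Fin 2) ℂ) (Q : Fin 2 → ℂ) : Prop :=
  (Q 0 + (1 - Q 0) * A 0 0) * (Q 1 + (1 - Q 1) * A 1 1) -
    ((1 - Q 0) * A 0 1) * ((1 - Q 1) * A 1 0) ≠ 0

/-- The logarithmic derivative data, in the variable `t`. -/
structure TD (A : Matrix (Fin 2) (Fin 2) ℂ) (Q : Fin 2 → ℂ) (L : PowerSeries P)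
    (R S : Fin 2 → PowerSeries P) : Prop where
  L0 : PowerSeries.constantCoeff L = 0
  R0 : ∀ i, PowerSeries.constantCoeff (R i) = 1
  S0 : ∀ i, PowerSeries.constantCoeff (S i) = 1
  Rθ : ∀ i, PowerSeries.X * PowerSeries.derivative P (R i) =
    R i * (PowerSeries.map (sh (Pi.single i 1) : P →+* P) L - L)
  Sθ : ∀ i, PowerSeries.X * PowerSeries.derivative P (S i) =
    S i * (PowerSeries.map (sh (A i) : P →+* P) L - L -
      2 * PowerSeries.X ^ 2 *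
        PowerSeries.C (MvPolynomial.X i + MvPolynomial.C (A i i / 2) : P))
  fe : ∀ i, PowerSeries.C (MvPolynomial.C (Q i)) * R i +
    PowerSeries.C (MvPolynomial.C (1 - Q i)) * S i = 1

/-- The logarithmic derivative data, in the variable `ε = t²`; the polynomial `D k` is the
coefficient of `ε^k` of the logarithm of the asymptotic series. -/
structure FD (A : Matrix (Fin 2) (Fin 2) ℂ) (Q : Fin 2 → ℂ) (D : ℕ → P)
    (R S : Fin 2 → PowerSeries P) : Prop where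
  deg : ∀ k : ℕ, 1 ≤ k → (D k).totalDegree ≤ k + 1
  R0 : ∀ i, PowerSeries.constantCoeff (R i) = 1
  S0 : ∀ i, PowerSeries.constantCoeff (S i) = 1
  Rdeg : ∀ (i : Fin 2) (k : ℕ), (PowerSeries.coeff k (R i)).totalDegree ≤ k
  Sdeg : ∀ (i : Fin 2) (k : ℕ), (PowerSeries.coeff k (S i)).totalDegree ≤ k
  Rθ : ∀ (i : Fin 2) (k : ℕ), (k : P) * PowerSeries.coeff k (R i) =
    ∑ p ∈ Finset.HasAntidiagonal.antidiagonal k, ((p.1 : P) * (sh (Pi.single i 1) (D p.1) - D p.1)) *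
      PowerSeries.coeff p.2 (R i)
  Sθ : ∀ (i : Fin 2) (k : ℕ), (k : P) * PowerSeries.coeff k (S i) =
    ∑ p ∈ Finset.HasAntidiagonal.antidiagonal k, ((p.1 : P) * (sh (A i) (D p.1) - D p.1) -
      if p.1 = 1 then MvPolynomial.X i + MvPolynomial.C (A i i / 2) else 0) *
      PowerSeries.coeff p.2 (S i)
  fe : ∀ i, PowerSeries.C (MvPolynomial.C (Q i)) * R i +
    PowerSeries.C (MvPolynomial.C (1 - Q i)) * S i = 1

/-- The top homogeneous part of `D k`. -/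
noncomputable def V (D : ℕ → P) (k : ℕ) : P := MvPolynomial.homogeneousComponent (k + 1) (D k)

/-- The second homogeneous part of `D k`. -/
noncomputable def S' (D : ℕ → P) (k : ℕ) : P := MvPolynomial.homogeneousComponent k (D k)

/-- `U_j = ∑_{k ≥ 1} k τ^{k-1} ∂_j V_k (β)`. -/
noncomputable def Us (D : ℕ → P) (β : Fin 2 → ℂ) (j : Fin 2) : PowerSeries ℂ :=
  PowerSeries.mk fun k => ((k : ℂ) + 1) * MvPolynomial.eval β (MvPolynomial.pderiv j (V D (k + 1)))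

/-- `M_{jl} = ∑_{k ≥ 1} τ^{k-1} ∂_j ∂_l V_k (β)`. -/
noncomputable def Ms (D : ℕ → P) (β : Fin 2 → ℂ) (j l : Fin 2) : PowerSeries ℂ :=
  PowerSeries.mk fun k =>
    MvPolynomial.eval β (MvPolynomial.pderiv j (MvPolynomial.pderiv l (V D (k + 1))))

/-- `Z_j = ∑_{k ≥ 1} τ^{k-1} ∂_j S_k (β)`. -/
noncomputable def Zs (D : ℕ → P) (β : Fin 2 → ℂ) (j : Fin 2) : PowerSeries ℂ :=
  PowerSeries.mk fun k => MvPolynomial.eval β (MvPolynomial.pderiv j (S' D (k + 1)))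

end Pool.Agent.Lib.MP_8ce23f_nt.R2
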