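import Pool.Agent.Lib.MP_8ce23f_nt.Main
import Pool.Agent.Lib.MP_8ce23f_nt.R2.Defs

/-!
# Behaviour of a modular function near the cusp 0 along the imaginary axis

Job Cusp.  `f` is modular and holomorphic, `f ≠ 0`.  Put `h τ = f (S • τ)`.  `orb f` is finite
(`orb_finite_iff`), `h ∈ orb f`, so `h` has a period `N` (`exists_period_of_orb_finite`,
`orb_smul_subset`), `ModInf h` (from `IsModularFunction` and `qPow_eq`), `h` is holomorphic
(`mdiff_comp_smul`), `h ≠ 0`.  Follow the proof of `exists_leading` in `Leading.lean`: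
`h τ * qr (-(n/N)) τ = g (qParam N τ)` with `g` analytic at `0` and `g 0 ≠ 0`, so
`g z - g 0 = O(z)`, `‖qParam N τ‖ = exp (-2π im τ/N)`.  At `τ = i/y`: `S • (i/y) = i y`.
-/

open Filter Topology Asymptotics
open scoped Real MatrixGroups Manifold
open UpperHalfPlane hiding I

namespace Pool.Agent.Lib.MP_8ce23f_nt.R2

/-- Leading behaviour at infinity with an exponentially small error. -/
theorem cusp_leading_infty {h : ℍ → ℂ} {N : ℕ} (hN : 0 < N) (hd : MDifferentiable 𝓘(ℂ) 𝓘(ℂ) h)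
    (hper : ∀ τ : ℍ, h (((N : ℝ)) +ᵥ τ) = h τ) (hm : ModInf h) (hne : h ≠ 0) :
    ∃ n : ℤ, ∃ c : ℂ, c ≠ 0 ∧ ∃ A C : ℝ, 0 < A ∧ ∀ τ : ℍ, A ≤ τ.im →
      ‖h τ * qr (-(n / N)) τ - c‖ ≤ C * Real.exp (-(2 * π * (1 / N) * τ.im)) := by
  obtain ⟨m, hm⟩ := hm
  have hN' : (0 : ℝ) < N := by exact_mod_cast hN
  set f1 : ℍ → ℂ := fun τ => qr m τ * h τ with hf1
  have hd1 : MDifferentiable 𝓘(ℂ) 𝓘(ℂ) f1 := (qr_mdifferentiable m).mul hd
  have hper1 : Function.Periodic (f1 ∘ ofComplex) (N : ℝ) := by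
    apply periodic_ofComplex
    intro τ
    simp only [hf1, hper, qr_vadd_nat]
  have han : AnalyticAt ℂ (cuspFunction (N : ℝ) f1) 0 :=
    analyticAt_cuspFunction_zero hN' hper1 hd1 hm
  have heq : ∀ τ : ℍ, cuspFunction (N : ℝ) f1 (Function.Periodic.qParam N τ) = f1 τ := fun τ =>
    eq_cuspFunction τ hN'.ne' hper1
  have htend : Tendsto (fun τ : ℍ ↦ Function.Periodic.qParam (N : ℝ) τ) atImInfty (𝓝 0) :=
    qParam_tendsto_atImInfty hN'
  have hnz : ¬ ∀ᶠ z in 𝓝 (0 : ℂ), cuspFunction (N : ℝ) f1 z = 0 := by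
    intro hz
    have h1 : ∀ᶠ τ : ℍ in atImInfty, f1 τ = 0 := by
      filter_upwards [htend.eventually hz] with τ hτ
      rw [← heq τ]; exact hτ
    have h2 : ∀ᶠ τ : ℍ in atImInfty, h τ = 0 := by
      filter_upwards [h1] with τ hτ
      rcases mul_eq_zero.mp hτ with h3 | h3
      · exact absurd h3 (qr_ne_zero _ _)
      · exact h3
    obtain ⟨A, hA⟩ := (atImInfty_mem _).mp h2
    apply hne
    set t0 : ℍ := pt 0 (|A| + 1) (by positivity) with ht0
    have him : t0.im = |A| + 1 := pt_im _ _ _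
    have h4 : ∃ᶠ z in 𝓝[≠] t0, h z = 0 := by
      have h5 : ∀ᶠ z : ℍ in 𝓝 t0, h z = 0 := by
        have hopen : IsOpen {z : ℍ | A < z.im} := isOpen_lt continuous_const continuous_im
        have hmem : t0 ∈ {z : ℍ | A < z.im} := by
          simp only [Set.mem_ofPred_eq, him]
          linarith [le_abs_self A]
        filter_upwards [hopen.mem_nhds hmem] with z hz
        exact hA z (le_of_lt hz)
      exact (h5.filter_mono nhdsWithin_le_nhds).frequently
    exact UpperHalfPlane.eq_zero_of_frequently hd h4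
  obtain ⟨n, g, hg, hg0, hgn⟩ := han.exists_eventuallyEq_pow_smul_nonzero_iff.mpr hnz
  obtain ⟨C, hC⟩ := (hg.differentiableAt.isBigO_sub).bound
  have hall := (htend.eventually hgn).and (htend.eventually hC)
  obtain ⟨A, hA⟩ := (atImInfty_mem _).mp hall
  refine ⟨(n : ℤ) - m * N, g 0, hg0, |A| + 1, C, by positivity, fun τ hτ => ?_⟩
  obtain ⟨hτ1, hτ2⟩ := hA τ (by linarith [le_abs_self A])
  have h7 : qr m τ * h τ = qr (n / N) τ * g (Function.Periodic.qParam (N : ℝ) τ) := by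
    have h8 : f1 τ = qr m τ * h τ := rfl
    rw [← h8, ← heq τ, hτ1, sub_zero, smul_eq_mul]
    congr 1
    rw [Function.Periodic.qParam, ← Complex.exp_nat_mul, qr]
    congr 1
    push_cast
    ring
  have h9 : qr (-((((n : ℤ) - m * N : ℤ) : ℝ) / N)) τ = qr m τ * (qr (n / N) τ)⁻¹ := by
    rw [← qr_neg, ← qr_add]
    congr 1
    push_cast
    field_simp
    ring
  have h10 : h τ * qr (-((((n : ℤ) - m * N : ℤ) : ℝ) / N)) τ =
      g (Function.Periodic.qParam (N : ℝ) τ) := by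
    rw [h9, ← mul_assoc, mul_comm (h τ), h7]
    have := qr_ne_zero (n / N) τ
    field_simp
  rw [h10]
  refine hτ2.trans ?_
  have h11 : ‖(Function.Periodic.qParam (N : ℝ) τ : ℂ) - 0‖ = Real.exp (-(2 * π * (1 / N) * τ.im)) := by
    rw [sub_zero, Function.Periodic.norm_qParam]
    congr 1
    have : (τ : ℂ).im = τ.im := rfl
    rw [this]
    field_simp
  rw [h11]

theorem cusp_leading {f : ℍ → ℂ} (hd : MDifferentiable 𝓘(ℂ) 𝓘(ℂ) f) (hf : IsModularFunction f)
    (hne : f ≠ 0) : ∃ (K : ℂ) (ν δ y₀ C : ℝ), K ≠ 0 ∧ 0 < δ ∧ 0 < y₀ ∧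
      ∀ (y : ℝ) (hy : 0 < y), y < y₀ →
        ‖f (pt 0 y hy) * Real.exp (-(ν / y)) - K‖ ≤ C * Real.exp (-(δ / y)) := by
  obtain ⟨Γ, hΓ, hinv, -, hgr⟩ := hf
  have hfin : (orb f).Finite := (orb_finite_iff f).mpr ⟨Γ, hΓ, hinv⟩
  set h : ℍ → ℂ := fun τ => f (ModularGroup.S • τ) with hh
  have hmem : h ∈ orb f := ⟨ModularGroup.S, rfl⟩
  obtain ⟨N, hN, hper⟩ := exists_period_of_orb_finite (hfin.subset (orb_smul_subset hmem))
  have hmod : ModInf h := by
    obtain ⟨m, hm⟩ := hgr ModularGroup.S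
    refine ⟨m, ?_⟩
    have e : (fun τ : ℍ => qr m τ * h τ) =
        fun τ : ℍ => qPow m τ * f (ModularGroup.S • τ) := by
      funext τ
      simp [qPow_eq, hh]
    rw [e]
    exact hm
  have hhne : h ≠ 0 := by
    intro h0
    apply hne
    funext τ
    have := congrFun h0 (ModularGroup.S⁻¹ • τ)
    simpa [hh] using this
  obtain ⟨n, c, hc, A, C, hA, hb⟩ :=
    cusp_leading_infty hN (mdiff_comp_smul hd _) hper hmod hhne
  have hN' : (0 : ℝ) < N := by exact_mod_cast hN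
  have hpi := Real.pi_pos
  refine ⟨c, -(2 * π * (n / N)), 2 * π * (1 / N), 1 / A, C, hc, by positivity, by positivity,
    fun y hy hy0 => ?_⟩
  have hy' : 0 < 1 / y := by positivity
  have hSp : ModularGroup.S • pt 0 (1 / y) hy' = pt 0 y hy := by
    ext
    rw [modular_S_smul]
    simp only [coe_pt, Complex.ofReal_zero, zero_add]
    have hyc : (y : ℂ) ≠ 0 := by exact_mod_cast hy.ne'
    push_cast
    rw [← neg_inv, one_div, mul_inv, inv_inv, Complex.inv_I]
    ring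
  have h1 := hb (pt 0 (1 / y) hy') (by
    rw [pt_im]
    rw [lt_div_iff₀ hA] at hy0
    rw [le_div_iff₀ hy]
    linarith)
  rw [pt_im] at h1
  have h3 : qr (-(n / N)) (pt 0 (1 / y) hy') = Real.exp (-(-(2 * π * (n / N)) / y)) := by
    rw [qr, coe_pt]
    push_cast
    congr 1
    have hyc : (y : ℂ) ≠ 0 := by exact_mod_cast hy.ne'
    field_simp
    ring_nf
    simp [Complex.I_sq]
  rw [hSp, h3] at h1
  refine h1.trans (le_of_eq ?_)
  congr 2
  field_simp

end Pool.Agent.Lib.MP_8ce23f_nt.R2
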