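import Pool.Agent.Lib.MP_8ce23f_nt.R2.Defs

/-!
# The degree lemma

Job Degree.  For `D` with `totalDegree D ≤ n + 1`: `sh v D - D` has `totalDegree ≤ n` and its
homogeneous component of degree `n` is `∑_l v_l ∂_l (hom_{n+1} D)` (induction on monomials, or on
`D` via `MvPolynomial.induction_on` in the form: for monomials `sh v (p X_i) = sh v p (X_i + v_i)`).
Suppose `n + 1 = totalDegree D > m + 1`; then the degree `n` components of the two hypotheses vanish:
`(Q_i ∂_i + (1-Q_i) ∑_l A_{il} ∂_l) (hom_{n+1} D) = 0` for `i = 0, 1`; by `Nondeg` (determinant)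
`∂_0 (hom_{n+1} D) = ∂_1 (hom_{n+1} D) = 0`, so (Euler's identity, or characteristic zero)
`hom_{n+1} D = 0`, a contradiction with the definition of the total degree.
-/

open Filter Topology
open scoped Real

namespace Pool.Agent.Lib.MP_8ce23f_nt.R2

theorem degree_iff (p : P) (n : ℕ) :
    p.totalDegree ≤ n ↔ ∀ m : Fin 2 →₀ ℕ, n < m 0 + m 1 → p.coeff m = 0 := by
  have hs : ∀ m : Fin 2 →₀ ℕ, (m.sum fun _ e => e) = m 0 + m 1 := by
    intro m
    rw [Finsupp.sum_fintype _ _ (fun _ => rfl), Fin.sum_univ_two]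
  rw [MvPolynomial.totalDegree, Finset.sup_le_iff]
  constructor
  · intro h m hm
    by_contra hne
    have := h m (MvPolynomial.mem_support_iff.2 hne)
    rw [hs] at this
    omega
  · intro h m hm
    rw [hs]
    by_contra hlt
    exact (MvPolynomial.mem_support_iff.1 hm) (h m (by omega))

/-- all coefficients of degree at least `n` vanish -/
def degree_dlt (n : ℕ) (p : P) : Prop := ∀ m : Fin 2 →₀ ℕ, n ≤ m 0 + m 1 → p.coeff m = 0

theorem degree_dlt_zero (n : ℕ) : degree_dlt n 0 := fun _ _ => by simp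

theorem degree_dlt_add {n : ℕ} {p q : P} (hp : degree_dlt n p) (hq : degree_dlt n q) :
    degree_dlt n (p + q) := fun m hm => by
  rw [MvPolynomial.coeff_add, hp m hm, hq m hm, add_zero]

theorem degree_dlt_sum {ι : Type*} {n : ℕ} (s : Finset ι) {p : ι → P}
    (hp : ∀ i ∈ s, degree_dlt n (p i)) : degree_dlt n (∑ i ∈ s, p i) := fun m hm => by
  rw [MvPolynomial.coeff_sum]
  exact Finset.sum_eq_zero fun i hi => hp i hi m hm

theorem degree_dlt_C_mul {n : ℕ} {p : P} (hp : degree_dlt n p) (c : ℂ) :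
    degree_dlt n (MvPolynomial.C c * p) := fun m hm => by
  rw [MvPolynomial.coeff_C_mul, hp m hm, mul_zero]

theorem degree_dlt_mono {n k : ℕ} {p : P} (hp : degree_dlt n p) (h : n ≤ k) : degree_dlt k p :=
  fun m hm => hp m (h.trans hm)

theorem degree_dlt_mul_X {n : ℕ} {p : P} (hp : degree_dlt n p) (i : Fin 2) :
    degree_dlt (n + 1) (p * MvPolynomial.X i) := fun m hm => by
  rw [MvPolynomial.coeff_mul_X']
  by_cases hi : i ∈ m.support
  · rw [if_pos hi]
    apply hp
    have h1 : m i ≠ 0 := Finsupp.mem_support_iff.1 hi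
    rw [Finsupp.tsub_apply, Finsupp.tsub_apply]
    fin_cases i
    · have h2 : m 0 ≠ 0 := h1
      simp
      omega
    · have h2 : m 1 ≠ 0 := h1
      simp
      omega
  · rw [if_neg hi]

theorem degree_dlt_zero_iff {p : P} (hp : degree_dlt 0 p) : p = 0 :=
  MvPolynomial.ext _ _ fun m => by rw [hp m (Nat.zero_le _)]; simp

/-- the difference operator -/
noncomputable def degree_S (v : Fin 2 → ℂ) : P →ₗ[ℂ] P := (sh v).toLinearMap - LinearMap.id

/-- the difference operator minus the derivative -/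
noncomputable def degree_T (v : Fin 2 → ℂ) : P →ₗ[ℂ] P :=
  (sh v).toLinearMap - LinearMap.id -
    (v 0 • (MvPolynomial.pderiv (R := ℂ) (0 : Fin 2)).toLinearMap +
      v 1 • (MvPolynomial.pderiv (R := ℂ) (1 : Fin 2)).toLinearMap)

theorem degree_S_apply (v : Fin 2 → ℂ) (D : P) : degree_S v D = sh v D - D := rfl

theorem degree_T_apply (v : Fin 2 → ℂ) (D : P) : degree_T v D = sh v D - D -
    (MvPolynomial.C (v 0) * MvPolynomial.pderiv 0 D +
      MvPolynomial.C (v 1) * MvPolynomial.pderiv 1 D) := by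
  rw [← MvPolynomial.smul_eq_C_mul, ← MvPolynomial.smul_eq_C_mul]
  rfl

theorem degree_sh_X (v : Fin 2 → ℂ) (i : Fin 2) :
    sh v (MvPolynomial.X i) = MvPolynomial.X i + MvPolynomial.C (v i) :=
  MvPolynomial.aeval_X _ _

theorem degree_S_mul_X (v : Fin 2 → ℂ) (q : P) (i : Fin 2) :
    degree_S v (q * MvPolynomial.X i) = degree_S v q * MvPolynomial.X i +
      MvPolynomial.C (v i) * degree_S v q + MvPolynomial.C (v i) * q := by
  rw [degree_S_apply, degree_S_apply, map_mul, degree_sh_X]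
  ring

theorem degree_T_mul_X (v : Fin 2 → ℂ) (q : P) (i : Fin 2) :
    degree_T v (q * MvPolynomial.X i) = degree_T v q * MvPolynomial.X i +
      MvPolynomial.C (v i) * degree_S v q := by
  rw [degree_T_apply, degree_T_apply, degree_S_apply, map_mul, degree_sh_X,
    MvPolynomial.pderiv_mul, MvPolynomial.pderiv_mul]
  fin_cases i
  · simp only [Fin.zero_eta, MvPolynomial.pderiv_X_self]
    rw [MvPolynomial.pderiv_X_of_ne (show (0 : Fin 2) ≠ 1 by decide)]
    ring
  · simp only [Fin.mk_one, MvPolynomial.pderiv_X_self]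
    rw [MvPolynomial.pderiv_X_of_ne (show (1 : Fin 2) ≠ 0 by decide)]
    ring

theorem degree_monomial (v : Fin 2 → ℂ) (c : ℂ) (k : ℕ) :
    ∀ s : Fin 2 →₀ ℕ, s 0 + s 1 = k →
      degree_dlt k (degree_S v (MvPolynomial.monomial s c)) ∧
        degree_dlt (k - 1) (degree_T v (MvPolynomial.monomial s c)) := by
  induction k with
  | zero =>
    intro s hs
    have h0 : s = 0 := by
      ext i
      fin_cases i
      · show s 0 = 0
        omega
      · show s 1 = 0
        omega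
    have h1 : degree_S v (MvPolynomial.monomial s c) = 0 := by
      rw [degree_S_apply, h0]
      show sh v (MvPolynomial.C c) - MvPolynomial.C c = 0
      rw [show sh v (MvPolynomial.C c) = MvPolynomial.C c from MvPolynomial.aeval_C _ _, sub_self]
    have h2 : degree_T v (MvPolynomial.monomial s c) = 0 := by
      rw [degree_T_apply, ← degree_S_apply, h1, h0]
      show 0 - (MvPolynomial.C (v 0) * MvPolynomial.pderiv 0 (MvPolynomial.C c) +
        MvPolynomial.C (v 1) * MvPolynomial.pderiv 1 (MvPolynomial.C c)) = 0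
      rw [MvPolynomial.pderiv_C, MvPolynomial.pderiv_C]
      ring
    rw [h1, h2]
    exact ⟨degree_dlt_zero _, degree_dlt_zero _⟩
  | succ k ih =>
    intro s hs
    obtain ⟨i, hi⟩ : ∃ i, s i ≠ 0 := by
      by_contra hcon
      push Not at hcon
      have h0 := hcon 0
      have h1 := hcon 1
      omega
    set s' := s - Finsupp.single i 1 with hs'
    have hss : s = s' + Finsupp.single i 1 := by
      rw [hs', tsub_add_cancel_of_le]
      rw [Finsupp.single_le_iff]
      omega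
    have hk : s' 0 + s' 1 = k := by
      have h0 : s 0 = s' 0 + Finsupp.single i 1 0 := by
        conv_lhs => rw [hss]
        rfl
      have h1 : s 1 = s' 1 + Finsupp.single i 1 1 := by
        conv_lhs => rw [hss]
        rfl
      have h2 : Finsupp.single i 1 (0 : Fin 2) + Finsupp.single i 1 (1 : Fin 2) = 1 := by
        fin_cases i <;> simp
      omega
    have hmon : MvPolynomial.monomial s c = MvPolynomial.monomial s' c * MvPolynomial.X i := by
      rw [MvPolynomial.X, MvPolynomial.monomial_mul, mul_one, ← hss]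
    obtain ⟨ih1, ih2⟩ := ih s' hk
    have hq : degree_dlt (k + 1) (MvPolynomial.monomial s' c) := by
      intro m hm
      rw [MvPolynomial.coeff_monomial, if_neg]
      rintro rfl
      omega
    rw [hmon, degree_S_mul_X, degree_T_mul_X]
    refine ⟨degree_dlt_add (degree_dlt_add (degree_dlt_mul_X ih1 i)
      (degree_dlt_C_mul (degree_dlt_mono ih1 (Nat.le_succ k)) _)) (degree_dlt_C_mul hq _), ?_⟩
    rw [Nat.add_sub_cancel]
    refine degree_dlt_add ?_ (degree_dlt_C_mul ih1 _)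
    rcases Nat.eq_zero_or_pos k with hk0 | hk0
    · subst hk0
      rw [degree_dlt_zero_iff ih2, zero_mul]
      exact degree_dlt_zero _
    · have := degree_dlt_mul_X ih2 i
      rwa [Nat.sub_add_cancel hk0] at this

theorem degree_main (v : Fin 2 → ℂ) {D : P} {n : ℕ} (h : D.totalDegree ≤ n + 1) :
    degree_dlt (n + 1) (degree_S v D) ∧ degree_dlt n (degree_T v D) := by
  have hsupp : ∀ s ∈ D.support, s 0 + s 1 ≤ n + 1 := by
    intro s hs
    by_contra hcon
    exact (MvPolynomial.mem_support_iff.1 hs) ((degree_iff D (n + 1)).1 h s (by omega))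
  have hD : D = ∑ s ∈ D.support, MvPolynomial.monomial s (D.coeff s) :=
    MvPolynomial.as_sum D
  constructor
  · rw [hD, map_sum]
    exact degree_dlt_sum _ fun s hs =>
      degree_dlt_mono (degree_monomial v (D.coeff s) _ s rfl).1 (hsupp s hs)
  · rw [hD, map_sum]
    exact degree_dlt_sum _ fun s hs =>
      degree_dlt_mono (degree_monomial v (D.coeff s) _ s rfl).2 (by have := hsupp s hs; omega)

theorem degree_coeff (v : Fin 2 → ℂ) {D : P} {n : ℕ} (h : D.totalDegree ≤ n + 1)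
    (m : Fin 2 →₀ ℕ) (hm : m 0 + m 1 = n) :
    (sh v D - D).coeff m = v 0 * (D.coeff (m + Finsupp.single 0 1) * (m 0 + 1)) +
      v 1 * (D.coeff (m + Finsupp.single 1 1) * (m 1 + 1)) := by
  have h1 := (degree_main v h).2 m hm.ge
  rw [degree_T_apply, MvPolynomial.coeff_sub, MvPolynomial.coeff_add, MvPolynomial.coeff_C_mul,
    MvPolynomial.coeff_C_mul, MvPolynomial.coeff_pderiv, MvPolynomial.coeff_pderiv, sub_eq_zero]
    at h1
  exact h1

theorem totalDegree_sh_sub_le (v : Fin 2 → ℂ) {D : P} {n : ℕ} (h : D.totalDegree ≤ n + 1) :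
    (sh v D - D).totalDegree ≤ n := by
  rw [degree_iff]
  intro m hm
  exact (degree_main v h).1 m hm

theorem totalDegree_sh_sub_le' (v : Fin 2 → ℂ) {D : P} (h : D.totalDegree = 0) :
    sh v D - D = 0 := by
  rw [MvPolynomial.totalDegree_eq_zero_iff_eq_C] at h
  rw [h, show sh v (MvPolynomial.C (D.coeff 0)) = MvPolynomial.C (D.coeff 0) from
    MvPolynomial.aeval_C _ _, sub_self]

/-- the descent step -/
theorem degree_step {A : Matrix (Fin 2) (Fin 2) ℂ} {Q : Fin 2 → ℂ} (hnd : Nondeg A Q) {D : P}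
    {n : ℕ} (hD : D.totalDegree ≤ n + 1)
    (h : ∀ i : Fin 2, ∀ m : Fin 2 →₀ ℕ, m 0 + m 1 = n →
      (MvPolynomial.C (Q i) * (sh (Pi.single i 1) D - D) +
      MvPolynomial.C (1 - Q i) * (sh (A i) D - D)).coeff m = 0) :
    D.totalDegree ≤ n := by
  have key : ∀ m : Fin 2 →₀ ℕ, m 0 + m 1 = n →
      D.coeff (m + Finsupp.single 0 1) = 0 ∧ D.coeff (m + Finsupp.single 1 1) = 0 := by
    intro m hm
    set x := D.coeff (m + Finsupp.single 0 1) * ((m 0 : ℂ) + 1) with hx
    set y := D.coeff (m + Finsupp.single 1 1) * ((m 1 : ℂ) + 1) with hy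
    have h0 := h 0 m hm
    have h1 := h 1 m hm
    rw [MvPolynomial.coeff_add, MvPolynomial.coeff_C_mul, MvPolynomial.coeff_C_mul,
      degree_coeff _ hD m hm, degree_coeff _ hD m hm, ← hx, ← hy] at h0 h1
    have e00 : (Pi.single (0 : Fin 2) (1 : ℂ) : Fin 2 → ℂ) 0 = 1 := by simp
    have e01 : (Pi.single (0 : Fin 2) (1 : ℂ) : Fin 2 → ℂ) 1 = 0 := by simp
    have e10 : (Pi.single (1 : Fin 2) (1 : ℂ) : Fin 2 → ℂ) 0 = 0 := by simp
    have e11 : (Pi.single (1 : Fin 2) (1 : ℂ) : Fin 2 → ℂ) 1 = 1 := by simp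
    rw [e00, e01] at h0
    rw [e10, e11] at h1
    have hdet : (Q 0 + (1 - Q 0) * A 0 0) * (Q 1 + (1 - Q 1) * A 1 1) -
      ((1 - Q 0) * A 0 1) * ((1 - Q 1) * A 1 0) ≠ 0 := hnd
    have hx0 : ((Q 0 + (1 - Q 0) * A 0 0) * (Q 1 + (1 - Q 1) * A 1 1) -
      ((1 - Q 0) * A 0 1) * ((1 - Q 1) * A 1 0)) * x = 0 := by
      linear_combination (Q 1 + (1 - Q 1) * A 1 1) * h0 - ((1 - Q 0) * A 0 1) * h1
    have hy0 : ((Q 0 + (1 - Q 0) * A 0 0) * (Q 1 + (1 - Q 1) * A 1 1) -
      ((1 - Q 0) * A 0 1) * ((1 - Q 1) * A 1 0)) * y = 0 := by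
      linear_combination (Q 0 + (1 - Q 0) * A 0 0) * h1 - ((1 - Q 1) * A 1 0) * h0
    have hx1 := (mul_eq_zero.1 hx0).resolve_left hdet
    have hy1 := (mul_eq_zero.1 hy0).resolve_left hdet
    have hm0 : ((m 0 : ℂ) + 1) ≠ 0 := Nat.cast_add_one_ne_zero _
    have hm1 : ((m 1 : ℂ) + 1) ≠ 0 := Nat.cast_add_one_ne_zero _
    exact ⟨(mul_eq_zero.1 hx1).resolve_right hm0, (mul_eq_zero.1 hy1).resolve_right hm1⟩
  rw [degree_iff]
  intro s hs
  rcases Nat.lt_or_ge (n + 1) (s 0 + s 1) with h2 | h2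
  · exact (degree_iff D (n + 1)).1 hD s h2
  · have hsn : s 0 + s 1 = n + 1 := by omega
    by_cases h0 : s 0 = 0
    · have h3 : s = (s - Finsupp.single 1 1) + Finsupp.single 1 1 := by
        rw [tsub_add_cancel_of_le]
        rw [Finsupp.single_le_iff]
        omega
      rw [h3]
      refine (key _ ?_).2
      rw [Finsupp.tsub_apply, Finsupp.tsub_apply]
      simp
      omega
    · have h3 : s = (s - Finsupp.single 0 1) + Finsupp.single 0 1 := by
        rw [tsub_add_cancel_of_le]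
        rw [Finsupp.single_le_iff]
        omega
      rw [h3]
      refine (key _ ?_).1
      rw [Finsupp.tsub_apply, Finsupp.tsub_apply]
      simp
      omega

theorem degree_lemma {A : Matrix (Fin 2) (Fin 2) ℂ} {Q : Fin 2 → ℂ} (hnd : Nondeg A Q) {D : P}
    {m : ℕ} (h : ∀ i : Fin 2, (MvPolynomial.C (Q i) * (sh (Pi.single i 1) D - D) +
      MvPolynomial.C (1 - Q i) * (sh (A i) D - D)).totalDegree ≤ m) :
    D.totalDegree ≤ m + 1 := by
  by_contra hcon
  obtain ⟨n, hn⟩ : ∃ n, D.totalDegree = n + 1 := ⟨D.totalDegree - 1, by omega⟩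
  have h1 := degree_step hnd (D := D) (n := n) hn.le (fun i s hs =>
    (degree_iff _ m).1 (h i) s (by omega))
  omega

theorem degree_lemma_zero {A : Matrix (Fin 2) (Fin 2) ℂ} {Q : Fin 2 → ℂ} (hnd : Nondeg A Q)
    {D : P} (h : ∀ i : Fin 2, MvPolynomial.C (Q i) * (sh (Pi.single i 1) D - D) +
      MvPolynomial.C (1 - Q i) * (sh (A i) D - D) = 0) :
    D.totalDegree = 0 := by
  by_contra hcon
  obtain ⟨n, hn⟩ : ∃ n, D.totalDegree = n + 1 := ⟨D.totalDegree - 1, by omega⟩
  have h1 := degree_step hnd (D := D) (n := n) hn.le (fun i s hs => by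
    rw [h i, MvPolynomial.coeff_zero])
  omega

theorem nondeg_Am {a h d Q₁ Q₂ : ℝ} (hA : PD a h d) (h1 : 0 < Q₁) (h1' : Q₁ < 1) (h2 : 0 < Q₂)
    (h2' : Q₂ < 1) : Nondeg (Am a h d) (Qv Q₁ Q₂) := by
  have ha := hA.ha
  have hd := hA.hd
  have hdet := hA.hdet
  have hpos : 0 < (Q₁ + (1 - Q₁) * a) * (Q₂ + (1 - Q₂) * d) - ((1 - Q₁) * h) * ((1 - Q₂) * h) := by
    have e : (Q₁ + (1 - Q₁) * a) * (Q₂ + (1 - Q₂) * d) - ((1 - Q₁) * h) * ((1 - Q₂) * h) =
        Q₁ * Q₂ + Q₁ * ((1 - Q₂) * d) + Q₂ * ((1 - Q₁) * a) +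
          ((1 - Q₁) * (1 - Q₂)) * (a * d - h ^ 2) := by ring
    rw [e]
    have h3 : 0 < 1 - Q₁ := by linarith
    have h4 : 0 < 1 - Q₂ := by linarith
    positivity
  show ((Q₁ : ℂ) + (1 - (Q₁ : ℂ)) * (a : ℂ)) * ((Q₂ : ℂ) + (1 - (Q₂ : ℂ)) * (d : ℂ)) -
    ((1 - (Q₁ : ℂ)) * (h : ℂ)) * ((1 - (Q₂ : ℂ)) * (h : ℂ)) ≠ 0
  have h5 : ((Q₁ : ℂ) + (1 - (Q₁ : ℂ)) * (a : ℂ)) * ((Q₂ : ℂ) + (1 - (Q₂ : ℂ)) * (d : ℂ)) -
    ((1 - (Q₁ : ℂ)) * (h : ℂ)) * ((1 - (Q₂ : ℂ)) * (h : ℂ)) =
    (((Q₁ + (1 - Q₁) * a) * (Q₂ + (1 - Q₂) * d) - ((1 - Q₁) * h) * ((1 - Q₂) * h) : ℝ) : ℂ) := by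
    push_cast
    ring
  rw [h5]
  exact_mod_cast hpos.ne'

end Pool.Agent.Lib.MP_8ce23f_nt.R2
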