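import Pool.Agent.Lib.MP_8ce23f_nt.R2.ZerosA

/-!
# The number of common zeros of two coprime polynomials

Job Elim.  As in ZerosA: transport to `Polynomial (Polynomial ℂ)` (the file ZerosA has
`zerosA_e`, `zerosA_eval`).  `f` irreducible of degree `≤ m`, `f ∤ g`.  If `deg_y f = 0` the first
coordinate is a root of a nonzero polynomial of degree `≤ m`.  Otherwise
`r = resultant f g ∈ ℂ[x]` is nonzero (`resultant_map_map` to the fraction field and
`Polynomial.resultant_eq_zero_iff`), lies in the ideal `(f, g)`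
(`Polynomial.exists_mul_add_mul_eq_C_resultant`), and has degree `≤ 2 m * m` (determinant of a
matrix of size `≤ 2m` with entries of degree `≤ m`: expand `Matrix.det_apply`).  So the first
coordinates of the common zeros lie in a set of at most `2 m m + m` elements; by symmetry (swap
the variables) the same for the second coordinates.  (An explicit other bound depending only on `m` is
also fine, but then change `bd`, nothing else.)
-/

open Filter Topology
open scoped Real

namespace Pool.Agent.Lib.MP_8ce23f_nt.R2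

/-- The bound for the number of common zeros. -/
def bd (m : ℕ) : ℕ := (2 * m * m + m) ^ 2

theorem elim_natDegree_det {n d : ℕ} (M : Matrix (Fin n) (Fin n) (Polynomial ℂ))
    (h : ∀ i j, (M i j).natDegree ≤ d) : M.det.natDegree ≤ n * d := by
  rw [Matrix.det_apply]
  refine Polynomial.natDegree_sum_le_of_forall_le _ _ fun σ _ => ?_
  have h1 : (∏ i, M (σ i) i).natDegree ≤ n * d := by
    refine (Polynomial.natDegree_prod_le _ _).trans ?_
    refine (Finset.sum_le_sum fun i _ => h (σ i) i).trans ?_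
    simp
  rcases Int.units_eq_one_or (Equiv.Perm.sign σ) with h2 | h2
  · rw [h2, one_smul]
    exact h1
  · rw [h2]
    simpa using h1

/-- degrees in both variables are at most `m` -/
def elim_dg (m : ℕ) (f : Polynomial (Polynomial ℂ)) : Prop :=
  f.natDegree ≤ m ∧ ∀ i, (f.coeff i).natDegree ≤ m

theorem elim_resultant {m : ℕ} (f g : Polynomial (Polynomial ℂ)) (hf : elim_dg m f)
    (hg : elim_dg m g) : (Polynomial.resultant f g).natDegree ≤ 2 * m * m := by
  have h1 : (Polynomial.resultant f g).natDegree ≤ (f.natDegree + g.natDegree) * m := by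
    refine elim_natDegree_det _ fun i j => ?_
    induction j using Fin.addCases with
    | left j =>
      simp only [Polynomial.sylvester, Matrix.of_apply, Fin.addCases_left]
      split_ifs
      · exact hg.2 _
      · simp
    | right j =>
      simp only [Polynomial.sylvester, Matrix.of_apply, Fin.addCases_right]
      split_ifs
      · exact hf.2 _
      · simp
  refine h1.trans (Nat.mul_le_mul_right m ?_)
  have := hf.1
  have := hg.1
  omega

theorem elim_aux {m : ℕ} (f g : Polynomial (Polynomial ℂ)) (hf : Irreducible f) (hg : ¬ f ∣ g)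
    (hfm : elim_dg m f) (hgm : elim_dg m g) :
    {x : ℂ | ∃ y : ℂ, f.evalEval x y = 0 ∧ g.evalEval x y = 0}.ncard ≤ 2 * m * m + m := by
  classical
  obtain ⟨r, hr0, hrd, hr⟩ : ∃ r : Polynomial ℂ, r ≠ 0 ∧ r.natDegree ≤ 2 * m * m + m ∧
      ∀ x y : ℂ, f.evalEval x y = 0 → g.evalEval x y = 0 → r.eval x = 0 := by
    by_cases hd : f.natDegree = 0
    · obtain ⟨f₀, rfl⟩ : ∃ f₀, f = Polynomial.C f₀ := ⟨_, Polynomial.eq_C_of_natDegree_eq_zero hd⟩
      refine ⟨f₀, ?_, ?_, ?_⟩
      · rintro rfl
        exact hf.ne_zero (by simp)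
      · have := hfm.2 0
        rw [Polynomial.coeff_C_zero] at this
        exact this.trans (Nat.le_add_left _ _)
      · intro x y hy _
        simpa [Polynomial.evalEval] using hy
    · let : NormalizedGCDMonoid (Polynomial ℂ) := UniqueFactorizationMonoid.toNormalizedGCDMonoid _
      have hprim : f.IsPrimitive := hf.isPrimitive hd
      have hfK : Irreducible (f.map (algebraMap (Polynomial ℂ) (RatFunc ℂ))) :=
        (Polynomial.IsPrimitive.irreducible_iff_irreducible_map_fraction_map hprim).1 hf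
      have hgK : ¬ f.map (algebraMap (Polynomial ℂ) (RatFunc ℂ)) ∣
          g.map (algebraMap (Polynomial ℂ) (RatFunc ℂ)) := by
        intro hdvd
        exact hg ((Polynomial.IsPrimitive.dvd_iff_fraction_map_dvd_fraction_map (RatFunc ℂ) hprim).2
          hdvd)
      have hcop : IsCoprime (f.map (algebraMap (Polynomial ℂ) (RatFunc ℂ)))
          (g.map (algebraMap (Polynomial ℂ) (RatFunc ℂ))) :=
        (hfK.coprime_iff_not_dvd).2 hgK
      have hinj := IsFractionRing.injective (Polynomial ℂ) (RatFunc ℂ)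
      have h1 := Polynomial.resultant_ne_zero _ _ hcop
      rw [Polynomial.natDegree_map_eq_of_injective hinj, Polynomial.natDegree_map_eq_of_injective hinj,
        Polynomial.resultant_map_map] at h1
      refine ⟨Polynomial.resultant f g, fun h => h1 (by rw [h, map_zero]),
        (elim_resultant f g hfm hgm).trans (Nat.le_add_right _ _), ?_⟩
      obtain ⟨p, q, -, -, hpq⟩ := Polynomial.exists_mul_add_mul_eq_C_resultant f g le_rfl le_rfl
        (Or.inl hd)
      intro x y hx hy
      have h2 := congrArg (Polynomial.evalEval x y) hpq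
      rw [Polynomial.evalEval_add, Polynomial.evalEval_mul, Polynomial.evalEval_mul, hx, hy,
        zero_mul, zero_mul, add_zero, Polynomial.evalEval_C] at h2
      exact h2.symm
  have hsub : {x : ℂ | ∃ y : ℂ, f.evalEval x y = 0 ∧ g.evalEval x y = 0} ⊆
      (r.roots.toFinset : Set ℂ) := by
    rintro x ⟨y, h1, h2⟩
    rw [Finset.mem_coe, Multiset.mem_toFinset, Polynomial.mem_roots hr0]
    exact hr x y h1 h2
  refine (Set.ncard_le_ncard hsub (Finset.finite_toSet _)).trans ?_
  rw [Set.ncard_coe_finset]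
  exact (Multiset.toFinset_card_le _).trans ((Polynomial.card_roots' r).trans hrd)

theorem elim_e_monomial (s : Fin 2 →₀ ℕ) (a : ℂ) :
    zerosA_e (MvPolynomial.monomial s a) =
      Polynomial.monomial (s 1) (Polynomial.monomial (s 0) a) := by
  have h1 : zerosA_e (MvPolynomial.monomial s a) =
      MvPolynomial.aeval (![Polynomial.C Polynomial.X, Polynomial.X] : Fin 2 → Polynomial (Polynomial ℂ))
        (MvPolynomial.monomial s a) := rfl
  rw [h1, MvPolynomial.aeval_monomial, Finsupp.prod_fintype _ _ (fun i => pow_zero _),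
    Fin.prod_univ_two]
  have h2 : algebraMap ℂ (Polynomial (Polynomial ℂ)) a = Polynomial.C (Polynomial.C a) := rfl
  rw [h2]
  simp only [Matrix.cons_val_zero, Matrix.cons_val_one]
  rw [← Polynomial.C_mul_X_pow_eq_monomial, ← Polynomial.C_mul_X_pow_eq_monomial, map_mul, map_pow,
    mul_assoc]

theorem elim_dg_e {m : ℕ} {p : P} (h : p.totalDegree ≤ m) : elim_dg m (zerosA_e p) := by
  have hs : ∀ s ∈ p.support, ∀ i, s i ≤ m := by
    intro s hs i
    refine le_trans ?_ ((MvPolynomial.le_totalDegree hs).trans h)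
    rw [Finsupp.sum_fintype _ _ (fun _ => rfl)]
    exact Finset.single_le_sum (f := fun i => s i) (fun _ _ => Nat.zero_le _) (Finset.mem_univ i)
  have hp : zerosA_e p = ∑ s ∈ p.support,
      Polynomial.monomial (s 1) (Polynomial.monomial (s 0) (p.coeff s)) := by
    conv_lhs => rw [p.as_sum, map_sum]
    exact Finset.sum_congr rfl fun s _ => elim_e_monomial s _
  rw [hp]
  constructor
  · refine Polynomial.natDegree_sum_le_of_forall_le _ _ fun s h1 => ?_
    exact (Polynomial.natDegree_monomial_le _).trans (hs s h1 1)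
  · intro i
    rw [Polynomial.finsetSum_coeff]
    refine Polynomial.natDegree_sum_le_of_forall_le _ _ fun s h1 => ?_
    rw [Polynomial.coeff_monomial]
    split_ifs
    · exact (Polynomial.natDegree_monomial_le _).trans (hs s h1 0)
    · simp

theorem elim_fst {p p' : P} {m : ℕ} (hp : Irreducible p) (hp' : ¬ p ∣ p')
    (h : p.totalDegree ≤ m) (h' : p'.totalDegree ≤ m) :
    {x : ℂ | ∃ z : Fin 2 → ℂ, z 0 = x ∧ MvPolynomial.eval z p = 0 ∧
      MvPolynomial.eval z p' = 0}.ncard ≤ 2 * m * m + m := by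
  have hirr : Irreducible (zerosA_e p) := (MulEquiv.irreducible_iff zerosA_e.toMulEquiv).2 hp
  have hdvd : ¬ zerosA_e p ∣ zerosA_e p' := fun h => hp' ((map_dvd_iff zerosA_e).1 h)
  refine (Set.ncard_le_ncard ?_ (zerosA_aux (zerosA_e p) (zerosA_e p') hirr hdvd)).trans
    (elim_aux _ _ hirr hdvd (elim_dg_e h) (elim_dg_e h'))
  rintro x ⟨z, rfl, h1, h2⟩
  rw [zerosA_eval] at h1 h2
  exact ⟨z 1, h1, h2⟩

theorem elim_snd {p p' : P} {m : ℕ} (hp : Irreducible p) (hp' : ¬ p ∣ p')
    (h : p.totalDegree ≤ m) (h' : p'.totalDegree ≤ m) :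
    {x : ℂ | ∃ z : Fin 2 → ℂ, z 1 = x ∧ MvPolynomial.eval z p = 0 ∧
      MvPolynomial.eval z p' = 0}.ncard ≤ 2 * m * m + m := by
  have hp2 : Irreducible (MvPolynomial.renameEquiv ℂ (Equiv.swap (0 : Fin 2) 1) p) :=
    (MulEquiv.irreducible_iff (MvPolynomial.renameEquiv ℂ (Equiv.swap (0 : Fin 2) 1)).toMulEquiv).2 hp
  have hp3 : ¬ MvPolynomial.renameEquiv ℂ (Equiv.swap (0 : Fin 2) 1) p ∣
      MvPolynomial.renameEquiv ℂ (Equiv.swap (0 : Fin 2) 1) p' :=
    fun h => hp' ((map_dvd_iff (MvPolynomial.renameEquiv ℂ (Equiv.swap (0 : Fin 2) 1))).1 h)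
  have key := elim_fst (m := m) hp2 hp3 ((MvPolynomial.totalDegree_rename_le _ _).trans h)
    ((MvPolynomial.totalDegree_rename_le _ _).trans h')
  refine (Set.ncard_le_ncard ?_ (zerosA_fst hp2 hp3)).trans key
  rintro x ⟨z, rfl, h1, h2⟩
  have h3 : (fun i => z (Equiv.swap (0 : Fin 2) 1 i)) ∘ (Equiv.swap (0 : Fin 2) 1) = z := by
    funext i
    simp
  refine ⟨fun i => z (Equiv.swap (0 : Fin 2) 1 i), by simp, ?_, ?_⟩
  · rw [MvPolynomial.renameEquiv_apply, MvPolynomial.eval_rename, h3, h1]
  · rw [MvPolynomial.renameEquiv_apply, MvPolynomial.eval_rename, h3, h2]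

theorem ncard_common_zeros {p p' : P} {m : ℕ} (hp : Irreducible p) (hp' : ¬ p ∣ p')
    (h : p.totalDegree ≤ m) (h' : p'.totalDegree ≤ m) :
    {z : Fin 2 → ℂ | MvPolynomial.eval z p = 0 ∧ MvPolynomial.eval z p' = 0}.ncard ≤ bd m := by
  have h0 := elim_fst hp hp' h h'
  have h1 := elim_snd hp hp' h h'
  set S0 : Set ℂ := {x : ℂ | ∃ z : Fin 2 → ℂ, z 0 = x ∧ MvPolynomial.eval z p = 0 ∧
      MvPolynomial.eval z p' = 0} with hS0
  set S1 : Set ℂ := {x : ℂ | ∃ z : Fin 2 → ℂ, z 1 = x ∧ MvPolynomial.eval z p = 0 ∧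
      MvPolynomial.eval z p' = 0} with hS1
  have f0 : S0.Finite := zerosA_fst hp hp'
  have f1 : S1.Finite := zerosA_snd hp hp'
  have h2 : {z : Fin 2 → ℂ | MvPolynomial.eval z p = 0 ∧ MvPolynomial.eval z p' = 0}.ncard ≤
      (S0 ×ˢ S1).ncard := by
    refine Set.ncard_le_ncard_of_injOn (fun z => (z 0, z 1)) ?_ ?_ (f0.prod f1)
    · intro z hz
      exact ⟨⟨z, rfl, hz.1, hz.2⟩, ⟨z, rfl, hz.1, hz.2⟩⟩
    · intro z _ w _ hzw
      funext i
      fin_cases i
      · exact congrArg Prod.fst hzw
      · exact congrArg Prod.snd hzw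
  refine h2.trans ?_
  rw [Set.ncard_prod, bd, sq]
  exact Nat.mul_le_mul h0 h1

end Pool.Agent.Lib.MP_8ce23f_nt.R2
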