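import Pool.Agent.Lib.MP_8ce23f_nt.R2.LamSum

/-!
# Bounds, continuity and integrability of the integrand

Job XiReg.  `Re Xi ≤ 0` because `Re (ρ exp (iθ))^(m+1) ≤ ρ^(m+1)` termwise.  Continuity:
`continuous_tsum` with the summable bound `ρ^(m+1)/((m+1) (1 - exp (-(m+1) t²)))`.
Integrability of polynomial times Gaussian on `ℝ × ℝ`: e.g. `(1+|u|+|v|)^M ≤ (1+|u|)^M (1+|v|)^M`,
`Integrable.mul_prod`, and `integrable_rpow_mul_exp_neg_mul_sq` or
`integrable_pow_mul_exp_neg_mul_sq` style lemmas in one variable.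
-/

open Filter Topology Asymptotics MeasureTheory
open scoped Real

namespace Pool.Agent.Lib.MP_8ce23f_nt.R2

/-- the denominators -/
noncomputable def XiReg_den (t : ℝ) (m : ℕ) : ℝ := (m + 1) * (1 - Real.exp (-((m + 1) * t ^ 2)))

theorem XiReg_den_pos {t : ℝ} (ht : 0 < t) (m : ℕ) : 0 < XiReg_den t m := by
  unfold XiReg_den
  have h1 : (0 : ℝ) < (m : ℝ) + 1 := by positivity
  have h2 : Real.exp (-(((m : ℝ) + 1) * t ^ 2)) < 1 := by
    rw [Real.exp_lt_one_iff]
    have : 0 < ((m : ℝ) + 1) * t ^ 2 := by positivity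
    linarith
  exact mul_pos h1 (by linarith)

theorem XiReg_norm {t : ℝ} (ht : 0 < t) (X : ℂ) (m : ℕ) :
    ‖X ^ (m + 1) / ((m + 1) * (1 - Real.exp (-((m + 1) * t ^ 2))) : ℂ)‖ =
      ‖X‖ ^ (m + 1) / XiReg_den t m := by
  have h1 : ((m + 1) * (1 - Real.exp (-((m + 1) * t ^ 2))) : ℂ) = (XiReg_den t m : ℂ) := by
    unfold XiReg_den
    push_cast
    ring
  rw [h1, norm_div, norm_pow, Complex.norm_real, Real.norm_of_nonneg (XiReg_den_pos ht m).le]

theorem XiReg_lamR (ρ t : ℝ) : LamR ρ t = ∑' m : ℕ, ρ ^ (m + 1) / XiReg_den t m := rfl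

theorem XiReg_normX {ρ : ℝ} (h0 : 0 < ρ) (y t : ℝ) :
    ‖(ρ * Complex.exp (t * y * Complex.I) : ℂ)‖ = ρ := by
  have h1 : (t * y * Complex.I : ℂ) = ((t * y : ℝ) : ℂ) * Complex.I := by push_cast; ring
  rw [norm_mul, h1, Complex.norm_exp_ofReal_mul_I, mul_one, Complex.norm_real,
    Real.norm_of_nonneg h0.le]

theorem XiReg_norm_lam {ρ : ℝ} (h0 : 0 < ρ) (h1 : ρ < 1) (y : ℝ) {t : ℝ} (ht : 0 < t) :
    ‖Lam (ρ * Complex.exp (t * y * Complex.I)) t‖ ≤ LamR ρ t := by
  have hX := XiReg_normX h0 y t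
  have hs := summable_lam (X := (ρ * Complex.exp (t * y * Complex.I) : ℂ)) (by rw [hX]; exact h1) ht
  unfold Lam
  refine (norm_tsum_le_tsum_norm hs).trans ?_
  rw [XiReg_lamR]
  refine le_of_eq (tsum_congr fun m => ?_)
  rw [XiReg_norm ht, hX]

theorem Xi_re_le {ρ : ℝ} (h0 : 0 < ρ) (h1 : ρ < 1) (y : ℝ) {t : ℝ} (ht : 0 < t) :
    (Xi ρ y t).re ≤ 0 := by
  unfold Xi
  rw [Complex.sub_re, Complex.ofReal_re]
  have h2 := XiReg_norm_lam h0 h1 y ht
  have h3 := Complex.re_le_norm (Lam (ρ * Complex.exp (t * y * Complex.I)) t)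
  linarith

theorem continuous_Xi {ρ : ℝ} (h0 : 0 < ρ) (h1 : ρ < 1) {t : ℝ} (ht : 0 < t) :
    Continuous fun y : ℝ => Xi ρ y t := by
  unfold Xi
  refine Continuous.sub ?_ continuous_const
  unfold Lam
  have hs := summable_lam (X := (ρ : ℂ)) (by
    rw [Complex.norm_real, Real.norm_of_nonneg h0.le]; exact h1) ht
  refine continuous_tsum (fun m => ?_) hs (fun m y => ?_)
  · refine Continuous.div_const (Continuous.pow ?_ _) _
    refine continuous_const.mul (Complex.continuous_exp.comp ?_)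
    exact (continuous_const.mul Complex.continuous_ofReal).mul continuous_const
  · rw [XiReg_norm ht, XiReg_norm ht, XiReg_normX h0, Complex.norm_real,
      Real.norm_of_nonneg h0.le]

theorem norm_g_le {a h d Q₁ Q₂ : ℝ} (hQ : NahmSol a h d Q₁ Q₂) {t : ℝ} (ht : 0 < t)
    (w : ℝ × ℝ) : ‖g a h d Q₁ Q₂ t w‖ ≤ Real.exp (-((w.1 ^ 2 + w.2 ^ 2) / 2)) := by
  unfold g
  rw [Complex.norm_exp]
  apply Real.exp_le_exp.2
  have h1 := Xi_re_le (ρ := 1 - Q₁) (by linarith [hQ.lt₁]) (by linarith [hQ.pos₁]) (Lw1 a w) ht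
  have h2 := Xi_re_le (ρ := 1 - Q₂) (by linarith [hQ.lt₂]) (by linarith [hQ.pos₂])
    (Lw2 a h d w) ht
  rw [Complex.add_re, Complex.add_re, Complex.sub_re, Complex.neg_re, Complex.ofReal_re,
    Complex.re_ofReal_mul, Complex.I_re, mul_zero]
  linarith

theorem continuous_g {a h d Q₁ Q₂ : ℝ} (hQ : NahmSol a h d Q₁ Q₂) {t : ℝ} (ht : 0 < t) :
    Continuous fun w : ℝ × ℝ => g a h d Q₁ Q₂ t w := by
  unfold g
  refine Complex.continuous_exp.comp ?_
  have c1 : Continuous fun w : ℝ × ℝ => Lw1 a w := continuous_const.mul continuous_fst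
  have c2 : Continuous fun w : ℝ × ℝ => Lw2 a h d w :=
    (continuous_const.mul continuous_fst).add (continuous_const.mul continuous_snd)
  have h1 := (continuous_Xi (ρ := 1 - Q₁) (by linarith [hQ.lt₁]) (by linarith [hQ.pos₁]) ht).comp c1
  have h2 := (continuous_Xi (ρ := 1 - Q₂) (by linarith [hQ.lt₂]) (by linarith [hQ.pos₂]) ht).comp c2
  refine Continuous.add (Continuous.add (Continuous.sub ?_ ?_) ?_) ?_
  · refine Continuous.neg (Complex.continuous_ofReal.comp ?_)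
    exact ((continuous_fst.pow 2).add (continuous_snd.pow 2)).div_const _
  · refine Continuous.mul (Complex.continuous_ofReal.comp ?_) continuous_const
    exact ((continuous_fst.mul continuous_const).add
      (continuous_snd.mul continuous_const)).div_const _
  · exact h1
  · exact h2

theorem XiReg_bound (M : ℕ) (u v : ℝ) :
    (1 + |u| + |v|) ^ M * Real.exp (-((u ^ 2 + v ^ 2) / 2)) ≤
      (M.factorial * Real.exp 3) *
        (Real.exp (-(1 / 4) * u ^ 2) * Real.exp (-(1 / 4) * v ^ 2)) := by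
  have hx : 0 ≤ 1 + |u| + |v| := by positivity
  have h1 : (1 + |u| + |v|) ^ M ≤ M.factorial * Real.exp (1 + |u| + |v|) := by
    have h2 := Real.pow_div_factorial_le_exp (1 + |u| + |v|) hx M
    rw [div_le_iff₀ (by positivity)] at h2
    linarith
  have h3 : Real.exp (1 + |u| + |v|) * Real.exp (-((u ^ 2 + v ^ 2) / 2)) ≤
      Real.exp 3 * (Real.exp (-(1 / 4) * u ^ 2) * Real.exp (-(1 / 4) * v ^ 2)) := by
    rw [← Real.exp_add, ← Real.exp_add, ← Real.exp_add]
    apply Real.exp_le_exp.2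
    have hu : u ^ 2 = |u| ^ 2 := (sq_abs u).symm
    have hv : v ^ 2 = |v| ^ 2 := (sq_abs v).symm
    rw [hu, hv]
    nlinarith [sq_nonneg (|u| - 2), sq_nonneg (|v| - 2)]
  calc (1 + |u| + |v|) ^ M * Real.exp (-((u ^ 2 + v ^ 2) / 2))
      ≤ (M.factorial * Real.exp (1 + |u| + |v|)) * Real.exp (-((u ^ 2 + v ^ 2) / 2)) :=
        mul_le_mul_of_nonneg_right h1 (Real.exp_pos _).le
    _ = M.factorial * (Real.exp (1 + |u| + |v|) * Real.exp (-((u ^ 2 + v ^ 2) / 2))) := by ring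
    _ ≤ M.factorial * (Real.exp 3 *
        (Real.exp (-(1 / 4) * u ^ 2) * Real.exp (-(1 / 4) * v ^ 2))) :=
        mul_le_mul_of_nonneg_left h3 (by positivity)
    _ = _ := by ring

theorem integrable_gauss_poly (M : ℕ) : Integrable fun w : ℝ × ℝ =>
    (1 + |w.1| + |w.2|) ^ M * Real.exp (-((w.1 ^ 2 + w.2 ^ 2) / 2)) := by
  have h1 : Integrable (fun x : ℝ => Real.exp (-(1 / 4) * x ^ 2)) :=
    integrable_exp_neg_mul_sq (by norm_num)
  have h2 : Integrable (fun w : ℝ × ℝ =>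
      Real.exp (-(1 / 4) * w.1 ^ 2) * Real.exp (-(1 / 4) * w.2 ^ 2)) := h1.mul_prod h1
  refine Integrable.mono' (h2.const_mul (M.factorial * Real.exp 3)) ?_ ?_
  · refine Continuous.aestronglyMeasurable ?_
    fun_prop
  · refine Filter.Eventually.of_forall fun w => ?_
    rw [Real.norm_of_nonneg (by positivity)]
    exact XiReg_bound M w.1 w.2

end Pool.Agent.Lib.MP_8ce23f_nt.R2
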