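import Pool.Agent.Lib.MP_8ce23f_nt.R2.LamSum
import Pool.Agent.Lib.MP_8ce23f_nt.R2.XiReg

/-!
# The exact integral representation

Job Exact.  Put `ρ_j = 1 - Q_j`, `q = exp (-t²)`.  By `tsum_pow_div_rp`,
`exp (Xi ρ y t) = exp (-LamR ρ t) ∑_n ρ^n exp (i t n y)/(q)_n`, absolutely summable uniformly in `y`.
So `(2π)⁻¹ ∫ exp (i t w·s) g dw = exp (-LamR ρ₁ - LamR ρ₂) ∑_{n} ρ₁^{n₁} ρ₂^{n₂}/((q)_{n₁} (q)_{n₂})
  (2π)⁻¹ ∫ exp (-|w|²/2 + i w·(t s - κ/t + t Lᵀ n)) dw` (`hasSum_integral_of_summable_integral_norm`),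
the Gaussian integral is `exp (-|t s - κ/t + t Lᵀ n|²/2)`
(`integral_prod_mul` and `integral_cexp_quadratic` or `fourierIntegral_gaussian` in one variable), and
`|t s - κ/t + t Lᵀ n|² = t²|s|² + |κ|²/t² + t² nᵀAn - 2 s·κ + 2 t² (x n₁ + y n₂) - 2 κ·Lᵀn` with
`s·κ = -(x log Q₁ + y log Q₂)` and `κ·Lᵀn = -((a log Q₁ + h log Q₂) n₁ + (h log Q₁ + d log Q₂) n₂)
 = -(n₁ log ρ₁ + n₂ log ρ₂)` (`NahmSol.eq₁`, `eq₂`, `L Lᵀ = A`).
-/

open Filter Topology Asymptotics MeasureTheory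
open scoped Real

namespace Pool.Agent.Lib.MP_8ce23f_nt.R2

/-- The Cholesky factorisation. -/
theorem cholesky {a h d : ℝ} (hA : PD a h d) : 0 < l11 a ∧ 0 < l22 a h d ∧ l11 a ^ 2 = a ∧
    l11 a * l21 a h = h ∧ l21 a h ^ 2 + l22 a h d ^ 2 = d := by
  have ha := hA.ha
  have h1 : 0 < √a := Real.sqrt_pos.2 ha
  have h2 : √a ^ 2 = a := Real.sq_sqrt ha.le
  have h3 : 0 < d - h ^ 2 / a := by
    have := hA.hdet
    rw [sub_pos, div_lt_iff₀ ha]
    linarith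
  unfold l11 l21 l22
  refine ⟨h1, Real.sqrt_pos.2 h3, h2, by field_simp, ?_⟩
  rw [div_pow, h2, Real.sq_sqrt h3.le]
  ring

theorem exact_gauss_one (z : ℝ) :
    ∫ w : ℝ, Complex.exp (((-(w ^ 2 / 2) : ℝ) : ℂ) + ((w * z : ℝ) : ℂ) * Complex.I)
      = ((√(2 * π) * Real.exp (-(z ^ 2 / 2)) : ℝ) : ℂ) := by
  have h := integral_cexp_quadratic (b := -(1 / 2 : ℂ)) (by norm_num) (z * Complex.I) 0
  have e1 : ∀ w : ℝ, Complex.exp (((-(w ^ 2 / 2) : ℝ) : ℂ) + ((w * z : ℝ) : ℂ) * Complex.I)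
      = Complex.exp (-(1 / 2 : ℂ) * (w : ℂ) ^ 2 + z * Complex.I * w + 0) := by
    intro w
    congr 1
    push_cast
    ring
  simp only [e1]
  rw [h]
  have e2 : (π : ℂ) / -(-(1 / 2 : ℂ)) = ((2 * π : ℝ) : ℂ) := by push_cast; ring
  have e3 : (0 : ℂ) - (z * Complex.I) ^ 2 / (4 * -(1 / 2 : ℂ)) = ((-(z ^ 2 / 2) : ℝ) : ℂ) := by
    rw [mul_pow, Complex.I_sq]
    push_cast
    ring
  have e4 : (((2 * π : ℝ) : ℂ)) ^ (1 / 2 : ℂ) = ((√(2 * π) : ℝ) : ℂ) := by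
    rw [Real.sqrt_eq_rpow, Complex.ofReal_cpow (by positivity)]
    congr 1
    push_cast
    rfl
  rw [e2, e3, e4, ← Complex.ofReal_exp, ← Complex.ofReal_mul]

/-- The two-dimensional Gaussian integral. -/
theorem gauss_integral (z₁ z₂ : ℝ) :
    ∫ w : ℝ × ℝ, Complex.exp (-((w.1 ^ 2 + w.2 ^ 2) / 2 : ℝ) + ((w.1 * z₁ + w.2 * z₂ : ℝ) : ℂ) *
      Complex.I) = ((2 * π * Real.exp (-((z₁ ^ 2 + z₂ ^ 2) / 2)) : ℝ) : ℂ) := by
  have e1 : ∀ w : ℝ × ℝ, Complex.exp (-((w.1 ^ 2 + w.2 ^ 2) / 2 : ℝ)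
      + ((w.1 * z₁ + w.2 * z₂ : ℝ) : ℂ) * Complex.I)
      = Complex.exp (((-(w.1 ^ 2 / 2) : ℝ) : ℂ) + ((w.1 * z₁ : ℝ) : ℂ) * Complex.I)
        * Complex.exp (((-(w.2 ^ 2 / 2) : ℝ) : ℂ) + ((w.2 * z₂ : ℝ) : ℂ) * Complex.I) := by
    intro w
    rw [← Complex.exp_add]
    congr 1
    push_cast
    ring
  simp only [e1]
  rw [Measure.volume_eq_prod, integral_prod_mul
    (f := fun w : ℝ => Complex.exp (((-(w ^ 2 / 2) : ℝ) : ℂ) + ((w * z₁ : ℝ) : ℂ) * Complex.I))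
    (g := fun w : ℝ => Complex.exp (((-(w ^ 2 / 2) : ℝ) : ℂ) + ((w * z₂ : ℝ) : ℂ) * Complex.I)),
    exact_gauss_one, exact_gauss_one, ← Complex.ofReal_mul]
  congr 1
  have h1 : √(2 * π) * √(2 * π) = 2 * π := Real.mul_self_sqrt (by positivity)
  have h2 : Real.exp (-((z₁ ^ 2 + z₂ ^ 2) / 2))
      = Real.exp (-(z₁ ^ 2 / 2)) * Real.exp (-(z₂ ^ 2 / 2)) := by
    rw [← Real.exp_add]
    congr 1
    ring
  have h3 : ∀ r A B : ℝ, r * A * (r * B) = (r * r) * (A * B) := by intros; ring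
  rw [h3, h1, h2]

theorem exact_exponent {a h d Q₁ Q₂ : ℝ} (hA : PD a h d) (hQ : NahmSol a h d Q₁ Q₂)
    (x y : ℝ) {t : ℝ} (ht : 0 < t) (m n : ℝ) :
    t ^ 2 * ((s1 a x ^ 2 + s2 a h d x y ^ 2) / 2)
      + (m * Real.log (1 - Q₁) + n * Real.log (1 - Q₂))
      - ((t * s1 a x - κ1 a h Q₁ Q₂ / t + t * (m * l11 a + n * l21 a h)) ^ 2
        + (t * s2 a h d x y - κ2 a h d Q₂ / t + t * (n * l22 a h d)) ^ 2) / 2
      = -(t ^ 2 * ((a * m ^ 2 + 2 * h * m * n + d * n ^ 2) / 2 + x * m + y * n))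
        - (κ1 a h Q₁ Q₂ ^ 2 + κ2 a h d Q₂ ^ 2) / (2 * t ^ 2)
        - (x * Real.log Q₁ + y * Real.log Q₂) := by
  obtain ⟨hl1, hl2, e1, e2, e3⟩ := cholesky hA
  have hs1 : s1 a x * l11 a = x := by unfold s1; field_simp
  have hs2 : s1 a x * l21 a h + s2 a h d x y * l22 a h d = y := by
    unfold s2; field_simp; ring
  rw [hQ.eq₁, hQ.eq₂]
  unfold κ1 κ2
  set u := s1 a x with hu
  set v := s2 a h d x y with hv
  set p := l11 a with hp
  set r := l21 a h with hr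
  set w := l22 a h d with hw
  set A := Real.log Q₁ with hAA
  set B := Real.log Q₂ with hBB
  rw [← hs1, ← hs2, ← e3, ← e2, ← e1]
  field_simp
  ring

theorem FN_eq_integral {a h d Q₁ Q₂ : ℝ} (hA : PD a h d) (hQ : NahmSol a h d Q₁ Q₂)
    (x y : ℝ) {t : ℝ} (ht : 0 < t) :
    (FN a h d Q₁ Q₂ x y t : ℂ) =
      Complex.exp ((t ^ 2 * ((s1 a x ^ 2 + s2 a h d x y ^ 2) / 2) : ℝ)) *
        ((2 * π : ℂ)⁻¹ * ∫ w : ℝ × ℝ,
          Complex.exp ((t * (w.1 * s1 a x + w.2 * s2 a h d x y) : ℝ) * Complex.I) *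
            g a h d Q₁ Q₂ t w) := by
  have hρ1 : 0 < 1 - Q₁ := by linarith [hQ.lt₁]
  have hρ1' : 1 - Q₁ < 1 := by linarith [hQ.pos₁]
  have hρ2 : 0 < 1 - Q₂ := by linarith [hQ.lt₂]
  have hρ2' : 1 - Q₂ < 1 := by linarith [hQ.pos₂]
  have hq0 : 0 ≤ Real.exp (-t ^ 2) := (Real.exp_pos _).le
  have hq1 : Real.exp (-t ^ 2) < 1 := by
    rw [Real.exp_lt_one_iff]
    nlinarith
  have hrp : ∀ n, 0 < rp (Real.exp (-t ^ 2)) n := fun n => rp_pos hq0 hq1 n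
  set q := Real.exp (-t ^ 2) with hq
  set ρ1 := 1 - Q₁ with hρ1d
  set ρ2 := 1 - Q₂ with hρ2d
  set c : ℕ × ℕ → ℝ := fun n => (ρ1 ^ n.1 / rp q n.1) * (ρ2 ^ n.2 / rp q n.2) with hc
  set z1 : ℕ × ℕ → ℝ := fun n =>
    t * s1 a x - κ1 a h Q₁ Q₂ / t + t * (n.1 * l11 a + n.2 * l21 a h) with hz1
  set z2 : ℕ × ℕ → ℝ := fun n =>
    t * s2 a h d x y - κ2 a h d Q₂ / t + t * (n.2 * l22 a h d) with hz2
  set Fn : ℕ × ℕ → ℝ × ℝ → ℂ := fun n w => (c n : ℂ) *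
    Complex.exp (-((w.1 ^ 2 + w.2 ^ 2) / 2 : ℝ) + ((w.1 * z1 n + w.2 * z2 n : ℝ) : ℂ) *
      Complex.I) with hFn
  have hc0 : ∀ n, 0 ≤ c n := fun n => by
    have h1 := hrp n.1
    have h2 := hrp n.2
    simp only [hc]
    positivity
  -- summability of the coefficients
  have hsr : ∀ ρ : ℝ, 0 < ρ → ρ < 1 → Summable fun n : ℕ => ρ ^ n / rp q n := by
    intro ρ h0 h1
    have h2 := summable_pow_div_rp (X := (ρ : ℂ)) (by
      rw [Complex.norm_real, Real.norm_eq_abs, abs_of_pos h0]; exact h1) ht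
    refine h2.congr fun n => ?_
    rw [norm_div, norm_pow, Complex.norm_real, Complex.norm_real, Real.norm_eq_abs,
      Real.norm_eq_abs, abs_of_pos h0, abs_of_pos (hrp n)]
  have hcs : Summable c := by
    have h1 := (hsr ρ1 hρ1 hρ1').mul_of_nonneg (hsr ρ2 hρ2 hρ2')
      (fun n => by have := hrp n; positivity) (fun n => by have := hrp n; positivity)
    exact h1
  have hnorm : ∀ n w, ‖Fn n w‖ = c n * Real.exp (-((w.1 ^ 2 + w.2 ^ 2) / 2)) := by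
    intro n w
    simp only [hFn]
    rw [norm_mul, Complex.norm_real, Real.norm_eq_abs, abs_of_nonneg (hc0 n), Complex.norm_exp]
    rw [Complex.add_re, Complex.neg_re, Complex.ofReal_re, Complex.re_ofReal_mul, Complex.I_re,
      mul_zero, add_zero]
  have hgi : Integrable fun w : ℝ × ℝ => Real.exp (-((w.1 ^ 2 + w.2 ^ 2) / 2)) := by
    have := integrable_gauss_poly 0
    simpa using this
  have hint : ∀ n, Integrable (Fn n) := by
    intro n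
    refine (hgi.const_mul (c n)).mono' ?_ (Eventually.of_forall fun w => (hnorm n w).le)
    refine Continuous.aestronglyMeasurable ?_
    simp only [hFn]
    fun_prop
  have hsn : Summable fun n => ∫ w, ‖Fn n w‖ := by
    simp only [hnorm]
    simp only [integral_const_mul]
    exact hcs.mul_right _
  -- the integrand
  have hlam : ∀ (ρ y : ℝ), 0 < ρ → ρ < 1 → Complex.exp (Xi ρ y t)
      = Complex.exp (-(LamR ρ t : ℂ)) *
        ∑' n : ℕ, (ρ * Complex.exp (t * y * Complex.I)) ^ n / (rp q n : ℂ) := by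
    intro ρ y h0 h1
    have hX : ‖(ρ : ℂ) * Complex.exp (t * y * Complex.I)‖ < 1 := by
      have e : (t : ℂ) * y * Complex.I = ((t * y : ℝ) : ℂ) * Complex.I := by push_cast; rfl
      rw [norm_mul, e, Complex.norm_exp_ofReal_mul_I, mul_one, Complex.norm_real,
        Real.norm_eq_abs, abs_of_pos h0]
      exact h1
    rw [tsum_pow_div_rp hX ht, ← Complex.exp_add]
    congr 1
    unfold Xi
    ring
  have hsum : ∀ (ρ y : ℝ), 0 < ρ → ρ < 1 → Summable fun n : ℕ =>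
      ‖(ρ * Complex.exp (t * y * Complex.I)) ^ n / (rp q n : ℂ)‖ := by
    intro ρ y h0 h1
    have hX : ‖(ρ : ℂ) * Complex.exp (t * y * Complex.I)‖ < 1 := by
      have e : (t : ℂ) * y * Complex.I = ((t * y : ℝ) : ℂ) * Complex.I := by push_cast; rfl
      rw [norm_mul, e, Complex.norm_exp_ofReal_mul_I, mul_one, Complex.norm_real,
        Real.norm_eq_abs, abs_of_pos h0]
      exact h1
    exact summable_pow_div_rp hX ht
  have hkey : ∀ w : ℝ × ℝ,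
      Complex.exp ((t * (w.1 * s1 a x + w.2 * s2 a h d x y) : ℝ) * Complex.I) *
        g a h d Q₁ Q₂ t w
      = Complex.exp (-(LamR ρ1 t : ℂ)) * Complex.exp (-(LamR ρ2 t : ℂ)) * ∑' n, Fn n w := by
    intro w
    have hg : g a h d Q₁ Q₂ t w = Complex.exp (-((w.1 ^ 2 + w.2 ^ 2) / 2 : ℝ) -
        ((w.1 * κ1 a h Q₁ Q₂ + w.2 * κ2 a h d Q₂) / t : ℝ) * Complex.I) *
        (Complex.exp (Xi ρ1 (Lw1 a w) t) * Complex.exp (Xi ρ2 (Lw2 a h d w) t)) := by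
      unfold g
      rw [← Complex.exp_add, ← Complex.exp_add]
      congr 1
      ring
    rw [hg, hlam ρ1 _ hρ1 hρ1', hlam ρ2 _ hρ2 hρ2']
    have hprod := tsum_mul_tsum_of_summable_norm (hsum ρ1 (Lw1 a w) hρ1 hρ1')
      (hsum ρ2 (Lw2 a h d w) hρ2 hρ2')
    have e1 : ∀ (A B C D E F : ℂ), A * (B * (C * E * (D * F))) = C * D * ((A * B) * (E * F)) := by
      intros; ring
    rw [e1, hprod, ← tsum_mul_left]
    congr 1
    refine tsum_congr fun n => ?_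
    simp only [hFn, hc]
    rw [mul_pow, mul_pow, ← Complex.exp_nat_mul, ← Complex.exp_nat_mul]
    have e2 : ∀ (A B C D E F G H : ℂ),
        A * B * (C * D / E * (F * G / H)) = (C / E * (F / H)) * (A * B * D * G) := by
      intros; ring
    rw [e2, ← Complex.exp_add, ← Complex.exp_add, ← Complex.exp_add]
    congr 1
    · push_cast; rfl
    · congr 1
      simp only [hz1, hz2, Lw1, Lw2]
      push_cast
      ring
  simp only [hkey]
  rw [integral_const_mul, ← integral_tsum_of_summable_integral_norm hint hsn]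
  have hI : ∀ n, ∫ w, Fn n w
      = ((c n * (2 * π * Real.exp (-((z1 n ^ 2 + z2 n ^ 2) / 2))) : ℝ) : ℂ) := by
    intro n
    simp only [hFn]
    rw [integral_const_mul, gauss_integral, ← Complex.ofReal_mul]
  simp only [hI]
  rw [← Complex.ofReal_tsum]
  -- pass to the reals
  have hreal : FN a h d Q₁ Q₂ x y t
      = Real.exp (t ^ 2 * ((s1 a x ^ 2 + s2 a h d x y ^ 2) / 2)) * ((2 * π)⁻¹ *
        (Real.exp (-LamR ρ1 t) * Real.exp (-LamR ρ2 t) *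
          ∑' n, c n * (2 * π * Real.exp (-((z1 n ^ 2 + z2 n ^ 2) / 2))))) := by
    unfold FN F Nf
    rw [← tsum_mul_right, ← tsum_mul_right, ← tsum_mul_left, ← tsum_mul_left, ← tsum_mul_left]
    refine tsum_congr fun n => ?_
    have hn1 := (hrp n.1).ne'
    have hn2 := (hrp n.2).ne'
    have hexp := exact_exponent hA hQ x y ht (n.1 : ℝ) (n.2 : ℝ)
    have hp1 : ρ1 ^ n.1 = Real.exp (n.1 * Real.log ρ1) := by
      rw [mul_comm, Real.exp_mul, Real.exp_log hρ1, Real.rpow_natCast]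
    have hp2 : ρ2 ^ n.2 = Real.exp (n.2 * Real.log ρ2) := by
      rw [mul_comm, Real.exp_mul, Real.exp_log hρ2, Real.rpow_natCast]
    simp only [Fterm, hc]
    rw [hp1, hp2, ← hq]
    have hpi : (2 * π) ≠ 0 := by positivity
    have e3 : Real.exp (t ^ 2 * ((s1 a x ^ 2 + s2 a h d x y ^ 2) / 2))
        * ((2 * π)⁻¹ * (Real.exp (-LamR ρ1 t) * Real.exp (-LamR ρ2 t)
          * (Real.exp (n.1 * Real.log ρ1) / rp q n.1 * (Real.exp (n.2 * Real.log ρ2) / rp q n.2)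
            * (2 * π * Real.exp (-((z1 n ^ 2 + z2 n ^ 2) / 2))))))
        = (Real.exp (t ^ 2 * ((s1 a x ^ 2 + s2 a h d x y ^ 2) / 2))
          * Real.exp (n.1 * Real.log ρ1) * Real.exp (n.2 * Real.log ρ2)
          * Real.exp (-((z1 n ^ 2 + z2 n ^ 2) / 2))
          * (Real.exp (-LamR ρ1 t) * Real.exp (-LamR ρ2 t))) / (rp q n.1 * rp q n.2) := by
      field_simp
    rw [e3, div_mul_eq_mul_div, div_mul_eq_mul_div]
    congr 1
    rw [← Real.exp_add, ← Real.exp_add, ← Real.exp_add, ← Real.exp_add, ← Real.exp_add,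
      ← Real.exp_add, ← Real.exp_add]
    congr 1
    simp only [hz1, hz2]
    linarith [hexp]
  rw [hreal]
  push_cast
  ring

end Pool.Agent.Lib.MP_8ce23f_nt.R2
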