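import Pool.Agent.Lib.MP_8ce23f_nt.R2.Defs

/-!
# Remainder of the exponential series

Job ExpRem.  By induction on `J`:
`exp z - ∑_{j < J+1} z^j/j! = z ∫_0^1 (exp (s z) - ∑_{j < J} (s z)^j/j!) ds`, and
`‖s z‖^J/J! max (1, exp (s Re z)) ≤ s^J ‖z‖^J/J! max (1, exp (Re z))` for `0 ≤ s ≤ 1`.
(Alternatively: prove the statement for `s z` by the mean value inequality
`image_norm_le_of_norm_deriv_right_le_deriv_boundary` on `[0,1]`.)
-/

open Filter Topology Asymptotics MeasureTheory
open scoped Real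

namespace Pool.Agent.Lib.MP_8ce23f_nt.R2

theorem exprem_deriv (z : ℂ) (J : ℕ) (s : ℝ) :
    HasDerivAt (fun s : ℝ => Complex.exp (s * z)
        - ∑ j ∈ Finset.range (J + 1), ((s : ℂ) * z) ^ j / (j.factorial : ℂ))
      (z * (Complex.exp (s * z) - ∑ j ∈ Finset.range J, ((s : ℂ) * z) ^ j / (j.factorial : ℂ))) s := by
  have h0 : HasDerivAt (fun s : ℝ => (s : ℂ) * z) z s := by
    have := (Complex.ofRealCLM.hasDerivAt (x := s)).mul_const z
    simpa using this
  have h1 : HasDerivAt (fun s : ℝ => Complex.exp (s * z)) (Complex.exp (s * z) * z) s := h0.cexp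
  have h2 : HasDerivAt (fun s : ℝ => ∑ j ∈ Finset.range J,
      ((s : ℂ) * z) ^ (j + 1) / ((j + 1).factorial : ℂ))
      (∑ j ∈ Finset.range J, z * (((s : ℂ) * z) ^ j / (j.factorial : ℂ))) s := by
    refine HasDerivAt.fun_sum fun j _ => ?_
    have h3 := (h0.pow (j + 1)).div_const ((j + 1).factorial : ℂ)
    refine h3.congr_deriv ?_
    have hf : ((j + 1).factorial : ℂ) = ((j : ℂ) + 1) * (j.factorial : ℂ) := by
      rw [Nat.factorial_succ]; push_cast; ring
    have hj : (j.factorial : ℂ) ≠ 0 := by exact_mod_cast Nat.factorial_ne_zero j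
    have hj1 : ((j : ℂ) + 1) ≠ 0 := by exact_mod_cast Nat.succ_ne_zero j
    rw [hf, Nat.add_sub_cancel]
    push_cast
    field_simp
  have h4 := h1.sub (h2.add_const (1 : ℂ))
  have h5 : HasDerivAt (fun s : ℝ => Complex.exp (s * z)
        - ∑ j ∈ Finset.range (J + 1), ((s : ℂ) * z) ^ j / (j.factorial : ℂ))
      (Complex.exp (s * z) * z - ∑ j ∈ Finset.range J, z * (((s : ℂ) * z) ^ j / (j.factorial : ℂ)))
      s := by
    refine h4.congr_of_eventuallyEq (Eventually.of_forall fun t => ?_)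
    simp only [Pi.sub_apply]
    rw [Finset.sum_range_succ']
    simp
  refine h5.congr_deriv ?_
  rw [← Finset.mul_sum]
  ring

theorem exprem_main (z : ℂ) (J : ℕ) : ∀ s : ℝ, s ∈ Set.Icc (0 : ℝ) 1 →
    ‖Complex.exp (s * z) - ∑ j ∈ Finset.range J, ((s : ℂ) * z) ^ j / (j.factorial : ℂ)‖ ≤
      s ^ J * (‖z‖ ^ J / (J.factorial : ℝ) * max 1 (Real.exp z.re)) := by
  induction J with
  | zero =>
    intro s hs
    simp only [Finset.range_zero, Finset.sum_empty, sub_zero, pow_zero, one_mul,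
      Nat.factorial_zero, Nat.cast_one, div_one]
    rw [Complex.norm_exp]
    have : ((s : ℂ) * z).re = s * z.re := by simp
    rw [this]
    rcases le_total 0 z.re with h | h
    · refine le_max_of_le_right (Real.exp_le_exp.2 ?_)
      nlinarith [hs.1, hs.2]
    · refine le_max_of_le_left ?_
      rw [← Real.exp_zero]
      refine Real.exp_le_exp.2 ?_
      nlinarith [hs.1, hs.2]
  | succ J ih =>
    set Mx := max 1 (Real.exp z.re) with hMx
    have hf : ((J + 1).factorial : ℝ) = ((J : ℝ) + 1) * (J.factorial : ℝ) := by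
      rw [Nat.factorial_succ]; push_cast; ring
    have hJ : (J.factorial : ℝ) ≠ 0 := by exact_mod_cast Nat.factorial_ne_zero J
    have hJ1 : ((J : ℝ) + 1) ≠ 0 := by positivity
    refine image_norm_le_of_norm_deriv_right_le_deriv_boundary
      (f := fun s : ℝ => Complex.exp (s * z)
        - ∑ j ∈ Finset.range (J + 1), ((s : ℂ) * z) ^ j / (j.factorial : ℂ))
      (f' := fun s : ℝ => z * (Complex.exp (s * z)
        - ∑ j ∈ Finset.range J, ((s : ℂ) * z) ^ j / (j.factorial : ℂ)))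
      (B := fun s => s ^ (J + 1) * (‖z‖ ^ (J + 1) / ((J + 1).factorial : ℝ) * Mx))
      (B' := fun s => s ^ J * (‖z‖ ^ (J + 1) / (J.factorial : ℝ) * Mx)) ?_ ?_ ?_ ?_ ?_
    · exact fun s _ => (exprem_deriv z J s).continuousAt.continuousWithinAt
    · exact fun s _ => (exprem_deriv z J s).hasDerivWithinAt
    · simp only [Complex.ofReal_zero, zero_mul, Complex.exp_zero]
      rw [Finset.sum_range_succ']
      simp
    · intro s
      have h := (hasDerivAt_pow (J + 1) s).mul_const
        (‖z‖ ^ (J + 1) / ((J + 1).factorial : ℝ) * Mx)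
      refine h.congr_deriv ?_
      rw [hf, Nat.add_sub_cancel]
      push_cast
      field_simp
    · intro s hs
      rw [norm_mul]
      have h1 := ih s ⟨hs.1, hs.2.le⟩
      calc ‖z‖ * _ ≤ ‖z‖ * (s ^ J * (‖z‖ ^ J / (J.factorial : ℝ) * Mx)) :=
            mul_le_mul_of_nonneg_left h1 (norm_nonneg _)
        _ = s ^ J * (‖z‖ ^ (J + 1) / (J.factorial : ℝ) * Mx) := by ring

theorem exp_sub_sum_le (z : ℂ) (J : ℕ) :
    ‖Complex.exp z - ∑ j ∈ Finset.range J, z ^ j / (j.factorial : ℂ)‖ ≤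
      ‖z‖ ^ J / (J.factorial : ℝ) * max 1 (Real.exp z.re) := by
  have := exprem_main z J 1 ⟨zero_le_one, le_rfl⟩
  simpa using this

end Pool.Agent.Lib.MP_8ce23f_nt.R2
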