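import Pool.Agent.Lib.MP_8ce23f_nt.R2.ClassBase

/-!
# The second level

Job Second.  Here `(1-h)² = a d`, `λ = 1 - h > 0`, `a > 0`, `β = (a, -λ)`, `D₁ D₂ = 1`.
Put `W = a + λ D₁` (constant coefficient positive, so a unit).  The solution of `(A+D) U = β` is
`W U₁ = a`, `W U₂ = -a D₁` (check `e₁, e₂` and use that the determinant
`(a+D₁)(d+D₂) - h² = W²/(a D₁)`, i.e. `a D₁ ((a+D₁)(d+D₂) - h²) = W²`, is nonzero).
The matrix `M = (A+D)⁻¹`: `W² M₁₁ = λ² D₁ + a`, `W² M₂₂ = (a+D₁) a D₁`.  The equations for `Z` say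
`(A+D) Z = ½ (D_i - D_i(1+D_i) M_ii)_i` (use `AM = 1 - DM`, `AMA = A - D + DMD`), hence
`β·Z = U·(A+D) Z = ½ ∑ U_i (D_i - D_i(1+D_i) M_ii)` and the computation gives
`W² (β·Z) = a (a-λ) D₁`.
(i) `U₂` is not constant: `U₂ = r` gives `-a D₁ = r (a + λ D₁)`, and `D₁` is nonconstant, so
`r a = 0`, `a + r λ = 0`, contradiction.
(ii) `ρ U₂ + β·Z = r` gives `-ρ a D₁ (a + λ D₁) + a (a-λ) D₁ = r (a+λD₁)²`, a polynomial identity
in `D₁`: constant term `r = 0`; `z²`: `ρ a λ = 0` so `ρ = 0`; `z`: `a (a-λ) = 0`.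
-/

open Filter Topology
open scoped Real

namespace Pool.Agent.Lib.MP_8ce23f_nt.R2

variable {a h d : ℝ} {D₁ D₂ U₁ U₂ : PowerSeries ℂ} {δ₁ δ₂ : ℝ}

/-- The relations between the constants. -/
private theorem Second_const (hl : (1 - h) ^ 2 = a * d) :
    (1 - PowerSeries.C (h : ℂ)) ^ 2 = PowerSeries.C (a : ℂ) * PowerSeries.C (d : ℂ) := by
  have h1 : (1 - (h : ℂ)) ^ 2 = (a : ℂ) * (d : ℂ) := by exact_mod_cast congrArg (fun t : ℝ => (t : ℂ)) hl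
  have h2 := congrArg (PowerSeries.C (R := ℂ)) h1
  simpa using h2

private theorem Second_W_ne (ha : 0 < a) (hl' : 0 < 1 - h)
    (S : Sys a h d a (-(1 - h : ℝ)) D₁ D₂ U₁ U₂ δ₁ δ₂) :
    PowerSeries.C (a : ℂ) + (1 - PowerSeries.C (h : ℂ)) * D₁ ≠ 0 := by
  intro h0
  have h1 := congrArg PowerSeries.constantCoeff h0
  simp only [map_add, map_mul, map_sub, map_one, map_zero, S.hD₁] at h1
  have h2 : PowerSeries.constantCoeff (PowerSeries.C (a : ℂ)) = (a : ℂ) := by simp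
  have h3 : PowerSeries.constantCoeff (PowerSeries.C (h : ℂ)) = (h : ℂ) := by simp
  rw [h2, h3] at h1
  have h4 : ((a + (1 - h) * δ₁ : ℝ) : ℂ) = 0 := by push_cast; exact h1
  have h5 : a + (1 - h) * δ₁ = 0 := by exact_mod_cast h4
  have h6 := mul_pos hl' S.δ₁_pos
  linarith

private theorem Second_U₁ (ha : 0 < a) (hl : (1 - h) ^ 2 = a * d) (hl' : 0 < 1 - h)
    (S : Sys a h d a (-(1 - h : ℝ)) D₁ D₂ U₁ U₂ δ₁ δ₂) (hDD : D₁ * D₂ = 1) :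
    U₁ * (PowerSeries.C (a : ℂ) + (1 - PowerSeries.C (h : ℂ)) * D₁) = PowerSeries.C (a : ℂ) := by
  have hW := Second_W_ne ha hl' S
  have L := Second_const hl
  have e₁ := S.e₁
  have e₂ := S.e₂
  have hβ : PowerSeries.C ((-(1 - h : ℝ) : ℝ) : ℂ) = -(1 - PowerSeries.C (h : ℂ)) := by
    push_cast; simp
  have hβ' : PowerSeries.C (-((1 - h : ℝ) : ℂ)) = -(1 - PowerSeries.C (h : ℂ)) := by
    push_cast; simp
  rw [hβ'] at e₂
  apply mul_right_cancel₀ hW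
  linear_combination (PowerSeries.C (a : ℂ) * D₁ * (PowerSeries.C (d : ℂ) + D₂)) * e₁
    - (PowerSeries.C (a : ℂ) * D₁ * PowerSeries.C (h : ℂ)) * e₂
    + (PowerSeries.C (a : ℂ) ^ 2 - U₁ * (PowerSeries.C (a : ℂ) ^ 2 + PowerSeries.C (a : ℂ) * D₁)) * hDD
    + (U₁ * (PowerSeries.C (a : ℂ) * D₁ + D₁ ^ 2) - PowerSeries.C (a : ℂ) * D₁) * L

private theorem Second_U₂ (ha : 0 < a) (hl : (1 - h) ^ 2 = a * d) (hl' : 0 < 1 - h)
    (S : Sys a h d a (-(1 - h : ℝ)) D₁ D₂ U₁ U₂ δ₁ δ₂) (hDD : D₁ * D₂ = 1) :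
    U₂ * (PowerSeries.C (a : ℂ) + (1 - PowerSeries.C (h : ℂ)) * D₁) =
      -(PowerSeries.C (a : ℂ) * D₁) := by
  have hW := Second_W_ne ha hl' S
  have L := Second_const hl
  have e₁ := S.e₁
  have e₂ := S.e₂
  have hβ' : PowerSeries.C (-((1 - h : ℝ) : ℂ)) = -(1 - PowerSeries.C (h : ℂ)) := by
    push_cast; simp
  rw [hβ'] at e₂
  apply mul_right_cancel₀ hW
  linear_combination (PowerSeries.C (a : ℂ) * D₁ * (PowerSeries.C (a : ℂ) + D₁)) * e₂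
    - (PowerSeries.C (a : ℂ) * D₁ * PowerSeries.C (h : ℂ)) * e₁
    - (U₂ * (PowerSeries.C (a : ℂ) ^ 2 + PowerSeries.C (a : ℂ) * D₁)) * hDD
    + (U₂ * (PowerSeries.C (a : ℂ) * D₁ + D₁ ^ 2)) * L

private theorem Second_D₁_nonconst (ha : 0 < a) (hl : (1 - h) ^ 2 = a * d) (hl' : 0 < 1 - h)
    (S : Sys a h d a (-(1 - h : ℝ)) D₁ D₂ U₁ U₂ δ₁ δ₂) (hDD : D₁ * D₂ = 1) (r : ℂ) :
    D₁ ≠ PowerSeries.C r := by
  apply S.D₁_nonconst
  intro h0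
  have h1 := Second_U₁ ha hl hl' S hDD
  rw [h0, zero_mul] at h1
  have h2 := congrArg PowerSeries.constantCoeff h1
  have h3 : PowerSeries.constantCoeff (PowerSeries.C (a : ℂ)) = (a : ℂ) := by simp
  rw [h3, map_zero] at h2
  have h4 : (a : ℝ) = 0 := by exact_mod_cast h2.symm
  linarith

/-- A quadratic relation satisfied by a nonconstant power series is trivial. -/
private theorem Second_quad {Y : PowerSeries ℂ} (hY : ∀ r : ℂ, Y ≠ PowerSeries.C r)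
    {c₀ c₁ c₂ : ℂ} (h : PowerSeries.C c₀ + PowerSeries.C c₁ * Y + PowerSeries.C c₂ * Y ^ 2 = 0) :
    c₀ = 0 ∧ c₁ = 0 ∧ c₂ = 0 := by
  have h1 : Polynomial.eval₂ (PowerSeries.C (R := ℂ)) Y
      (Polynomial.C c₀ + Polynomial.C c₁ * Polynomial.X + Polynomial.C c₂ * Polynomial.X ^ 2) = 0 := by
    simp only [Polynomial.eval₂_add, Polynomial.eval₂_mul, Polynomial.eval₂_C, Polynomial.eval₂_X,
      Polynomial.eval₂_pow]
    exact h
  have h2 := transcend hY h1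
  refine ⟨?_, ?_, ?_⟩
  · have := congrArg (fun p => Polynomial.coeff p 0) h2
    simpa [Polynomial.coeff_X, Polynomial.coeff_C] using this
  · have := congrArg (fun p => Polynomial.coeff p 1) h2
    simpa [Polynomial.coeff_X, Polynomial.coeff_C] using this
  · have := congrArg (fun p => Polynomial.coeff p 2) h2
    simpa [Polynomial.coeff_X, Polynomial.coeff_C] using this

theorem Sys.U₂_nonconst (hA : PD a h d) (hl : (1 - h) ^ 2 = a * d) (hl' : 0 < 1 - h)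
    (S : Sys a h d a (-(1 - h : ℝ)) D₁ D₂ U₁ U₂ δ₁ δ₂) (hDD : D₁ * D₂ = 1) (r : ℂ) :
    U₂ ≠ PowerSeries.C r := by
  intro hr
  have h1 := Second_U₂ hA.ha hl hl' S hDD
  rw [hr] at h1
  have h2 : PowerSeries.C (r * a) + PowerSeries.C (r * (1 - h) + a) * D₁ +
      PowerSeries.C (0 : ℂ) * D₁ ^ 2 = 0 := by
    simp only [map_mul, map_add, map_sub, map_one, map_zero]
    linear_combination h1
  obtain ⟨h3, h4, -⟩ := Second_quad (Second_D₁_nonconst hA.ha hl hl' S hDD) h2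
  have ha : (a : ℂ) ≠ 0 := by exact_mod_cast hA.ha.ne'
  have hr0 : r = 0 := by
    rcases mul_eq_zero.1 h3 with h5 | h5
    · exact h5
    · exact absurd h5 ha
  rw [hr0] at h4
  apply ha
  linear_combination h4

/-- The algebra of the second level. -/
private theorem Second_alg {R : Type*} [CommRing R] [IsDomain R]
    {A H E x y U₁ U₂ M₁₁ M₁₂ M₂₁ M₂₂ Z₁ Z₂ c A' E' : R}
    (hW : A + (1 - H) * x ≠ 0) (P : x * y = 1) (L : (1 - H) ^ 2 = A * E)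
    (e₁ : (A + x) * U₁ + H * U₂ = A) (e₂ : H * U₁ + (E + y) * U₂ = -(1 - H))
    (u₁ : U₁ * (A + (1 - H) * x) = A) (u₂ : U₂ * (A + (1 - H) * x) = -(A * x))
    (m₁₁ : (A + x) * M₁₁ + H * M₂₁ = 1) (m₁₂ : (A + x) * M₁₂ + H * M₂₂ = 0)
    (m₂₁ : H * M₁₁ + (E + y) * M₂₁ = 0) (m₂₂ : H * M₁₂ + (E + y) * M₂₂ = 1)
    (hc : c * 2 = 1) (hA' : A' * 2 = A) (hE' : E' * 2 = E)
    (z₁ : x * (c * M₁₁ + Z₁) + c * (A * A * M₁₁ + A * H * (M₁₂ + M₂₁) + H * H * M₂₂) +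
      A * Z₁ + H * Z₂ - A' = 0)
    (z₂ : y * (c * M₂₂ + Z₂) + c * (H * H * M₁₁ + H * E * (M₁₂ + M₂₁) + E * E * M₂₂) +
      H * Z₁ + E * Z₂ - E' = 0) :
    (A + (1 - H) * x) ^ 2 * (A * Z₁ - (1 - H) * Z₂) = A * (A - (1 - H)) * x := by
  have hΔ : A * x * ((A + x) * (E + y) - H ^ 2) = (A + (1 - H) * x) ^ 2 := by
    linear_combination (A ^ 2 + A * x) * P - (A * x + x ^ 2) * L
  have k₁₁ : (A + (1 - H) * x) ^ 2 * M₁₁ = (1 - H) ^ 2 * x + A := by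
    rw [← hΔ]
    linear_combination (A * x * (E + y)) * m₁₁ - (A * x * H) * m₂₁ - x * L + A * P
  have k₂₂ : (A + (1 - H) * x) ^ 2 * M₂₂ = A * x * (A + x) := by
    rw [← hΔ]
    linear_combination (A * x * (A + x)) * m₂₂ - (A * x * H) * m₁₂
  have ksym : M₁₂ = M₂₁ := by
    have h1 : (A + (1 - H) * x) ^ 2 * M₁₂ = (A + (1 - H) * x) ^ 2 * M₂₁ := by
      rw [← hΔ]
      linear_combination (A * x * (E + y)) * m₁₂ - (A * x * H) * m₂₂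
        - (A * x * (A + x)) * m₂₁ + (A * x * H) * m₁₁
    exact mul_left_cancel₀ (pow_ne_zero 2 hW) h1
  subst ksym
  have t₁ : A * A * M₁₁ + A * H * (M₁₂ + M₁₂) + H * H * M₂₂ = A - x + x ^ 2 * M₁₁ := by
    linear_combination A * m₁₁ + H * m₁₂ - x * m₁₁
  have t₂ : H * H * M₁₁ + H * E * (M₁₂ + M₁₂) + E * E * M₂₂ = E - y + y ^ 2 * M₂₂ := by
    linear_combination H * m₂₁ + E * m₂₂ - y * m₂₂
  rw [t₁] at z₁
  rw [t₂] at z₂
  have w₁ : 2 * ((A + x) * Z₁ + H * Z₂) = x - x * M₁₁ - x ^ 2 * M₁₁ := by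
    linear_combination 2 * z₁ + hA' - (x * M₁₁ + A - x + x ^ 2 * M₁₁) * hc
  have w₂ : 2 * (H * Z₁ + (E + y) * Z₂) = y - y * M₂₂ - y ^ 2 * M₂₂ := by
    linear_combination 2 * z₂ + hE' - (y * M₂₂ + E - y + y ^ 2 * M₂₂) * hc
  have b : 2 * (A * Z₁ - (1 - H) * Z₂) =
      U₁ * (x - x * M₁₁ - x ^ 2 * M₁₁) + U₂ * (y - y * M₂₂ - y ^ 2 * M₂₂) := by
    linear_combination (-2 * Z₁) * e₁ - 2 * Z₂ * e₂ + U₁ * w₁ + U₂ * w₂
  have two : (2 : R) ≠ 0 := by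
    intro h0
    rw [h0, mul_zero] at hc
    exact zero_ne_one hc
  apply mul_left_cancel₀ (mul_ne_zero two hW)
  have b3 : (A + (1 - H) * x) ^ 3 * (2 * (A * Z₁ - (1 - H) * Z₂)) =
      A * (x * (A + (1 - H) * x) ^ 2 - (x + x ^ 2) * ((1 - H) ^ 2 * x + A)) +
      -(A * x) * (y * (A + (1 - H) * x) ^ 2 - (y + y ^ 2) * (A * x * (A + x))) := by
    rw [b]
    linear_combination (A + (1 - H) * x) ^ 2 * (x - x * M₁₁ - x ^ 2 * M₁₁) * u₁
      + (A + (1 - H) * x) ^ 2 * (y - y * M₂₂ - y ^ 2 * M₂₂) * u₂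
      - A * (x + x ^ 2) * k₁₁ + (A * x) * (y + y ^ 2) * k₂₂
  have b4 : A * (x * (A + (1 - H) * x) ^ 2 - (x + x ^ 2) * ((1 - H) ^ 2 * x + A)) +
      -(A * x) * (y * (A + (1 - H) * x) ^ 2 - (y + y ^ 2) * (A * x * (A + x))) =
      2 * (A + (1 - H) * x) * (A * (A - (1 - H)) * x) := by
    linear_combination (-A * (A + (1 - H) * x) ^ 2 + A ^ 2 * (A + x) * x + A ^ 2 * (A + x) * (x * y + 1)) * P
  rw [b4] at b3
  linear_combination b3

theorem Sys.second_level (hA : PD a h d) (hl : (1 - h) ^ 2 = a * d) (hl' : 0 < 1 - h)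
    (S : Sys a h d a (-(1 - h : ℝ)) D₁ D₂ U₁ U₂ δ₁ δ₂) (hDD : D₁ * D₂ = 1)
    {M₁₁ M₁₂ M₂₁ M₂₂ Z₁ Z₂ : PowerSeries ℂ}
    (m₁₁ : (PowerSeries.C (a : ℂ) + D₁) * M₁₁ + PowerSeries.C (h : ℂ) * M₂₁ = 1)
    (m₁₂ : (PowerSeries.C (a : ℂ) + D₁) * M₁₂ + PowerSeries.C (h : ℂ) * M₂₂ = 0)
    (m₂₁ : PowerSeries.C (h : ℂ) * M₁₁ + (PowerSeries.C (d : ℂ) + D₂) * M₂₁ = 0)
    (m₂₂ : PowerSeries.C (h : ℂ) * M₁₂ + (PowerSeries.C (d : ℂ) + D₂) * M₂₂ = 1)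
    (z₁ : D₁ * (PowerSeries.C (1 / 2) * M₁₁ + Z₁) + PowerSeries.C (1 / 2) *
        (PowerSeries.C ((a : ℂ) * a) * M₁₁ + PowerSeries.C ((a : ℂ) * h) * (M₁₂ + M₂₁) +
          PowerSeries.C ((h : ℂ) * h) * M₂₂) +
        PowerSeries.C (a : ℂ) * Z₁ + PowerSeries.C (h : ℂ) * Z₂ - PowerSeries.C ((a : ℂ) / 2) = 0)
    (z₂ : D₂ * (PowerSeries.C (1 / 2) * M₂₂ + Z₂) + PowerSeries.C (1 / 2) *
        (PowerSeries.C ((h : ℂ) * h) * M₁₁ + PowerSeries.C ((h : ℂ) * d) * (M₁₂ + M₂₁) +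
          PowerSeries.C ((d : ℂ) * d) * M₂₂) +
        PowerSeries.C (h : ℂ) * Z₁ + PowerSeries.C (d : ℂ) * Z₂ - PowerSeries.C ((d : ℂ) / 2) = 0)
    {ρ r : ℂ}
    (hr : PowerSeries.C ρ * U₂ + (PowerSeries.C (a : ℂ) * Z₁ +
      PowerSeries.C (-((1 - h : ℝ) : ℂ)) * Z₂) = PowerSeries.C r) :
    ρ = 0 ∧ a = 1 - h := by
  have hW := Second_W_ne hA.ha hl' S
  have L := Second_const hl
  have u₁ := Second_U₁ hA.ha hl hl' S hDD
  have u₂ := Second_U₂ hA.ha hl hl' S hDD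
  have e₁ := S.e₁
  have e₂ := S.e₂
  have hβ' : PowerSeries.C (-((1 - h : ℝ) : ℂ)) = -(1 - PowerSeries.C (h : ℂ)) := by
    push_cast; simp
  rw [hβ'] at e₂ hr
  have ha : (a : ℂ) ≠ 0 := by exact_mod_cast hA.ha.ne'
  have hnc := Second_D₁_nonconst hA.ha hl hl' S hDD
  -- twice the equations for `Z`
  have half : PowerSeries.C (1 / 2 : ℂ) * 2 = 1 := by
    have : (2 : PowerSeries ℂ) = PowerSeries.C (2 : ℂ) := (map_ofNat (PowerSeries.C (R := ℂ)) 2).symm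
    rw [this, ← map_mul]; norm_num
  have halfa : PowerSeries.C ((a : ℂ) / 2) * 2 = PowerSeries.C (a : ℂ) := by
    have : (2 : PowerSeries ℂ) = PowerSeries.C (2 : ℂ) := (map_ofNat (PowerSeries.C (R := ℂ)) 2).symm
    rw [this, ← map_mul]; congr 1; ring
  have halfd : PowerSeries.C ((d : ℂ) / 2) * 2 = PowerSeries.C (d : ℂ) := by
    have : (2 : PowerSeries ℂ) = PowerSeries.C (2 : ℂ) := (map_ofNat (PowerSeries.C (R := ℂ)) 2).symm
    rw [this, ← map_mul]; congr 1; ring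
  simp only [map_mul] at z₁ z₂
  have key := Second_alg hW hDD L e₁ e₂ u₁ u₂ m₁₁ m₁₂ m₂₁ m₂₂ half halfa halfd z₁ z₂
  have fin : PowerSeries.C (r * a ^ 2) +
      PowerSeries.C (2 * r * a * (1 - h) + ρ * a ^ 2 - a * (a - (1 - h))) * D₁ +
      PowerSeries.C (r * (1 - h) ^ 2 + ρ * a * (1 - h)) * D₁ ^ 2 = 0 := by
    have two : (2 : PowerSeries ℂ) = PowerSeries.C (2 : ℂ) := (map_ofNat (PowerSeries.C (R := ℂ)) 2).symm
    simp only [map_mul, map_add, map_sub, map_one, map_pow, ← two]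
    linear_combination (-(PowerSeries.C (a : ℂ) + (1 - PowerSeries.C (h : ℂ)) * D₁) ^ 2) * hr + key
      + PowerSeries.C ρ * (PowerSeries.C (a : ℂ) + (1 - PowerSeries.C (h : ℂ)) * D₁) * u₂
  obtain ⟨c₀, c₁, c₂⟩ := Second_quad hnc fin
  have hr0 : r = 0 := by
    rcases mul_eq_zero.1 c₀ with h5 | h5
    · exact h5
    · exact absurd (pow_eq_zero_iff (two_ne_zero)|>.1 h5) ha
  have hlc : (1 - (h : ℂ)) ≠ 0 := by
    have : (1 - h : ℝ) ≠ 0 := hl'.ne'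
    exact_mod_cast this
  rw [hr0] at c₁ c₂
  have hρ : ρ = 0 := by
    have h6 : ρ * (a * (1 - h)) = 0 := by linear_combination c₂
    rcases mul_eq_zero.1 h6 with h7 | h7
    · exact h7
    · exact absurd h7 (mul_ne_zero ha hlc)
  refine ⟨hρ, ?_⟩
  rw [hρ] at c₁
  have h8 : (a : ℂ) * ((a : ℂ) - (1 - h)) = 0 := by linear_combination -c₁
  rcases mul_eq_zero.1 h8 with h9 | h9
  · exact absurd h9 ha
  · have h10 : ((a - (1 - h) : ℝ) : ℂ) = 0 := by push_cast; exact h9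
    have h11 : a - (1 - h) = 0 := by exact_mod_cast h10
    linarith

end Pool.Agent.Lib.MP_8ce23f_nt.R2
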