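import Pool.Agent.Lib.MP_8ce23f_nt.R2.Symbol
import Pool.Agent.Lib.MP_8ce23f_nt.R2.ClassZero
import Pool.Agent.Lib.MP_8ce23f_nt.R2.ClassNZ
import Pool.Agent.Lib.MP_8ce23f_nt.R2.Second

/-!
# Classification of the directions of degeneracy

Job FDClass.  Take `q` from `symbol_identities`; `1 - q i` has constant coefficient `1 - Q_i ≠ 0`,
so it is a unit; `D_i = q_i (1 - q_i)⁻¹`, constant coefficient `δ_i = Q_i/(1-Q_i) > 0`,
`D_i' = q_i' (1-q_i)⁻² = D_i (1+D_i) U_i`, and dividing the second and third identities by `1 - q_i`: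
`(A + D) U = β`.  This gives `Sys`.  Similarly the identities for `M` and `Z` in the form of
`Sys.second_level`.  By `euler_U`, if `V D k (β) = 0` for `k ≥ 2` then `β·U = C c`; `c ≠ 0` by
`Sys.c_ne_zero`.  Then `Sys.classify_of_ne_zero`.  For the last two theorems the hypothesis says that
`Us D β 1` (respectively `ρ Us D β 1 + β·Z`, `euler_Z`) is constant.
-/

open Filter Topology
open scoped Real

namespace Pool.Agent.Lib.MP_8ce23f_nt.R2

variable {a h d Q₁ Q₂ : ℝ} {D : ℕ → P} {R S : Fin 2 → PowerSeries P}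

theorem FDClass_one {q : PowerSeries ℂ} {Q : ℝ} (hQ' : Q < 1)
    (hq : PowerSeries.constantCoeff q = (Q : ℂ)) :
    ∃ E : PowerSeries ℂ, PowerSeries.constantCoeff E = ((Q / (1 - Q) : ℝ) : ℂ) ∧
      (∀ U, PowerSeries.derivative ℂ q = q * U →
        PowerSeries.derivative ℂ E = E * (1 + E) * U) ∧
      (∀ x y, q * x + (1 - q) * y = 0 → E * x + y = 0) := by
  have hne : ((1 - Q : ℝ) : ℂ) ≠ 0 := by
    have : (1 - Q : ℝ) ≠ 0 := by linarith
    exact_mod_cast this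
  have hc : PowerSeries.constantCoeff (1 - q) = ((1 - Q : ℝ) : ℂ) := by
    rw [map_sub, hq, map_one]; push_cast; ring
  have hc0 : PowerSeries.constantCoeff (1 - q) ≠ 0 := by rw [hc]; exact hne
  have hw : (1 - q) * (1 - q)⁻¹ = 1 := PowerSeries.mul_inv_cancel _ hc0
  set w := (1 - q)⁻¹ with hwdef
  have hwc : PowerSeries.constantCoeff w = ((1 - Q : ℝ) : ℂ)⁻¹ := by
    have h1 := congrArg PowerSeries.constantCoeff hw
    rw [map_mul, hc, map_one] at h1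
    field_simp
    linear_combination h1
  have h1E : 1 + q * w = w := by linear_combination -hw
  refine ⟨q * w, ?_, ?_, ?_⟩
  · rw [map_mul, hq, hwc]
    push_cast
    rw [div_eq_mul_inv]
  · intro U hU
    have h2 := congrArg (PowerSeries.derivative ℂ) hw
    rw [Derivation.leibniz, map_sub, Derivation.map_one_eq_zero, hU] at h2
    rw [Derivation.leibniz, hU]
    simp only [smul_eq_mul] at h2 ⊢
    rw [h1E]
    have h3 : PowerSeries.derivative ℂ w = w * w * (q * U) := by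
      linear_combination w * h2 - (PowerSeries.derivative ℂ w) * hw
    rw [h3]
    linear_combination (q * w * U) * h1E
  · intro x y hxy
    linear_combination w * hxy - y * hw

theorem FDClass_sys (h1 : 0 < Q₁) (h1' : Q₁ < 1) (h2 : 0 < Q₂) (h2' : Q₂ < 1)
    (hFD : FD (Am a h d) (Qv Q₁ Q₂) D R S) (β : Fin 2 → ℂ) :
    ∃ D₁ D₂ : PowerSeries ℂ,
      Sys a h d (β 0) (β 1) D₁ D₂ (Us D β 0) (Us D β 1) (Q₁ / (1 - Q₁)) (Q₂ / (1 - Q₂)) ∧
      ((PowerSeries.C (a : ℂ) + D₁) * Ms D β 0 0 + PowerSeries.C (h : ℂ) * Ms D β 1 0 = 1) ∧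
      ((PowerSeries.C (a : ℂ) + D₁) * Ms D β 0 1 + PowerSeries.C (h : ℂ) * Ms D β 1 1 = 0) ∧
      (PowerSeries.C (h : ℂ) * Ms D β 0 0 + (PowerSeries.C (d : ℂ) + D₂) * Ms D β 1 0 = 0) ∧
      (PowerSeries.C (h : ℂ) * Ms D β 0 1 + (PowerSeries.C (d : ℂ) + D₂) * Ms D β 1 1 = 1) ∧
      (D₁ * (PowerSeries.C (1 / 2) * Ms D β 0 0 + Zs D β 0) + PowerSeries.C (1 / 2) *
        (PowerSeries.C ((a : ℂ) * a) * Ms D β 0 0 +
          PowerSeries.C ((a : ℂ) * h) * (Ms D β 0 1 + Ms D β 1 0) +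
          PowerSeries.C ((h : ℂ) * h) * Ms D β 1 1) +
        PowerSeries.C (a : ℂ) * Zs D β 0 + PowerSeries.C (h : ℂ) * Zs D β 1 -
          PowerSeries.C ((a : ℂ) / 2) = 0) ∧
      (D₂ * (PowerSeries.C (1 / 2) * Ms D β 1 1 + Zs D β 1) + PowerSeries.C (1 / 2) *
        (PowerSeries.C ((h : ℂ) * h) * Ms D β 0 0 +
          PowerSeries.C ((h : ℂ) * d) * (Ms D β 0 1 + Ms D β 1 0) +
          PowerSeries.C ((d : ℂ) * d) * Ms D β 1 1) +
        PowerSeries.C (h : ℂ) * Zs D β 0 + PowerSeries.C (d : ℂ) * Zs D β 1 -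
          PowerSeries.C ((d : ℂ) / 2) = 0) := by
  obtain ⟨q, hq0, hq1, hq2, hq3, hq4⟩ := symbol_identities hFD β
  have c0 := hq0 0
  have c1 := hq0 1
  simp only [Qv, Matrix.cons_val_zero, Matrix.cons_val_one] at c0 c1
  obtain ⟨D₁, hD1, hD1', hD1''⟩ := FDClass_one h1' c0
  obtain ⟨D₂, hD2, hD2', hD2''⟩ := FDClass_one h2' c1
  refine ⟨D₁, D₂, ⟨div_pos h1 (by linarith), div_pos h2 (by linarith), hD1, hD2, ?_, ?_,
    hD1' _ (hq1 0), hD2' _ (hq1 1)⟩, ?_, ?_, ?_, ?_, ?_, ?_⟩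
  · have e1 := hq2 0
    rw [hq1 0, Fin.sum_univ_two] at e1
    simp only [Am, Matrix.of_apply, Matrix.cons_val_zero, Matrix.cons_val_one,
      Matrix.cons_val', Matrix.cons_val_fin_one] at e1
    have e2 := hD1'' (Us D β 0) (PowerSeries.C (a : ℂ) * Us D β 0 +
      PowerSeries.C (h : ℂ) * Us D β 1 - PowerSeries.C (β 0)) (by linear_combination -e1)
    linear_combination e2
  · have e1 := hq2 1
    rw [hq1 1, Fin.sum_univ_two] at e1
    simp only [Am, Matrix.of_apply, Matrix.cons_val_zero, Matrix.cons_val_one,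
      Matrix.cons_val', Matrix.cons_val_fin_one] at e1
    have e2 := hD2'' (Us D β 1) (PowerSeries.C (h : ℂ) * Us D β 0 +
      PowerSeries.C (d : ℂ) * Us D β 1 - PowerSeries.C (β 1)) (by linear_combination -e1)
    linear_combination e2
  · have e1 := hD1'' _ _ (hq3 0 0)
    rw [Fin.sum_univ_two] at e1
    simp [Am] at e1
    linear_combination e1
  · have e1 := hD1'' _ _ (hq3 0 1)
    rw [Fin.sum_univ_two] at e1
    simp [Am] at e1
    linear_combination e1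
  · have e1 := hD2'' _ _ (hq3 1 0)
    rw [Fin.sum_univ_two] at e1
    simp [Am] at e1
    linear_combination e1
  · have e1 := hD2'' _ _ (hq3 1 1)
    rw [Fin.sum_univ_two] at e1
    simp [Am] at e1
    linear_combination e1
  · have e1 := hD1'' _ _ (hq4 0)
    simp only [Fin.sum_univ_two, Am, Matrix.of_apply, Matrix.cons_val_zero, Matrix.cons_val_one,
      Matrix.cons_val', Matrix.cons_val_fin_one] at e1
    rw [mul_comm (h : ℂ) (a : ℂ)] at e1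
    linear_combination e1
  · have e1 := hD2'' _ _ (hq4 1)
    simp only [Fin.sum_univ_two, Am, Matrix.of_apply, Matrix.cons_val_zero, Matrix.cons_val_one,
      Matrix.cons_val', Matrix.cons_val_fin_one] at e1
    rw [mul_comm (d : ℂ) (h : ℂ)] at e1
    linear_combination e1

/-- a power series whose coefficients of positive degree vanish -/
theorem FDClass_const {f : PowerSeries ℂ} (hf : ∀ k, 1 ≤ k → PowerSeries.coeff k f = 0) :
    f = PowerSeries.C (PowerSeries.coeff 0 f) := by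
  ext k
  rcases Nat.eq_zero_or_pos k with rfl | hk
  · simp
  · rw [hf k hk, PowerSeries.coeff_C, if_neg (by omega)]

theorem FDClass_beta {β : Fin 2 → ℂ} (hβ : β ≠ 0) : ¬(β 0 = 0 ∧ β 1 = 0) := by
  rintro ⟨e0, e1⟩
  apply hβ
  funext i
  fin_cases i
  · exact e0
  · exact e1

theorem FDClass_all (hA : PD a h d) {β : Fin 2 → ℂ} (hβ : β ≠ 0)
    (hV : ∀ k, 2 ≤ k → MvPolynomial.eval β (V D k) = 0) {D₁ D₂ : PowerSeries ℂ} {δ₁ δ₂ : ℝ}
    (hS : Sys a h d (β 0) (β 1) D₁ D₂ (Us D β 0) (Us D β 1) δ₁ δ₂) :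
    (1 - h) ^ 2 = a * d ∧ 0 < 1 - h ∧ (1 - h : ℂ) * β 0 + a * β 1 = 0 ∧ D₁ * D₂ = 1 := by
  have hβ' := FDClass_beta hβ
  have hc : ∑ j, PowerSeries.C (β j) * Us D β j =
      PowerSeries.C (PowerSeries.coeff 0 (∑ j, PowerSeries.C (β j) * Us D β j)) := by
    apply FDClass_const
    intro k hk
    rw [euler_U, hV (k + 1) (by omega), mul_zero]
  set c := PowerSeries.coeff 0 (∑ j, PowerSeries.C (β j) * Us D β j) with hcdef
  rw [Fin.sum_univ_two] at hc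
  have hc0 : c ≠ 0 := by
    intro h0
    apply hS.c_ne_zero hβ'
    rw [hc, h0, map_zero]
  exact hS.classify_of_ne_zero hA hβ' hc0 hc

theorem FD.classify (hA : PD a h d) (h1 : 0 < Q₁) (h1' : Q₁ < 1) (h2 : 0 < Q₂) (h2' : Q₂ < 1)
    (hFD : FD (Am a h d) (Qv Q₁ Q₂) D R S) {β : Fin 2 → ℂ} (hβ : β ≠ 0)
    (hV : ∀ k, 2 ≤ k → MvPolynomial.eval β (V D k) = 0) :
    (1 - h) ^ 2 = a * d ∧ 0 < 1 - h ∧ (1 - h : ℂ) * β 0 + a * β 1 = 0 := by
  obtain ⟨D₁, D₂, hS, -⟩ := FDClass_sys h1 h1' h2 h2' hFD β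
  obtain ⟨e1, e2, e3, -⟩ := FDClass_all hA hβ hV hS
  exact ⟨e1, e2, e3⟩

theorem FDClass_vec_ne (ha : 0 < a) : (![(a : ℂ), (-(1 - h : ℝ) : ℂ)] : Fin 2 → ℂ) ≠ 0 := by
  intro h0
  have h1 := congrFun h0 0
  simp at h1
  exact ha.ne' h1

theorem FD.second_i (hA : PD a h d) (h1 : 0 < Q₁) (h1' : Q₁ < 1) (h2 : 0 < Q₂) (h2' : Q₂ < 1)
    (hFD : FD (Am a h d) (Qv Q₁ Q₂) D R S)
    (hV : ∀ k, 2 ≤ k → MvPolynomial.eval ![(a : ℂ), (-(1 - h : ℝ) : ℂ)] (V D k) = 0) :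
    ¬ ∀ k, 2 ≤ k → MvPolynomial.eval ![(a : ℂ), (-(1 - h : ℝ) : ℂ)]
      (MvPolynomial.pderiv 1 (V D k)) = 0 := by
  intro hall
  obtain ⟨D₁, D₂, hS, -⟩ := FDClass_sys h1 h1' h2 h2' hFD ![(a : ℂ), (-(1 - h : ℝ) : ℂ)]
  obtain ⟨e1, e2, -, e4⟩ := FDClass_all hA (FDClass_vec_ne hA.ha) hV hS
  have hU : Us D ![(a : ℂ), (-(1 - h : ℝ) : ℂ)] 1 =
      PowerSeries.C (PowerSeries.coeff 0 (Us D ![(a : ℂ), (-(1 - h : ℝ) : ℂ)] 1)) := by
    apply FDClass_const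
    intro k hk
    rw [Us, PowerSeries.coeff_mk, hall (k + 1) (by omega), mul_zero]
  exact Sys.U₂_nonconst hA e1 e2 hS e4 _ hU

theorem FD.second_ii (hA : PD a h d) (h1 : 0 < Q₁) (h1' : Q₁ < 1) (h2 : 0 < Q₂) (h2' : Q₂ < 1)
    (hFD : FD (Am a h d) (Qv Q₁ Q₂) D R S)
    (hV : ∀ k, 2 ≤ k → MvPolynomial.eval ![(a : ℂ), (-(1 - h : ℝ) : ℂ)] (V D k) = 0) {ρ : ℂ}
    (hρ : ∀ k, 2 ≤ k → ρ * MvPolynomial.eval ![(a : ℂ), (-(1 - h : ℝ) : ℂ)]
      (MvPolynomial.pderiv 1 (V D k)) +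
      MvPolynomial.eval ![(a : ℂ), (-(1 - h : ℝ) : ℂ)] (S' D k) = 0) :
    ρ = 0 ∧ a = 1 - h := by
  obtain ⟨D₁, D₂, hS, m11, m12, m21, m22, z1, z2⟩ :=
    FDClass_sys h1 h1' h2 h2' hFD ![(a : ℂ), (-(1 - h : ℝ) : ℂ)]
  obtain ⟨e1, e2, -, e4⟩ := FDClass_all hA (FDClass_vec_ne hA.ha) hV hS
  have hU : PowerSeries.C ρ * Us D ![(a : ℂ), (-(1 - h : ℝ) : ℂ)] 1 +
      ∑ j, PowerSeries.C ((![(a : ℂ), (-(1 - h : ℝ) : ℂ)] : Fin 2 → ℂ) j) *
        Zs D ![(a : ℂ), (-(1 - h : ℝ) : ℂ)] j =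
      PowerSeries.C (PowerSeries.coeff 0 (PowerSeries.C ρ *
        Us D ![(a : ℂ), (-(1 - h : ℝ) : ℂ)] 1 +
      ∑ j, PowerSeries.C ((![(a : ℂ), (-(1 - h : ℝ) : ℂ)] : Fin 2 → ℂ) j) *
        Zs D ![(a : ℂ), (-(1 - h : ℝ) : ℂ)] j)) := by
    apply FDClass_const
    intro k hk
    rw [map_add, euler_Z, PowerSeries.coeff_C_mul, Us, PowerSeries.coeff_mk]
    linear_combination ((k : ℂ) + 1) * hρ (k + 1) (by omega)
  rw [Fin.sum_univ_two] at hU
  exact Sys.second_level hA e1 e2 hS e4 m11 m12 m21 m22 z1 z2 hU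

end Pool.Agent.Lib.MP_8ce23f_nt.R2
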