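import Pool.Agent.Lib.MP_8ce23f_nt.R2.FShift
import Pool.Agent.Lib.MP_8ce23f_nt.R2.AsyCalc

/-!
# The formal functional equation

Job FE.  Multiply `F_shift₁` by `Nf t * exp (-(x log Q₁ + y log Q₂))`:
`FN x y - Q₁ FN (x+1) y = (1-Q₁) exp (-t² (a/2+x)) FN (x+a) (y+h)`, because
`exp (a log Q₁ + h log Q₂) = 1 - Q₁`.  Compare the expansions of both sides (`Asy.unique`) at every
real `(x, y)`, and use `P_ext` coefficientwise.  `ev x y (sh v p) = ev (x + v 0) (y + v 1) p`.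
-/

open Filter Topology Asymptotics MeasureTheory
open scoped Real

namespace Pool.Agent.Lib.MP_8ce23f_nt.R2

theorem ev_sh (v : Fin 2 → ℂ) (x y : ℂ) (p : P) :
    ev x y (sh v p) = ev (x + v 0) (y + v 1) p := by
  have h : (ev x y).comp ((sh v : P →ₐ[ℂ] P) : P →+* P) = ev (x + v 0) (y + v 1) := by
    refine MvPolynomial.ringHom_ext ?_ ?_
    · intro r
      simp [ev, sh]
    · intro i
      fin_cases i
      · simp [ev, sh]
      · simp [ev, sh]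
  exact RingHom.congr_fun h p

theorem fe_map_sh (v : Fin 2 → ℂ) (x y : ℂ) (Γ : PowerSeries P) :
    PowerSeries.map (ev x y) (PowerSeries.map (sh v : P →+* P) Γ) =
      PowerSeries.map (ev (x + v 0) (y + v 1)) Γ := by
  ext n
  rw [PowerSeries.coeff_map, PowerSeries.coeff_map, PowerSeries.coeff_map]
  exact ev_sh v x y _

theorem fe_real₁ {a h d Q₁ Q₂ : ℝ} (hA : PD a h d) (hQ : NahmSol a h d Q₁ Q₂) (x y : ℝ) {t : ℝ}
    (ht : 0 < t) : FN a h d Q₁ Q₂ x y t = Q₁ * FN a h d Q₁ Q₂ (x + 1) y t +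
      (1 - Q₁) * (Real.exp (-(t ^ 2 * (a / 2 + x))) * FN a h d Q₁ Q₂ (x + a) (y + h) t) := by
  have h1 := F_shift₁ hA x y ht
  have h2 : Q₁ * Real.exp (-((x + 1) * Real.log Q₁ + y * Real.log Q₂)) =
      Real.exp (-(x * Real.log Q₁ + y * Real.log Q₂)) := by
    nth_rewrite 1 [← Real.exp_log hQ.pos₁]
    rw [← Real.exp_add]
    congr 1
    ring
  have h3 : (1 - Q₁) * Real.exp (-((x + a) * Real.log Q₁ + (y + h) * Real.log Q₂)) =
      Real.exp (-(x * Real.log Q₁ + y * Real.log Q₂)) := by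
    have h4 : 0 < 1 - Q₁ := by linarith [hQ.lt₁]
    nth_rewrite 1 [← Real.exp_log h4]
    rw [← Real.exp_add, hQ.eq₁]
    congr 1
    ring
  unfold FN
  linear_combination (Nf a h d Q₁ Q₂ t * Real.exp (-(x * Real.log Q₁ + y * Real.log Q₂))) * h1 -
    (F a h d (x + 1) y t * Nf a h d Q₁ Q₂ t) * h2 -
    (Real.exp (-(t ^ 2 * (a / 2 + x))) * F a h d (x + a) (y + h) t * Nf a h d Q₁ Q₂ t) * h3

theorem fe_real₂ {a h d Q₁ Q₂ : ℝ} (hA : PD a h d) (hQ : NahmSol a h d Q₁ Q₂) (x y : ℝ) {t : ℝ}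
    (ht : 0 < t) : FN a h d Q₁ Q₂ x y t = Q₂ * FN a h d Q₁ Q₂ x (y + 1) t +
      (1 - Q₂) * (Real.exp (-(t ^ 2 * (d / 2 + y))) * FN a h d Q₁ Q₂ (x + h) (y + d) t) := by
  have h1 := F_shift₂ hA x y ht
  have h2 : Q₂ * Real.exp (-(x * Real.log Q₁ + (y + 1) * Real.log Q₂)) =
      Real.exp (-(x * Real.log Q₁ + y * Real.log Q₂)) := by
    nth_rewrite 1 [← Real.exp_log hQ.pos₂]
    rw [← Real.exp_add]
    congr 1
    ring
  have h3 : (1 - Q₂) * Real.exp (-((x + h) * Real.log Q₁ + (y + d) * Real.log Q₂)) =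
      Real.exp (-(x * Real.log Q₁ + y * Real.log Q₂)) := by
    have h4 : 0 < 1 - Q₂ := by linarith [hQ.lt₂]
    nth_rewrite 1 [← Real.exp_log h4]
    rw [← Real.exp_add, hQ.eq₂]
    congr 1
    ring
  unfold FN
  linear_combination (Nf a h d Q₁ Q₂ t * Real.exp (-(x * Real.log Q₁ + y * Real.log Q₂))) * h1 -
    (F a h d x (y + 1) t * Nf a h d Q₁ Q₂ t) * h2 -
    (Real.exp (-(t ^ 2 * (d / 2 + y))) * F a h d (x + h) (y + d) t * Nf a h d Q₁ Q₂ t) * h3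

theorem fe_series₁ {a h d Q₁ Q₂ : ℝ} (hA : PD a h d) (hQ : NahmSol a h d Q₁ Q₂)
    {Γ : PowerSeries P}
    (hΓ : ∀ x y : ℝ, Asy (fun t => (FN a h d Q₁ Q₂ x y t : ℂ)) (PowerSeries.map (ev x y) Γ))
    (x y : ℝ) : PowerSeries.map (ev x y) Γ =
      PowerSeries.C (Q₁ : ℂ) * PowerSeries.map (ev ((x + 1 : ℝ) : ℂ) y) Γ +
      PowerSeries.C (1 - (Q₁ : ℂ)) * (E2 (-((x : ℂ) + a / 2)) *
        PowerSeries.map (ev ((x + a : ℝ) : ℂ) ((y + h : ℝ) : ℂ)) Γ) := by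
  have h1 := ((hΓ (x + 1) y).const_mul (Q₁ : ℂ)).add
    (((Asy.exp_sq (-((x : ℂ) + a / 2))).mul (hΓ (x + a) (y + h))).const_mul (1 - (Q₁ : ℂ)))
  refine (hΓ x y).unique (h1.congr' ?_)
  filter_upwards [self_mem_nhdsWithin] with t ht
  rw [fe_real₁ hA hQ x y ht]
  push_cast
  have h2 : Complex.exp (-((x : ℂ) + a / 2) * t ^ 2) = Complex.exp (-(t ^ 2 * (a / 2 + x))) := by
    congr 1
    ring
  rw [h2]

theorem fe_series₂ {a h d Q₁ Q₂ : ℝ} (hA : PD a h d) (hQ : NahmSol a h d Q₁ Q₂)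
    {Γ : PowerSeries P}
    (hΓ : ∀ x y : ℝ, Asy (fun t => (FN a h d Q₁ Q₂ x y t : ℂ)) (PowerSeries.map (ev x y) Γ))
    (x y : ℝ) : PowerSeries.map (ev x y) Γ =
      PowerSeries.C (Q₂ : ℂ) * PowerSeries.map (ev x ((y + 1 : ℝ) : ℂ)) Γ +
      PowerSeries.C (1 - (Q₂ : ℂ)) * (E2 (-((y : ℂ) + d / 2)) *
        PowerSeries.map (ev ((x + h : ℝ) : ℂ) ((y + d : ℝ) : ℂ)) Γ) := by
  have h1 := ((hΓ x (y + 1)).const_mul (Q₂ : ℂ)).add
    (((Asy.exp_sq (-((y : ℂ) + d / 2))).mul (hΓ (x + h) (y + d))).const_mul (1 - (Q₂ : ℂ)))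
  refine (hΓ x y).unique (h1.congr' ?_)
  filter_upwards [self_mem_nhdsWithin] with t ht
  rw [fe_real₂ hA hQ x y ht]
  push_cast
  have h2 : Complex.exp (-((y : ℂ) + d / 2) * t ^ 2) = Complex.exp (-(t ^ 2 * (d / 2 + y))) := by
    congr 1
    ring
  rw [h2]

theorem fe_ext {Γ Γ' : PowerSeries P}
    (h : ∀ x y : ℝ, PowerSeries.map (ev x y) Γ = PowerSeries.map (ev x y) Γ') : Γ = Γ' := by
  ext1 n
  refine P_ext fun x y => ?_
  have := congrArg (PowerSeries.coeff n) (h x y)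
  rwa [PowerSeries.coeff_map, PowerSeries.coeff_map] at this

theorem isFE_of_asy {a h d Q₁ Q₂ : ℝ} (hA : PD a h d) (hQ : NahmSol a h d Q₁ Q₂)
    {Γ : PowerSeries P}
    (hΓ : ∀ x y : ℝ, Asy (fun t => (FN a h d Q₁ Q₂ x y t : ℂ)) (PowerSeries.map (ev x y) Γ)) :
    IsFE (Am a h d) (Qv Q₁ Q₂) Γ := by
  intro i
  refine fe_ext fun x y => ?_
  rw [map_add, map_mul, map_mul, map_mul, fe_map_sh, fe_map_sh, map_ev_E2, PowerSeries.map_C,
    PowerSeries.map_C]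
  fin_cases i
  · rw [fe_series₁ hA hQ hΓ x y, mul_assoc]
    simp [ev, Am, Qv]
  · rw [fe_series₂ hA hQ hΓ x y, mul_assoc]
    simp [ev, Am, Qv]

end Pool.Agent.Lib.MP_8ce23f_nt.R2
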