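import Pool.Agent.Lib.MP_8ce23f_nt.Main
import Pool.Agent.Lib.MP_8ce23f_nt.R2.Defs

/-!
# The Nahm sum of a positive definite matrix is holomorphic

Job Holo.  `UpperHalfPlane.mdifferentiable_iff` reduces to `DifferentiableOn ℂ (f ∘ ofComplex)
upperHalfPlaneSet`; use `differentiableOn_tsum_of_summable_norm` on the open sets
`{z | y₀ < im z < y₁}` (or locally uniform convergence).  Bound for the term: with `A` positive
definite, `(1/2) nᵀ A n + B·n + C ≥ α (n₀² + n₁²) - K` with `α > 0` (prove it for real numbers: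
`a d - h² > 0`), so `‖q^{e(n)}‖ = exp (-2π e(n) im z) ≤ exp (2π K y₁) exp (-2π α y₀ (n₀² + n₁²))` (take
`K ≥ 0`), and `‖(q)_m‖ ≥ ∏ (1 - |q|^(j+1)) ≥ c > 0` for `|q| ≤ exp (-2π y₀)`.
Library: `qPow_eq`, `qFac_eq`, `norm_qr`, `poch_ne_zero`, `exists_poch_lower` (for one `q`).
The sum is over `Fin 2 → ℕ` (equivalent to `ℕ × ℕ` by `finTwoArrowEquiv`).
-/

open Filter Topology Asymptotics
open scoped Real MatrixGroups Manifold
open UpperHalfPlane hiding I

namespace Pool.Agent.Lib.MP_8ce23f_nt.R2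

theorem pd_of_posDef {A : Matrix (Fin 2) (Fin 2) ℚ} (hA : A.PosDef) :
    PD (A 0 0 : ℝ) (A 0 1 : ℝ) (A 1 1 : ℝ) ∧ A 1 0 = A 0 1 := by
  have hsym : A 1 0 = A 0 1 := by
    have h := hA.1
    have h2 := congrFun (congrFun h 0) 1
    simpa [Matrix.conjTranspose_apply] using h2
  have h0 : 0 < A 0 0 := hA.diag_pos
  have h1 : 0 < A 1 1 := hA.diag_pos
  have hx : (![A 0 1, -A 0 0] : Fin 2 → ℚ) ≠ 0 := by
    intro h
    have := congrFun h 1
    simp at this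
    exact h0.ne' this
  have h2 := hA.dotProduct_mulVec_pos hx
  simp only [dotProduct, Matrix.mulVec, Fin.sum_univ_two, star_trivial, Pi.star_apply,
    Matrix.cons_val_zero, Matrix.cons_val_one, hsym] at h2
  have h3 : 0 < A 0 0 * (A 0 0 * A 1 1 - A 0 1 ^ 2) := by
    have e : A 0 0 * (A 0 0 * A 1 1 - A 0 1 ^ 2) =
      A 0 1 * (A 0 0 * A 0 1 + A 0 1 * -A 0 0) + -A 0 0 * (A 0 1 * A 0 1 + A 1 1 * -A 0 0) := by
      ring
    rw [e]
    exact h2
  have h4 : 0 < A 0 0 * A 1 1 - A 0 1 ^ 2 := (pos_iff_pos_of_mul_pos h3).1 h0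
  refine ⟨⟨by exact_mod_cast h0, by exact_mod_cast h1, ?_⟩, hsym⟩
  have : (0 : ℝ) < ((A 0 0 * A 1 1 - A 0 1 ^ 2 : ℚ) : ℝ) := by exact_mod_cast h4
  push_cast at this
  exact this

/-- lower bound for the exponent -/
theorem Holo_exp_lower {a h d : ℝ} (hA : PD a h d) (b₀ b₁ C : ℝ) :
    ∃ K : ℝ, 0 ≤ K ∧ ∀ x y : ℝ,
      x + y - K ≤ 1 / 2 * (a * x ^ 2 + 2 * h * x * y + d * y ^ 2) + (b₀ * x + b₁ * y) + C := by
  have hs : 0 < a + d := add_pos hA.ha hA.hd
  set l : ℝ := (a * d - h ^ 2) / (a + d) with hl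
  have hl0 : 0 < l := div_pos hA.hdet hs
  have hla : l * (a + d) = a * d - h ^ 2 := by
    rw [hl]; field_simp
  have hal : 0 < a - l := by
    have : (a - l) * (a + d) = a ^ 2 + h ^ 2 := by linear_combination -hla
    have h2 : 0 < (a - l) * (a + d) := by
      rw [this]
      have := hA.ha
      positivity
    exact (pos_iff_pos_of_mul_pos h2).2 hs
  refine ⟨(b₀ - 1) ^ 2 / (2 * l) + (b₁ - 1) ^ 2 / (2 * l) + |C|, by positivity, ?_⟩
  intro x y
  have h1 : l * (x ^ 2 + y ^ 2) ≤ a * x ^ 2 + 2 * h * x * y + d * y ^ 2 := by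
    have e : (a - l) * (a * x ^ 2 + 2 * h * x * y + d * y ^ 2 - l * (x ^ 2 + y ^ 2)) =
        ((a - l) * x + h * y) ^ 2 + (l * y) ^ 2 := by
      linear_combination (-y ^ 2) * hla
    have h2 : 0 ≤ (a - l) * (a * x ^ 2 + 2 * h * x * y + d * y ^ 2 - l * (x ^ 2 + y ^ 2)) := by
      rw [e]; positivity
    have h3 := nonneg_of_mul_nonneg_right h2 hal
    linarith
  have h2 : ∀ b z : ℝ, z - (b - 1) ^ 2 / (2 * l) ≤ 1 / 2 * (l * z ^ 2) + b * z := by
    intro b z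
    have e : 1 / 2 * (l * z ^ 2) + b * z - (z - (b - 1) ^ 2 / (2 * l)) =
        (l * z + (b - 1)) ^ 2 / (2 * l) := by
      field_simp
      ring
    have : 0 ≤ (l * z + (b - 1)) ^ 2 / (2 * l) := by positivity
    linarith
  have h3 := h2 b₀ x
  have h4 := h2 b₁ y
  have h5 := neg_abs_le C
  linarith

theorem Holo_nahmExp_lower {A : Matrix (Fin 2) (Fin 2) ℚ} (hA : A.PosDef) (B : Fin 2 → ℚ) (C : ℚ) :
    ∃ K : ℝ, 0 ≤ K ∧ ∀ n : Fin 2 → ℕ,
      (n 0 : ℝ) + n 1 - K ≤ ((nahmExp A B C n : ℚ) : ℝ) := by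
  obtain ⟨hPD, hsym⟩ := pd_of_posDef hA
  obtain ⟨K, hK, h⟩ := Holo_exp_lower hPD (B 0) (B 1) C
  refine ⟨K, hK, fun n => ?_⟩
  refine (h (n 0) (n 1)).trans (le_of_eq ?_)
  simp only [nahmExp, Fin.sum_univ_two, hsym]
  push_cast
  ring

theorem Holo_poch_le {q : ℂ} {r : ℝ} (hq : ‖q‖ ≤ r) (hr : r < 1) (m : ℕ) :
    ‖poch (r : ℂ) m‖ ≤ ‖poch q m‖ := by
  have hr0 : 0 ≤ r := (norm_nonneg q).trans hq
  unfold poch
  rw [norm_prod, norm_prod]
  refine Finset.prod_le_prod (fun _ _ => norm_nonneg _) fun j _ => ?_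
  have h1 : ‖(1 : ℂ) - (r : ℂ) ^ (j + 1)‖ = 1 - r ^ (j + 1) := by
    have : (1 : ℂ) - (r : ℂ) ^ (j + 1) = ((1 - r ^ (j + 1) : ℝ) : ℂ) := by push_cast; ring
    rw [this, Complex.norm_real, Real.norm_eq_abs, abs_of_nonneg]
    have := pow_le_one₀ (n := j + 1) hr0 hr.le
    linarith
  rw [h1]
  have h2 : 1 - ‖q ^ (j + 1)‖ ≤ ‖1 - q ^ (j + 1)‖ := by
    have := norm_sub_norm_le (1 : ℂ) (q ^ (j + 1))
    rwa [norm_one] at this
  refine le_trans ?_ h2
  rw [norm_pow]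
  have : ‖q‖ ^ (j + 1) ≤ r ^ (j + 1) := pow_le_pow_left₀ (norm_nonneg _) hq _
  linarith

/-- The term as a function of the complex variable. -/
noncomputable def Holo_term (A : Matrix (Fin 2) (Fin 2) ℚ) (B : Fin 2 → ℚ) (C : ℚ)
    (n : Fin 2 → ℕ) (z : ℂ) : ℂ :=
  Complex.exp (2 * π * Complex.I * (nahmExp A B C n : ℚ) * z) /
    ∏ i, ∏ j ∈ Finset.range (n i), (1 - Complex.exp (2 * π * Complex.I * (((j : ℚ) + 1 : ℚ)) * z))

theorem Holo_term_eq (A : Matrix (Fin 2) (Fin 2) ℚ) (B : Fin 2 → ℚ) (C : ℚ)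
    (n : Fin 2 → ℕ) (τ : ℍ) :
    qPow (nahmExp A B C n) τ / ∏ i, qFac (n i) τ = Holo_term A B C n (τ : ℂ) := rfl

theorem Holo_term_diff (A : Matrix (Fin 2) (Fin 2) ℚ) (B : Fin 2 → ℚ) (C : ℚ)
    (n : Fin 2 → ℕ) {U : Set ℂ} (hU : ∀ z ∈ U, 0 < z.im) :
    DifferentiableOn ℂ (Holo_term A B C n) U := by
  intro z hz
  have hden : (∏ i, ∏ j ∈ Finset.range (n i),
      (1 - Complex.exp (2 * π * Complex.I * (((j : ℚ) + 1 : ℚ)) * z))) ≠ 0 := by
    have h1 : ∏ i, qFac (n i) ⟨z, hU z hz⟩ ≠ 0 := by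
      refine Finset.prod_ne_zero_iff.2 fun i _ => ?_
      rw [qFac_eq]
      exact poch_ne_zero (norm_qr_one_lt _) _
    exact h1
  have hd : Differentiable ℂ fun z : ℂ => ∏ i, ∏ j ∈ Finset.range (n i),
      (1 - Complex.exp (2 * π * Complex.I * (((j : ℚ) + 1 : ℚ)) * z)) := by
    fun_prop
  have hn : Differentiable ℂ fun z : ℂ =>
      Complex.exp (2 * π * Complex.I * (nahmExp A B C n : ℚ) * z) := by
    fun_prop
  exact ((hn z).div (hd z) hden).differentiableWithinAt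

theorem Holo_summable {r : ℝ} (h0 : 0 ≤ r) (h1 : r < 1) :
    Summable fun n : Fin 2 → ℕ => r ^ (n 0) * r ^ (n 1) := by
  have h := (summable_tsum_pi (r := 2) (fun _ k => (r : ℂ) ^ k) (fun _ => by
    simpa [norm_pow, abs_of_nonneg h0] using summable_geometric_of_lt_one h0 h1)).1
  refine h.congr fun n => ?_
  rw [Fin.prod_univ_two, norm_mul, norm_pow, norm_pow, Complex.norm_real, Real.norm_eq_abs,
    abs_of_nonneg h0]

theorem nahmSum_mdiff {A : Matrix (Fin 2) (Fin 2) ℚ} (hA : A.PosDef) (B : Fin 2 → ℚ) (C : ℚ) :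
    MDifferentiable 𝓘(ℂ) 𝓘(ℂ) (nahmSum A B C) := by
  rw [UpperHalfPlane.mdifferentiable_iff]
  intro z₀ hz₀
  have hz₀' : 0 < z₀.im := hz₀
  obtain ⟨K, hK, hexp⟩ := Holo_nahmExp_lower hA B C
  set y₀ : ℝ := z₀.im / 2 with hy₀
  set y₁ : ℝ := 2 * z₀.im with hy₁
  have hy₀pos : 0 < y₀ := by positivity
  set U : Set ℂ := {z | y₀ < z.im ∧ z.im < y₁} with hU
  have hUo : IsOpen U :=
    (isOpen_lt continuous_const Complex.continuous_im).inter
      (isOpen_lt Complex.continuous_im continuous_const)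
  have hzU : z₀ ∈ U := ⟨by rw [hy₀]; linarith, by rw [hy₁]; linarith⟩
  have hUpos : ∀ z ∈ U, 0 < z.im := fun z hz => hy₀pos.trans hz.1
  set r : ℝ := Real.exp (-(2 * π * y₀)) with hr
  have hr1 : r < 1 := by
    rw [hr, Real.exp_lt_one_iff]
    have := Real.pi_pos
    have : 0 < 2 * π * y₀ := by positivity
    linarith
  have hr0 : 0 < r := Real.exp_pos _
  obtain ⟨c, hc, hcl⟩ := exists_poch_lower (q := (r : ℂ)) (by
    rw [Complex.norm_real, Real.norm_eq_abs, abs_of_pos hr0]; exact hr1)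
  have hbound : ∀ (n : Fin 2 → ℕ) (z : ℂ), z ∈ U → ‖Holo_term A B C n z‖ ≤
      Real.exp (2 * π * K * y₁) * (r ^ (n 0) * r ^ (n 1)) / (c * c) := by
    intro n z hz
    have hzp := hUpos z hz
    set τ : ℍ := ⟨z, hzp⟩ with hτ
    have hτim : τ.im = z.im := rfl
    have e1 : Holo_term A B C n z = qPow (nahmExp A B C n) τ / ∏ i, qFac (n i) τ := rfl
    rw [e1, norm_div]
    have hden : c * c ≤ ‖∏ i, qFac (n i) τ‖ := by
      rw [Fin.prod_univ_two, norm_mul]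
      have hq : ‖qr 1 τ‖ ≤ r := by
        rw [norm_qr, hr]
        apply Real.exp_le_exp.2
        have h1 : y₀ ≤ τ.im := hz.1.le
        have : 2 * π * y₀ ≤ 2 * π * 1 * τ.im := by
          have := Real.pi_pos
          nlinarith
        linarith
      have h1 : ∀ m, c ≤ ‖qFac m τ‖ := by
        intro m
        rw [qFac_eq]
        exact (hcl m).trans (Holo_poch_le hq hr1 m)
      exact mul_le_mul (h1 _) (h1 _) hc.le (norm_nonneg _)
    have hnum : ‖qPow (nahmExp A B C n) τ‖ ≤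
        Real.exp (2 * π * K * y₁) * (r ^ (n 0) * r ^ (n 1)) := by
      rw [qPow_eq, norm_qr, hr, ← Real.exp_nat_mul, ← Real.exp_nat_mul, ← Real.exp_add,
        ← Real.exp_add]
      apply Real.exp_le_exp.2
      have h1 : y₀ ≤ τ.im := hz.1.le
      have h2 : τ.im ≤ y₁ := hz.2.le
      have h3 := hexp n
      have h4 : ((n 0 : ℝ) + n 1 - K) * τ.im ≤ ((nahmExp A B C n : ℚ) : ℝ) * τ.im :=
        mul_le_mul_of_nonneg_right h3 (hy₀pos.le.trans h1)
      have h5 : ((n 0 : ℝ) + n 1) * y₀ ≤ ((n 0 : ℝ) + n 1) * τ.im :=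
        mul_le_mul_of_nonneg_left h1 (by positivity)
      have h6 : K * τ.im ≤ K * y₁ := mul_le_mul_of_nonneg_left h2 hK
      have h7 : ((n 0 : ℝ) + n 1) * y₀ - K * y₁ ≤ ((nahmExp A B C n : ℚ) : ℝ) * τ.im := by
        linarith
      have h8 := mul_le_mul_of_nonneg_left h7 (mul_pos two_pos Real.pi_pos).le
      linarith
    exact div_le_div₀ (by positivity) hnum (mul_pos hc hc) hden
  have hsum : Summable fun n : Fin 2 → ℕ =>
      Real.exp (2 * π * K * y₁) * (r ^ (n 0) * r ^ (n 1)) / (c * c) :=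
    ((Holo_summable hr0.le hr1).mul_left _).div_const _
  have hdiff := Complex.differentiableOn_tsum_of_summable_norm hsum
    (fun n => Holo_term_diff A B C n hUpos) hUo hbound
  refine ((hdiff.differentiableAt (hUo.mem_nhds hzU)).congr_of_eventuallyEq
    ?_).differentiableWithinAt
  filter_upwards [hUo.mem_nhds hzU] with z hz
  simp only [Function.comp, nahmSum]
  apply tsum_congr
  intro n
  rw [Holo_term_eq, ofComplex_apply_of_im_pos (hUpos z hz)]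

end Pool.Agent.Lib.MP_8ce23f_nt.R2
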