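import Pool.Agent.Lib.MP_8ce23f_nt.R2.HDecomp
import Pool.Agent.Lib.MP_8ce23f_nt.R2.Holo

/-!
# The Nahm sum of `(a, 1-a; 1-a, a)` and `(b, -b)`

Job HProd.  `(a/2)(n₁²+n₂²) + (1-a) n₁n₂ = (a/2)(n₁-n₂)² + n₁n₂`.  Sum over `N = n₁ - n₂ ∈ ℤ` first
(`diffEquiv` in Euler.lean): `∑_{n₁-n₂=N} q^{n₁n₂}/((q)_{n₁}(q)_{n₂}) = 1/(q)_∞` (`tsum_dterm`), so with
`C = b²/(2a) - 1/24` the Nahm sum is `q^{-1/24} ∑_N q^{a (N + b/a)²/2}/(q)_∞ = ∑_N q^{a (N+b/a)²/2}/η(τ)`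
and the numerator is `thetaC (b/a) 0 (a τ) = G (b/a) 0 (a τ) η(a τ)` (`thetaC_eq_tsum`, `G_eq_gE`).
See `triple_product` in Euler.lean and `G_eq_gE` in GoodTheta.lean for the same manipulations.
-/

open Filter Topology Asymptotics
open scoped Real MatrixGroups Manifold
open UpperHalfPlane hiding I

namespace Pool.Agent.Lib.MP_8ce23f_nt.R2

/-- the Gaussian factor -/
noncomputable def HProd_f (a x : ℝ) (τ : ℍ) (N : ℤ) : ℂ := qr (a / 2 * ((N : ℝ) + x) ^ 2) τ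

theorem HProd_summable {a : ℝ} (ha : 0 < a) (x : ℝ) (τ : ℍ) :
    Summable fun N : ℤ => ‖HProd_f a x τ N‖ := by
  have h1 : Summable (jacobiTheta₂_term · (x * ((a : ℂ) * τ)) ((a : ℂ) * τ)) :=
    (summable_jacobiTheta₂_term_iff _ _).mpr (by simpa using mul_pos ha τ.im_pos)
  have h2 := (h1.mul_left (qr (a / 2 * x ^ 2) τ)).norm
  refine h2.congr fun N => ?_
  unfold HProd_f
  congr 1
  rw [jacobiTheta₂_term, qr, qr, ← Complex.exp_add]
  congr 1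
  push_cast
  ring

theorem HProd_theta {a : ℝ} (ha : 0 < a) (x : ℝ) (τ : ℍ) :
    thetaC x 0 ((sc a ha τ : ℍ) : ℂ) = ∑' N : ℤ, HProd_f a x τ N := by
  rw [thetaC_eq_tsum]
  refine tsum_congr fun N => ?_
  unfold HProd_f qr
  congr 1
  have h1 : ((sc a ha τ : ℍ) : ℂ) = (a : ℂ) * τ := rfl
  rw [h1]
  push_cast
  ring

theorem HProd_eta (τ : ℍ) : ModularForm.eta τ = qr (1 / 24) τ * pochInf (qr 1 τ) := by
  unfold ModularForm.eta pochInf
  congr 1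
  · simp only [Function.Periodic.qParam, qr]
    congr 1
    push_cast
    ring
  · apply tprod_congr
    intro n
    rw [ModularForm.eta_q_eq_pow]
    simp [qr]

theorem HProd_prod (q : ℂ) (N : ℤ) (k : ℕ) :
    poch q (k + N.toNat) * poch q (k + (-N).toNat) = poch q k * poch q (k + N.natAbs) := by
  rcases le_total 0 N with h | h
  · have h1 : (-N).toNat = 0 := by omega
    have h2 : N.toNat = N.natAbs := by omega
    rw [h1, h2, add_zero, mul_comm]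
  · have h1 : (-N).toNat = N.natAbs := by omega
    have h2 : N.toNat = 0 := by omega
    rw [h1, h2, add_zero]

theorem HProd_diff (N : ℤ) (k : ℕ) :
    ((k + N.toNat : ℕ) : ℝ) - ((k + (-N).toNat : ℕ) : ℝ) = N := by
  have h : ((k + N.toNat : ℕ) : ℤ) - ((k + (-N).toNat : ℕ) : ℤ) = N := by omega
  exact_mod_cast congrArg (fun z : ℤ => (z : ℝ)) h

theorem HProd_mul (N : ℤ) (k : ℕ) :
    ((k + N.toNat : ℕ) : ℝ) * ((k + (-N).toNat : ℕ) : ℝ) = ((k * (k + N.natAbs) : ℕ) : ℝ) := by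
  rw [← Nat.cast_mul]
  congr 1
  rcases le_total 0 N with h | h
  · have h1 : (-N).toNat = 0 := by omega
    have h2 : N.toNat = N.natAbs := by omega
    rw [h1, h2, add_zero, mul_comm]
  · have h1 : (-N).toNat = N.natAbs := by omega
    have h2 : N.toNat = 0 := by omega
    rw [h1, h2, add_zero]

theorem HProd_exp {a : ℚ} (ha : 0 < (a : ℝ)) (b : ℚ) (n : Fin 2 → ℕ) :
    ((nahmExp !![a, 1 - a; 1 - a, a] ![b, -b] (b ^ 2 / (2 * a) - 1 / 24) n : ℚ) : ℝ) =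
      -(1 / 24) + (a : ℝ) / 2 * (((n 0 : ℝ) - n 1) + ((b / a : ℚ) : ℝ)) ^ 2 +
        (n 0 : ℝ) * (n 1 : ℝ) := by
  unfold nahmExp
  simp only [Fin.sum_univ_two, Matrix.of_apply, Matrix.cons_val_zero, Matrix.cons_val_one,
    Matrix.cons_val', Matrix.cons_val_fin_one]
  push_cast
  have h := ha.ne'
  field_simp
  ring

theorem HProd_term {a : ℚ} (ha : 0 < (a : ℝ)) (b : ℚ) (τ : ℍ) (p : ℤ × ℕ) :
    qPow (nahmExp !![a, 1 - a; 1 - a, a] ![b, -b] (b ^ 2 / (2 * a) - 1 / 24)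
      ((finTwoArrowEquiv ℕ).symm (diffEquiv.symm p))) τ /
        ∏ i, qFac ((finTwoArrowEquiv ℕ).symm (diffEquiv.symm p) i) τ =
      qr (-(1 / 24)) τ * (HProd_f a ((b / a : ℚ) : ℝ) τ p.1 * dterm (qr 1 τ) p.1.natAbs p.2) := by
  obtain ⟨N, k⟩ := p
  rw [qPow_eq, HProd_exp ha, Fin.prod_univ_two, qFac_eq, qFac_eq]
  have e0 : (finTwoArrowEquiv ℕ).symm (diffEquiv.symm (N, k)) 0 = k + N.toNat := rfl
  have e1 : (finTwoArrowEquiv ℕ).symm (diffEquiv.symm (N, k)) 1 = k + (-N).toNat := rfl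
  rw [e0, e1, HProd_diff, HProd_mul, HProd_prod, qr_add, qr_add, qr_nat]
  unfold HProd_f dterm
  simp only
  rw [mul_div_assoc, mul_assoc]

theorem HProd_sum {a x : ℝ} (ha : 0 < a) (τ : ℍ) :
    ∑' p : ℤ × ℕ, HProd_f a x τ p.1 * dterm (qr 1 τ) p.1.natAbs p.2 =
      (pochInf (qr 1 τ))⁻¹ * thetaC x 0 ((sc a ha τ : ℍ) : ℂ) := by
  have hq := norm_qr_one_lt τ
  obtain ⟨c, hc, h⟩ := exists_poch_lower hq
  have h1 : Summable fun p : ℤ × ℕ => ‖HProd_f a x τ p.1‖ * (‖qr 1 τ‖ ^ p.2 / (c * c)) :=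
    Summable.mul_of_nonneg (HProd_summable ha x τ)
      ((summable_geometric_of_lt_one (norm_nonneg _) hq).div_const _)
      (fun _ => norm_nonneg _) (fun _ => by positivity)
  have h2 : Summable fun p : ℤ × ℕ => HProd_f a x τ p.1 * dterm (qr 1 τ) p.1.natAbs p.2 := by
    refine Summable.of_norm_bounded h1 fun p => ?_
    rw [norm_mul]
    exact mul_le_mul_of_nonneg_left (norm_dterm_le hq hc h _ _) (norm_nonneg _)
  have h3 : HasSum (fun N : ℤ => HProd_f a x τ N * (pochInf (qr 1 τ))⁻¹)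
      (∑' p : ℤ × ℕ, HProd_f a x τ p.1 * dterm (qr 1 τ) p.1.natAbs p.2) := by
    refine h2.hasSum.prod_fiberwise (g := fun N : ℤ => HProd_f a x τ N * (pochInf (qr 1 τ))⁻¹)
      fun N => ?_
    have h4 := (summable_dterm hq N.natAbs).hasSum.mul_left (HProd_f a x τ N)
    rwa [tsum_dterm hq] at h4
  rw [← h3.tsum_eq, tsum_mul_right, HProd_theta ha, mul_comm]

theorem nahmSum_family {a : ℚ} (ha : 0 < (a : ℝ))
    (hA : (!![a, 1 - a; 1 - a, a] : Matrix (Fin 2) (Fin 2) ℚ).PosDef) (b : ℚ) (τ : ℍ) :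
    nahmSum !![a, 1 - a; 1 - a, a] ![b, -b] (b ^ 2 / (2 * a) - 1 / 24) τ =
      gE ((b / a : ℚ) : ℝ) (sc a ha τ) * (ModularForm.eta (sc a ha τ) / ModularForm.eta τ) := by
  unfold nahmSum
  rw [← (diffEquiv.symm.trans (finTwoArrowEquiv ℕ).symm).tsum_eq]
  have h1 : ∀ p : ℤ × ℕ, qPow (nahmExp !![a, 1 - a; 1 - a, a] ![b, -b] (b ^ 2 / (2 * a) - 1 / 24)
      ((diffEquiv.symm.trans (finTwoArrowEquiv ℕ).symm) p)) τ /
        ∏ i, qFac ((diffEquiv.symm.trans (finTwoArrowEquiv ℕ).symm) p i) τ =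
      qr (-(1 / 24)) τ * (HProd_f a ((b / a : ℚ) : ℝ) τ p.1 * dterm (qr 1 τ) p.1.natAbs p.2) :=
    fun p => HProd_term ha b τ p
  rw [tsum_congr h1, tsum_mul_left, HProd_sum ha, ← G_eq_gE]
  unfold G
  have h2 : ModularForm.eta ((sc a ha τ : ℍ) : ℂ) ≠ 0 := ModularForm.eta_ne_zero (sc a ha τ).2
  have h3 := pochInf_ne_zero (norm_qr_one_lt τ)
  have h4 := qr_ne_zero (1 / 24) τ
  rw [HProd_eta τ, qr_neg]
  field_simp

end Pool.Agent.Lib.MP_8ce23f_nt.R2
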