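import Pool.Agent.Lib.MP_8ce23f_nt.R2.HEta
import Pool.Agent.Lib.MP_8ce23f_nt.R2.HProd

/-!
# `(b, -b)` is admissible for `(a, 1-a; 1-a, a)`
-/

open Filter Topology Asymptotics
open scoped Real MatrixGroups Manifold
open UpperHalfPlane hiding I

namespace Pool.Agent.Lib.MP_8ce23f_nt.R2

theorem admissible_family {a : ℚ}
    (hA : (!![a, 1 - a; 1 - a, a] : Matrix (Fin 2) (Fin 2) ℚ).PosDef) (b : ℚ) :
    Admissible !![a, 1 - a; 1 - a, a] ![b, -b] := by
  have hpd := (pd_of_posDef hA).1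
  have ha : 0 < (a : ℝ) := by simpa using hpd.ha
  refine ⟨b ^ 2 / (2 * a) - 1 / 24, ?_⟩
  have h1 : nahmSum !![a, 1 - a; 1 - a, a] ![b, -b] (b ^ 2 / (2 * a) - 1 / 24) =
      fun τ => gE ((b / a : ℚ) : ℝ) (sc a ha τ) *
        (ModularForm.eta (sc a ha τ) / ModularForm.eta τ) :=
    funext fun τ => nahmSum_family ha hA b τ
  rw [h1]
  exact isModular_of_good ((good_sc (good_gE (b / a)) ha).mul (good_eta_quot ha))

end Pool.Agent.Lib.MP_8ce23f_nt.R2
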