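import Pool.Agent.Lib.MP_8ce23f_nt.R2.NahmShift
import Pool.Agent.Lib.MP_8ce23f_nt.R2.HAdm

/-!
# The exceptional admissible vectors of the family

Job FamAdm.  `gE` is even and `gE (x + 1) = gE x` (`G_eq_gE`, `thetaC_add_one_left`, or `E_shift`).
(a) `nahmSum_shift` at `x = y = -1/2`: with `C = 1/(8a) - 1/24`,
`f(-1/2,-1/2) = f(1/2,-1/2) + q^{(a-1)/2} f(a-1/2, 1/2-a)`; `nahmSum_add_C` and `nahmSum_family` with
`b = 1/2` and `b = a - 1/2` (`(a-1/2)²/(2a) - 1/24 = C + (a-1)/2`): both terms are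
`gE (1/(2a)) (a τ) η(aτ)/η(τ)` because `gE (1 - 1/(2a)) = gE (1/(2a))`.
(b) `nahmSum_shift` at `(x,y) = (-a/2, a/2)`: `f(-a/2,a/2) - f(1-a/2,a/2) = f(a/2,1-a/2)` and
`nahmSum_swap`: so `f(a/2,1-a/2) = (1/2) f(-a/2,a/2)`, `C = a/8 - 1/24`.
Then `isModular_of_good` with `Good.mul`, `Good.const`, as in HAdm.lean.
-/

open Filter Topology Asymptotics
open scoped Real MatrixGroups Manifold
open UpperHalfPlane hiding I

namespace Pool.Agent.Lib.MP_8ce23f_nt.R2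

private theorem FamAdm_gE_neg (x : ℝ) (τ : ℍ) : gE (-x) τ = gE x τ := by
  unfold gE
  rw [neg_neg, neg_sq, mul_comm (E (-x) τ)]

private theorem FamAdm_gE_sub_one (x : ℝ) (τ : ℍ) : gE (x - 1) τ = gE x τ := by
  rw [← G_eq_gE, ← G_eq_gE]
  unfold G
  have h := thetaC_add_one_left (x - 1) 0 (τ : ℂ)
  rw [sub_add_cancel] at h
  rw [h]

private theorem FamAdm_half {a : ℚ} (ha : 0 < (a : ℝ))
    (hA : (!![a, 1 - a; 1 - a, a] : Matrix (Fin 2) (Fin 2) ℚ).PosDef) :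
    nahmSum !![a, 1 - a; 1 - a, a] ![a / 2, 1 - a / 2] (a / 8 - 1 / 24) =
      fun τ => 1 / 2 * (gE ((-(a / 2) / a : ℚ) : ℝ) (sc a ha τ) *
        (ModularForm.eta (sc a ha τ) / ModularForm.eta τ)) := by
  have haQ : 0 < a := by exact_mod_cast ha
  have hne : a ≠ 0 := haQ.ne'
  funext τ
  have h2 := nahmSum_shift hA (-(a / 2)) (a / 2) (a / 8 - 1 / 24) τ
  have e00 : (!![a, 1 - a; 1 - a, a] : Matrix (Fin 2) (Fin 2) ℚ) 0 0 = a := rfl
  have e01 : (!![a, 1 - a; 1 - a, a] : Matrix (Fin 2) (Fin 2) ℚ) 0 1 = 1 - a := rfl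
  rw [e00, e01, ← nahmSum_add_C] at h2
  have k1 : -(a / 2) + 1 = 1 - a / 2 := by ring
  have k2 : -(a / 2) + a = a / 2 := by ring
  have k3 : a / 2 + (1 - a) = 1 - a / 2 := by ring
  have k4 : a / 8 - 1 / 24 + (a / 2 + -(a / 2)) = a / 8 - 1 / 24 := by ring
  rw [k1, k2, k3, k4, nahmSum_swap a (1 - a) (1 - a / 2) (a / 2)] at h2
  have k5 : a / 8 - 1 / 24 = (-(a / 2)) ^ 2 / (2 * a) - 1 / 24 := by
    field_simp
    ring
  have h3 : nahmSum !![a, 1 - a; 1 - a, a] ![-(a / 2), a / 2] (a / 8 - 1 / 24) τ =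
      gE ((-(a / 2) / a : ℚ) : ℝ) (sc a ha τ) *
        (ModularForm.eta (sc a ha τ) / ModularForm.eta τ) := by
    have h4 := nahmSum_family ha hA (-(a / 2)) τ
    rw [neg_neg, ← k5] at h4
    exact h4
  rw [h3] at h2
  rw [← sub_add_cancel (gE ((-(a / 2) / a : ℚ) : ℝ) (sc a ha τ) *
    (ModularForm.eta (sc a ha τ) / ModularForm.eta τ))
    (nahmSum !![a, 1 - a; 1 - a, a] ![a / 2, 1 - a / 2] (a / 8 - 1 / 24) τ), h2]
  ring

variable {a : ℚ} (hA : (!![a, 1 - a; 1 - a, a] : Matrix (Fin 2) (Fin 2) ℚ).PosDef)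
include hA

theorem modular_family (b : ℚ) :
    IsModularFunction (nahmSum !![a, 1 - a; 1 - a, a] ![b, -b] (b ^ 2 / (2 * a) - 1 / 24)) := by
  have hpd := (pd_of_posDef hA).1
  have ha : 0 < (a : ℝ) := by simpa using hpd.ha
  have h1 : nahmSum !![a, 1 - a; 1 - a, a] ![b, -b] (b ^ 2 / (2 * a) - 1 / 24) =
      fun τ => gE ((b / a : ℚ) : ℝ) (sc a ha τ) *
        (ModularForm.eta (sc a ha τ) / ModularForm.eta τ) :=
    funext fun τ => nahmSum_family ha hA b τ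
  rw [h1]
  exact isModular_of_good ((good_sc (good_gE (b / a)) ha).mul (good_eta_quot ha))

theorem modular_exc₁ :
    IsModularFunction (nahmSum !![a, 1 - a; 1 - a, a] ![-1 / 2, -1 / 2] (1 / (8 * a) - 1 / 24)) := by
  have hpd := (pd_of_posDef hA).1
  have ha : 0 < (a : ℝ) := by simpa using hpd.ha
  have haQ : 0 < a := by exact_mod_cast ha
  have hne : a ≠ 0 := haQ.ne'
  have h1 : nahmSum !![a, 1 - a; 1 - a, a] ![-1 / 2, -1 / 2] (1 / (8 * a) - 1 / 24) =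
      fun τ => 2 * (gE ((1 / 2 / a : ℚ) : ℝ) (sc a ha τ) *
        (ModularForm.eta (sc a ha τ) / ModularForm.eta τ)) := by
    funext τ
    have h2 := nahmSum_shift hA (-1 / 2) (-1 / 2) (1 / (8 * a) - 1 / 24) τ
    have e00 : (!![a, 1 - a; 1 - a, a] : Matrix (Fin 2) (Fin 2) ℚ) 0 0 = a := rfl
    have e01 : (!![a, 1 - a; 1 - a, a] : Matrix (Fin 2) (Fin 2) ℚ) 0 1 = 1 - a := rfl
    rw [e00, e01, ← nahmSum_add_C] at h2
    have k1 : (-1 / 2 : ℚ) + 1 = 1 / 2 := by norm_num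
    have k2 : (-1 / 2 : ℚ) + a = a - 1 / 2 := by ring
    have k3 : (-1 / 2 : ℚ) + (1 - a) = -(a - 1 / 2) := by ring
    have k4 : (-1 / 2 : ℚ) = -(1 / 2) := by norm_num
    have k5 : 1 / (8 * a) - 1 / 24 = (1 / 2) ^ 2 / (2 * a) - 1 / 24 := by
      field_simp
      ring
    have k6 : 1 / (8 * a) - 1 / 24 + (a / 2 + -1 / 2) = (a - 1 / 2) ^ 2 / (2 * a) - 1 / 24 := by
      field_simp
      ring
    have h3 : nahmSum !![a, 1 - a; 1 - a, a] ![-1 / 2 + 1, -1 / 2] (1 / (8 * a) - 1 / 24) τ =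
        gE ((1 / 2 / a : ℚ) : ℝ) (sc a ha τ) *
          (ModularForm.eta (sc a ha τ) / ModularForm.eta τ) := by
      rw [k1, k4, k5]
      exact nahmSum_family ha hA (1 / 2) τ
    have h4 : nahmSum !![a, 1 - a; 1 - a, a] ![-1 / 2 + a, -1 / 2 + (1 - a)]
        (1 / (8 * a) - 1 / 24 + (a / 2 + -1 / 2)) τ =
        gE ((1 / 2 / a : ℚ) : ℝ) (sc a ha τ) *
          (ModularForm.eta (sc a ha τ) / ModularForm.eta τ) := by
      rw [k2, k3, k6, nahmSum_family ha hA (a - 1 / 2) τ]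
      congr 1
      have k7 : (((a - 1 / 2) / a : ℚ) : ℝ) = -(((1 / 2 / a : ℚ) : ℝ) - 1) := by
        have k8 : (a - 1 / 2) / a = -((1 / 2 / a) - 1) := by
          field_simp
          ring
        rw [k8]
        push_cast
        ring
      rw [k7, FamAdm_gE_neg, FamAdm_gE_sub_one]
    rw [h3, h4] at h2
    rw [sub_eq_iff_eq_add.1 h2]
    ring
  rw [h1]
  exact isModular_of_good ((Good.const two_ne_zero).mul
    ((good_sc (good_gE (1 / 2 / a)) ha).mul (good_eta_quot ha)))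

theorem modular_exc₂ :
    IsModularFunction (nahmSum !![a, 1 - a; 1 - a, a] ![a / 2, 1 - a / 2] (a / 8 - 1 / 24)) := by
  have hpd := (pd_of_posDef hA).1
  have ha : 0 < (a : ℝ) := by simpa using hpd.ha
  rw [FamAdm_half ha hA]
  exact isModular_of_good ((Good.const (one_div_ne_zero two_ne_zero)).mul
    ((good_sc (good_gE (-(a / 2) / a)) ha).mul (good_eta_quot ha)))

theorem modular_exc₃ :
    IsModularFunction (nahmSum !![a, 1 - a; 1 - a, a] ![1 - a / 2, a / 2] (a / 8 - 1 / 24)) := by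
  have h1 : nahmSum !![a, 1 - a; 1 - a, a] ![1 - a / 2, a / 2] (a / 8 - 1 / 24) =
      nahmSum !![a, 1 - a; 1 - a, a] ![a / 2, 1 - a / 2] (a / 8 - 1 / 24) :=
    funext fun τ => nahmSum_swap a (1 - a) (1 - a / 2) (a / 2) (a / 8 - 1 / 24) τ
  rw [h1]
  exact modular_exc₂ hA

end Pool.Agent.Lib.MP_8ce23f_nt.R2
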