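import Pool.Agent.Lib.MP_8ce23f_nt.R2.FamId
import Pool.Agent.Lib.MP_8ce23f_nt.R2.FE

/-!
# The polynomials `D 1, D 2, D 3, D 4` of the family
-/

open Filter Topology

namespace Pool.Agent.Lib.MP_8ce23f_nt.R2

lemma id4 {a : ℂ} (ha : a ≠ 0) (s m : ℂ) :
    24 * (dk k4 a s m 1 + dk k4 a s m (2 * a - 1)) +
    24 * ((m + a * s + a) / (4 * a)) * (dk k3 a s m 1 - dk k3 a s m (2 * a - 1)) +
    12 * (dk k2 a s m 1 ^ 2 + dk k2 a s m (2 * a - 1) ^ 2) +
    12 * ((m + a * s + a) / (4 * a)) ^ 2 * (dk k2 a s m 1 + dk k2 a s m (2 * a - 1)) +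
    2 * ((m + a * s + a) / (4 * a)) ^ 4 = 0 := by
  unfold dk k2 k3 k4
  field_simp
  ring

/-- The recursion for the first four coefficients of `R l`. -/
lemma famD_R {A : Matrix (Fin 2) (Fin 2) ℂ} {Q : Fin 2 → ℂ} {D : ℕ → P}
    {R S : Fin 2 → PowerSeries P} (h : FD A Q D R S) (l : Fin 2) (x y : ℂ) :
    let δ : ℕ → ℂ := fun j => ev (x + (Pi.single l 1 : Fin 2 → ℂ) 0)
      (y + (Pi.single l 1 : Fin 2 → ℂ) 1) (D j) - ev x y (D j)
    let ρ : ℕ → ℂ := fun k => ev x y (PowerSeries.coeff k (R l))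
    ρ 1 = δ 1 ∧ 2 * ρ 2 = δ 1 * ρ 1 + 2 * δ 2 ∧ 3 * ρ 3 = δ 1 * ρ 2 + 2 * δ 2 * ρ 1 + 3 * δ 3 ∧
      4 * ρ 4 = δ 1 * ρ 3 + 2 * δ 2 * ρ 2 + 3 * δ 3 * ρ 1 + 4 * δ 4 := by
  intro δ ρ
  have h0 : ρ 0 = 1 := by
    have := h.R0 l
    simp only [ρ]
    rw [PowerSeries.coeff_zero_eq_constantCoeff_apply, this, map_one]
  have key : ∀ k : ℕ, (k : ℂ) * ρ k = ∑ p ∈ Finset.HasAntidiagonal.antidiagonal k,
      ((p.1 : ℂ) * δ p.1) * ρ p.2 := by
    intro k
    have h1 := congrArg (ev x y) (h.Rθ l k)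
    simp only [map_mul, map_sum, map_natCast, map_sub, ev_sh] at h1
    exact h1
  have k1 := key 1
  have k2 := key 2
  have k3 := key 3
  have k4 := key 4
  simp only [Finset.Nat.antidiagonal_succ, Finset.Nat.antidiagonal_zero, Finset.sum_cons,
    Finset.map_singleton, Finset.sum_singleton, Finset.map_cons,
    Function.Embedding.prodMap, Function.Embedding.coeFn_mk, Prod.map, Nat.succ_eq_add_one,
    Function.Embedding.refl_apply] at k1 k2 k3 k4
  norm_num at k1 k2 k3 k4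
  rw [h0] at k1 k2 k3 k4
  refine ⟨?_, ?_, ?_, ?_⟩
  · linear_combination k1
  · linear_combination k2
  · linear_combination k3
  · linear_combination k4

/-- The recursion for the first four coefficients of `S l`. -/
lemma famD_S {A : Matrix (Fin 2) (Fin 2) ℂ} {Q : Fin 2 → ℂ} {D : ℕ → P}
    {R S : Fin 2 → PowerSeries P} (h : FD A Q D R S) (l : Fin 2) (x y : ℂ) :
    let ε : ℕ → ℂ := fun j => ev (x + A l 0) (y + A l 1) (D j) - ev x y (D j)
    let lam : ℂ := ev x y (MvPolynomial.X l + MvPolynomial.C (A l l / 2))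
    let σ : ℕ → ℂ := fun k => ev x y (PowerSeries.coeff k (S l))
    σ 1 = ε 1 - lam ∧ 2 * σ 2 = (ε 1 - lam) * σ 1 + 2 * ε 2 ∧
      3 * σ 3 = (ε 1 - lam) * σ 2 + 2 * ε 2 * σ 1 + 3 * ε 3 ∧
      4 * σ 4 = (ε 1 - lam) * σ 3 + 2 * ε 2 * σ 2 + 3 * ε 3 * σ 1 + 4 * ε 4 := by
  intro ε lam σ
  have h0 : σ 0 = 1 := by
    have := h.S0 l
    simp only [σ]
    rw [PowerSeries.coeff_zero_eq_constantCoeff_apply, this, map_one]
  have key : ∀ k : ℕ, (k : ℂ) * σ k = ∑ p ∈ Finset.HasAntidiagonal.antidiagonal k,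
      ((p.1 : ℂ) * ε p.1 - if p.1 = 1 then lam else 0) * σ p.2 := by
    intro k
    have h1 := congrArg (ev x y) (h.Sθ l k)
    simp only [map_mul, map_sum, map_natCast, map_sub, ev_sh, apply_ite (ev x y), map_zero] at h1
    exact h1
  have k1 := key 1
  have k2 := key 2
  have k3 := key 3
  have k4 := key 4
  simp only [Finset.Nat.antidiagonal_succ, Finset.Nat.antidiagonal_zero, Finset.sum_cons,
    Finset.map_singleton, Finset.sum_singleton, Finset.map_cons,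
    Function.Embedding.prodMap, Function.Embedding.coeFn_mk, Prod.map, Nat.succ_eq_add_one,
    Function.Embedding.refl_apply] at k1 k2 k3 k4
  norm_num at k1 k2 k3 k4
  rw [h0] at k1 k2 k3 k4
  refine ⟨?_, ?_, ?_, ?_⟩
  · linear_combination k1
  · linear_combination k2
  · linear_combination k3
  · linear_combination k4

lemma famD_fe {A : Matrix (Fin 2) (Fin 2) ℂ} {Q : Fin 2 → ℂ} {D : ℕ → P}
    {R S : Fin 2 → PowerSeries P} (h : FD A Q D R S) (l : Fin 2) (x y : ℂ) {k : ℕ} (hk : k ≠ 0) :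
    Q l * ev x y (PowerSeries.coeff k (R l)) + (1 - Q l) * ev x y (PowerSeries.coeff k (S l)) =
      0 := by
  have h1 := congrArg (fun f => ev x y (PowerSeries.coeff k f)) (h.fe l)
  simp only [map_add, PowerSeries.coeff_C_mul, map_mul, PowerSeries.coeff_one, if_neg hk,
    map_zero] at h1
  have h2 : ∀ z : ℂ, ev x y (MvPolynomial.C z) = z := fun z => by simp [ev]
  simpa [h2] using h1

/-- A function whose sum of differences agrees with that of `D` differs from it by a constant. -/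
lemma famD_unique {a : ℝ} (ha : 1 / 2 < a) (D G : P)
    (h : ∀ (l : Fin 2) (x y : ℂ),
      (ev (x + (Pi.single l 1 : Fin 2 → ℂ) 0) (y + (Pi.single l 1 : Fin 2 → ℂ) 1) D - ev x y D) +
        (ev (x + Am a (1 - a) a l 0) (y + Am a (1 - a) a l 1) D - ev x y D) =
      (ev (x + (Pi.single l 1 : Fin 2 → ℂ) 0) (y + (Pi.single l 1 : Fin 2 → ℂ) 1) G - ev x y G) +
        (ev (x + Am a (1 - a) a l 0) (y + Am a (1 - a) a l 1) G - ev x y G)) :
    ∃ c : ℂ, ∀ x y : ℂ, ev x y D = ev x y G + c := by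
  have hpd : PD a (1 - a) a := ⟨by linarith, by linarith, by nlinarith⟩
  have hnd := nondeg_Am hpd (Q₁ := 1 / 2) (Q₂ := 1 / 2) (by norm_num) (by norm_num) (by norm_num)
    (by norm_num)
  have h0 := degree_lemma_zero hnd (D := D - G) (by
    intro l
    refine MvPolynomial.funext fun z => ?_
    have hz : ∀ p : P, MvPolynomial.eval z p = ev (z 0) (z 1) p := by
      intro p
      unfold ev
      congr 2
      funext i
      fin_cases i <;> rfl
    have hQ : Qv (1 / 2) (1 / 2) l = 1 / 2 := by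
      fin_cases l <;> simp [Qv]
    have h1 := h l (z 0) (z 1)
    have hC : ∀ w : ℂ, ev (z 0) (z 1) (MvPolynomial.C w) = w := fun w => by simp [ev]
    rw [hQ, hz, hz]
    simp only [map_add, map_mul, map_sub, hC, ev_sh, map_zero, map_one]
    linear_combination (1 / 2 : ℂ) * h1)
  rw [MvPolynomial.totalDegree_eq_zero_iff_eq_C] at h0
  refine ⟨MvPolynomial.coeff 0 (D - G), fun x y => ?_⟩
  have h1 := congrArg (ev x y) h0
  rw [map_sub] at h1
  have hC : ∀ w : ℂ, ev x y (MvPolynomial.C w) = w := fun w => by simp [ev]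
  rw [hC] at h1
  linear_combination h1

/-- The explicit polynomials. -/
lemma exists_poly_g1 (a : ℂ) : ∃ G : P, ∀ x y : ℂ, ev x y G = g1 a x y := by
  refine ⟨MvPolynomial.C (1 / (8 * a)) * (MvPolynomial.X 0 - MvPolynomial.X 1) ^ 2 +
    MvPolynomial.C ((a - 1) / (8 * a)) * (MvPolynomial.X 0 + MvPolynomial.X 1) +
    MvPolynomial.C (1 / 8) * (MvPolynomial.X 0 + MvPolynomial.X 1) ^ 2, fun x y => ?_⟩
  simp only [ev, g1, map_add, map_mul, map_pow, map_sub, MvPolynomial.eval_C, MvPolynomial.eval_X,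
    Matrix.cons_val_zero, Matrix.cons_val_one]
  ring

lemma exists_poly_g2 (a : ℂ) : ∃ G : P, ∀ x y : ℂ, ev x y G = g2 a x y := by
  refine ⟨MvPolynomial.C (1 / (192 * a ^ 2)) * ((MvPolynomial.X 0 + MvPolynomial.X 1) *
    (MvPolynomial.C (3 - 6 * a + 5 * a ^ 2) -
      MvPolynomial.C 6 * (MvPolynomial.X 0 - MvPolynomial.X 1) ^ 2 +
      MvPolynomial.C (3 * (1 - a) ^ 2) * (MvPolynomial.X 0 + MvPolynomial.X 1) -
      MvPolynomial.C (2 * a ^ 2) * (MvPolynomial.X 0 + MvPolynomial.X 1) ^ 2)), fun x y => ?_⟩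
  simp only [ev, g2, map_add, map_mul, map_pow, map_sub, MvPolynomial.eval_C, MvPolynomial.eval_X,
    Matrix.cons_val_zero, Matrix.cons_val_one]
  ring

lemma exists_poly_g3 (a : ℂ) : ∃ G : P, ∀ x y : ℂ, ev x y G = g3 a x y := by
  refine ⟨MvPolynomial.C ((a - 1) / (384 * a ^ 3)) * ((MvPolynomial.X 0 + MvPolynomial.X 1) *
    (MvPolynomial.C (3 * a ^ 2 - 4 * a + 2) -
      MvPolynomial.C 3 * (MvPolynomial.X 0 - MvPolynomial.X 1) ^ 2 *
        (1 + (MvPolynomial.X 0 + MvPolynomial.X 1)) +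
      MvPolynomial.C (3 * (a - 1) ^ 2) * (MvPolynomial.X 0 + MvPolynomial.X 1) -
      MvPolynomial.C (2 * a - 1) * (MvPolynomial.X 0 + MvPolynomial.X 1) ^ 2)), fun x y => ?_⟩
  simp only [ev, g3, map_add, map_mul, map_pow, map_sub, map_one, MvPolynomial.eval_C,
    MvPolynomial.eval_X, Matrix.cons_val_zero, Matrix.cons_val_one]
  ring

lemma exists_poly_g4 (a : ℂ) : ∃ G : P, ∀ x y : ℂ, ev x y G = g4 a x y := by
  refine ⟨MvPolynomial.C (1 / (92160 * a ^ 4)) * ((MvPolynomial.X 0 + MvPolynomial.X 1) *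
    (MvPolynomial.C (255 - 1020 * a + 1650 * a ^ 2 - 1260 * a ^ 3 + 389 * a ^ 4) +
      MvPolynomial.C (-360 + 720 * a - 420 * a ^ 2) *
        (MvPolynomial.X 0 - MvPolynomial.X 1) ^ 2 +
      MvPolynomial.C 30 * (MvPolynomial.X 0 - MvPolynomial.X 1) ^ 4 +
      MvPolynomial.C (480 - 1920 * a + 2940 * a ^ 2 - 2040 * a ^ 3 + 540 * a ^ 4) *
        (MvPolynomial.X 0 + MvPolynomial.X 1) +
      MvPolynomial.C (-540 + 1080 * a - 540 * a ^ 2) *
        (MvPolynomial.X 0 - MvPolynomial.X 1) ^ 2 * (MvPolynomial.X 0 + MvPolynomial.X 1) +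
      MvPolynomial.C (270 - 1080 * a + 1500 * a ^ 2 - 840 * a ^ 3 + 130 * a ^ 4) *
        (MvPolynomial.X 0 + MvPolynomial.X 1) ^ 2 +
      MvPolynomial.C (-180 + 360 * a - 120 * a ^ 2) *
        (MvPolynomial.X 0 - MvPolynomial.X 1) ^ 2 * (MvPolynomial.X 0 + MvPolynomial.X 1) ^ 2 +
      MvPolynomial.C (45 - 180 * a + 210 * a ^ 2 - 60 * a ^ 3 - 15 * a ^ 4) *
        (MvPolynomial.X 0 + MvPolynomial.X 1) ^ 3 +
      MvPolynomial.C (6 * a ^ 4) * (MvPolynomial.X 0 + MvPolynomial.X 1) ^ 4)), fun x y => ?_⟩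
  simp only [ev, g4, map_add, map_mul, map_pow, map_sub, MvPolynomial.eval_C, MvPolynomial.eval_X,
    Matrix.cons_val_zero, Matrix.cons_val_one]
  ring

/-- `g` is the even function `k` of `s = x + y`, `m = x - y`. -/
def EvenRep (a : ℂ) (g : ℂ → ℂ → ℂ → ℂ) (k : ℂ → ℂ → ℂ → ℂ) : Prop :=
  (∀ x y, g a x y = k a (x + y) (x - y)) ∧ ∀ s m, k a s (-m) = k a s m

lemma evenRep1 (a : ℂ) : EvenRep a g1 k1 :=
  ⟨fun x y => rfl, fun s m => by unfold k1; ring⟩

lemma evenRep2 (a : ℂ) : EvenRep a g2 k2 :=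
  ⟨fun x y => rfl, fun s m => by unfold k2; ring⟩

lemma evenRep3 (a : ℂ) : EvenRep a g3 k3 :=
  ⟨fun x y => rfl, fun s m => by unfold k3; ring⟩

lemma evenRep4 (a : ℂ) : EvenRep a g4 k4 :=
  ⟨fun x y => rfl, fun s m => by unfold k4; ring⟩

/-- The variable `m` seen from the index `l`. -/
noncomputable def mv (l : Fin 2) (x y : ℂ) : ℂ := if l = 0 then x - y else -(x - y)

lemma famD_diff {a : ℝ} {g k : ℂ → ℂ → ℂ → ℂ} (h : EvenRep a g k) (l : Fin 2) (x y : ℂ) :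
    g a (x + (Pi.single l 1 : Fin 2 → ℂ) 0) (y + (Pi.single l 1 : Fin 2 → ℂ) 1) - g a x y =
      dk k a (x + y) (mv l x y) 1 ∧
    g a (x + Am a (1 - a) a l 0) (y + Am a (1 - a) a l 1) - g a x y =
      dk k a (x + y) (mv l x y) (2 * a - 1) := by
  obtain ⟨h1, h2⟩ := h
  fin_cases l
  · simp only [Fin.zero_eta, Fin.isValue, Pi.single_eq_same, ne_eq, one_ne_zero,
      not_false_eq_true, Pi.single_eq_of_ne, add_zero, mv, if_true, dk, h1, Am,
      Matrix.of_apply, Matrix.cons_val', Matrix.cons_val_zero, Matrix.cons_val_one]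
    constructor
    · congr 2 <;> ring
    · congr 2 <;> push_cast <;> ring
  · simp only [Fin.mk_one, Fin.isValue, Pi.single_eq_same, ne_eq, zero_ne_one,
      not_false_eq_true, Pi.single_eq_of_ne, add_zero, mv, one_ne_zero, if_false, dk, h1, Am,
      Matrix.of_apply, Matrix.cons_val', Matrix.cons_val_zero, Matrix.cons_val_one]
    constructor
    · rw [h2, ← h2 _ (-(x - y) + 1)]
      congr 2 <;> ring
    · rw [h2, ← h2 _ (-(x - y) + (2 * a - 1))]
      congr 2 <;> push_cast <;> ring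

lemma famD_lam {a : ℝ} (l : Fin 2) (x y : ℂ) :
    ev x y (MvPolynomial.X l + MvPolynomial.C (Am a (1 - a) a l l / 2)) =
      ((x + y) + mv l x y) / 2 + a / 2 := by
  fin_cases l
  · simp [ev, mv, Am]
  · simp [ev, mv, Am]
    ring

theorem fam_D {a : ℝ} (ha : 1 / 2 < a) {D : ℕ → P} {R S : Fin 2 → PowerSeries P}
    (hFD : FD (Am a (1 - a) a) (Qv (1 / 2) (1 / 2)) D R S) :
    ∃ c₁ c₂ c₃ c₄ : ℂ, ∀ x y : ℂ,
      ev x y (D 1) = g1 a x y + c₁ ∧ ev x y (D 2) = g2 a x y + c₂ ∧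
      ev x y (D 3) = g3 a x y + c₃ ∧ ev x y (D 4) = g4 a x y + c₄ := by
  have ha0 : (a : ℂ) ≠ 0 := by
    have : a ≠ 0 := by linarith
    exact_mod_cast this
  have hQ : ∀ l, Qv (1 / 2) (1 / 2) l = 1 / 2 := by
    intro l
    fin_cases l <;> simp [Qv]
  have hfe : ∀ (l : Fin 2) (x y : ℂ) (k : ℕ), k ≠ 0 →
      ev x y (PowerSeries.coeff k (R l)) + ev x y (PowerSeries.coeff k (S l)) = 0 := by
    intro l x y k hk
    have h1 := famD_fe hFD l x y hk
    rw [hQ] at h1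
    linear_combination 2 * h1
  -- step 1
  obtain ⟨G1, hG1⟩ := exists_poly_g1 (a : ℂ)
  obtain ⟨c₁, hc₁⟩ := famD_unique ha (D 1) G1 (by
    intro l x y
    obtain ⟨r1, -, -, -⟩ := famD_R hFD l x y
    obtain ⟨s1, -, -, -⟩ := famD_S hFD l x y
    have f1 := hfe l x y 1 (by norm_num)
    rw [famD_lam] at s1
    simp only [hG1]
    obtain ⟨e1, e2⟩ := famD_diff (evenRep1 (a : ℂ)) l x y
    rw [e1, e2, dk1_one ha0]
    have e3 := dk1_A ha0 (x + y) (mv l x y)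
    linear_combination f1 - r1 - s1 - e3)
  have d1 : ∀ (l : Fin 2) (x y : ℂ),
      ev (x + (Pi.single l 1 : Fin 2 → ℂ) 0) (y + (Pi.single l 1 : Fin 2 → ℂ) 1) (D 1) -
        ev x y (D 1) = (mv l x y + a * (x + y) + a) / (4 * a) ∧
      ev (x + Am a (1 - a) a l 0) (y + Am a (1 - a) a l 1) (D 1) - ev x y (D 1) -
        (((x + y) + mv l x y) / 2 + a / 2) = -((mv l x y + a * (x + y) + a) / (4 * a)) := by
    intro l x y
    obtain ⟨e1, e2⟩ := famD_diff (evenRep1 (a : ℂ)) l x y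
    rw [hc₁, hc₁, hc₁, hG1, hG1, hG1]
    constructor
    · rw [← dk1_one ha0]
      linear_combination e1
    · rw [← dk1_A ha0]
      linear_combination e2
  -- step 2
  obtain ⟨G2, hG2⟩ := exists_poly_g2 (a : ℂ)
  obtain ⟨c₂, hc₂⟩ := famD_unique ha (D 2) G2 (by
    intro l x y
    obtain ⟨r1, r2, -, -⟩ := famD_R hFD l x y
    obtain ⟨s1, s2, -, -⟩ := famD_S hFD l x y
    have f2 := hfe l x y 2 (by norm_num)
    beta_reduce at r1 r2 s1 s2
    rw [famD_lam] at s1 s2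
    rw [(d1 l x y).1] at r1 r2
    rw [(d1 l x y).2] at s1 s2
    rw [r1] at r2
    rw [s1] at s2
    simp only [hG2]
    obtain ⟨e1, e2⟩ := famD_diff (evenRep2 (a : ℂ)) l x y
    rw [e1, e2]
    have e3 := id2 ha0 (x + y) (mv l x y)
    linear_combination f2 - r2 / 2 - s2 / 2 - e3)
  have d2 : ∀ (l : Fin 2) (x y : ℂ),
      ev (x + (Pi.single l 1 : Fin 2 → ℂ) 0) (y + (Pi.single l 1 : Fin 2 → ℂ) 1) (D 2) -
        ev x y (D 2) = dk k2 a (x + y) (mv l x y) 1 ∧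
      ev (x + Am a (1 - a) a l 0) (y + Am a (1 - a) a l 1) (D 2) - ev x y (D 2) =
        dk k2 a (x + y) (mv l x y) (2 * a - 1) := by
    intro l x y
    obtain ⟨e1, e2⟩ := famD_diff (evenRep2 (a : ℂ)) l x y
    rw [hc₂, hc₂, hc₂, hG2, hG2, hG2]
    constructor
    · linear_combination e1
    · linear_combination e2
  -- step 3
  obtain ⟨G3, hG3⟩ := exists_poly_g3 (a : ℂ)
  obtain ⟨c₃, hc₃⟩ := famD_unique ha (D 3) G3 (by
    intro l x y
    obtain ⟨r1, r2, r3, -⟩ := famD_R hFD l x y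
    obtain ⟨s1, s2, s3, -⟩ := famD_S hFD l x y
    have f3 := hfe l x y 3 (by norm_num)
    beta_reduce at r1 r2 r3 s1 s2 s3
    rw [famD_lam] at s1 s2 s3
    rw [(d1 l x y).1] at r1 r2 r3
    rw [(d1 l x y).2] at s1 s2 s3
    rw [(d2 l x y).1] at r2 r3
    rw [(d2 l x y).2] at s2 s3
    simp only [hG3]
    obtain ⟨e1, e2⟩ := famD_diff (evenRep3 (a : ℂ)) l x y
    rw [e1, e2]
    have e3 := id3 ha0 (x + y) (mv l x y)
    rw [r1] at r2 r3
    rw [s1] at s2 s3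
    set r : ℂ := (mv l x y + a * (x + y) + a) / (4 * a) with hr
    linear_combination f3 - r3 / 3 - s3 / 3 - r * r2 / 6 + r * s2 / 6 - e3 / 3)
  have d3 : ∀ (l : Fin 2) (x y : ℂ),
      ev (x + (Pi.single l 1 : Fin 2 → ℂ) 0) (y + (Pi.single l 1 : Fin 2 → ℂ) 1) (D 3) -
        ev x y (D 3) = dk k3 a (x + y) (mv l x y) 1 ∧
      ev (x + Am a (1 - a) a l 0) (y + Am a (1 - a) a l 1) (D 3) - ev x y (D 3) =
        dk k3 a (x + y) (mv l x y) (2 * a - 1) := by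
    intro l x y
    obtain ⟨e1, e2⟩ := famD_diff (evenRep3 (a : ℂ)) l x y
    rw [hc₃, hc₃, hc₃, hG3, hG3, hG3]
    constructor
    · linear_combination e1
    · linear_combination e2
  -- step 4
  obtain ⟨G4, hG4⟩ := exists_poly_g4 (a : ℂ)
  obtain ⟨c₄, hc₄⟩ := famD_unique ha (D 4) G4 (by
    intro l x y
    obtain ⟨r1, r2, r3, r4⟩ := famD_R hFD l x y
    obtain ⟨s1, s2, s3, s4⟩ := famD_S hFD l x y
    have f4 := hfe l x y 4 (by norm_num)
    beta_reduce at r1 r2 r3 r4 s1 s2 s3 s4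
    rw [famD_lam] at s1 s2 s3 s4
    rw [(d1 l x y).1] at r1 r2 r3 r4
    rw [(d1 l x y).2] at s1 s2 s3 s4
    rw [(d2 l x y).1] at r2 r3 r4
    rw [(d2 l x y).2] at s2 s3 s4
    rw [(d3 l x y).1] at r3 r4
    rw [(d3 l x y).2] at s3 s4
    simp only [hG4]
    obtain ⟨e1, e2⟩ := famD_diff (evenRep4 (a : ℂ)) l x y
    rw [e1, e2]
    have e3 := id4 ha0 (x + y) (mv l x y)
    rw [r1] at r2 r3 r4
    rw [s1] at s2 s3 s4
    set r : ℂ := (mv l x y + a * (x + y) + a) / (4 * a) with hr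
    set ρ2 := ev x y (PowerSeries.coeff 2 (R l)) with hρ2
    set ρ3 := ev x y (PowerSeries.coeff 3 (R l)) with hρ3
    set ρ4 := ev x y (PowerSeries.coeff 4 (R l)) with hρ4
    set σ2 := ev x y (PowerSeries.coeff 2 (S l)) with hσ2
    set σ3 := ev x y (PowerSeries.coeff 3 (S l)) with hσ3
    set σ4 := ev x y (PowerSeries.coeff 4 (S l)) with hσ4
    have r2' : ρ2 = dk k2 a (x + y) (mv l x y) 1 + r ^ 2 / 2 := by linear_combination r2 / 2
    have s2' : σ2 = dk k2 a (x + y) (mv l x y) (2 * a - 1) + r ^ 2 / 2 := by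
      linear_combination s2 / 2
    rw [r2'] at r3 r4
    rw [s2'] at s3 s4
    have r3' : ρ3 = dk k3 a (x + y) (mv l x y) 1 + r * dk k2 a (x + y) (mv l x y) 1 +
        r ^ 3 / 6 := by linear_combination r3 / 3
    have s3' : σ3 = dk k3 a (x + y) (mv l x y) (2 * a - 1) -
        r * dk k2 a (x + y) (mv l x y) (2 * a - 1) - r ^ 3 / 6 := by
      linear_combination s3 / 3
    rw [r3'] at r4
    rw [s3'] at s4
    linear_combination f4 - r4 / 4 - s4 / 4 - e3 / 24)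
  refine ⟨c₁, c₂, c₃, c₄, fun x y => ⟨?_, ?_, ?_, ?_⟩⟩
  · rw [hc₁, hG1]
  · rw [hc₂, hG2]
  · rw [hc₃, hG3]
  · rw [hc₄, hG4]

end Pool.Agent.Lib.MP_8ce23f_nt.R2
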