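import Pool.Agent.Lib.MP_8ce23f_nt.R2.Degree

/-!
# The explicit polynomials for the family `(a, 1-a; 1-a, a)`

With `s = x + y`, `m = x - y` all four shifts raise `s` by one: `e_0 : m → m + 1`,
`e_1 : m → m - 1`, `A_0 : m → m + (2a-1)`, `A_1 : m → m - (2a-1)`.
-/

namespace Pool.Agent.Lib.MP_8ce23f_nt.R2

/-- `D 1` up to a constant. -/
noncomputable def g1 (a x y : ℂ) : ℂ :=
  (x - y) ^ 2 / (8 * a) + (a - 1) / (8 * a) * (x + y) + (x + y) ^ 2 / 8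

/-- `D 2` up to a constant. -/
noncomputable def g2 (a x y : ℂ) : ℂ :=
  (x + y) * (3 - 6 * a + 5 * a ^ 2 - 6 * (x - y) ^ 2 + 3 * (1 - a) ^ 2 * (x + y) -
    2 * a ^ 2 * (x + y) ^ 2) / (192 * a ^ 2)

/-- `D 3` up to a constant. -/
noncomputable def g3 (a x y : ℂ) : ℂ :=
  (x + y) * (a - 1) * (3 * a ^ 2 - 4 * a + 2 - 3 * (x - y) ^ 2 * (1 + (x + y)) +
    3 * (a - 1) ^ 2 * (x + y) - (2 * a - 1) * (x + y) ^ 2) / (384 * a ^ 3)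

/-- `D 4` up to a constant. -/
noncomputable def g4 (a x y : ℂ) : ℂ :=
  (x + y) * ((255 - 1020 * a + 1650 * a ^ 2 - 1260 * a ^ 3 + 389 * a ^ 4) +
    (-360 + 720 * a - 420 * a ^ 2) * (x - y) ^ 2 + 30 * (x - y) ^ 4 +
    (480 - 1920 * a + 2940 * a ^ 2 - 2040 * a ^ 3 + 540 * a ^ 4) * (x + y) +
    (-540 + 1080 * a - 540 * a ^ 2) * (x - y) ^ 2 * (x + y) +
    (270 - 1080 * a + 1500 * a ^ 2 - 840 * a ^ 3 + 130 * a ^ 4) * (x + y) ^ 2 +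
    (-180 + 360 * a - 120 * a ^ 2) * (x - y) ^ 2 * (x + y) ^ 2 +
    (45 - 180 * a + 210 * a ^ 2 - 60 * a ^ 3 - 15 * a ^ 4) * (x + y) ^ 3 +
    6 * a ^ 4 * (x + y) ^ 4) / (92160 * a ^ 4)

end Pool.Agent.Lib.MP_8ce23f_nt.R2
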