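import Pool.Agent.Lib.MP_8ce23f_nt.R2.FamDefs

/-!
# The explicit functions satisfy the functional equation
-/

namespace Pool.Agent.Lib.MP_8ce23f_nt.R2

/-- `g1` in the variables `s, m`. -/
noncomputable def k1 (a s m : ℂ) : ℂ :=
  m ^ 2 / (8 * a) + (a - 1) / (8 * a) * s + s ^ 2 / 8

/-- `g2` in the variables `s, m`. -/
noncomputable def k2 (a s m : ℂ) : ℂ :=
  s * (3 - 6 * a + 5 * a ^ 2 - 6 * m ^ 2 + 3 * (1 - a) ^ 2 * s -
    2 * a ^ 2 * s ^ 2) / (192 * a ^ 2)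

/-- `g3` in the variables `s, m`. -/
noncomputable def k3 (a s m : ℂ) : ℂ :=
  s * (a - 1) * (3 * a ^ 2 - 4 * a + 2 - 3 * m ^ 2 * (1 + s) +
    3 * (a - 1) ^ 2 * s - (2 * a - 1) * s ^ 2) / (384 * a ^ 3)

/-- `g4` in the variables `s, m`. -/
noncomputable def k4 (a s m : ℂ) : ℂ :=
  s * ((255 - 1020 * a + 1650 * a ^ 2 - 1260 * a ^ 3 + 389 * a ^ 4) +
    (-360 + 720 * a - 420 * a ^ 2) * m ^ 2 + 30 * m ^ 4 +
    (480 - 1920 * a + 2940 * a ^ 2 - 2040 * a ^ 3 + 540 * a ^ 4) * s +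
    (-540 + 1080 * a - 540 * a ^ 2) * m ^ 2 * s +
    (270 - 1080 * a + 1500 * a ^ 2 - 840 * a ^ 3 + 130 * a ^ 4) * s ^ 2 +
    (-180 + 360 * a - 120 * a ^ 2) * m ^ 2 * s ^ 2 +
    (45 - 180 * a + 210 * a ^ 2 - 60 * a ^ 3 - 15 * a ^ 4) * s ^ 3 +
    6 * a ^ 4 * s ^ 4) / (92160 * a ^ 4)

/-- The four differences. -/
noncomputable def dk (k : ℂ → ℂ → ℂ → ℂ) (a s m u : ℂ) : ℂ := k a (s + 1) (m + u) - k a s m

section
variable {a : ℂ} (ha : a ≠ 0) (s m : ℂ)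
include ha

lemma dk1_one : dk k1 a s m 1 = (m + a * s + a) / (4 * a) := by
  unfold dk k1
  field_simp
  ring

lemma dk1_A : dk k1 a s m (2 * a - 1) - ((s + m) / 2 + a / 2) = -((m + a * s + a) / (4 * a)) := by
  unfold dk k1
  field_simp
  ring

lemma id2 : (dk k2 a s m 1 + dk k2 a s m (2 * a - 1)) +
    ((m + a * s + a) / (4 * a)) ^ 2 = 0 := by
  unfold dk k2
  field_simp
  ring

lemma id3 : 3 * (dk k3 a s m 1 + dk k3 a s m (2 * a - 1)) +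
    ((m + a * s + a) / (4 * a)) * 3 * (dk k2 a s m 1 - dk k2 a s m (2 * a - 1)) = 0 := by
  unfold dk k2 k3
  field_simp
  ring

end

end Pool.Agent.Lib.MP_8ce23f_nt.R2
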