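import Pool.Agent.Lib.MP_8ce23f_nt.R2.FamDefs

/-!
# Solving the system

Job FamSolve.  Cast everything to `ℝ` or `ℚ`.  With `s = x + y ≠ 0`, `M = (x-y)²`: `g2 = 0` gives
`6 M = 5a² - 6a + 3 + 3(1-a)² s - 2a² s²`; substituting in `g3 = 0` (`a ≠ 1`) gives
`(s² - 1)(2 a² s - (a-1)²) = 0`.  `s = 1`: `M = (a-1)²`, so `(x, y) = (a/2, 1 - a/2)` or the swap.
`s = -1`: `M = 0`, `x = y = -1/2`.  `2 a² s = (a-1)²`: then
`12 * (bracket of g4) * 2 a^6 ...` is, up to a positive factor,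
`-(2a-1)(-45 + 360a - 1396a² + 3336a³ - 5026a⁴ + 4584a⁵ - 1772a⁶ - 568a⁷ + 591a⁸)`, and with
`a = 1/2 + u`, `u > 0`, the last factor is
`591/256 + 449/16 u + 377/16 u² + 423/4 u³ - 883/8 u⁴ + 423 u⁵ + 377 u⁶ + 1796 u⁷ + 591 u⁸ > 0`
(`423/4 u³ + 423 u⁵ ≥ 423 u⁴`).  (The value of the bracket of `g4` there is
`-(92160/2211840) * (2a-1)(...)/a^6`, i.e. `-(1/24) (2a-1)(...)/a^6`.)
-/

namespace Pool.Agent.Lib.MP_8ce23f_nt.R2

/-- The bracket of `g4` at the third branch. -/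
theorem famsolve_third {a s M : ℚ} (ha : 0 < a) (hs : s = (a - 1) ^ 2 / (2 * a ^ 2))
    (hM : M = (3 - 6 * a + 5 * a ^ 2 + 3 * (1 - a) ^ 2 * s - 2 * a ^ 2 * s ^ 2) / 6) :
    (255 - 1020 * a + 1650 * a ^ 2 - 1260 * a ^ 3 + 389 * a ^ 4) +
    (-360 + 720 * a - 420 * a ^ 2) * M + 30 * M ^ 2 +
    (480 - 1920 * a + 2940 * a ^ 2 - 2040 * a ^ 3 + 540 * a ^ 4) * s +
    (-540 + 1080 * a - 540 * a ^ 2) * M * s +
    (270 - 1080 * a + 1500 * a ^ 2 - 840 * a ^ 3 + 130 * a ^ 4) * s ^ 2 +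
    (-180 + 360 * a - 120 * a ^ 2) * M * s ^ 2 +
    (45 - 180 * a + 210 * a ^ 2 - 60 * a ^ 3 - 15 * a ^ 4) * s ^ 3 +
    6 * a ^ 4 * s ^ 4 =
      -(1 / 24) * (2 * a - 1) * (-45 + 360 * a - 1396 * a ^ 2 + 3336 * a ^ 3 - 5026 * a ^ 4 +
        4584 * a ^ 5 - 1772 * a ^ 6 - 568 * a ^ 7 + 591 * a ^ 8) / a ^ 6 := by
  rw [hM, hs]
  field_simp
  ring

theorem famsolve_pos {a : ℚ} (ha : 1 / 2 < a) :
    0 < -45 + 360 * a - 1396 * a ^ 2 + 3336 * a ^ 3 - 5026 * a ^ 4 +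
        4584 * a ^ 5 - 1772 * a ^ 6 - 568 * a ^ 7 + 591 * a ^ 8 := by
  obtain ⟨u, hu, rfl⟩ : ∃ u : ℚ, 0 < u ∧ a = 1 / 2 + u := ⟨a - 1 / 2, by linarith, by ring⟩
  have e : -45 + 360 * (1 / 2 + u) - 1396 * (1 / 2 + u) ^ 2 + 3336 * (1 / 2 + u) ^ 3 -
      5026 * (1 / 2 + u) ^ 4 + 4584 * (1 / 2 + u) ^ 5 - 1772 * (1 / 2 + u) ^ 6 -
      568 * (1 / 2 + u) ^ 7 + 591 * (1 / 2 + u) ^ 8 =
      591 / 256 + 449 / 16 * u + 377 / 16 * u ^ 2 + 423 * u ^ 3 * (u - 1 / 2) ^ 2 +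
        (2501 / 8) * u ^ 4 + 377 * u ^ 6 + 1796 * u ^ 7 + 591 * u ^ 8 := by ring
  rw [e]
  positivity

theorem fam_solve {a x y : ℚ} (ha : 1 / 2 < a) (ha1 : a ≠ 1) (hs : x + y ≠ 0)
    (h2 : g2 a x y = 0) (h3 : g3 a x y = 0) (h4 : g4 a x y = 0) :
    (x = -1 / 2 ∧ y = -1 / 2) ∨ (x = a / 2 ∧ y = 1 - a / 2) ∨ (x = 1 - a / 2 ∧ y = a / 2) := by
  have ha0 : 0 < a := by linarith
  have haC : (a : ℂ) ≠ 0 := by exact_mod_cast ha0.ne'
  have hsC : (x : ℂ) + y ≠ 0 := by exact_mod_cast hs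
  have haC1 : (a : ℂ) - 1 ≠ 0 := by
    have : a - 1 ≠ 0 := sub_ne_zero.mpr ha1
    exact_mod_cast this
  have p2 : 3 - 6 * a + 5 * a ^ 2 - 6 * (x - y) ^ 2 + 3 * (1 - a) ^ 2 * (x + y) -
      2 * a ^ 2 * (x + y) ^ 2 = 0 := by
    unfold g2 at h2
    rw [div_eq_zero_iff, mul_eq_zero] at h2
    rcases h2 with (h | h) | h
    · exact absurd h hsC
    · exact_mod_cast h
    · exact absurd h (mul_ne_zero (by norm_num) (pow_ne_zero _ haC))
  have p3 : 3 * a ^ 2 - 4 * a + 2 - 3 * (x - y) ^ 2 * (1 + (x + y)) +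
      3 * (a - 1) ^ 2 * (x + y) - (2 * a - 1) * (x + y) ^ 2 = 0 := by
    unfold g3 at h3
    rw [div_eq_zero_iff, mul_eq_zero, mul_eq_zero] at h3
    rcases h3 with ((h | h) | h) | h
    · exact absurd h hsC
    · exact absurd h haC1
    · exact_mod_cast h
    · exact absurd h (mul_ne_zero (by norm_num) (pow_ne_zero _ haC))
  have p4 : (255 - 1020 * a + 1650 * a ^ 2 - 1260 * a ^ 3 + 389 * a ^ 4) +
      (-360 + 720 * a - 420 * a ^ 2) * (x - y) ^ 2 + 30 * (x - y) ^ 4 +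
      (480 - 1920 * a + 2940 * a ^ 2 - 2040 * a ^ 3 + 540 * a ^ 4) * (x + y) +
      (-540 + 1080 * a - 540 * a ^ 2) * (x - y) ^ 2 * (x + y) +
      (270 - 1080 * a + 1500 * a ^ 2 - 840 * a ^ 3 + 130 * a ^ 4) * (x + y) ^ 2 +
      (-180 + 360 * a - 120 * a ^ 2) * (x - y) ^ 2 * (x + y) ^ 2 +
      (45 - 180 * a + 210 * a ^ 2 - 60 * a ^ 3 - 15 * a ^ 4) * (x + y) ^ 3 +
      6 * a ^ 4 * (x + y) ^ 4 = 0 := by
    unfold g4 at h4
    rw [div_eq_zero_iff, mul_eq_zero] at h4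
    rcases h4 with (h | h) | h
    · exact absurd h hsC
    · exact_mod_cast h
    · exact absurd h (mul_ne_zero (by norm_num) (pow_ne_zero _ haC))
  have key : ((x + y) ^ 2 - 1) * (2 * a ^ 2 * (x + y) - (a - 1) ^ 2) = 0 := by
    linear_combination 2 * p3 - (1 + (x + y)) * p2
  rcases mul_eq_zero.mp key with h | h
  · have h' : (x + y - 1) * (x + y + 1) = 0 := by linear_combination h
    rcases mul_eq_zero.mp h' with h1 | h1
    · have hy : y = 1 - x := by linear_combination h1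
      subst hy
      have h5 : (2 * x - a) * (2 * x - 2 + a) = 0 := by
        linear_combination (-(1 / 6) : ℚ) * p2
      rcases mul_eq_zero.mp h5 with h6 | h6
      · right; left
        have : x = a / 2 := by linarith
        exact ⟨this, by rw [this]⟩
      · right; right
        have : x = 1 - a / 2 := by linarith
        exact ⟨this, by rw [this]; ring⟩
    · have hy : y = -1 - x := by linear_combination h1
      subst hy
      left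
      have h5 : (2 * x + 1) ^ 2 = 0 := by
        linear_combination (-(1 / 6) : ℚ) * p2
      have h6 : 2 * x + 1 = 0 := pow_eq_zero_iff (two_ne_zero) |>.mp h5
      have : x = -1 / 2 := by linarith
      exact ⟨this, by rw [this]; ring⟩
  · exfalso
    have hsv : x + y = (a - 1) ^ 2 / (2 * a ^ 2) := by
      rw [eq_div_iff (by positivity)]
      linear_combination h
    have hMv : (x - y) ^ 2 = (3 - 6 * a + 5 * a ^ 2 + 3 * (1 - a) ^ 2 * (x + y) -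
        2 * a ^ 2 * (x + y) ^ 2) / 6 := by
      linear_combination (-(1 / 6) : ℚ) * p2
    have h5 := famsolve_third ha0 hsv hMv
    have h6 : -(1 / 24) * (2 * a - 1) * (-45 + 360 * a - 1396 * a ^ 2 + 3336 * a ^ 3 -
        5026 * a ^ 4 + 4584 * a ^ 5 - 1772 * a ^ 6 - 568 * a ^ 7 + 591 * a ^ 8) / a ^ 6 = 0 := by
      rw [← h5, ← p4]
      ring
    have h7 := famsolve_pos ha
    have h8 : 0 < (1 / 24) * (2 * a - 1) * (-45 + 360 * a - 1396 * a ^ 2 + 3336 * a ^ 3 -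
        5026 * a ^ 4 + 4584 * a ^ 5 - 1772 * a ^ 6 - 568 * a ^ 7 + 591 * a ^ 8) / a ^ 6 := by
      apply div_pos _ (by positivity)
      apply mul_pos _ h7
      linarith
    have h9 : -(1 / 24) * (2 * a - 1) * (-45 + 360 * a - 1396 * a ^ 2 + 3336 * a ^ 3 -
        5026 * a ^ 4 + 4584 * a ^ 5 - 1772 * a ^ 6 - 568 * a ^ 7 + 591 * a ^ 8) / a ^ 6 =
      -((1 / 24) * (2 * a - 1) * (-45 + 360 * a - 1396 * a ^ 2 + 3336 * a ^ 3 -
        5026 * a ^ 4 + 4584 * a ^ 5 - 1772 * a ^ 6 - 568 * a ^ 7 + 591 * a ^ 8) / a ^ 6) := by ring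
    rw [h9] at h6
    linarith

end Pool.Agent.Lib.MP_8ce23f_nt.R2
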