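import Pool.Agent.Lib.MP_8ce23f_nt.R2.Hom

/-!
# Limits at infinity

Job Limits.  `p = ∑_{j ≤ m} hom_j p`, `eval (r • w) (hom_j p) = r^j eval w (hom_j p)`.
For `tendsto_second`: `z_n = r_n (β + η_n e_1)` with `η_n = ρ_n/r_n → 0`, where `e_1 = (0,1)`;
`eval (β + η e_1) v = eval β v + η eval β (∂_1 v) + O(η²)` for `v = hom_{m+1} p`, with
`eval β v = 0`; divide by `r_n^m` respectively `r_n^m ρ_n`.
-/

open Filter Topology
open scoped Real

namespace Pool.Agent.Lib.MP_8ce23f_nt.R2

theorem lim_eval_smul {q : P} {j : ℕ} (hq : q.IsHomogeneous j) (c : ℂ) (w : Fin 2 → ℂ) :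
    MvPolynomial.eval (c • w) q = c ^ j * MvPolynomial.eval w q := by
  rw [MvPolynomial.eval_eq', MvPolynomial.eval_eq', Finset.mul_sum]
  refine Finset.sum_congr rfl fun d hd => ?_
  have hd' : d.degree = j := by
    rw [Finsupp.degree_eq_weight_one]
    exact hq (MvPolynomial.mem_support_iff.1 hd)
  have h2 : (∏ i : Fin 2, (c • w) i ^ d i) = c ^ j * ∏ i : Fin 2, w i ^ d i := by
    simp only [Pi.smul_apply, smul_eq_mul, mul_pow]
    rw [Finset.prod_mul_distrib, Finset.prod_pow_eq_pow_sum]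
    congr 2
    rw [← hd', Finsupp.degree_eq_sum]
  rw [h2]
  ring

theorem lim_eval_sum {p : P} {m : ℕ} (hp : p.totalDegree ≤ m) (c : ℂ) (w : Fin 2 → ℂ) :
    MvPolynomial.eval (c • w) p = ∑ j ∈ Finset.range (m + 1),
      c ^ j * MvPolynomial.eval w (MvPolynomial.homogeneousComponent j p) := by
  have h1 : ∑ j ∈ Finset.range (m + 1), MvPolynomial.homogeneousComponent j p = p := by
    rw [← Finset.sum_subset (Finset.range_subset_range.2 (Nat.succ_le_succ hp))]
    · exact MvPolynomial.sum_homogeneousComponent p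
    · intro j _ hj
      apply MvPolynomial.homogeneousComponent_eq_zero
      simp only [Finset.mem_range, not_lt] at hj
      omega
  conv_lhs => rw [← h1]
  rw [map_sum]
  refine Finset.sum_congr rfl fun j _ => ?_
  exact lim_eval_smul (MvPolynomial.homogeneousComponent_isHomogeneous j p) c w

theorem tendsto_top {p : P} {m : ℕ} (hp : p.totalDegree ≤ m) {r : ℕ → ℂ} {w : ℕ → (Fin 2 → ℂ)}
    {β : Fin 2 → ℂ} (hr : Tendsto (fun n => ‖r n‖) atTop atTop) (hw : Tendsto w atTop (𝓝 β)) :
    Tendsto (fun n => MvPolynomial.eval (r n • w n) p / r n ^ m) atTop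
      (𝓝 (MvPolynomial.eval β (MvPolynomial.homogeneousComponent m p))) := by
  have h0 : ∀ᶠ n in atTop, r n ≠ 0 := by
    filter_upwards [hr.eventually_gt_atTop 0] with n hn
    exact norm_pos_iff.1 hn
  have hev : ∀ q : P, Tendsto (fun n => MvPolynomial.eval (w n) q) atTop
      (𝓝 (MvPolynomial.eval β q)) := fun q =>
    ((MvPolynomial.continuous_eval q).tendsto β).comp hw
  have hj : ∀ j ∈ Finset.range (m + 1), Tendsto (fun n => r n ^ j *
      MvPolynomial.eval (w n) (MvPolynomial.homogeneousComponent j p) / r n ^ m) atTop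
      (𝓝 (if j = m then MvPolynomial.eval β (MvPolynomial.homogeneousComponent m p) else 0)) := by
    intro j hj
    rw [Finset.mem_range] at hj
    split_ifs with h
    · subst h
      refine (hev _).congr' ?_
      filter_upwards [h0] with n hn
      have : r n ^ j ≠ 0 := pow_ne_zero _ hn
      field_simp
    · have hjm : j < m := by omega
      have h1 : Tendsto (fun n => r n ^ j / r n ^ m) atTop (𝓝 0) := by
        rw [tendsto_zero_iff_norm_tendsto_zero]
        have h2 := (tendsto_pow_div_pow_atTop_zero (𝕜 := ℝ) hjm).comp hr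
        refine h2.congr fun n => ?_
        simp [norm_pow]
      have h3 := h1.mul (hev (MvPolynomial.homogeneousComponent j p))
      rw [zero_mul] at h3
      refine h3.congr fun n => ?_
      ring
  have hs := tendsto_finsetSum (Finset.range (m + 1)) hj
  rw [Finset.sum_ite_eq' (Finset.range (m + 1)) m] at hs
  simp only [Finset.self_mem_range_succ, if_true] at hs
  refine hs.congr fun n => ?_
  rw [lim_eval_sum hp, Finset.sum_div]

theorem lim_hasDeriv (v : P) (β : Fin 2 → ℂ) :
    HasDerivAt (fun η : ℂ => MvPolynomial.eval (β + η • (Pi.single 1 1 : Fin 2 → ℂ)) v)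
      (MvPolynomial.eval β (MvPolynomial.pderiv 1 v)) 0 := by
  induction v using MvPolynomial.induction_on with
  | C a =>
      simp only [MvPolynomial.eval_C, MvPolynomial.pderiv_C, map_zero]
      exact hasDerivAt_const _ _
  | add p q hp hq =>
      simp only [map_add]
      exact hp.add hq
  | mul_X p i hp =>
      have hX : HasDerivAt (fun η : ℂ => β i + η * (Pi.single 1 1 : Fin 2 → ℂ) i)
          ((Pi.single 1 1 : Fin 2 → ℂ) i) 0 := by
        have := ((hasDerivAt_id (0 : ℂ)).mul_const ((Pi.single 1 1 : Fin 2 → ℂ) i)).const_add (β i)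
        simpa using this
      have h := hp.mul hX
      have e1 : (fun η : ℂ => MvPolynomial.eval (β + η • (Pi.single 1 1 : Fin 2 → ℂ))
          (p * MvPolynomial.X i)) = (fun η : ℂ =>
          MvPolynomial.eval (β + η • (Pi.single 1 1 : Fin 2 → ℂ)) p *
          (β i + η * (Pi.single 1 1 : Fin 2 → ℂ) i)) := by
        funext η
        simp
      rw [e1]
      refine HasDerivAt.congr_deriv h ?_
      rw [MvPolynomial.pderiv_mul, MvPolynomial.pderiv_X]
      fin_cases i <;> simp

theorem lim_sub_hom {p : P} {m : ℕ} (hp : p.totalDegree ≤ m + 1) :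
    (p - MvPolynomial.homogeneousComponent (m + 1) p).totalDegree ≤ m := by
  by_contra hcon
  push Not at hcon
  have hne : p - MvPolynomial.homogeneousComponent (m + 1) p ≠ 0 := by
    intro h
    rw [h] at hcon
    simp at hcon
  obtain ⟨d, hd, hd2⟩ : ∃ d ∈ (p - MvPolynomial.homogeneousComponent (m + 1) p).support,
      m < d.degree := by
    by_contra h
    push Not at h
    have h3 : (p - MvPolynomial.homogeneousComponent (m + 1) p).totalDegree ≤ m := by
      rw [MvPolynomial.totalDegree_eq]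
      apply Finset.sup_le
      intro d hd
      have := h d hd
      rw [Finsupp.degree_eq_weight_one] at this
      simpa [Finsupp.card_toMultiset, Finsupp.weight_apply, Finsupp.sum] using this
    omega
  rw [MvPolynomial.mem_support_iff, MvPolynomial.coeff_sub,
    MvPolynomial.coeff_homogeneousComponent] at hd
  split_ifs at hd with h
  · simp at hd
  · have hd3 : m + 1 < d.degree := by
      rcases Nat.lt_or_ge (m + 1) d.degree with h4 | h4
      · exact h4
      · exact absurd (by omega) h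
    have hd4 : d ∈ p.support := by
      rw [MvPolynomial.mem_support_iff]
      simpa using hd
    have hd5 := MvPolynomial.le_totalDegree hd4
    have : (d.sum fun _ e => e) = d.degree := by
      rw [Finsupp.degree_eq_sum, Finsupp.sum_fintype]
      simp
    omega

theorem lim_hom_sub {p : P} {m : ℕ} :
    MvPolynomial.homogeneousComponent m (p - MvPolynomial.homogeneousComponent (m + 1) p) =
      MvPolynomial.homogeneousComponent m p := by
  rw [map_sub]
  have : MvPolynomial.homogeneousComponent m (MvPolynomial.homogeneousComponent (m + 1) p) = 0 := by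
    rw [MvPolynomial.homogeneousComponent_of_mem
      (MvPolynomial.homogeneousComponent_isHomogeneous (m + 1) p)]
    simp
  rw [this, sub_zero]

theorem lim_key {p : P} {m : ℕ} (hp : p.totalDegree ≤ m + 1) {r ρ : ℕ → ℂ}
    {β : Fin 2 → ℂ} (hr : Tendsto (fun n => ‖r n‖) atTop atTop)
    (hρr : Tendsto (fun n => ρ n / r n) atTop (𝓝 0))
    (hβ : MvPolynomial.eval β (MvPolynomial.homogeneousComponent (m + 1) p) = 0) :
    ∃ g top : ℕ → ℂ, Tendsto g atTop (𝓝 (MvPolynomial.eval β
        (MvPolynomial.pderiv 1 (MvPolynomial.homogeneousComponent (m + 1) p)))) ∧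
      Tendsto top atTop (𝓝 (MvPolynomial.eval β (MvPolynomial.homogeneousComponent m p))) ∧
      ∀ᶠ n in atTop, MvPolynomial.eval (r n • β + ρ n • Pi.single 1 1) p / r n ^ m =
        ρ n * g n + top n := by
  set v : P := MvPolynomial.homogeneousComponent (m + 1) p with hv
  have hvhom : v.IsHomogeneous (m + 1) := MvPolynomial.homogeneousComponent_isHomogeneous _ _
  set f : ℂ → ℂ := fun η => MvPolynomial.eval (β + η • (Pi.single 1 1 : Fin 2 → ℂ)) v with hf
  have hd : HasDerivAt f (MvPolynomial.eval β (MvPolynomial.pderiv 1 v)) 0 := lim_hasDeriv v β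
  have hf0 : f 0 = 0 := by
    simp only [hf, zero_smul, add_zero]
    exact hβ
  have hcont : Tendsto (dslope f 0) (𝓝 0) (𝓝 (MvPolynomial.eval β (MvPolynomial.pderiv 1 v))) := by
    have h := (continuousAt_dslope_same.2 hd.differentiableAt).tendsto
    rwa [dslope_same, hd.deriv] at h
  have hmul : ∀ η : ℂ, f η = η * dslope f 0 η := by
    intro η
    have h := sub_smul_dslope f 0 η
    rw [hf0, sub_zero, sub_zero, smul_eq_mul] at h
    exact h.symm
  refine ⟨fun n => dslope f 0 (ρ n / r n), fun n => MvPolynomial.eval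
    (r n • (β + (ρ n / r n) • (Pi.single 1 1 : Fin 2 → ℂ))) (p - v) / r n ^ m,
    hcont.comp hρr, ?_, ?_⟩
  · have hw : Tendsto (fun n => β + (ρ n / r n) • (Pi.single 1 1 : Fin 2 → ℂ)) atTop (𝓝 β) := by
      have h := (hρr.smul_const (Pi.single 1 1 : Fin 2 → ℂ)).const_add β
      rwa [zero_smul, add_zero] at h
    have h := tendsto_top (lim_sub_hom hp) hr hw
    rw [lim_hom_sub] at h
    exact h
  · filter_upwards [hr.eventually_gt_atTop 0] with n hn
    have hrn : r n ≠ 0 := norm_pos_iff.1 hn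
    have hrm : r n ^ m ≠ 0 := pow_ne_zero _ hrn
    have hz : r n • β + ρ n • (Pi.single 1 1 : Fin 2 → ℂ) =
        r n • (β + (ρ n / r n) • (Pi.single 1 1 : Fin 2 → ℂ)) := by
      rw [smul_add, smul_smul]
      congr 2
      field_simp
    have hev : MvPolynomial.eval (r n • (β + (ρ n / r n) • (Pi.single 1 1 : Fin 2 → ℂ))) v =
        r n ^ (m + 1) * f (ρ n / r n) := lim_eval_smul hvhom _ _
    rw [hz]
    have hsplit : MvPolynomial.eval (r n • (β + (ρ n / r n) • (Pi.single 1 1 : Fin 2 → ℂ))) p =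
        MvPolynomial.eval (r n • (β + (ρ n / r n) • (Pi.single 1 1 : Fin 2 → ℂ))) (p - v) +
        MvPolynomial.eval (r n • (β + (ρ n / r n) • (Pi.single 1 1 : Fin 2 → ℂ))) v := by
      rw [map_sub]; ring
    rw [hsplit, hev, hmul, add_div, add_comm]
    congr 1
    field_simp
    ring

theorem tendsto_second {p : P} {m : ℕ} (hp : p.totalDegree ≤ m + 1) {r ρ : ℕ → ℂ}
    {β : Fin 2 → ℂ} {ρ₀ : ℂ} (hr : Tendsto (fun n => ‖r n‖) atTop atTop)
    (hρ : Tendsto ρ atTop (𝓝 ρ₀))
    (hβ : MvPolynomial.eval β (MvPolynomial.homogeneousComponent (m + 1) p) = 0) :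
    Tendsto (fun n => MvPolynomial.eval (r n • β + ρ n • Pi.single 1 1) p / r n ^ m) atTop
      (𝓝 (ρ₀ * MvPolynomial.eval β
          (MvPolynomial.pderiv 1 (MvPolynomial.homogeneousComponent (m + 1) p)) +
        MvPolynomial.eval β (MvPolynomial.homogeneousComponent m p))) := by
  have hρr : Tendsto (fun n => ρ n / r n) atTop (𝓝 0) := by
    have h1 : Tendsto (fun n => (r n)⁻¹) atTop (𝓝 0) := by
      rw [tendsto_zero_iff_norm_tendsto_zero]
      have h0 : Tendsto (fun n => ‖r n‖⁻¹) atTop (𝓝 0) := hr.inv_tendsto_atTop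
      simpa [norm_inv] using h0
    have h2 := hρ.mul h1
    rw [mul_zero] at h2
    exact h2.congr fun n => by rw [div_eq_mul_inv]
  obtain ⟨g, top, hg, ht, he⟩ := lim_key hp hr hρr hβ
  refine ((hρ.mul hg).add ht).congr' ?_
  filter_upwards [he] with n hn
  exact hn.symm

theorem tendsto_second' {p : P} {m : ℕ} (hp : p.totalDegree ≤ m + 1) {r ρ : ℕ → ℂ}
    {β : Fin 2 → ℂ} (hr : Tendsto (fun n => ‖r n‖) atTop atTop)
    (hρ : Tendsto (fun n => ‖ρ n‖) atTop atTop)
    (hρr : Tendsto (fun n => ρ n / r n) atTop (𝓝 0))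
    (hβ : MvPolynomial.eval β (MvPolynomial.homogeneousComponent (m + 1) p) = 0) :
    Tendsto (fun n => MvPolynomial.eval (r n • β + ρ n • Pi.single 1 1) p / (r n ^ m * ρ n)) atTop
      (𝓝 (MvPolynomial.eval β
          (MvPolynomial.pderiv 1 (MvPolynomial.homogeneousComponent (m + 1) p)))) := by
  have h1 : Tendsto (fun n => (ρ n)⁻¹) atTop (𝓝 0) := by
    rw [tendsto_zero_iff_norm_tendsto_zero]
    have h0 : Tendsto (fun n => ‖ρ n‖⁻¹) atTop (𝓝 0) := hρ.inv_tendsto_atTop
    simpa [norm_inv] using h0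
  obtain ⟨g, top, hg, ht, he⟩ := lim_key hp hr hρr hβ
  have h3 := hg.add (ht.mul h1)
  rw [mul_zero, add_zero] at h3
  refine h3.congr' ?_
  filter_upwards [he, hρ.eventually_gt_atTop 0] with n hn hn2
  have hρn : ρ n ≠ 0 := norm_pos_iff.1 hn2
  rw [← div_div, hn]
  field_simp

/-- An unbounded set contains a sequence going to infinity in a definite direction. -/
theorem exists_direction {s : Set (Fin 2 → ℂ)} (hs : ∀ B : ℝ, ∃ z ∈ s, B < ‖z‖) :
    ∃ (r : ℕ → ℂ) (w : ℕ → (Fin 2 → ℂ)) (β : Fin 2 → ℂ), β ≠ 0 ∧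
      Tendsto (fun n => ‖r n‖) atTop atTop ∧ Tendsto w atTop (𝓝 β) ∧ ∀ n, r n • w n ∈ s := by
  choose z hz using fun n : ℕ => hs (n : ℝ)
  have hpos : ∀ n, 0 < ‖z n‖ := fun n => lt_of_le_of_lt (Nat.cast_nonneg n) (hz n).2
  have hw1 : ∀ n, ((‖z n‖ : ℂ)⁻¹ • z n) ∈ Metric.sphere (0 : Fin 2 → ℂ) 1 := by
    intro n
    rw [mem_sphere_zero_iff_norm, norm_smul, norm_inv, Complex.norm_real, norm_norm]
    exact inv_mul_cancel₀ (hpos n).ne'
  obtain ⟨β, hβ, φ, hφ, hlim⟩ := (isCompact_sphere (0 : Fin 2 → ℂ) 1).tendsto_subseq hw1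
  refine ⟨fun n => (‖z (φ n)‖ : ℂ), fun n => (‖z (φ n)‖ : ℂ)⁻¹ • z (φ n), β, ?_, ?_, hlim, ?_⟩
  · intro h
    rw [h] at hβ
    simp at hβ
  · have h1 : Tendsto (fun n : ℕ => (φ n : ℝ)) atTop atTop :=
      tendsto_natCast_atTop_atTop.comp hφ.tendsto_atTop
    refine tendsto_atTop_mono (fun n => ?_) h1
    rw [Complex.norm_real, norm_norm]
    exact (hz (φ n)).2.le
  · intro n
    have h2 : (‖z (φ n)‖ : ℂ) ≠ 0 := by
      exact_mod_cast (hpos (φ n)).ne'
    show (‖z (φ n)‖ : ℂ) • ((‖z (φ n)‖ : ℂ)⁻¹ • z (φ n)) ∈ s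
    rw [smul_smul, mul_inv_cancel₀ h2, one_smul]
    exact (hz (φ n)).1

end Pool.Agent.Lib.MP_8ce23f_nt.R2
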