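import Pool.Agent.Lib.MP_8ce23f_nt.R2.ZerosA
import Pool.Agent.Lib.MP_8ce23f_nt.R2.ZerosB

/-!
# Infinite zero sets are unbounded

Job ZerosC.  If all `p k = 0`: trivial.  Otherwise take `k₀` with `p k₀ ≠ 0`, and the multiset of
irreducible factors of `p k₀` (`UniqueFactorizationMonoid`, `WfDvdMonoid.exists_factors`).  Every
common zero is a zero of one of the finitely many factors `f`.  If some factor `f` divides all
`p k`, use `unbounded_zeros` for `f` (an irreducible polynomial is not constant).  Otherwise for every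
factor `f` there is `k` with `¬ f ∣ p k`, `finite_common_zeros`, so the zero set is finite.
-/

open Filter Topology
open scoped Real

namespace Pool.Agent.Lib.MP_8ce23f_nt.R2

theorem zerosC_deg {f : P} (hf : Irreducible f) : f.totalDegree ≠ 0 := by
  intro h
  rw [MvPolynomial.totalDegree_eq_zero_iff_eq_C] at h
  by_cases hc : f.coeff 0 = 0
  · rw [hc, map_zero] at h
    exact hf.ne_zero h
  · apply hf.not_isUnit
    rw [h]
    exact (isUnit_iff_ne_zero.2 hc).map (MvPolynomial.C : ℂ →+* P)

theorem unbounded_of_infinite {ι : Type*} (p : ι → P)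
    (h : {z : Fin 2 → ℂ | ∀ k, MvPolynomial.eval z (p k) = 0}.Infinite) (B : ℝ) :
    ∃ z : Fin 2 → ℂ, (∀ k, MvPolynomial.eval z (p k) = 0) ∧ B < ‖z‖ := by
  classical
  by_cases hall : ∀ k, p k = 0
  · refine ⟨fun _ => ((|B| + 1 : ℝ) : ℂ), fun k => by rw [hall k, map_zero], ?_⟩
    have h1 := norm_le_pi_norm (fun _ : Fin 2 => ((|B| + 1 : ℝ) : ℂ)) 0
    simp only [Complex.norm_real, Real.norm_eq_abs] at h1
    have h2 : |(|B| + 1)| = |B| + 1 := abs_of_nonneg (by positivity)
    rw [h2] at h1
    have h3 := le_abs_self B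
    refine lt_of_lt_of_le ?_ h1
    linarith
  · push Not at hall
    obtain ⟨k₀, hk₀⟩ := hall
    obtain ⟨F, hF, hass⟩ := WfDvdMonoid.exists_factors (p k₀) hk₀
    by_cases hdiv : ∃ f ∈ F, ∀ k, f ∣ p k
    · obtain ⟨f, hfF, hf⟩ := hdiv
      obtain ⟨z, hz, hzB⟩ := unbounded_zeros (zerosC_deg (hF f hfF)) B
      refine ⟨z, fun k => ?_, hzB⟩
      obtain ⟨g, hg⟩ := hf k
      rw [hg, map_mul, hz, zero_mul]
    · exfalso
      push Not at hdiv
      have hdiv' : ∀ f : P, ∃ k, f ∈ F → ¬ f ∣ p k := by
        intro f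
        by_cases hf : f ∈ F
        · obtain ⟨k, hk⟩ := hdiv f hf
          exact ⟨k, fun _ => hk⟩
        · exact ⟨k₀, fun h => absurd h hf⟩
      choose kk hkk using hdiv'
      apply h
      refine Set.Finite.subset (Set.Finite.biUnion (F.toFinset.finite_toSet)
        (t := fun f => {z : Fin 2 → ℂ | MvPolynomial.eval z f = 0 ∧ MvPolynomial.eval z (p (kk f)) = 0}) ?_) ?_
      · intro f hf
        have hf' : f ∈ F := Multiset.mem_toFinset.1 hf
        exact finite_common_zeros (hF f hf') (hkk f hf')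
      · intro z hz
        have hz' : ∀ k, MvPolynomial.eval z (p k) = 0 := hz
        have h0 : MvPolynomial.eval z F.prod = 0 := by
          obtain ⟨u, hu⟩ := hass
          have h1 := hz' k₀
          rw [← hu, map_mul] at h1
          have h2 : IsUnit (MvPolynomial.eval z (u : P)) := u.isUnit.map (MvPolynomial.eval z)
          exact (mul_eq_zero.1 h1).resolve_right h2.ne_zero
        rw [map_multiset_prod, Multiset.prod_eq_zero_iff] at h0
        obtain ⟨f, hfF, hf⟩ := Multiset.mem_map.1 h0
        refine Set.mem_biUnion (x := f) ?_ ⟨hf, hz' (kk f)⟩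
        exact Multiset.mem_toFinset.2 hfF

end Pool.Agent.Lib.MP_8ce23f_nt.R2
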