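import Pool.Agent.Lib.MP_8ce23f_nt.R2.FDClass
import Pool.Agent.Lib.MP_8ce23f_nt.R2.ZerosC
import Pool.Agent.Lib.MP_8ce23f_nt.R2.Limits

/-!
# The formal theorem, part I

Job FormalI.  Put `p k = D (k+2) - C (eval z₀ (D (k+2)))` and `s` its zero set.  By
`unbounded_of_infinite` and `exists_direction` there is a sequence `r_n w_n ∈ s`, `w_n → β ≠ 0`.
`tendsto_top` with `m = k + 1`: `V D k (β) = 0` for `k ≥ 2` (the constant does not matter, as
`k + 1 ≥ 1`).  `FD.classify`: `(1-h)² = a d`, `λ = 1 - h > 0`, `λ β 0 + a β 1 = 0`, so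
`β = μ (a, -λ)` with `μ = β 0/a ≠ 0`, and `V D k (a, -λ) = 0` by homogeneity.
Write `z_n = r_n w_n = r'_n (a, -λ) + ρ_n (0, 1)`, `r'_n = z_n 0/a`, `ρ_n = z_n 1 + λ r'_n`;
`‖r'_n‖ → ∞`, `ρ_n/r'_n → 0`.  Either `‖ρ_n‖` is bounded along a subsequence, and a further subsequence
converges to `ρ₀`: `tendsto_second` (`m = k`) gives `ρ₀ ∂_1 V D k + S' D k = 0` at `(a,-λ)` for
`k ≥ 2`, so `FD.second_ii` gives `a = 1 - h`, hence `d = a`;
or `‖ρ_n‖ → ∞`: `tendsto_second'` gives `∂_1 V D k (a,-λ) = 0` for `k ≥ 2`, contradiction with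
`FD.second_i`.
-/

open Filter Topology
open scoped Real

namespace Pool.Agent.Lib.MP_8ce23f_nt.R2

variable {a h d Q₁ Q₂ : ℝ} {D : ℕ → P} {R S : Fin 2 → PowerSeries P}

/-- evaluation of a homogeneous polynomial at a multiple -/
theorem formalI_eval_smul {p : P} {n : ℕ} (hp : p.IsHomogeneous n) (c : ℂ) (x : Fin 2 → ℂ) :
    MvPolynomial.eval (c • x) p = c ^ n * MvPolynomial.eval x p := by
  rw [MvPolynomial.eval_eq', MvPolynomial.eval_eq', Finset.mul_sum]
  refine Finset.sum_congr rfl fun e he => ?_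
  have hdeg : ∑ i, e i = n := by
    have := hp (MvPolynomial.mem_support_iff.1 he)
    rw [Finsupp.weight_apply, Finsupp.sum_fintype _ _ (by simp)] at this
    simpa using this
  simp only [Pi.smul_apply, smul_eq_mul, mul_pow, Finset.prod_mul_distrib,
    Finset.prod_pow_eq_pow_sum, hdeg]
  ring

theorem formalI_div_zero {f : ℕ → ℂ} (c : ℂ) (hf : Tendsto (fun n => ‖f n‖) atTop atTop) :
    Tendsto (fun n => c / f n) atTop (𝓝 0) := by
  rw [tendsto_zero_iff_norm_tendsto_zero]
  simp only [norm_div]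
  exact hf.const_div_atTop _

theorem formalI_pow {r : ℕ → ℂ} (hr : Tendsto (fun n => ‖r n‖) atTop atTop) {m : ℕ} (hm : m ≠ 0) :
    Tendsto (fun n => ‖r n ^ m‖) atTop atTop := by
  simp only [norm_pow]
  exact (tendsto_pow_atTop hm).comp hr

theorem formal_I (hA : PD a h d) (h1 : 0 < Q₁) (h1' : Q₁ < 1) (h2 : 0 < Q₂) (h2' : Q₂ < 1)
    (hFD : FD (Am a h d) (Qv Q₁ Q₂) D R S) (z₀ : Fin 2 → ℂ)
    (hinf : {z : Fin 2 → ℂ | ∀ k, 2 ≤ k →
      MvPolynomial.eval z (D k) = MvPolynomial.eval z₀ (D k)}.Infinite) :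
    h = 1 - a ∧ d = a := by
  classical
  have ha : (0 : ℝ) < a := hA.ha
  have haC : (a : ℂ) ≠ 0 := by exact_mod_cast ha.ne'
  -- the unbounded set
  have hset : {z : Fin 2 → ℂ | ∀ k, 2 ≤ k →
      MvPolynomial.eval z (D k) = MvPolynomial.eval z₀ (D k)} =
      {z : Fin 2 → ℂ | ∀ k : ℕ, MvPolynomial.eval z
        (D (k + 2) - MvPolynomial.C (MvPolynomial.eval z₀ (D (k + 2))) : P) = 0} := by
    ext z
    constructor
    · intro hz k
      have h3 := hz (k + 2) (by omega)
      rw [map_sub, MvPolynomial.eval_C, h3, sub_self]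
    · intro hz k hk
      obtain ⟨j, rfl⟩ := Nat.exists_eq_add_of_le hk
      have h3 := hz j
      rw [map_sub, MvPolynomial.eval_C, sub_eq_zero] at h3
      rw [add_comm 2 j]
      exact h3
  have hunb : ∀ B : ℝ, ∃ z ∈ {z : Fin 2 → ℂ | ∀ k, 2 ≤ k →
      MvPolynomial.eval z (D k) = MvPolynomial.eval z₀ (D k)}, B < ‖z‖ := by
    intro B
    rw [hset] at hinf ⊢
    exact unbounded_of_infinite _ hinf B
  obtain ⟨r, w, β, hβ, hr, hw, hmem⟩ := exists_direction hunb
  have hmem' : ∀ n k, 2 ≤ k → MvPolynomial.eval (r n • w n) (D k) = MvPolynomial.eval z₀ (D k) :=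
    fun n k hk => hmem n k hk
  -- first conclusion
  have hVβ : ∀ k, 2 ≤ k → MvPolynomial.eval β (V D k) = 0 := by
    intro k hk
    have t1 := tendsto_top (hFD.deg k (by omega)) hr hw
    have t2 : Tendsto (fun n => MvPolynomial.eval (r n • w n) (D k) / r n ^ (k + 1)) atTop
        (𝓝 0) := by
      simp only [hmem' _ k hk]
      exact formalI_div_zero _ (formalI_pow hr (Nat.succ_ne_zero k))
    exact tendsto_nhds_unique t1 t2
  obtain ⟨hsq, hlam, hlin⟩ := hFD.classify hA h1 h1' h2 h2' hβ hVβ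
  have hβ0 : β 0 ≠ 0 := by
    intro h0
    apply hβ
    rw [h0, mul_zero, zero_add] at hlin
    have hb1 : β 1 = 0 := by
      rcases mul_eq_zero.1 hlin with h3 | h3
      · exact absurd h3 haC
      · exact h3
    funext i
    fin_cases i
    · exact h0
    · exact hb1
  set vec : Fin 2 → ℂ := ![(a : ℂ), (-(1 - h : ℝ) : ℂ)] with hvec
  have hv0 : vec 0 = a := rfl
  have hv1 : vec 1 = (-(1 - h : ℝ) : ℂ) := rfl
  have hβvec : β = (β 0 / a) • vec := by
    funext i
    fin_cases i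
    · show β 0 = β 0 / a * vec 0
      rw [hv0, div_mul_cancel₀ _ haC]
    · show β 1 = β 0 / a * vec 1
      rw [hv1]
      field_simp
      push_cast
      linear_combination hlin
  have hV : ∀ k, 2 ≤ k → MvPolynomial.eval vec (V D k) = 0 := by
    intro k hk
    have h3 : MvPolynomial.eval β (V D k) = 0 := hVβ k hk
    have hom : (V D k).IsHomogeneous (k + 1) :=
      MvPolynomial.homogeneousComponent_isHomogeneous (k + 1) (D k)
    rw [hβvec, formalI_eval_smul hom] at h3
    rcases mul_eq_zero.1 h3 with h4 | h4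
    · exact absurd h4 (pow_ne_zero _ (div_ne_zero hβ0 haC))
    · exact h4
  -- new coordinates
  set r' : ℕ → ℂ := fun n => r n * w n 0 / a with hr'def
  set ρ : ℕ → ℂ := fun n => r n * w n 1 + (1 - h : ℝ) * r' n with hρdef
  have hz : ∀ n, r n • w n = r' n • vec + ρ n • Pi.single 1 1 := by
    intro n
    funext i
    fin_cases i
    · show r n * w n 0 = r' n * vec 0 + ρ n * (Pi.single (M := fun _ : Fin 2 => ℂ) 1 1 : Fin 2 → ℂ) 0
      rw [hv0, Pi.single_eq_of_ne (by decide : (0 : Fin 2) ≠ 1), mul_zero, add_zero, hr'def]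
      field_simp
    · show r n * w n 1 = r' n * vec 1 + ρ n * (Pi.single (M := fun _ : Fin 2 => ℂ) 1 1 : Fin 2 → ℂ) 1
      rw [hv1, Pi.single_eq_same, mul_one, hρdef]
      ring
  have hw0 : Tendsto (fun n => w n 0) atTop (𝓝 (β 0)) := tendsto_pi_nhds.1 hw 0
  have hw1 : Tendsto (fun n => w n 1) atTop (𝓝 (β 1)) := tendsto_pi_nhds.1 hw 1
  have hr' : Tendsto (fun n => ‖r' n‖) atTop atTop := by
    have h3 : Tendsto (fun n => ‖w n 0 / a‖) atTop (𝓝 ‖β 0 / a‖) := (hw0.div_const _).norm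
    have h4 := hr.atTop_mul_pos (norm_pos_iff.2 (div_ne_zero hβ0 haC)) h3
    refine h4.congr fun n => ?_
    rw [← norm_mul]
    show ‖r n * (w n 0 / a)‖ = ‖r n * w n 0 / a‖
    rw [mul_div_assoc]
  have hρr : Tendsto (fun n => ρ n / r' n) atTop (𝓝 0) := by
    have h3 : Tendsto (fun n => w n 1 / w n 0 * a + (1 - h : ℝ)) atTop
        (𝓝 (β 1 / β 0 * a + (1 - h : ℝ))) :=
      ((hw1.div hw0 hβ0).mul_const _).add_const _
    have h4 : β 1 / β 0 * a + ((1 - h : ℝ) : ℂ) = 0 := by
      field_simp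
      push_cast
      linear_combination hlin
    rw [h4] at h3
    refine h3.congr' ?_
    have e1 : ∀ᶠ n in atTop, r' n ≠ 0 := by
      filter_upwards [hr'.eventually_gt_atTop 0] with n hn
      exact norm_pos_iff.1 hn
    filter_upwards [e1] with n hn
    have hrn : r n ≠ 0 := by
      intro h0
      apply hn
      simp [hr'def, h0]
    have hwn : w n 0 ≠ 0 := by
      intro h0
      apply hn
      simp [hr'def, h0]
    show w n 1 / w n 0 * a + (1 - h : ℝ) = (r n * w n 1 + (1 - h : ℝ) * r' n) / r' n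
    rw [add_div, mul_div_assoc, mul_div_cancel_right₀ _ hn]
    congr 1
    show w n 1 / w n 0 * a = r n * (w n 1 / (r n * w n 0 / a))
    field_simp
  by_cases hbd : ∃ B : ℝ, ∃ᶠ n in atTop, ‖ρ n‖ ≤ B
  · obtain ⟨B, hB⟩ := hbd
    have hB' : ∃ᶠ n in atTop, ρ n ∈ Metric.closedBall (0 : ℂ) B := by
      refine hB.mono fun n hn => ?_
      rw [mem_closedBall_zero_iff]
      exact hn
    obtain ⟨ρ₀, -, φ, hφ, hlim⟩ := (isCompact_closedBall (0 : ℂ) B).tendsto_subseq' hB'
    have hrφ : Tendsto (fun n => ‖(r' ∘ φ) n‖) atTop atTop := hr'.comp hφ.tendsto_atTop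
    have key : ∀ k, 2 ≤ k → ρ₀ * MvPolynomial.eval vec (MvPolynomial.pderiv 1 (V D k)) +
        MvPolynomial.eval vec (S' D k) = 0 := by
      intro k hk
      have t1 := tendsto_second (hFD.deg k (by omega)) hrφ hlim (hV k hk)
      have t2 : Tendsto (fun n => MvPolynomial.eval
          ((r' ∘ φ) n • vec + (ρ ∘ φ) n • Pi.single 1 1) (D k) / (r' ∘ φ) n ^ k) atTop (𝓝 0) := by
        have e2 : ∀ n, MvPolynomial.eval ((r' ∘ φ) n • vec + (ρ ∘ φ) n • Pi.single 1 1) (D k) =
            MvPolynomial.eval z₀ (D k) := by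
          intro n
          rw [Function.comp_apply, Function.comp_apply, ← hz (φ n)]
          exact hmem' (φ n) k hk
        simp only [e2]
        exact formalI_div_zero _ (formalI_pow hrφ (by omega))
      exact tendsto_nhds_unique t1 t2
    obtain ⟨-, hah⟩ := hFD.second_ii hA h1 h1' h2 h2' hV key
    refine ⟨by linarith, ?_⟩
    rw [← hah] at hsq
    have : a * (d - a) = 0 := by linear_combination -hsq
    rcases mul_eq_zero.1 this with h3 | h3
    · exact absurd h3 ha.ne'
    · linarith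
  · exfalso
    push Not at hbd
    have hρ : Tendsto (fun n => ‖ρ n‖) atTop atTop := by
      rw [tendsto_atTop]
      intro B
      filter_upwards [hbd B] with n hn
      exact hn.le
    apply hFD.second_i hA h1 h1' h2 h2' hV
    intro k hk
    have t1 := tendsto_second' (hFD.deg k (by omega)) hr' hρ hρr (hV k hk)
    have t2 : Tendsto (fun n => MvPolynomial.eval (r' n • vec + ρ n • Pi.single 1 1) (D k) /
        (r' n ^ k * ρ n)) atTop (𝓝 0) := by
      have e2 : ∀ n, MvPolynomial.eval (r' n • vec + ρ n • Pi.single 1 1) (D k) =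
          MvPolynomial.eval z₀ (D k) := by
        intro n
        rw [← hz n]
        exact hmem' n k hk
      simp only [e2]
      refine formalI_div_zero _ ?_
      simp only [norm_mul]
      exact (formalI_pow hr' (by omega)).atTop_mul_atTop₀ hρ
    exact tendsto_nhds_unique t1 t2

end Pool.Agent.Lib.MP_8ce23f_nt.R2
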