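import Pool.Agent.Lib.MP_8ce23f_nt.R2.FDClass
import Pool.Agent.Lib.MP_8ce23f_nt.R2.ZerosC
import Pool.Agent.Lib.MP_8ce23f_nt.R2.Limits

/-!
# The formal theorem, part II

Job FormalII.  Here `A = (a, 1-a; 1-a, a)`, `λ = 1 - h = a`.  The polynomials
`p k = D (k+2) - C (eval z₀ (D (k+2)))` vanish at `(b, -b)` for infinitely many `b`, hence
`p k = (X 0 + X 1) * p' k` (division by the linear form `X 0 + X 1`: substitute
`X 1 = (X 0 + X 1) - X 0`, or `sub_dvd_eval_sub`-like arguments).  Suppose the set is infinite; its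
elements are common zeros of the `p' k`.  `unbounded_of_infinite`, `exists_direction`,
`tendsto_top` give `β ≠ 0` with `hom_{k+2} (p' k) (β) = 0`.  As
`hom_{k+3} (D (k+2)) = hom_{k+3} (p k) = (X 0 + X 1) * hom_{k+2} (p' k)`, `V D (k+2) (β) = 0`, so by
`FD.classify` `a β 0 + a β 1 = 0`, i.e. `β = μ (a, -a)`, `μ ≠ 0`, and by homogeneity
`hom_{k+2} (p' k) (a, -a) = 0`, `V D (k+2) (a, -a) = 0`.  Then
`∂_1 V D (k+2) = hom_{k+2} (p' k) + (X 0 + X 1) ∂_1 (...)` vanishes at `(a, -a)`, a contradiction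
with `FD.second_i`.
-/

open Filter Topology
open scoped Real

namespace Pool.Agent.Lib.MP_8ce23f_nt.R2

variable {a Q₁ Q₂ : ℝ} {D : ℕ → P} {R S : Fin 2 → PowerSeries P}

/-- Substitution `X 0 = X`, `X 1 = -X`. -/
noncomputable def formalII_φ : P →ₐ[ℂ] Polynomial ℂ :=
  MvPolynomial.aeval ![Polynomial.X, -Polynomial.X]

theorem formalII_φ_eval (p : P) (b : ℂ) :
    (formalII_φ p).eval b = MvPolynomial.eval ![b, -b] p := by
  induction p using MvPolynomial.induction_on with
  | C c => simp [formalII_φ]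
  | add p q hp hq => rw [map_add, Polynomial.eval_add, hp, hq, map_add]
  | mul_X p i hp =>
    rw [map_mul, Polynomial.eval_mul, hp, map_mul]
    congr 1
    fin_cases i <;> simp [formalII_φ]

theorem formalII_div (p : P) :
    ∃ p' : P, p = (MvPolynomial.X 0 + MvPolynomial.X 1) * p' +
      Polynomial.aeval (MvPolynomial.X 0 : P) (formalII_φ p) := by
  induction p using MvPolynomial.induction_on with
  | C c =>
    refine ⟨0, ?_⟩
    simp [formalII_φ, MvPolynomial.algebraMap_eq]
  | add p q hp hq =>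
    obtain ⟨p', hp'⟩ := hp
    obtain ⟨q', hq'⟩ := hq
    refine ⟨p' + q', ?_⟩
    rw [map_add, map_add]
    linear_combination hp' + hq'
  | mul_X p i hp =>
    obtain ⟨p', hp'⟩ := hp
    fin_cases i
    · refine ⟨p' * MvPolynomial.X 0, ?_⟩
      have h : formalII_φ (p * MvPolynomial.X 0) = formalII_φ p * Polynomial.X := by
        rw [map_mul]; congr 1; simp [formalII_φ]
      simp only [Fin.zero_eta, Fin.isValue]
      rw [h, map_mul, Polynomial.aeval_X]
      linear_combination MvPolynomial.X 0 * hp'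
    · refine ⟨p' * MvPolynomial.X 1 + Polynomial.aeval (MvPolynomial.X 0 : P) (formalII_φ p), ?_⟩
      have h : formalII_φ (p * MvPolynomial.X 1) = formalII_φ p * (-Polynomial.X) := by
        rw [map_mul]; congr 1; simp [formalII_φ]
      simp only [Fin.mk_one, Fin.isValue]
      rw [h, map_mul, map_neg, Polynomial.aeval_X]
      linear_combination MvPolynomial.X 1 * hp'

theorem formalII_dvd {p : P} (h : {b : ℂ | MvPolynomial.eval ![b, -b] p = 0}.Infinite) :
    ∃ p' : P, p = (MvPolynomial.X 0 + MvPolynomial.X 1) * p' := by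
  have h0 : formalII_φ p = 0 := by
    apply Polynomial.eq_zero_of_infinite_isRoot
    refine h.mono ?_
    intro b hb
    simp only [Set.mem_ofPred_eq] at hb ⊢
    rw [Polynomial.IsRoot.def, formalII_φ_eval, hb]
  obtain ⟨p', hp'⟩ := formalII_div p
  refine ⟨p', ?_⟩
  rw [h0, map_zero, add_zero] at hp'
  exact hp'

theorem formalII_lin_ne : (MvPolynomial.X 0 + MvPolynomial.X 1 : P) ≠ 0 := by
  intro h
  have := congrArg (MvPolynomial.eval ![(1 : ℂ), 0]) h
  simp at this

theorem formalII_lin_hom : (MvPolynomial.X 0 + MvPolynomial.X 1 : P).IsHomogeneous 1 :=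
  (MvPolynomial.isHomogeneous_X ℂ 0).add (MvPolynomial.isHomogeneous_X ℂ 1)

theorem formalII_lin_deg : (MvPolynomial.X 0 + MvPolynomial.X 1 : P).totalDegree = 1 :=
  formalII_lin_hom.totalDegree formalII_lin_ne

theorem formalII_deg {p p' : P} {m : ℕ} (h : p = (MvPolynomial.X 0 + MvPolynomial.X 1) * p')
    (hp : p.totalDegree ≤ m + 1) : p'.totalDegree ≤ m := by
  by_cases h0 : p' = 0
  · subst h0; simp
  · rw [h, MvPolynomial.totalDegree_mul_of_isDomain formalII_lin_ne h0, formalII_lin_deg] at hp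
    omega

theorem formalII_eval_smul {p : P} {m : ℕ} (hp : p.IsHomogeneous m) (μ : ℂ) (z : Fin 2 → ℂ) :
    MvPolynomial.eval (μ • z) p = μ ^ m * MvPolynomial.eval z p := by
  rw [MvPolynomial.eval_eq', MvPolynomial.eval_eq', Finset.mul_sum]
  refine Finset.sum_congr rfl fun d hd => ?_
  have hd' : d.degree = m := by
    have h := hp (MvPolynomial.mem_support_iff.1 hd)
    rw [Finsupp.degree_eq_weight_one]
    exact h
  have h1 : ∏ i, (μ • z) i ^ d i = μ ^ m * ∏ i, z i ^ d i := by
    simp only [Pi.smul_apply, smul_eq_mul, mul_pow]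
    rw [Finset.prod_mul_distrib, Finset.prod_pow_eq_pow_sum]
    congr 2
    rw [← hd', Finsupp.degree_eq_sum]
  rw [h1]
  ring

theorem formal_II (hA : PD a (1 - a) a) (h1 : 0 < Q₁) (h1' : Q₁ < 1) (h2 : 0 < Q₂) (h2' : Q₂ < 1)
    (hFD : FD (Am a (1 - a) a) (Qv Q₁ Q₂) D R S) (z₀ : Fin 2 → ℂ)
    (hb : {b : ℂ | ∀ k, 2 ≤ k →
      MvPolynomial.eval ![b, -b] (D k) = MvPolynomial.eval z₀ (D k)}.Infinite) :
    {z : Fin 2 → ℂ | (∀ k, 2 ≤ k →
      MvPolynomial.eval z (D k) = MvPolynomial.eval z₀ (D k)) ∧ z 0 + z 1 ≠ 0}.Finite := by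
  have hdiv : ∀ k : ℕ, ∃ p' : P, D (k + 2) - MvPolynomial.C (MvPolynomial.eval z₀ (D (k + 2))) =
      (MvPolynomial.X 0 + MvPolynomial.X 1) * p' := by
    intro k
    apply formalII_dvd
    refine hb.mono ?_
    intro b hb
    simp only [Set.mem_ofPred_eq] at hb ⊢
    rw [map_sub, MvPolynomial.eval_C, hb (k + 2) (by omega), sub_self]
  choose p' hp' using hdiv
  have hdeg : ∀ k, (p' k).totalDegree ≤ k + 2 := by
    intro k
    apply formalII_deg (hp' k)
    refine (MvPolynomial.totalDegree_sub _ _).trans ?_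
    rw [MvPolynomial.totalDegree_C]
    have := hFD.deg (k + 2) (by omega)
    simp only [Nat.zero_le, sup_of_le_left]
    omega
  have hV : ∀ k, V D (k + 2) =
      (MvPolynomial.X 0 + MvPolynomial.X 1) * MvPolynomial.homogeneousComponent (k + 2) (p' k) := by
    intro k
    have e1 : MvPolynomial.homogeneousComponent (1 + (k + 2))
        ((MvPolynomial.X 0 + MvPolynomial.X 1) * p' k) = _ :=
      hom_mul (i := 1) (j := k + 2) formalII_lin_deg.le (hdeg k)
    rw [MvPolynomial.homogeneousComponent_of_mem (n := 1) (m := 1)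
      ((MvPolynomial.mem_homogeneousSubmodule 1 _).2 formalII_lin_hom), if_pos rfl] at e1
    rw [← e1, ← hp' k, map_sub]
    have e2 : MvPolynomial.homogeneousComponent (1 + (k + 2))
        (MvPolynomial.C (MvPolynomial.eval z₀ (D (k + 2))) : P) = 0 := by
      apply MvPolynomial.homogeneousComponent_eq_zero
      rw [MvPolynomial.totalDegree_C]
      omega
    rw [e2, sub_zero, V]
    congr 2
    omega
  by_contra hinf
  have hinf' : {z : Fin 2 → ℂ | ∀ k, MvPolynomial.eval z (p' k) = 0}.Infinite := by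
    refine Set.Infinite.mono ?_ hinf
    rintro z ⟨hz, hz'⟩
    simp only [Set.mem_ofPred_eq]
    intro k
    have := congrArg (MvPolynomial.eval z) (hp' k)
    rw [map_sub, MvPolynomial.eval_C, hz (k + 2) (by omega), sub_self, map_mul, map_add,
      MvPolynomial.eval_X, MvPolynomial.eval_X] at this
    rcases mul_eq_zero.1 this.symm with h | h
    · exact absurd h hz'
    · exact h
  obtain ⟨r, w, β, hβ, hr, hw, hrw⟩ := exists_direction
    (s := {z : Fin 2 → ℂ | ∀ k, MvPolynomial.eval z (p' k) = 0})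
    (fun B => by
      obtain ⟨z, hz, hB⟩ := unbounded_of_infinite p' hinf' B
      exact ⟨z, hz, hB⟩)
  have hhom : ∀ k, MvPolynomial.eval β (MvPolynomial.homogeneousComponent (k + 2) (p' k)) = 0 := by
    intro k
    have ht := tendsto_top (hdeg k) hr hw
    have h0 : (fun n => MvPolynomial.eval (r n • w n) (p' k) / r n ^ (k + 2)) = fun _ => 0 := by
      funext n
      rw [hrw n k, zero_div]
    rw [h0] at ht
    exact tendsto_nhds_unique ht tendsto_const_nhds |>.symm ▸ rfl
  have hVβ : ∀ k, 2 ≤ k → MvPolynomial.eval β (V D k) = 0 := by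
    intro k hk
    obtain ⟨j, rfl⟩ : ∃ j, k = j + 2 := ⟨k - 2, by omega⟩
    rw [hV j, map_mul, hhom j, mul_zero]
  obtain ⟨-, -, hlin⟩ := FD.classify hA h1 h1' h2 h2' hFD hβ hVβ
  have ha : (a : ℂ) ≠ 0 := by exact_mod_cast hA.ha.ne'
  have hβ1 : β 1 = - β 0 := by
    have : (a : ℂ) * (β 0 + β 1) = 0 := by
      rw [← hlin]; push_cast; ring
    rcases mul_eq_zero.1 this with h | h
    · exact absurd h ha
    · linear_combination h
  have hβ0 : β 0 ≠ 0 := by
    intro h0
    apply hβ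
    funext i
    fin_cases i
    · exact h0
    · simp [hβ1, h0]
  set z₁ : Fin 2 → ℂ := ![(a : ℂ), (-(1 - (1 - a) : ℝ) : ℂ)] with hz₁
  have hz₁1 : z₁ 1 = - (a : ℂ) := by
    simp [hz₁]
  have hz₁0 : z₁ 0 = (a : ℂ) := by simp [hz₁]
  have hβz : β = (β 0 / a) • z₁ := by
    funext i
    fin_cases i
    · simp only [Fin.zero_eta, Fin.isValue, Pi.smul_apply, smul_eq_mul, hz₁0]
      field_simp
    · simp only [Fin.mk_one, Fin.isValue, Pi.smul_apply, smul_eq_mul, hz₁1, hβ1]
      field_simp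
  have hhom1 : ∀ k, MvPolynomial.eval z₁ (MvPolynomial.homogeneousComponent (k + 2) (p' k)) = 0 := by
    intro k
    have h := hhom k
    rw [hβz, formalII_eval_smul (MvPolynomial.homogeneousComponent_isHomogeneous _ _)] at h
    rcases mul_eq_zero.1 h with h | h
    · exact absurd h (pow_ne_zero _ (div_ne_zero hβ0 ha))
    · exact h
  have hlin0 : MvPolynomial.eval z₁ (MvPolynomial.X 0 + MvPolynomial.X 1 : P) = 0 := by
    rw [map_add, MvPolynomial.eval_X, MvPolynomial.eval_X, hz₁0, hz₁1]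
    ring
  refine FD.second_i hA h1 h1' h2 h2' hFD ?_ ?_
  · intro k hk
    obtain ⟨j, rfl⟩ : ∃ j, k = j + 2 := ⟨k - 2, by omega⟩
    rw [hV j, map_mul, ← hz₁, hhom1 j, mul_zero]
  · intro k hk
    obtain ⟨j, rfl⟩ : ∃ j, k = j + 2 := ⟨k - 2, by omega⟩
    rw [hV j, ← hz₁, Derivation.leibniz, smul_eq_mul, smul_eq_mul, map_add, map_mul, map_mul,
      hlin0, hhom1 j, zero_mul, zero_mul, add_zero]

end Pool.Agent.Lib.MP_8ce23f_nt.R2
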