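import Pool.Agent.Lib.MP_8ce23f_nt.R2.Defs

/-!
# The logarithmic derivative

Job LogDer.  `Γ` is invertible (`γ ≠ 0`): let `Γ'` be the inverse (`PowerSeries.invOfUnit`,
`Γ * Γ' = 1`).  Put `L = X * derivative Γ * Γ'`, `R i = map (sh e_i) Γ * Γ'`,
`S i = E2 (-(X_i + A_ii/2)) * map (sh (A i)) Γ * Γ'`.  Derivative commutes with `map`;
`X * derivative (E2 g) = 2 * X^2 * C g * E2 g`.  Uniqueness of the inverse gives
`map φ Γ' = (map φ Γ)'`.
For the second theorem: apply `map (eval z)` to `L * Γ = X * derivative Γ`; if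
`map (eval z₁) Γ = E2 c * map (eval z₀) Γ` then `map (eval z₁) L = 2 c X² + map (eval z₀) L`.
-/

open Filter Topology
open scoped Real

namespace Pool.Agent.Lib.MP_8ce23f_nt.R2

/-- `L` is the logarithmic derivative of `Γ`. -/
def IsLogDer (Γ L : PowerSeries P) : Prop :=
  PowerSeries.X * PowerSeries.derivative P Γ = L * Γ

theorem LogDer_map_derivative {R R' : Type*} [CommRing R] [CommRing R'] (φ : R →+* R') (f : PowerSeries R) :
    PowerSeries.derivative R' (PowerSeries.map φ f) = PowerSeries.map φ (PowerSeries.derivative R f) := by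
  ext n
  rw [PowerSeries.coeff_derivative, PowerSeries.coeff_map, PowerSeries.coeff_map,
    PowerSeries.coeff_derivative, map_mul, map_add, map_natCast, map_one]

theorem LogDer_leibniz {R : Type*} [CommRing R] (f g : PowerSeries R) :
    PowerSeries.derivative R (f * g) =
      f * PowerSeries.derivative R g + g * PowerSeries.derivative R f := by
  rw [Derivation.leibniz]
  rfl

/-- logarithmic derivative of a quotient -/
theorem LogDer_quot {R : Type*} [CommRing R] {F M Γ Γ' L : PowerSeries R}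
    (hF : PowerSeries.X * PowerSeries.derivative R F = M * F)
    (hΓ : PowerSeries.X * PowerSeries.derivative R Γ = L * Γ) (h1 : Γ * Γ' = 1) :
    PowerSeries.X * PowerSeries.derivative R (F * Γ') = (F * Γ') * (M - L) := by
  have h2 : Γ * PowerSeries.derivative R Γ' + Γ' * PowerSeries.derivative R Γ = 0 := by
    rw [← LogDer_leibniz, h1]
    exact Derivation.map_one_eq_zero _
  have h3 : PowerSeries.derivative R Γ' = - (Γ' * Γ' * PowerSeries.derivative R Γ) := by
    have h4 : PowerSeries.derivative R Γ' = (Γ * Γ') * PowerSeries.derivative R Γ' := by rw [h1, one_mul]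
    calc PowerSeries.derivative R Γ' = (Γ * Γ') * PowerSeries.derivative R Γ' := h4
      _ = Γ' * (Γ * PowerSeries.derivative R Γ' + Γ' * PowerSeries.derivative R Γ) -
          Γ' * Γ' * PowerSeries.derivative R Γ := by ring
      _ = - (Γ' * Γ' * PowerSeries.derivative R Γ) := by rw [h2]; ring
  rw [LogDer_leibniz, h3]
  calc PowerSeries.X * (F * -(Γ' * Γ' * PowerSeries.derivative R Γ) + Γ' * PowerSeries.derivative R F)
      = Γ' * (PowerSeries.X * PowerSeries.derivative R F) -
        F * Γ' * Γ' * (PowerSeries.X * PowerSeries.derivative R Γ) := by ring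
    _ = Γ' * (M * F) - F * Γ' * Γ' * (L * Γ) := by rw [hF, hΓ]
    _ = Γ' * M * F - F * Γ' * L * (Γ * Γ') := by ring
    _ = (F * Γ') * (M - L) := by rw [h1]; ring

theorem LogDer_coeff_E2 {R : Type*} [CommRing R] [Algebra ℂ R] (g : R) (n : ℕ) :
    PowerSeries.coeff n (E2 g) =
      if Even n then algebraMap ℂ R (((n / 2).factorial : ℂ)⁻¹) * g ^ (n / 2) else 0 := by
  unfold E2
  rw [PowerSeries.coeff_mk]

theorem LogDer_coeff_X_derivative {R : Type*} [CommRing R] (f : PowerSeries R) (n : ℕ) :
    PowerSeries.coeff n (PowerSeries.X * PowerSeries.derivative R f) = n * PowerSeries.coeff n f := by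
  cases n with
  | zero => simp
  | succ n =>
    rw [PowerSeries.coeff_succ_X_mul, PowerSeries.coeff_derivative]
    push_cast
    ring

theorem LogDer_E2 {R : Type*} [CommRing R] [Algebra ℂ R] (g : R) :
    PowerSeries.X * PowerSeries.derivative R (E2 g) =
      (2 * PowerSeries.X ^ 2 * PowerSeries.C g) * E2 g := by
  have h0 : (2 * PowerSeries.X ^ 2 * PowerSeries.C g) * E2 g =
      PowerSeries.X ^ 2 * (PowerSeries.C (2 * g) * E2 g) := by
    rw [map_mul, map_ofNat]
    ring
  rw [h0]
  ext n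
  rw [LogDer_coeff_X_derivative, PowerSeries.coeff_X_pow_mul', LogDer_coeff_E2]
  by_cases h2 : 2 ≤ n
  · obtain ⟨m, rfl⟩ := Nat.exists_eq_add_of_le h2
    have e1 : 2 + m - 2 = m := by omega
    rw [if_pos h2, e1, PowerSeries.coeff_C_mul, LogDer_coeff_E2]
    by_cases hm : Even m
    · have h3 : Even (2 + m) := by
        rw [Nat.even_add]
        simp [hm]
      rw [if_pos hm, if_pos h3]
      obtain ⟨r, rfl⟩ := hm
      have e2 : (2 + (r + r)) / 2 = r + 1 := by omega
      have e3 : (r + r) / 2 = r := by omega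
      rw [e2, e3]
      have h4 : ((2 + (r + r) : ℕ) : R) * algebraMap ℂ R (((r + 1).factorial : ℂ)⁻¹) =
          2 * algebraMap ℂ R ((r.factorial : ℂ)⁻¹) := by
        have h5 : ((2 + (r + r) : ℕ) : R) = algebraMap ℂ R ((2 + (r + r) : ℕ) : ℂ) := by
          rw [map_natCast]
        have h6 : (2 : R) = algebraMap ℂ R 2 := by rw [map_ofNat]
        rw [h5, h6, ← map_mul, ← map_mul]
        congr 1
        rw [Nat.factorial_succ]
        have h7 : (r.factorial : ℂ) ≠ 0 := by exact_mod_cast Nat.factorial_ne_zero r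
        have h8 : ((r : ℂ) + 1) ≠ 0 := by exact_mod_cast Nat.succ_ne_zero r
        push_cast
        field_simp
        ring
      calc ((2 + (r + r) : ℕ) : R) * (algebraMap ℂ R (((r + 1).factorial : ℂ)⁻¹) * g ^ (r + 1))
          = (((2 + (r + r) : ℕ) : R) * algebraMap ℂ R (((r + 1).factorial : ℂ)⁻¹)) * g ^ (r + 1) := by ring
        _ = (2 * algebraMap ℂ R ((r.factorial : ℂ)⁻¹)) * g ^ (r + 1) := by rw [h4]
        _ = 2 * g * (algebraMap ℂ R ((r.factorial : ℂ)⁻¹) * g ^ r) := by ring
    · have h3 : ¬ Even (2 + m) := by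
        rw [Nat.even_add]
        simp [hm]
      rw [if_neg hm, if_neg h3, mul_zero, mul_zero]
  · rw [if_neg h2]
    have h3 : n = 0 ∨ n = 1 := by omega
    rcases h3 with rfl | rfl
    · simp
    · rw [if_neg (by decide), mul_zero]

theorem LogDer_const_E2 {R : Type*} [CommRing R] [Algebra ℂ R] (g : R) :
    PowerSeries.constantCoeff (E2 g) = 1 := by
  rw [← PowerSeries.coeff_zero_eq_constantCoeff_apply, LogDer_coeff_E2]
  simp

/-- logarithmic derivative of a product with an exponential -/
theorem LogDer_mul_E2 {R : Type*} [CommRing R] [Algebra ℂ R] {F M : PowerSeries R}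
    (hF : PowerSeries.X * PowerSeries.derivative R F = M * F) (g : R) :
    PowerSeries.X * PowerSeries.derivative R (E2 g * F) =
      (2 * PowerSeries.X ^ 2 * PowerSeries.C g + M) * (E2 g * F) := by
  rw [LogDer_leibniz]
  calc PowerSeries.X * (E2 g * PowerSeries.derivative R F + F * PowerSeries.derivative R (E2 g))
      = E2 g * (PowerSeries.X * PowerSeries.derivative R F) +
        F * (PowerSeries.X * PowerSeries.derivative R (E2 g)) := by ring
    _ = E2 g * (M * F) + F * ((2 * PowerSeries.X ^ 2 * PowerSeries.C g) * E2 g) := by rw [hF, LogDer_E2]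
    _ = (2 * PowerSeries.X ^ 2 * PowerSeries.C g + M) * (E2 g * F) := by ring

theorem LogDer_map {R R' : Type*} [CommRing R] [CommRing R'] (φ : R →+* R') {F M : PowerSeries R}
    (hF : PowerSeries.X * PowerSeries.derivative R F = M * F) :
    PowerSeries.X * PowerSeries.derivative R' (PowerSeries.map φ F) =
      PowerSeries.map φ M * PowerSeries.map φ F := by
  rw [LogDer_map_derivative, ← map_mul, ← hF, map_mul, PowerSeries.map_X]

theorem LogDer_fe {R : Type*} [CommRing R] {a b E F G Γ Γ' : R} (h2 : Γ = a * F + b * E * G)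
    (h1 : Γ * Γ' = 1) : a * (F * Γ') + b * ((E * G) * Γ') = 1 := by
  calc a * (F * Γ') + b * ((E * G) * Γ') = (a * F + b * E * G) * Γ' := by ring
    _ = Γ * Γ' := by rw [← h2]
    _ = 1 := h1

theorem LogDer_neg {R : Type*} [CommRing R] {T S M L : PowerSeries R} {g : R}
    (h : T = S * ((2 * PowerSeries.X ^ 2 * PowerSeries.C (-g) + M) - L)) :
    T = S * (M - L - 2 * PowerSeries.X ^ 2 * PowerSeries.C g) := by
  rw [h, map_neg]
  ring

theorem exists_TD {A : Matrix (Fin 2) (Fin 2) ℂ} {Q : Fin 2 → ℂ} {Γ : PowerSeries P} {γ : ℂ}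
    (hγ : γ ≠ 0) (h0 : PowerSeries.constantCoeff Γ = MvPolynomial.C γ) (hFE : IsFE A Q Γ) :
    ∃ (L : PowerSeries P) (R S : Fin 2 → PowerSeries P), IsLogDer Γ L ∧ TD A Q L R S := by
  have hu : IsUnit Γ := by
    rw [PowerSeries.isUnit_iff_constantCoeff, h0]
    exact (IsUnit.mk0 γ hγ).map (MvPolynomial.C : ℂ →+* P)
  obtain ⟨Γ', h1⟩ := hu.exists_right_inv
  have hL : PowerSeries.X * PowerSeries.derivative P Γ =
      (PowerSeries.X * PowerSeries.derivative P Γ * Γ') * Γ := by
    calc PowerSeries.X * PowerSeries.derivative P Γ =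
        PowerSeries.X * PowerSeries.derivative P Γ * (Γ * Γ') := by rw [h1, mul_one]
      _ = _ := by ring
  have hc : PowerSeries.constantCoeff Γ' * MvPolynomial.C γ = 1 := by
    have := congrArg PowerSeries.constantCoeff h1
    rw [map_mul, h0, map_one] at this
    rw [mul_comm]
    exact this
  have hcm : ∀ v : Fin 2 → ℂ, PowerSeries.constantCoeff (PowerSeries.map (sh v : P →+* P) Γ * Γ') = 1 := by
    intro v
    rw [map_mul, ← PowerSeries.coeff_zero_eq_constantCoeff_apply, PowerSeries.coeff_map,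
      PowerSeries.coeff_zero_eq_constantCoeff_apply, h0]
    have h2 : ((sh v : P →+* P)) (MvPolynomial.C γ) = MvPolynomial.C γ := by
      show sh v (MvPolynomial.C γ) = MvPolynomial.C γ
      unfold sh
      rw [MvPolynomial.aeval_C]
      rfl
    rw [h2, mul_comm]
    exact hc
  refine ⟨PowerSeries.X * PowerSeries.derivative P Γ * Γ',
    fun i => PowerSeries.map (sh (Pi.single i 1) : P →+* P) Γ * Γ',
    fun i => (E2 (-(MvPolynomial.X i + MvPolynomial.C (A i i / 2)) : P) *
      PowerSeries.map (sh (A i) : P →+* P) Γ) * Γ', hL, ?_⟩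
  refine { L0 := ?_, R0 := ?_, S0 := ?_, Rθ := ?_, Sθ := ?_, fe := ?_ }
  · rw [map_mul, map_mul, PowerSeries.constantCoeff_X, zero_mul, zero_mul]
  · intro i
    exact hcm _
  · intro i
    show PowerSeries.constantCoeff ((E2 (-(MvPolynomial.X i + MvPolynomial.C (A i i / 2)) : P) *
      PowerSeries.map (sh (A i) : P →+* P) Γ) * Γ') = 1
    rw [mul_assoc, map_mul, LogDer_const_E2, one_mul]
    exact hcm _
  · intro i
    exact LogDer_quot (LogDer_map _ hL) hL h1
  · intro i
    exact LogDer_neg (LogDer_quot (LogDer_mul_E2 (LogDer_map _ hL) _) hL h1)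
  · intro i
    exact LogDer_fe (hFE i) h1

theorem logDer_eval {Γ L : PowerSeries P} {γ : ℂ} (hγ : γ ≠ 0)
    (h0 : PowerSeries.constantCoeff Γ = MvPolynomial.C γ) (hL : IsLogDer Γ L)
    {x y x₀ y₀ c : ℂ}
    (h : PowerSeries.map (ev x y) Γ = E2 c * PowerSeries.map (ev x₀ y₀) Γ) {k : ℕ} (hk : 3 ≤ k) :
    ev x y (PowerSeries.coeff k L) = ev x₀ y₀ (PowerSeries.coeff k L) := by
  have h1 := LogDer_map (ev x y) hL
  have h2 := LogDer_mul_E2 (LogDer_map (ev x₀ y₀) hL) c
  rw [← h, h1] at h2
  have hne : PowerSeries.map (ev x y) Γ ≠ 0 := by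
    intro h3
    have h4 := congrArg (PowerSeries.coeff 0) h3
    rw [PowerSeries.coeff_map, PowerSeries.coeff_zero_eq_constantCoeff_apply, h0, map_zero] at h4
    apply hγ
    have h5 : ev x y (MvPolynomial.C γ) = γ := MvPolynomial.eval_C _
    rw [← h5]
    exact h4
  have h3 := mul_right_cancel₀ hne h2
  have h4 := congrArg (PowerSeries.coeff k) h3
  rw [PowerSeries.coeff_map, map_add, PowerSeries.coeff_map] at h4
  rw [h4]
  have h5 : PowerSeries.coeff k (2 * PowerSeries.X ^ 2 * PowerSeries.C c : PowerSeries ℂ) = 0 := by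
    have h6 : (2 * PowerSeries.X ^ 2 * PowerSeries.C c : PowerSeries ℂ) =
        PowerSeries.X ^ 2 * PowerSeries.C (2 * c) := by
      rw [map_mul, map_ofNat]
      ring
    rw [h6, PowerSeries.coeff_X_pow_mul', if_pos (by omega), PowerSeries.coeff_C, if_neg (by omega)]
  rw [h5, zero_add]

end Pool.Agent.Lib.MP_8ce23f_nt.R2
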