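import Pool.Agent.Lib.MP_8ce23f_nt.R2.Defs

/-!
# Existence of a solution of Nahm's equation

Job NahmEx.  Put `u_i = -log Q_i > 0`, `φ u = -log (1 - exp (-u))` (positive, continuous, decreasing
on `(0,∞)`, `φ → ∞` at `0+`, `φ → 0` at `∞`).  The equations are `a u₁ + h u₂ = φ u₁`,
`h u₁ + d u₂ = φ u₂`.
* `h = 0`: two one-dimensional problems, intermediate value theorem.
* `h > 0`: let `a α = φ α`; for `u₁ ∈ (0, α)` put `u₂ = (φ u₁ - a u₁)/h > 0`;
  `H u₁ = h u₁ + d u₂ - φ u₂` tends to `+∞` at `0+` and to `-∞` at `α-`.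
* `h < 0`: for `u₁ > α` put `u₂ = (a u₁ - φ u₁)/|h| > 0`; `H → -∞` at `α+`, and
  `H ≥ ((ad - h²)/|h|) u₁ - bounded → +∞` at `∞`.
Intermediate value theorem on a subinterval.
-/

open Filter Topology Asymptotics MeasureTheory
open scoped Real

namespace Pool.Agent.Lib.MP_8ce23f_nt.R2

/-- `φ u = -log (1 - exp (-u))`. -/
noncomputable def NahmEx_phi (u : ℝ) : ℝ := -Real.log (1 - Real.exp (-u))

theorem NahmEx_exp_lt {u : ℝ} (hu : 0 < u) : 0 < 1 - Real.exp (-u) := by
  have : Real.exp (-u) < 1 := Real.exp_lt_one_iff.2 (by linarith)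
  linarith

theorem NahmEx_cont : ContinuousOn NahmEx_phi (Set.Ioi 0) := by
  unfold NahmEx_phi
  apply ContinuousOn.neg
  apply ContinuousOn.log
  · fun_prop
  · intro u hu
    exact (NahmEx_exp_lt hu).ne'

theorem NahmEx_pos {u : ℝ} (hu : 0 < u) : 0 < NahmEx_phi u := by
  unfold NahmEx_phi
  have h1 := NahmEx_exp_lt hu
  have h2 : 1 - Real.exp (-u) < 1 := by linarith [Real.exp_pos (-u)]
  linarith [Real.log_neg h1 h2]

theorem NahmEx_anti {u v : ℝ} (hu : 0 < u) (huv : u < v) : NahmEx_phi v < NahmEx_phi u := by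
  unfold NahmEx_phi
  have h1 := NahmEx_exp_lt hu
  have h2 : Real.exp (-v) < Real.exp (-u) := Real.exp_lt_exp.2 (by linarith)
  have h3 := Real.log_lt_log h1 (by linarith : 1 - Real.exp (-u) < 1 - Real.exp (-v))
  linarith

theorem NahmEx_anti' {u v : ℝ} (hu : 0 < u) (huv : u ≤ v) : NahmEx_phi v ≤ NahmEx_phi u := by
  rcases huv.eq_or_lt with h | h
  · rw [h]
  · exact (NahmEx_anti hu h).le

theorem NahmEx_inv {u : ℝ} (hu : 0 < u) : NahmEx_phi (NahmEx_phi u) = u := by
  have h1 := NahmEx_exp_lt hu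
  have h2 : Real.exp (-NahmEx_phi u) = 1 - Real.exp (-u) := by
    unfold NahmEx_phi
    rw [neg_neg, Real.exp_log h1]
  rw [NahmEx_phi, h2]
  have h3 : 1 - (1 - Real.exp (-u)) = Real.exp (-u) := by ring
  rw [h3, Real.log_exp]
  ring

/-- `φ` is large near zero. -/
theorem NahmEx_large (K : ℝ) : ∃ ε : ℝ, 0 < ε ∧ ∀ u : ℝ, 0 < u → u < ε → K < NahmEx_phi u := by
  have hK : (0 : ℝ) < max K 1 := lt_of_lt_of_le one_pos (le_max_right _ _)
  refine ⟨NahmEx_phi (max K 1), NahmEx_pos hK, fun u hu hlt => ?_⟩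
  have h1 := NahmEx_anti hu hlt
  rw [NahmEx_inv hK] at h1
  exact lt_of_le_of_lt (le_max_left _ _) h1

theorem NahmEx_ivt {s : Set ℝ} (hs : IsPreconnected s) {H : ℝ → ℝ} (hc : ContinuousOn H s) {p q : ℝ}
    (hp : p ∈ s) (hq : q ∈ s) (h1 : H p ≤ 0) (h2 : 0 ≤ H q) : ∃ r ∈ s, H r = 0 := by
  obtain ⟨r, hr, hr2⟩ := hs.intermediate_value hp hq hc ⟨h1, h2⟩
  exact ⟨r, hr, hr2⟩

theorem NahmEx_one {c : ℝ} (hc : 0 < c) : ∃ α : ℝ, 0 < α ∧ NahmEx_phi α = c * α := by
  obtain ⟨ε, hε, h1⟩ := NahmEx_large c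
  set u0 := min (ε / 2) 1 with hu0
  have hu0pos : 0 < u0 := lt_min (by linarith) one_pos
  have hu01 : u0 ≤ 1 := min_le_right _ _
  have hu02 : u0 < ε := lt_of_le_of_lt (min_le_left _ _) (by linarith)
  have h2 := h1 u0 hu0pos hu02
  set u1 := NahmEx_phi 1 / c + 1 with hu1
  have hphi1 : 0 < NahmEx_phi 1 := NahmEx_pos one_pos
  have hu1pos : 1 ≤ u1 := by
    have : 0 < NahmEx_phi 1 / c := by positivity
    linarith
  have h3 : NahmEx_phi u1 ≤ NahmEx_phi 1 := NahmEx_anti' one_pos hu1pos
  have h4 : c * u1 = NahmEx_phi 1 + c := by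
    rw [hu1]
    field_simp
  obtain ⟨r, hr, hr2⟩ := NahmEx_ivt (s := Set.Ioi 0) (H := fun u => c * u - NahmEx_phi u)
    isPreconnected_Ioi (by
      apply ContinuousOn.sub
      · fun_prop
      · exact NahmEx_cont) (p := u0) (q := u1) hu0pos (lt_of_lt_of_le one_pos hu1pos)
    (by
      have : c * u0 ≤ c * 1 := mul_le_mul_of_nonneg_left hu01 hc.le
      linarith) (by linarith)
  refine ⟨r, hr, ?_⟩
  linarith

/-- The two equations for `u`. -/
theorem NahmEx_main {a h d : ℝ} (hA : PD a h d) : ∃ u₁ u₂ : ℝ, 0 < u₁ ∧ 0 < u₂ ∧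
    NahmEx_phi u₁ = a * u₁ + h * u₂ ∧ NahmEx_phi u₂ = h * u₁ + d * u₂ := by
  obtain ⟨ha, hd, hdet⟩ := hA
  obtain ⟨α, hα, hα2⟩ := NahmEx_one ha
  obtain ⟨δ, hδ, hδ2⟩ := NahmEx_one hd
  have hcα : ContinuousAt NahmEx_phi α := NahmEx_cont.continuousAt (Ioi_mem_nhds hα)
  rcases lt_trichotomy h 0 with hh | hh | hh
  · -- negative case
    set m := -h with hm
    have hm0 : 0 < m := by linarith
    have hdet' : 0 < a * d - m ^ 2 := by
      rw [hm]
      nlinarith
    set w : ℝ → ℝ := fun u => (a * u - NahmEx_phi u) / m with hw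
    have hwpos : ∀ u ∈ Set.Ioi α, 0 < w u := by
      intro u hu
      have hu' : α < u := hu
      have h1 := NahmEx_anti hα hu'
      apply div_pos _ hm0
      nlinarith
    have hwc : ContinuousOn w (Set.Ioi α) := by
      apply ContinuousOn.div_const
      apply ContinuousOn.sub
      · fun_prop
      · exact NahmEx_cont.mono (fun u hu => hα.trans hu)
    have hHc : ContinuousOn (fun u => -m * u + d * w u - NahmEx_phi (w u)) (Set.Ioi α) := by
      apply ContinuousOn.sub
      · apply ContinuousOn.add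
        · fun_prop
        · exact continuousOn_const.mul hwc
      · exact NahmEx_cont.comp hwc hwpos
    -- a point near `α`
    obtain ⟨ε, hε, h1⟩ := NahmEx_large d
    have hwα : w α = 0 := by
      simp only [hw]
      rw [hα2]
      simp
    have hcw : ContinuousAt w α := by
      apply ContinuousAt.div_const
      apply ContinuousAt.sub
      · fun_prop
      · exact hcα
    have hev : ∀ᶠ u in 𝓝[>] α, w u < min ε 1 := by
      apply (hcw.eventually_lt (g := fun _ => min ε 1) continuousAt_const (by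
        rw [hwα]
        exact lt_min hε one_pos)).filter_mono
      exact nhdsWithin_le_nhds
    obtain ⟨p, hp1, hp2⟩ := (hev.and self_mem_nhdsWithin).exists
    have hp3 : 0 < w p := hwpos p hp2
    have hp4 : w p < ε := lt_of_lt_of_le hp1 (min_le_left _ _)
    have hp5 : w p < 1 := lt_of_lt_of_le hp1 (min_le_right _ _)
    have hp6 := h1 (w p) hp3 hp4
    have hp7 : α < p := hp2
    have hpH : -m * p + d * w p - NahmEx_phi (w p) ≤ 0 := by
      have h5 : d * w p ≤ d * 1 := mul_le_mul_of_nonneg_left hp5.le hd.le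
      have h6 : 0 < m * p := mul_pos hm0 (hα.trans hp7)
      linarith
    -- a large point
    have hphi1 : 0 < NahmEx_phi 1 := NahmEx_pos one_pos
    have hphiα : 0 < NahmEx_phi α := NahmEx_pos hα
    set B := (d * NahmEx_phi α + m * NahmEx_phi 1) / (a * d - m ^ 2) with hB
    set C := (NahmEx_phi α + m) / a with hC
    have hB0 : 0 < B := by positivity
    have hC0 : 0 < C := by positivity
    set q := α + B + C with hq
    have hqα : α < q := by linarith
    have hq1 : NahmEx_phi q ≤ NahmEx_phi α := (NahmEx_anti hα hqα).le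
    have hq2 : 1 ≤ w q := by
      simp only [hw]
      rw [le_div_iff₀ hm0, one_mul]
      have h5 : a * C = NahmEx_phi α + m := by
        rw [hC]
        field_simp
      have h6 : a * C ≤ a * q := mul_le_mul_of_nonneg_left (by linarith) ha.le
      linarith
    have hq3 : NahmEx_phi (w q) ≤ NahmEx_phi 1 := NahmEx_anti' one_pos hq2
    have hqH : 0 ≤ -m * q + d * w q - NahmEx_phi (w q) := by
      have h5 : m * w q = a * q - NahmEx_phi q := by
        simp only [hw]
        field_simp
      have h6 : (a * d - m ^ 2) * B = d * NahmEx_phi α + m * NahmEx_phi 1 := by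
        rw [hB]
        field_simp
      have h7 : (a * d - m ^ 2) * B ≤ (a * d - m ^ 2) * q :=
        mul_le_mul_of_nonneg_left (by linarith) hdet'.le
      have h8 : d * NahmEx_phi q ≤ d * NahmEx_phi α := mul_le_mul_of_nonneg_left hq1 hd.le
      have h9 : m * NahmEx_phi (w q) ≤ m * NahmEx_phi 1 := mul_le_mul_of_nonneg_left hq3 hm0.le
      have h10 : 0 ≤ m * (-m * q + d * w q - NahmEx_phi (w q)) := by
        have : m * (-m * q + d * w q - NahmEx_phi (w q)) =
            -m ^ 2 * q + d * (m * w q) - m * NahmEx_phi (w q) := by ring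
        rw [this, h5]
        nlinarith
      exact nonneg_of_mul_nonneg_right h10 hm0
    obtain ⟨r, hr, hr2⟩ := NahmEx_ivt (s := Set.Ioi α)
      (H := fun u => -m * u + d * w u - NahmEx_phi (w u))
      isPreconnected_Ioi hHc hp2 hqα hpH hqH
    refine ⟨r, w r, hα.trans hr, hwpos r hr, ?_, ?_⟩
    · have h5 : m * w r = a * r - NahmEx_phi r := by
        simp only [hw]
        field_simp
      have h6 : h * w r = -(m * w r) := by
        rw [hm]
        ring
      rw [h6, h5]
      ring
    · have h6 : h * r = -m * r := by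
        rw [hm]
        ring
      rw [h6]
      linarith
  · -- zero case
    refine ⟨α, δ, hα, hδ, ?_, ?_⟩
    · rw [hh, hα2]
      ring
    · rw [hh, hδ2]
      ring
  · -- positive case
    set w : ℝ → ℝ := fun u => (NahmEx_phi u - a * u) / h with hw
    have hwpos : ∀ u ∈ Set.Ioo 0 α, 0 < w u := by
      intro u hu
      have h1 := NahmEx_anti hu.1 hu.2
      apply div_pos _ hh
      have := mul_lt_mul_of_pos_left hu.2 ha
      linarith
    have hwc : ContinuousOn w (Set.Ioo 0 α) := by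
      apply ContinuousOn.div_const
      apply ContinuousOn.sub
      · exact NahmEx_cont.mono (fun u hu => hu.1)
      · fun_prop
    have hHc : ContinuousOn (fun u => h * u + d * w u - NahmEx_phi (w u)) (Set.Ioo 0 α) := by
      apply ContinuousOn.sub
      · apply ContinuousOn.add
        · fun_prop
        · exact continuousOn_const.mul hwc
      · exact NahmEx_cont.comp hwc hwpos
    -- a point near `α`
    obtain ⟨ε, hε, h1⟩ := NahmEx_large (h * α + d)
    have hwα : w α = 0 := by
      simp only [hw]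
      rw [hα2]
      simp
    have hcw : ContinuousAt w α := by
      apply ContinuousAt.div_const
      apply ContinuousAt.sub
      · exact hcα
      · fun_prop
    have hev : ∀ᶠ u in 𝓝[<] α, w u < min ε 1 := by
      apply (hcw.eventually_lt (g := fun _ => min ε 1) continuousAt_const (by
        rw [hwα]
        exact lt_min hε one_pos)).filter_mono
      exact nhdsWithin_le_nhds
    have hev2 : ∀ᶠ u in 𝓝[<] α, u ∈ Set.Ioo 0 α := Ioo_mem_nhdsLT hα
    obtain ⟨p, hp1, hp2⟩ := (hev.and hev2).exists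
    have hp3 : 0 < w p := hwpos p hp2
    have hp4 : w p < ε := lt_of_lt_of_le hp1 (min_le_left _ _)
    have hp5 : w p < 1 := lt_of_lt_of_le hp1 (min_le_right _ _)
    have hp6 := h1 (w p) hp3 hp4
    have hpH : h * p + d * w p - NahmEx_phi (w p) ≤ 0 := by
      have h5 : d * w p ≤ d * 1 := mul_le_mul_of_nonneg_left hp5.le hd.le
      have h6 : h * p ≤ h * α := mul_le_mul_of_nonneg_left hp2.2.le hh.le
      linarith
    -- a small point
    obtain ⟨ε', hε', h2⟩ := NahmEx_large (h * δ + a * α)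
    set q := min (ε' / 2) (α / 2) with hq
    have hq0 : 0 < q := lt_min (by linarith) (by linarith)
    have hqα : q < α := lt_of_le_of_lt (min_le_right _ _) (by linarith)
    have hqε : q < ε' := lt_of_le_of_lt (min_le_left _ _) (by linarith)
    have hq1 := h2 q hq0 hqε
    have hq2 : δ < w q := by
      simp only [hw]
      rw [lt_div_iff₀ hh]
      have := mul_lt_mul_of_pos_left hqα ha
      linarith
    have hq3 := NahmEx_anti hδ hq2
    have hqH : 0 ≤ h * q + d * w q - NahmEx_phi (w q) := by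
      have h5 : d * δ ≤ d * w q := mul_le_mul_of_nonneg_left hq2.le hd.le
      have h6 : 0 < h * q := mul_pos hh hq0
      linarith
    obtain ⟨r, hr, hr2⟩ := NahmEx_ivt (s := Set.Ioo 0 α)
      (H := fun u => h * u + d * w u - NahmEx_phi (w u))
      isPreconnected_Ioo hHc hp2 ⟨hq0, hqα⟩ hpH hqH
    refine ⟨r, w r, hr.1, hwpos r hr, ?_, ?_⟩
    · have h5 : h * w r = NahmEx_phi r - a * r := by
        simp only [hw]
        field_simp
      rw [h5]
      ring
    · linarith

theorem exists_nahmSol {a h d : ℝ} (hA : PD a h d) : ∃ Q₁ Q₂ : ℝ, NahmSol a h d Q₁ Q₂ := by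
  obtain ⟨u₁, u₂, h1, h2, h3, h4⟩ := NahmEx_main hA
  refine ⟨Real.exp (-u₁), Real.exp (-u₂), Real.exp_pos _, Real.exp_lt_one_iff.2 (by linarith),
    Real.exp_pos _, Real.exp_lt_one_iff.2 (by linarith), ?_, ?_⟩
  · rw [Real.log_exp, Real.log_exp]
    unfold NahmEx_phi at h3
    linarith
  · rw [Real.log_exp, Real.log_exp]
    unfold NahmEx_phi at h4
    linarith

end Pool.Agent.Lib.MP_8ce23f_nt.R2
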