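import Pool.Agent.Lib.MP_8ce23f_nt.R2.AtIy
import Pool.Agent.Lib.MP_8ce23f_nt.R2.Cusp
import Pool.Agent.Lib.MP_8ce23f_nt.R2.Compare

/-!
# Two admissible vectors

Job Relation.  `nahmSum A B C` and `nahmSum A B₀ C₀` are modular.  By `cusp_leading` (with
`y = t²/(2π)`) and `nahmSum_tp`: `exp (-C t²) F_B(t) exp (-2πν/t²) = K (1 + E_B t)`,
`E_B = O(exp (-2πδ/t²))`, similarly for `B₀`.  Divide: `F_B = F_{B₀} K' exp ((C-C₀) t² + μ/t²)(1 + E t)`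
with `1 + E = (1+E_B)/(1+E_{B₀})`, `E = O(exp (-δ'/t²))`.  Multiply by
`Nf t exp (-(x log Q₁ + y log Q₂))` (different constants go to `K'`) and apply `compare`; both
constant coefficients are `γ`.
-/

open Filter Topology Asymptotics
open scoped Real MatrixGroups Manifold
open UpperHalfPlane hiding I

namespace Pool.Agent.Lib.MP_8ce23f_nt.R2

/-- The expansion of one modular Nahm sum near the cusp. -/
theorem relation_one {A : Matrix (Fin 2) (Fin 2) ℚ} (hA : A.PosDef) {B : Fin 2 → ℚ} {C : ℚ}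
    (hm : IsModularFunction (nahmSum A B C)) :
    ∃ (K : ℂ) (ν δ : ℝ) (E : ℝ → ℂ), K ≠ 0 ∧ 0 < δ ∧
      E =O[𝓝[>] 0] (fun t : ℝ => Real.exp (-(δ / t ^ 2))) ∧
      ∀ t : ℝ, ((F (A 0 0) (A 0 1) (A 1 1) (B 0) (B 1) t : ℝ) : ℂ) =
        K * Real.exp (C * t ^ 2 + ν / t ^ 2) * (1 + E t) := by
  obtain ⟨K, ν, δ, y₀, Cst, hK, hδ, hy₀, hb⟩ :=
    cusp_leading (nahmSum_mdiff hA B C) hm (nahmSum_ne_zero hA B C)
  refine ⟨K, 2 * π * ν, 2 * π * δ,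
    fun t => ((F (A 0 0) (A 0 1) (A 1 1) (B 0) (B 1) t : ℝ) : ℂ) /
      (K * Real.exp (C * t ^ 2 + (2 * π * ν) / t ^ 2)) - 1, hK, by positivity, ?_, ?_⟩
  · rw [isBigO_iff]
    refine ⟨Cst / ‖K‖, ?_⟩
    have h1 : ∀ᶠ t : ℝ in 𝓝[>] 0, t ^ 2 / (2 * π) < y₀ := by
      have : Tendsto (fun t : ℝ => t ^ 2 / (2 * π)) (𝓝[>] 0) (𝓝 (0 ^ 2 / (2 * π))) :=
        ((continuous_pow 2).div_const _).tendsto 0 |>.mono_left nhdsWithin_le_nhds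
      rw [zero_pow two_ne_zero, zero_div] at this
      exact this.eventually (eventually_lt_nhds hy₀)
    filter_upwards [h1, self_mem_nhdsWithin] with t ht1 ht
    have ht : 0 < t := ht
    have hy : 0 < t ^ 2 / (2 * π) := by positivity
    have hh := hb (t ^ 2 / (2 * π)) hy ht1
    have e1 : nahmSum A B C (pt 0 (t ^ 2 / (2 * π)) hy) =
        ((Real.exp (-(C * t ^ 2)) * F (A 0 0) (A 0 1) (A 1 1) (B 0) (B 1) t : ℝ) : ℂ) :=
      nahmSum_tp hA B C ht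
    have e2 : ∀ z : ℝ, z / (t ^ 2 / (2 * π)) = (2 * π * z) / t ^ 2 := by
      intro z
      field_simp
    rw [e1, e2, e2] at hh
    rw [Real.norm_eq_abs, abs_of_pos (Real.exp_pos _)]
    have hKn : 0 < ‖K‖ := norm_pos_iff.mpr hK
    have e3 : ((F (A 0 0) (A 0 1) (A 1 1) (B 0) (B 1) t : ℝ) : ℂ) /
        (K * Real.exp (C * t ^ 2 + (2 * π * ν) / t ^ 2)) - 1 =
        (((Real.exp (-(C * t ^ 2)) * F (A 0 0) (A 0 1) (A 1 1) (B 0) (B 1) t : ℝ) : ℂ) *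
          Real.exp (-((2 * π * ν) / t ^ 2)) - K) / K := by
      have hne : ((Real.exp (C * t ^ 2 + (2 * π * ν) / t ^ 2) : ℝ) : ℂ) ≠ 0 := by
        exact_mod_cast (Real.exp_pos _).ne'
      have hx : ((Real.exp (-(C * t ^ 2)) : ℝ) : ℂ) * ((Real.exp (-((2 * π * ν) / t ^ 2)) : ℝ) : ℂ) =
          ((Real.exp (C * t ^ 2 + (2 * π * ν) / t ^ 2) : ℝ) : ℂ)⁻¹ := by
        rw [← Complex.ofReal_mul, ← Real.exp_add, ← Complex.ofReal_inv, ← Real.exp_neg]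
        congr 2
        ring
      rw [sub_div, div_self hK, Complex.ofReal_mul]
      congr 1
      have : ((Real.exp (-(C * t ^ 2)) : ℝ) : ℂ) *
          ((F (A 0 0) (A 0 1) (A 1 1) (B 0) (B 1) t : ℝ) : ℂ) *
          ((Real.exp (-((2 * π * ν) / t ^ 2)) : ℝ) : ℂ) =
          ((Real.exp (-(C * t ^ 2)) : ℝ) : ℂ) * ((Real.exp (-((2 * π * ν) / t ^ 2)) : ℝ) : ℂ) *
          ((F (A 0 0) (A 0 1) (A 1 1) (B 0) (B 1) t : ℝ) : ℂ) := by ring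
      rw [this, hx]
      field_simp
    rw [e3, norm_div, div_mul_eq_mul_div]
    gcongr
  · intro t
    have hne : K * ((Real.exp (C * t ^ 2 + (2 * π * ν) / t ^ 2) : ℝ) : ℂ) ≠ 0 :=
      mul_ne_zero hK (by exact_mod_cast (Real.exp_pos _).ne')
    show _ = K * Real.exp (C * t ^ 2 + (2 * π * ν) / t ^ 2) * (1 + (_ / _ - 1))
    rw [add_sub_cancel, mul_div_cancel₀ _ hne]

/-- The error term of a quotient. -/
theorem relation_err {E E₀ : ℝ → ℂ} {δ δ₀ : ℝ} (hδ₀ : 0 < δ₀)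
    (hE : E =O[𝓝[>] 0] fun t : ℝ => Real.exp (-(δ / t ^ 2)))
    (hE₀ : E₀ =O[𝓝[>] 0] fun t : ℝ => Real.exp (-(δ₀ / t ^ 2))) :
    (∀ᶠ t in 𝓝[>] (0 : ℝ), 1 + E₀ t ≠ 0) ∧
      (fun t => (1 + E t) / (1 + E₀ t) - 1) =O[𝓝[>] 0]
        fun t : ℝ => Real.exp (-(min δ δ₀ / t ^ 2)) := by
  have hmono : ∀ {a b : ℝ}, b ≤ a → (fun t : ℝ => Real.exp (-(a / t ^ 2))) =O[𝓝[>] 0]
      fun t : ℝ => Real.exp (-(b / t ^ 2)) := by
    intro a b hab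
    refine IsBigO.of_bound 1 ?_
    filter_upwards [self_mem_nhdsWithin] with t ht
    have ht : 0 < t := ht
    rw [Real.norm_eq_abs, Real.norm_eq_abs, abs_of_pos (Real.exp_pos _),
      abs_of_pos (Real.exp_pos _), one_mul]
    apply Real.exp_le_exp.mpr
    apply neg_le_neg
    gcongr
  have htend : Tendsto (fun t : ℝ => Real.exp (-(δ₀ / t ^ 2))) (𝓝[>] 0) (𝓝 0) := by
    apply Real.tendsto_exp_atBot.comp
    apply tendsto_neg_atTop_atBot.comp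
    have h2 : Tendsto (fun t : ℝ => t ^ 2) (𝓝[>] 0) (𝓝[>] 0) := by
      apply tendsto_nhdsWithin_iff.mpr
      constructor
      · have := ((continuous_pow 2).tendsto (0 : ℝ)).mono_left
          (nhdsWithin_le_nhds (s := Set.Ioi (0 : ℝ)))
        simpa using this
      · filter_upwards [self_mem_nhdsWithin] with t ht
        have ht : 0 < t := ht
        exact pow_pos ht 2
    have h3 : Tendsto (fun t : ℝ => (t ^ 2)⁻¹) (𝓝[>] 0) atTop := tendsto_inv_nhdsGT_zero.comp h2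
    have h4 : (fun t : ℝ => δ₀ / t ^ 2) = fun t : ℝ => δ₀ * (t ^ 2)⁻¹ := by
      funext t
      exact div_eq_mul_inv _ _
    rw [h4]
    exact h3.const_mul_atTop hδ₀
  have hE₀t : Tendsto E₀ (𝓝[>] 0) (𝓝 0) := hE₀.trans_tendsto htend
  have h1 : Tendsto (fun t => 1 + E₀ t) (𝓝[>] 0) (𝓝 1) := by
    have := hE₀t.const_add (1 : ℂ)
    simpa using this
  have hne : ∀ᶠ t in 𝓝[>] (0 : ℝ), 1 + E₀ t ≠ 0 := h1.eventually_ne one_ne_zero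
  refine ⟨hne, ?_⟩
  have hinv : Tendsto (fun t => (1 + E₀ t)⁻¹) (𝓝[>] 0) (𝓝 1⁻¹) := h1.inv₀ one_ne_zero
  have hinvO : (fun t => (1 + E₀ t)⁻¹) =O[𝓝[>] 0] fun _ : ℝ => (1 : ℝ) := hinv.isBigO_one ℝ
  have hsub : (fun t => E t - E₀ t) =O[𝓝[>] 0] fun t : ℝ => Real.exp (-(min δ δ₀ / t ^ 2)) :=
    (hE.trans (hmono (min_le_left _ _))).sub (hE₀.trans (hmono (min_le_right _ _)))
  have hmul := hsub.mul hinvO
  refine (hmul.congr' ?_ ?_)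
  · filter_upwards [hne] with t ht
    field_simp
    ring
  · filter_upwards with t
    rw [mul_one]

theorem admissible_relation {A : Matrix (Fin 2) (Fin 2) ℚ} (hA : A.PosDef) {B B₀ : Fin 2 → ℚ}
    (hB : Admissible A B) (hB₀ : Admissible A B₀) {Q₁ Q₂ : ℝ}
    {Γ : PowerSeries P} {γ : ℂ} (hγ : γ ≠ 0)
    (h0 : PowerSeries.constantCoeff Γ = MvPolynomial.C γ)
    (hΓ : ∀ x y : ℝ, Asy (fun t => (FN (A 0 0) (A 0 1) (A 1 1) Q₁ Q₂ x y t : ℂ))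
      (PowerSeries.map (ev x y) Γ)) :
    ∃ c : ℂ, PowerSeries.map (ev (B 0) (B 1)) Γ = E2 c * PowerSeries.map (ev (B₀ 0) (B₀ 1)) Γ := by
  obtain ⟨C, hC⟩ := hB
  obtain ⟨C₀, hC₀⟩ := hB₀
  obtain ⟨K, ν, δ, E, hK, hδ, hE, hF⟩ := relation_one hA hC
  obtain ⟨K₀, ν₀, δ₀, E₀, hK₀, hδ₀, hE₀, hF₀⟩ := relation_one hA hC₀
  obtain ⟨hne, hEq⟩ := relation_err hδ₀ hE hE₀
  have hcc : ∀ x y : ℂ, PowerSeries.constantCoeff (PowerSeries.map (ev x y) Γ) = γ := by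
    intro x y
    rw [← PowerSeries.coeff_zero_eq_constantCoeff_apply, PowerSeries.coeff_map,
      PowerSeries.coeff_zero_eq_constantCoeff_apply, h0]
    exact MvPolynomial.eval_C γ
  have hfB := hΓ (B 0 : ℝ) (B 1 : ℝ)
  have hfB₀ := hΓ (B₀ 0 : ℝ) (B₀ 1 : ℝ)
  have hcast : ∀ q : ℚ, (((q : ℚ) : ℝ) : ℂ) = (q : ℂ) := fun q => Complex.ofReal_ratCast q
  rw [hcast, hcast] at hfB hfB₀
  refine ⟨((C - C₀ : ℝ) : ℂ), ?_⟩
  refine compare hfB hfB₀ (by rw [hcc, hcc]) (by rw [hcc]; exact hγ)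
    (K := K / K₀ * Real.exp (-((B 0 : ℝ) * Real.log Q₁ + (B 1 : ℝ) * Real.log Q₂) +
      ((B₀ 0 : ℝ) * Real.log Q₁ + (B₀ 1 : ℝ) * Real.log Q₂)))
    (c := C - C₀) (μ := ν - ν₀) (lt_min hδ hδ₀) hEq ?_
  filter_upwards [hne] with t ht
  unfold FN
  push_cast only [Complex.ofReal_mul]
  rw [hF t, hF₀ t]
  have x1 : ((Real.exp (C * t ^ 2 + ν / t ^ 2) : ℝ) : ℂ) =
      ((Real.exp (C₀ * t ^ 2 + ν₀ / t ^ 2) : ℝ) : ℂ) *
        ((Real.exp ((C - C₀) * t ^ 2 + (ν - ν₀) / t ^ 2) : ℝ) : ℂ) := by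
    rw [← Complex.ofReal_mul, ← Real.exp_add]
    congr 2
    ring
  have x2 : ((Real.exp (-((B 0 : ℝ) * Real.log Q₁ + (B 1 : ℝ) * Real.log Q₂)) : ℝ) : ℂ) =
      ((Real.exp (-((B₀ 0 : ℝ) * Real.log Q₁ + (B₀ 1 : ℝ) * Real.log Q₂)) : ℝ) : ℂ) *
        ((Real.exp (-((B 0 : ℝ) * Real.log Q₁ + (B 1 : ℝ) * Real.log Q₂) +
      ((B₀ 0 : ℝ) * Real.log Q₁ + (B₀ 1 : ℝ) * Real.log Q₂)) : ℝ) : ℂ) := by
    rw [← Complex.ofReal_mul, ← Real.exp_add]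
    congr 2
    ring
  rw [x1, x2, add_sub_cancel]
  field_simp

end Pool.Agent.Lib.MP_8ce23f_nt.R2
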