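import Pool.Agent.Lib.MP_8ce23f_nt.R2.TDDeg

/-!
# Passing to the variable `ε = t²`

Job ToFD.  `D k = C (1/(2k)) * coeff (2k) L` for `k ≥ 1`, `D 0 = 0`;
`R' i = mk fun k => coeff (2k) (R i)`, `S' i` similarly (odd coefficients vanish by
`TD_degrees`).  Coefficient `2k` of `Rθ`, the odd indices contribute zero.
-/

open Filter Topology
open scoped Real

namespace Pool.Agent.Lib.MP_8ce23f_nt.R2

theorem ToFD_sum {M : Type*} [AddCommMonoid M] (f : ℕ × ℕ → M) (k : ℕ)
    (h : ∀ p : ℕ × ℕ, Odd p.2 → f p = 0) :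
    ∑ p ∈ Finset.HasAntidiagonal.antidiagonal (2 * k), f p =
      ∑ p ∈ Finset.HasAntidiagonal.antidiagonal k, f (2 * p.1, 2 * p.2) := by
  symm
  apply Finset.sum_of_injOn (fun p : ℕ × ℕ => (2 * p.1, 2 * p.2))
  · intro p _ q _ hpq
    simp only [Prod.mk.injEq] at hpq
    ext
    · omega
    · omega
  · intro p hp
    rw [Finset.mem_coe, Finset.HasAntidiagonal.mem_antidiagonal] at hp ⊢
    simp only
    omega
  · intro p hp hne
    apply h
    rw [← Nat.not_even_iff_odd]
    intro heven
    apply hne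
    rw [Finset.HasAntidiagonal.mem_antidiagonal] at hp
    obtain ⟨b, hb⟩ := heven
    refine ⟨(k - b, b), ?_, ?_⟩
    · rw [Finset.mem_coe, Finset.HasAntidiagonal.mem_antidiagonal]
      simp only
      omega
    · ext
      · simp only
        omega
      · simp only
        omega
  · intro p _
    rfl

theorem ToFD_coeff (F : PowerSeries P) (n : ℕ) :
    PowerSeries.coeff n (PowerSeries.X * PowerSeries.derivative P F) =
      (n : P) * PowerSeries.coeff n F := by
  cases n with
  | zero => simp
  | succ n =>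
    rw [PowerSeries.coeff_succ_X_mul, PowerSeries.coeff_derivative]
    push_cast
    ring

theorem ToFD_key {F G F' : PowerSeries P} {G' : ℕ → P}
    (hF : ∀ a, Odd a → PowerSeries.coeff a F = 0)
    (hF' : ∀ k, PowerSeries.coeff k F' = PowerSeries.coeff (2 * k) F)
    (hG' : ∀ b, PowerSeries.coeff (2 * b) G = 2 * G' b)
    (h : PowerSeries.X * PowerSeries.derivative P F = F * G) (k : ℕ) :
    (k : P) * PowerSeries.coeff k F' =
      ∑ p ∈ Finset.HasAntidiagonal.antidiagonal k, G' p.1 * PowerSeries.coeff p.2 F' := by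
  have h1 := congrArg (PowerSeries.coeff (2 * k)) h
  rw [ToFD_coeff, mul_comm F G, PowerSeries.coeff_mul] at h1
  have h2 := ToFD_sum (fun p : ℕ × ℕ => PowerSeries.coeff p.1 G * PowerSeries.coeff p.2 F) k
    (by
      intro p hp
      rw [hF _ hp, mul_zero])
  simp only at h2
  rw [h2] at h1
  have h3 : (2 : P) * ((k : P) * PowerSeries.coeff k F') =
      2 * ∑ p ∈ Finset.HasAntidiagonal.antidiagonal k, G' p.1 * PowerSeries.coeff p.2 F' := by
    rw [hF', Finset.mul_sum]
    push_cast at h1
    rw [← mul_assoc, h1]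
    apply Finset.sum_congr rfl
    intro p _
    rw [hG', hF']
    ring
  exact mul_left_cancel₀ two_ne_zero h3

theorem exists_FD {A : Matrix (Fin 2) (Fin 2) ℂ} {Q : Fin 2 → ℂ} {L : PowerSeries P}
    {R S : Fin 2 → PowerSeries P} (hnd : Nondeg A Q) (h : TD A Q L R S) :
    ∃ (D : ℕ → P) (R' S' : Fin 2 → PowerSeries P), FD A Q D R' S' ∧
      ∀ k : ℕ, 1 ≤ k → (2 * (k : P)) * D k = PowerSeries.coeff (2 * k) L := by
  set D : ℕ → P := fun k => MvPolynomial.C (1 / (2 * (k : ℂ))) * PowerSeries.coeff (2 * k) L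
    with hD
  have hDk : ∀ k : ℕ, (2 * (k : P)) * D k = PowerSeries.coeff (2 * k) L := by
    intro k
    rcases Nat.eq_zero_or_pos k with hk | hk
    · subst hk
      have h0 : PowerSeries.coeff 0 L = 0 := by
        rw [PowerSeries.coeff_zero_eq_constantCoeff_apply]
        exact h.L0
      simp [h0]
    · have hk' : (k : ℂ) ≠ 0 := by exact_mod_cast hk.ne'
      have e1 : (2 * (k : P)) = MvPolynomial.C (2 * (k : ℂ)) := by
        rw [map_mul, map_natCast]
        congr 1
      simp only [hD]
      rw [e1, ← mul_assoc, ← map_mul]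
      have e2 : (2 * (k : ℂ)) * (1 / (2 * (k : ℂ))) = 1 := by
        field_simp
      rw [e2, map_one, one_mul]
  have hsh : ∀ (v : Fin 2 → ℂ) (k : ℕ),
      PowerSeries.coeff (2 * k) (PowerSeries.map (sh v : P →+* P) L - L) =
        2 * ((k : P) * (sh v (D k) - D k)) := by
    intro v k
    rw [map_sub, PowerSeries.coeff_map, ← hDk k]
    have e1 : (sh v : P →+* P) (2 * (k : P) * D k) = 2 * (k : P) * sh v (D k) := by
      show sh v (2 * (k : P) * D k) = _
      rw [map_mul, map_mul, map_natCast]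
      congr 2
      exact map_ofNat (sh v) 2
    rw [e1]
    ring
  have hdeg := TD_degrees hnd h
  refine ⟨D, fun i => PowerSeries.mk fun k => PowerSeries.coeff (2 * k) (R i),
    fun i => PowerSeries.mk fun k => PowerSeries.coeff (2 * k) (S i), ?_, fun k _ => hDk k⟩
  refine ⟨?_, ?_, ?_, ?_, ?_, ?_, ?_, ?_⟩
  · intro k hk
    have h1 := ((hdeg (2 * k)).2 k rfl hk).1
    simp only [hD]
    refine (MvPolynomial.totalDegree_mul _ _).trans ?_
    rw [MvPolynomial.totalDegree_C, zero_add]
    exact h1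
  · intro i
    rw [← PowerSeries.coeff_zero_eq_constantCoeff_apply, PowerSeries.coeff_mk, mul_zero,
      PowerSeries.coeff_zero_eq_constantCoeff_apply]
    exact h.R0 i
  · intro i
    rw [← PowerSeries.coeff_zero_eq_constantCoeff_apply, PowerSeries.coeff_mk, mul_zero,
      PowerSeries.coeff_zero_eq_constantCoeff_apply]
    exact h.S0 i
  · intro i k
    rw [PowerSeries.coeff_mk]
    rcases Nat.eq_zero_or_pos k with hk | hk
    · subst hk
      rw [mul_zero, PowerSeries.coeff_zero_eq_constantCoeff_apply, h.R0 i]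
      simp
    · exact (((hdeg (2 * k)).2 k rfl hk).2 i).1
  · intro i k
    rw [PowerSeries.coeff_mk]
    rcases Nat.eq_zero_or_pos k with hk | hk
    · subst hk
      rw [mul_zero, PowerSeries.coeff_zero_eq_constantCoeff_apply, h.S0 i]
      simp
    · exact (((hdeg (2 * k)).2 k rfl hk).2 i).2
  · intro i k
    exact ToFD_key (F := R i) (fun a ha => (((hdeg a).1 ha).2 i).1)
      (fun k => PowerSeries.coeff_mk _ _) (fun b => hsh _ b) (h.Rθ i) k
  · intro i k
    refine ToFD_key (F := S i)
      (G' := fun b => (b : P) * (sh (A i) (D b) - D b) -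
        if b = 1 then MvPolynomial.X i + MvPolynomial.C (A i i / 2) else 0)
      (fun a ha => (((hdeg a).1 ha).2 i).2)
      (fun k => PowerSeries.coeff_mk _ _) (fun b => ?_) (h.Sθ i) k
    rw [map_sub, hsh]
    have e1 : (2 : PowerSeries P) * PowerSeries.X ^ 2 *
        PowerSeries.C (MvPolynomial.X i + MvPolynomial.C (A i i / 2) : P) =
        PowerSeries.C (2 * (MvPolynomial.X i + MvPolynomial.C (A i i / 2)) : P) *
          PowerSeries.X ^ 2 := by
      rw [map_mul]
      have : PowerSeries.C (2 : P) = (2 : PowerSeries P) := map_ofNat _ 2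
      rw [this]
      ring
    rw [e1, PowerSeries.coeff_C_mul, PowerSeries.coeff_X_pow]
    by_cases hb : b = 1
    · subst hb
      simp only [mul_one, if_true]
      ring
    · have hb2 : ¬ (2 * b = 2) := by omega
      rw [if_neg hb, if_neg hb2]
      ring
  · intro i
    ext1 k
    have h1 := congrArg (PowerSeries.coeff (2 * k)) (h.fe i)
    rw [map_add, PowerSeries.coeff_C_mul, PowerSeries.coeff_C_mul] at h1 ⊢
    rw [PowerSeries.coeff_mk, PowerSeries.coeff_mk, h1, PowerSeries.coeff_one,
      PowerSeries.coeff_one]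
    by_cases hk : k = 0
    · simp [hk]
    · simp [hk]

end Pool.Agent.Lib.MP_8ce23f_nt.R2
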