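import Pool.Agent.Lib.MP_8ce23f_nt.R2.Gam
import Pool.Agent.Lib.MP_8ce23f_nt.R2.FE
import Pool.Agent.Lib.MP_8ce23f_nt.R2.NahmEx
import Pool.Agent.Lib.MP_8ce23f_nt.R2.LogDer
import Pool.Agent.Lib.MP_8ce23f_nt.R2.ToFD
import Pool.Agent.Lib.MP_8ce23f_nt.R2.FormalI
import Pool.Agent.Lib.MP_8ce23f_nt.R2.FormalII
import Pool.Agent.Lib.MP_8ce23f_nt.R2.Relation
import Pool.Agent.Lib.MP_8ce23f_nt.R2.HAdm

/-!
# Admissible vectors in rank two
-/

open Filter Topology Asymptotics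
open scoped Real MatrixGroups Manifold
open UpperHalfPlane hiding I

namespace Pool.Agent.Lib.MP_8ce23f_nt.R2

/-- The vector as a complex vector. -/
def cv (B : Fin 2 → ℚ) : Fin 2 → ℂ := fun i => (B i : ℂ)

lemma cv_injective : Function.Injective cv := by
  intro B B' h
  funext i
  have := congrFun h i
  simpa [cv] using this

lemma ev_eq_eval_cv (B : Fin 2 → ℚ) (p : P) :
    ev (B 0) (B 1) p = MvPolynomial.eval (cv B) p := by
  unfold ev
  congr 1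
  congr 1
  funext i
  fin_cases i <;> simp [cv]

/-- The formal data attached to a positive definite matrix and a solution of Nahm's equation, and
the constraint on admissible vectors. -/
theorem exists_formal' (A : Matrix (Fin 2) (Fin 2) ℚ) (hA : A.PosDef) {Q₁ Q₂ : ℝ}
    (hQ : NahmSol (A 0 0) (A 0 1) (A 1 1) Q₁ Q₂) :
    ∃ (D : ℕ → P) (R S : Fin 2 → PowerSeries P),
      FD (Am (A 0 0) (A 0 1) (A 1 1)) (Qv Q₁ Q₂) D R S ∧
      ∀ B B₀ : Fin 2 → ℚ, Admissible A B → Admissible A B₀ → ∀ k, 2 ≤ k →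
        MvPolynomial.eval (cv B) (D k) = MvPolynomial.eval (cv B₀) (D k) := by
  obtain ⟨hpd, -⟩ := pd_of_posDef hA
  obtain ⟨Γ, γ, hγ, h0, hΓ⟩ := exists_Gam hpd hQ
  have hFE := isFE_of_asy hpd hQ hΓ
  obtain ⟨L, R, S, hL, hTD⟩ := exists_TD hγ h0 hFE
  have hnd := nondeg_Am hpd hQ.pos₁ hQ.lt₁ hQ.pos₂ hQ.lt₂
  obtain ⟨D, R', S', hFD, hDL⟩ := exists_FD hnd hTD
  refine ⟨D, R', S', hFD, fun B B₀ hB hB₀ k hk => ?_⟩
  obtain ⟨c, hc⟩ := admissible_relation hA hB hB₀ hγ h0 hΓ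
  have h1 := logDer_eval hγ h0 hL hc (k := 2 * k) (by omega)
  rw [← hDL k (by omega)] at h1
  have h2 : ∀ x y : ℂ, ev x y (2 * (k : P) * D k) = 2 * (k : ℂ) * ev x y (D k) := by
    intro x y
    rw [map_mul, map_mul, map_natCast]
    congr 2
    exact map_ofNat (ev x y) 2
  rw [h2, h2] at h1
  have h3 : (2 * (k : ℂ)) ≠ 0 := by
    have : (k : ℂ) ≠ 0 := by exact_mod_cast (by omega : k ≠ 0)
    simp [this]
  have h4 := mul_left_cancel₀ h3 h1
  rwa [ev_eq_eval_cv, ev_eq_eval_cv] at h4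

/-- The formal data attached to a positive definite matrix, and the constraint on admissible
vectors. -/
theorem exists_formal (A : Matrix (Fin 2) (Fin 2) ℚ) (hA : A.PosDef) :
    ∃ (Q₁ Q₂ : ℝ) (D : ℕ → P) (R S : Fin 2 → PowerSeries P),
      NahmSol (A 0 0) (A 0 1) (A 1 1) Q₁ Q₂ ∧
      FD (Am (A 0 0) (A 0 1) (A 1 1)) (Qv Q₁ Q₂) D R S ∧
      ∀ B B₀ : Fin 2 → ℚ, Admissible A B → Admissible A B₀ → ∀ k, 2 ≤ k →
        MvPolynomial.eval (cv B) (D k) = MvPolynomial.eval (cv B₀) (D k) := by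
  obtain ⟨Q₁, Q₂, hQ⟩ := exists_nahmSol (pd_of_posDef hA).1
  obtain ⟨D, R, S, h⟩ := exists_formal' A hA hQ
  exact ⟨Q₁, Q₂, D, R, S, hQ, h⟩

theorem infinite_imp_family (A : Matrix (Fin 2) (Fin 2) ℚ) (hA : A.PosDef)
    (hinf : {B : Fin 2 → ℚ | Admissible A B}.Infinite) :
    ∃ a : ℚ, A = !![a, 1 - a; 1 - a, a] := by
  obtain ⟨hpd, hsym⟩ := pd_of_posDef hA
  obtain ⟨Q₁, Q₂, D, R, S, hQ, hFD, hkey⟩ := exists_formal A hA
  obtain ⟨B₀, hB₀⟩ := hinf.nonempty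
  have h1 := formal_I hpd hQ.pos₁ hQ.lt₁ hQ.pos₂ hQ.lt₂ hFD (cv B₀) (by
    refine (hinf.image cv_injective.injOn).mono ?_
    rintro _ ⟨B, hB, rfl⟩ k hk
    exact hkey B B₀ hB hB₀ k hk)
  refine ⟨A 0 0, ?_⟩
  have h2 : A 0 1 = 1 - A 0 0 := by exact_mod_cast h1.1
  have h3 : A 1 1 = A 0 0 := by exact_mod_cast h1.2
  ext i j
  fin_cases i <;> fin_cases j <;> simp [h2, h3, hsym]

theorem family_infinite {a : ℚ}
    (hA : (!![a, 1 - a; 1 - a, a] : Matrix (Fin 2) (Fin 2) ℚ).PosDef) :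
    {B : Fin 2 → ℚ | Admissible !![a, 1 - a; 1 - a, a] B}.Infinite := by
  have hinj : Function.Injective fun b : ℚ => (![b, -b] : Fin 2 → ℚ) := by
    intro b b' h
    have := congrFun h 0
    simpa using this
  refine (Set.infinite_range_of_injective hinj).mono ?_
  rintro _ ⟨b, rfl⟩
  exact admissible_family hA b

theorem family_finite {a : ℚ}
    (hA : (!![a, 1 - a; 1 - a, a] : Matrix (Fin 2) (Fin 2) ℚ).PosDef) :
    {B : Fin 2 → ℚ | Admissible !![a, 1 - a; 1 - a, a] B ∧ B 0 + B 1 ≠ 0}.Finite := by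
  obtain ⟨hpd, -⟩ := pd_of_posDef hA
  obtain ⟨Q₁, Q₂, D, R, S, hQ, hFD, hkey⟩ := exists_formal _ hA
  have hpd' : PD (a : ℝ) (1 - a : ℝ) (a : ℝ) := by simpa using hpd
  have hFD' : FD (Am (a : ℝ) (1 - a : ℝ) (a : ℝ)) (Qv Q₁ Q₂) D R S := by simpa using hFD
  have hcast : ∀ b : ℚ, cv ![b, -b] = ![(b : ℂ), -(b : ℂ)] := by
    intro b
    funext i
    fin_cases i <;> simp [cv]
  have h1 := formal_II hpd' hQ.pos₁ hQ.lt₁ hQ.pos₂ hQ.lt₂ hFD' (cv ![0, -0]) (by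
    have hinj : Function.Injective fun b : ℚ => (b : ℂ) := Rat.cast_injective
    refine (Set.infinite_range_of_injective hinj).mono ?_
    rintro _ ⟨b, rfl⟩ k hk
    have := hkey ![b, -b] ![0, -0] (admissible_family hA b) (admissible_family hA 0) k hk
    rw [hcast b] at this
    exact this)
  refine Set.Finite.of_finite_image (f := cv) (h1.subset ?_) cv_injective.injOn
  rintro _ ⟨B, ⟨hB, hne⟩, rfl⟩
  refine ⟨fun k hk => hkey B ![0, -0] hB (admissible_family hA 0) k hk, ?_⟩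
  simp only [cv]
  exact_mod_cast hne

/-- Admissible vectors in rank two. -/
theorem rank_two (A : Matrix (Fin 2) (Fin 2) ℚ) (hA : A.PosDef) :
    ({B : Fin 2 → ℚ | Admissible A B}.Infinite ↔ ∃ a : ℚ, A = !![a, 1 - a; 1 - a, a]) ∧
    ∀ a : ℚ, A = !![a, 1 - a; 1 - a, a] →
      (∀ b : ℚ, Admissible A ![b, -b]) ∧
      {B : Fin 2 → ℚ | Admissible A B ∧ B 0 + B 1 ≠ 0}.Finite := by
  refine ⟨⟨infinite_imp_family A hA, ?_⟩, ?_⟩
  · rintro ⟨a, rfl⟩
    exact family_infinite hA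
  · rintro a rfl
    exact ⟨admissible_family hA, family_finite hA⟩

end Pool.Agent.Lib.MP_8ce23f_nt.R2
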