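import Pool.Agent.Lib.MP_8ce23f_nt.R2.AtIy
import Pool.Agent.Lib.MP_8ce23f_nt.R2.Cusp
import Pool.Agent.Lib.MP_8ce23f_nt.R2.Relation

/-!
# `C` is determined by `A` and `B`

Job UniqueC.  By `cusp_leading` and `nahmSum_tp` (`y = t²/(2π)`):
`exp (-C t²) F t exp (-ν/y) = K + O(exp (-δ/y))` and the same for `C'`.  Dividing,
`exp ((C' - C) t²) = (K/K') exp ((ν' ...)/y) (1 + O(exp (-δ''/y)))` with `F t > 0`; letting `t → 0`, the
exponents of `1/y` agree and `K = K'`; then `exp ((C' - C) t²) = 1 + O(exp (-δ''/t²))`, so `C = C'`.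
-/

open Filter Topology Asymptotics
open scoped Real MatrixGroups Manifold
open UpperHalfPlane hiding I

namespace Pool.Agent.Lib.MP_8ce23f_nt.R2

theorem uniqueC_step {a : ℝ} {f g : ℝ → ℝ} (hf : Continuous f) (hg : Continuous g)
    (h : ∀ᶠ s in 𝓝[>] (0 : ℝ), |a + s * f s| ≤ s * g s) :
    a = 0 ∧ ∀ᶠ s in 𝓝[>] (0 : ℝ), |f s| ≤ g s := by
  have h1 : Tendsto (fun s : ℝ => |a + s * f s|) (𝓝[>] 0) (𝓝 |a|) := by
    have hc : Continuous fun s : ℝ => |a + s * f s| :=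
      (continuous_const.add (continuous_id.mul hf)).abs
    have := (hc.tendsto 0).mono_left (nhdsWithin_le_nhds (s := Set.Ioi (0 : ℝ)))
    simpa using this
  have h2 : Tendsto (fun s : ℝ => s * g s) (𝓝[>] 0) (𝓝 0) := by
    have hc : Continuous fun s : ℝ => s * g s := continuous_id.mul hg
    have := (hc.tendsto 0).mono_left (nhdsWithin_le_nhds (s := Set.Ioi (0 : ℝ)))
    simpa using this
  have h3 : |a| ≤ 0 := le_of_tendsto_of_tendsto h1 h2 h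
  have ha : a = 0 := abs_nonpos_iff.1 h3
  refine ⟨ha, ?_⟩
  filter_upwards [h, self_mem_nhdsWithin] with s hs hs0
  have hs0 : 0 < s := hs0
  rw [ha, zero_add, abs_mul, abs_of_pos hs0] at hs
  exact le_of_mul_le_mul_left hs hs0

theorem uniqueC_poly {c₀ c₁ c₂ M : ℝ}
    (h : ∀ᶠ t in 𝓝[>] (0 : ℝ), |c₀ + c₁ * t ^ 2 + c₂ / t ^ 2| ≤ M * t ^ 4) : c₁ = 0 := by
  have h1 : ∀ᶠ t in 𝓝[>] (0 : ℝ), |c₂ + t * (c₀ * t + c₁ * t ^ 3)| ≤ t * (M * t ^ 5) := by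
    filter_upwards [h, self_mem_nhdsWithin] with t ht ht0
    have ht0 : 0 < t := ht0
    have e : c₂ + t * (c₀ * t + c₁ * t ^ 3) = t ^ 2 * (c₀ + c₁ * t ^ 2 + c₂ / t ^ 2) := by
      field_simp
      ring
    rw [e, abs_mul, abs_of_pos (pow_pos ht0 2)]
    have := mul_le_mul_of_nonneg_left ht (pow_pos ht0 2).le
    linarith
  have h2 := (uniqueC_step (by fun_prop) (by fun_prop) h1).2
  have h3 : ∀ᶠ t in 𝓝[>] (0 : ℝ), |0 + t * (c₀ + c₁ * t ^ 2)| ≤ t * (M * t ^ 4) := by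
    filter_upwards [h2] with t ht
    have e1 : 0 + t * (c₀ + c₁ * t ^ 2) = c₀ * t + c₁ * t ^ 3 := by ring
    have e2 : t * (M * t ^ 4) = M * t ^ 5 := by ring
    rw [e1, e2]
    exact ht
  have h4 := (uniqueC_step (by fun_prop) (by fun_prop) h3).2
  have h5 : ∀ᶠ t in 𝓝[>] (0 : ℝ), |c₀ + t * (c₁ * t)| ≤ t * (M * t ^ 3) := by
    filter_upwards [h4] with t ht
    have e1 : c₀ + t * (c₁ * t) = c₀ + c₁ * t ^ 2 := by ring
    have e2 : t * (M * t ^ 3) = M * t ^ 4 := by ring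
    rw [e1, e2]
    exact ht
  have h6 := (uniqueC_step (by fun_prop) (by fun_prop) h5).2
  have h7 : ∀ᶠ t in 𝓝[>] (0 : ℝ), |0 + t * c₁| ≤ t * (M * t ^ 2) := by
    filter_upwards [h6] with t ht
    have e1 : 0 + t * c₁ = c₁ * t := by ring
    have e2 : t * (M * t ^ 2) = M * t ^ 3 := by ring
    rw [e1, e2]
    exact ht
  have h8 := (uniqueC_step (f := fun _ => c₁) (by fun_prop) (by fun_prop) h7).2
  have h9 : ∀ᶠ t in 𝓝[>] (0 : ℝ), |c₁ + t * 0| ≤ t * (M * t) := by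
    filter_upwards [h8] with t ht
    have e1 : c₁ + t * 0 = c₁ := by ring
    have e2 : t * (M * t) = M * t ^ 2 := by ring
    rw [e1, e2]
    exact ht
  exact (uniqueC_step (f := fun _ => 0) (by fun_prop) (by fun_prop) h9).1

theorem uniqueC_exp {δ t : ℝ} (hδ : 0 < δ) (ht : 0 < t) :
    Real.exp (-(δ / t ^ 2)) ≤ 2 / δ ^ 2 * t ^ 4 := by
  have hx : 0 < δ / t ^ 2 := by positivity
  have h1 := Real.quadratic_le_exp_of_nonneg hx.le
  have h2 : (δ / t ^ 2) ^ 2 / 2 ≤ Real.exp (δ / t ^ 2) := by linarith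
  rw [Real.exp_neg]
  have h3 : (Real.exp (δ / t ^ 2))⁻¹ ≤ ((δ / t ^ 2) ^ 2 / 2)⁻¹ :=
    inv_anti₀ (by positivity) h2
  refine h3.trans (le_of_eq ?_)
  field_simp

theorem uniqueC_log {z : ℂ} (hz : ‖z‖ ≤ 1 / 2) : |Real.log ‖1 + z‖| ≤ 2 * ‖z‖ := by
  have h1 : 1 - ‖z‖ ≤ ‖1 + z‖ := by
    have := norm_sub_norm_le (1 : ℂ) (-z)
    simpa using this
  have h2 : ‖1 + z‖ ≤ 1 + ‖z‖ := by
    have := norm_add_le (1 : ℂ) z
    simpa using this
  have hpos : 0 < ‖1 + z‖ := by linarith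
  rw [abs_le]
  constructor
  · have h3 := Real.one_sub_inv_le_log_of_pos hpos
    have h4 : ‖1 + z‖⁻¹ ≤ (1 - ‖z‖)⁻¹ := inv_anti₀ (by linarith) h1
    have h5 : (1 - ‖z‖)⁻¹ ≤ 1 + 2 * ‖z‖ := by
      rw [inv_le_iff_one_le_mul₀ (by linarith)]
      nlinarith [norm_nonneg z]
    linarith
  · have h3 := Real.log_le_sub_one_of_pos hpos
    linarith [norm_nonneg z]

theorem unique_C {A : Matrix (Fin 2) (Fin 2) ℚ} (hA : A.PosDef) {B : Fin 2 → ℚ} {C C' : ℚ}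
    (h : IsModularFunction (nahmSum A B C)) (h' : IsModularFunction (nahmSum A B C')) :
    C = C' := by
  obtain ⟨K, ν, δ, E, hK, hδ, hE, hF⟩ := relation_one hA h
  obtain ⟨K', ν', δ', E', hK', hδ', hE', hF'⟩ := relation_one hA h'
  obtain ⟨hne, hG⟩ := relation_err hδ hE' hE
  have hm : 0 < min δ' δ := lt_min hδ' hδ
  obtain ⟨M, hM⟩ := hG.bound
  have hMt : Tendsto (fun t : ℝ => |M| * (2 / (min δ' δ) ^ 2 * t ^ 4)) (𝓝[>] 0) (𝓝 0) := by
    have hc : Continuous fun t : ℝ => |M| * (2 / (min δ' δ) ^ 2 * t ^ 4) := by fun_prop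
    have := (hc.tendsto 0).mono_left (nhdsWithin_le_nhds (s := Set.Ioi (0 : ℝ)))
    simpa using this
  have hsmall : ∀ᶠ t in 𝓝[>] (0 : ℝ), |M| * (2 / (min δ' δ) ^ 2 * t ^ 4) < 1 / 2 :=
    hMt.eventually (eventually_lt_nhds (by norm_num))
  have key : ∀ᶠ t in 𝓝[>] (0 : ℝ),
      |Real.log ‖K / K'‖ + ((C : ℝ) - C') * t ^ 2 + (ν - ν') / t ^ 2| ≤
        2 * (|M| * (2 / (min δ' δ) ^ 2)) * t ^ 4 := by
    filter_upwards [hne, hM, hsmall, self_mem_nhdsWithin] with t ht1 ht2 ht3 ht0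
    have ht0 : 0 < t := ht0
    set z : ℂ := (1 + E' t) / (1 + E t) - 1 with hz
    have hzb : ‖z‖ ≤ |M| * (2 / (min δ' δ) ^ 2 * t ^ 4) := by
      refine ht2.trans ?_
      rw [Real.norm_eq_abs, abs_of_pos (Real.exp_pos _)]
      exact mul_le_mul (le_abs_self M) (uniqueC_exp hm ht0) (Real.exp_pos _).le (abs_nonneg M)
    have heq := (hF t).symm.trans (hF' t)
    have hx : ((Real.exp (C * t ^ 2 + ν / t ^ 2) : ℝ) : ℂ) =
        ((Real.exp (C' * t ^ 2 + ν' / t ^ 2) : ℝ) : ℂ) *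
          ((Real.exp (((C : ℝ) - C') * t ^ 2 + (ν - ν') / t ^ 2) : ℝ) : ℂ) := by
      rw [← Complex.ofReal_mul, ← Real.exp_add]
      congr 2
      ring
    rw [hx] at heq
    have hne' : ((Real.exp (C' * t ^ 2 + ν' / t ^ 2) : ℝ) : ℂ) ≠ 0 := by
      exact_mod_cast (Real.exp_pos _).ne'
    have h1z : 1 + z = K / K' *
        ((Real.exp (((C : ℝ) - C') * t ^ 2 + (ν - ν') / t ^ 2) : ℝ) : ℂ) := by
      rw [hz, add_sub_cancel, div_eq_iff ht1]
      have h2 : K' * (1 + E' t) = K *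
          ((Real.exp (((C : ℝ) - C') * t ^ 2 + (ν - ν') / t ^ 2) : ℝ) : ℂ) * (1 + E t) := by
        apply mul_left_cancel₀ hne'
        linear_combination -heq
      rw [div_mul_eq_mul_div, div_mul_eq_mul_div, eq_div_iff hK', mul_comm]
      exact h2
    have hnorm : ‖1 + z‖ = ‖K / K'‖ * Real.exp (((C : ℝ) - C') * t ^ 2 + (ν - ν') / t ^ 2) := by
      rw [h1z, norm_mul, Complex.norm_real, Real.norm_eq_abs, abs_of_pos (Real.exp_pos _)]
    have hlog : Real.log ‖1 + z‖ =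
        Real.log ‖K / K'‖ + ((C : ℝ) - C') * t ^ 2 + (ν - ν') / t ^ 2 := by
      rw [hnorm, Real.log_mul (norm_ne_zero_iff.2 (div_ne_zero hK hK')) (Real.exp_pos _).ne',
        Real.log_exp]
      ring
    rw [← hlog]
    refine (uniqueC_log (hzb.trans ht3.le)).trans ?_
    linarith
  have h0 := uniqueC_poly key
  have h1 : (C : ℝ) = C' := by linarith
  exact_mod_cast h1

end Pool.Agent.Lib.MP_8ce23f_nt.R2
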