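import Pool.Agent.Lib.MP_8ce23f_nt.R2.FinalU
import Pool.Agent.Lib.MP_8ce23f_nt.R2.FamD
import Pool.Agent.Lib.MP_8ce23f_nt.R2.FamSolve
import Pool.Agent.Lib.MP_8ce23f_nt.R2.FamAdm
import Pool.Agent.Lib.MP_8ce23f_nt.R2.UniqueC

/-!
# The complete list of modular Nahm sums for the matrices `(a, 1-a; 1-a, a)`
-/

open Filter Topology Asymptotics
open scoped MatrixGroups Manifold
open UpperHalfPlane hiding I

namespace Pool.Agent.Lib.MP_8ce23f_nt.R2

theorem family_posDef {a : ℚ} (ha : 1 / 2 < a) :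
    (!![a, 1 - a; 1 - a, a] : Matrix (Fin 2) (Fin 2) ℚ).PosDef := by
  refine Matrix.PosDef.of_dotProduct_mulVec_pos ?_ fun x hx => ?_
  · ext i j
    fin_cases i <;> fin_cases j <;> simp [Matrix.conjTranspose]
  · have h1 : star x ⬝ᵥ (!![a, 1 - a; 1 - a, a] : Matrix (Fin 2) (Fin 2) ℚ).mulVec x =
        a * (x 0 - x 1) ^ 2 + 2 * x 0 * x 1 := by
      simp [Matrix.mulVec, dotProduct, Fin.sum_univ_two]
      ring
    rw [h1]
    have h2 : x 0 ≠ 0 ∨ x 1 ≠ 0 := by
      by_contra h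
      push Not at h
      apply hx
      funext i
      fin_cases i
      · exact h.1
      · exact h.2
    have h3 : 0 < x 0 ^ 2 + x 1 ^ 2 := by
      rcases h2 with h | h
      · have := sq_pos_of_ne_zero h
        nlinarith [sq_nonneg (x 1)]
      · have := sq_pos_of_ne_zero h
        nlinarith [sq_nonneg (x 0)]
    rcases eq_or_ne (x 0) (x 1) with h | h
    · rw [h] at h3 ⊢
      nlinarith
    · have h4 : 0 < (x 0 - x 1) ^ 2 := sq_pos_of_ne_zero (sub_ne_zero.mpr h)
      nlinarith [sq_nonneg (x 0 + x 1), mul_pos (sub_pos.mpr ha) h4]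

theorem family_sol {a : ℝ} : NahmSol a (1 - a) a (1 / 2) (1 / 2) := by
  refine ⟨by norm_num, by norm_num, by norm_num, by norm_num, ?_, ?_⟩
  · rw [show (1 : ℝ) - 1 / 2 = 1 / 2 by norm_num]
    ring
  · rw [show (1 : ℝ) - 1 / 2 = 1 / 2 by norm_num]
    ring

/-- Admissible vectors in the family with nonzero sum. -/
theorem family_exceptional {a : ℚ} (ha : 1 / 2 < a) (ha1 : a ≠ 1) {B : Fin 2 → ℚ}
    (hB : Admissible !![a, 1 - a; 1 - a, a] B) (hs : B 0 + B 1 ≠ 0) :
    B = ![-1 / 2, -1 / 2] ∨ B = ![a / 2, 1 - a / 2] ∨ B = ![1 - a / 2, a / 2] := by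
  have hA := family_posDef ha
  have hsol : NahmSol (((!![a, 1 - a; 1 - a, a] : Matrix (Fin 2) (Fin 2) ℚ) 0 0 : ℚ) : ℝ)
      (((!![a, 1 - a; 1 - a, a] : Matrix (Fin 2) (Fin 2) ℚ) 0 1 : ℚ) : ℝ)
      (((!![a, 1 - a; 1 - a, a] : Matrix (Fin 2) (Fin 2) ℚ) 1 1 : ℚ) : ℝ) (1 / 2) (1 / 2) := by
    have := family_sol (a := (a : ℝ))
    simpa using this
  obtain ⟨D, R, S, hFD, hkey⟩ := exists_formal' _ hA hsol
  have hFD' : FD (Am (a : ℝ) (1 - a : ℝ) (a : ℝ)) (Qv (1 / 2) (1 / 2)) D R S := by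
    simpa using hFD
  have har : (1 : ℝ) / 2 < (a : ℝ) := by
    have := (Rat.cast_lt (K := ℝ)).mpr ha
    push_cast at this
    exact this
  obtain ⟨c₁, c₂, c₃, c₄, hc⟩ := fam_D har hFD'
  have hadm0 : Admissible !![a, 1 - a; 1 - a, a] ![0, -0] := admissible_family hA 0
  have hk : ∀ k, 2 ≤ k → ev (B 0) (B 1) (D k) = ev 0 0 (D k) := by
    intro k hk
    have h1 := hkey B ![0, -0] hB hadm0 k hk
    rw [← ev_eq_eval_cv, ← ev_eq_eval_cv] at h1
    simpa using h1
  have hcast : ((a : ℝ) : ℂ) = (a : ℂ) := by simp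
  have e2 : g2 a (B 0) (B 1) = 0 := by
    have h1 := hk 2 le_rfl
    rw [(hc _ _).2.1, (hc _ _).2.1, hcast] at h1
    have h2 : g2 a 0 0 = 0 := by simp [g2]
    linear_combination h1 + h2
  have e3 : g3 a (B 0) (B 1) = 0 := by
    have h1 := hk 3 (by norm_num)
    rw [(hc _ _).2.2.1, (hc _ _).2.2.1, hcast] at h1
    have h2 : g3 a 0 0 = 0 := by simp [g3]
    linear_combination h1 + h2
  have e4 : g4 a (B 0) (B 1) = 0 := by
    have h1 := hk 4 (by norm_num)
    rw [(hc _ _).2.2.2, (hc _ _).2.2.2, hcast] at h1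
    have h2 : g4 a 0 0 = 0 := by simp [g4]
    linear_combination h1 + h2
  have hvec : ∀ u v : ℚ, B 0 = u → B 1 = v → B = ![u, v] := by
    intro u v hu hv
    funext i
    fin_cases i
    · exact hu
    · exact hv
  rcases fam_solve ha ha1 hs e2 e3 e4 with h | h | h
  · exact Or.inl (hvec _ _ h.1 h.2)
  · exact Or.inr (Or.inl (hvec _ _ h.1 h.2))
  · exact Or.inr (Or.inr (hvec _ _ h.1 h.2))

/-- The complete list of modular Nahm sums for `(a, 1-a; 1-a, a)`, `a ≠ 1`. -/
theorem family_list {a : ℚ} (ha : 1 / 2 < a) (ha1 : a ≠ 1) (B : Fin 2 → ℚ) (C : ℚ) :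
    IsModularFunction (nahmSum !![a, 1 - a; 1 - a, a] B C) ↔
      (B 0 + B 1 = 0 ∧ C = B 0 ^ 2 / (2 * a) - 1 / 24) ∨
      (B = ![-1 / 2, -1 / 2] ∧ C = 1 / (8 * a) - 1 / 24) ∨
      ((B = ![a / 2, 1 - a / 2] ∨ B = ![1 - a / 2, a / 2]) ∧ C = a / 8 - 1 / 24) := by
  have hA := family_posDef ha
  have hvec : B 0 + B 1 = 0 → B = ![B 0, -B 0] := by
    intro h
    funext i
    fin_cases i
    · rfl
    · have : B 1 = -B 0 := by linarith
      simpa using this
  constructor
  · intro h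
    by_cases hs : B 0 + B 1 = 0
    · left
      refine ⟨hs, ?_⟩
      have h1 := hvec hs
      have h2 := modular_family hA (B 0)
      rw [← h1] at h2
      exact unique_C hA h h2
    · right
      rcases family_exceptional ha ha1 ⟨C, h⟩ hs with h1 | h1 | h1
      · left
        refine ⟨h1, ?_⟩
        rw [h1] at h
        exact unique_C hA h (modular_exc₁ hA)
      · right
        refine ⟨Or.inl h1, ?_⟩
        rw [h1] at h
        exact unique_C hA h (modular_exc₂ hA)
      · right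
        refine ⟨Or.inr h1, ?_⟩
        rw [h1] at h
        exact unique_C hA h (modular_exc₃ hA)
  · rintro (⟨hs, rfl⟩ | ⟨rfl, rfl⟩ | ⟨rfl | rfl, rfl⟩)
    · have h2 := modular_family hA (B 0)
      rwa [← hvec hs] at h2
    · exact modular_exc₁ hA
    · exact modular_exc₂ hA
    · exact modular_exc₃ hA

/-- The case `a = 1`. -/
theorem identity_list (B : Fin 2 → ℚ) (C : ℚ) :
    IsModularFunction (nahmSum !![(1 : ℚ), 1 - 1; 1 - 1, 1] B C) ↔
      C = (B 0 ^ 2 + B 1 ^ 2) / 4 - 1 / 24 ∧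
      (B 0 + B 1 = 0 ∨ ((B 0 = 0 ∨ B 0 = 1 / 2 ∨ B 0 = -1 / 2) ∧
        (B 1 = 0 ∨ B 1 = 1 / 2 ∨ B 1 = -1 / 2))) := by
  have h1 : (!![(1 : ℚ), 1 - 1; 1 - 1, 1] : Matrix (Fin 2) (Fin 2) ℚ) = 1 := by
    ext i j
    fin_cases i <;> fin_cases j <;> simp
  rw [h1, isModular_nahmSum_one_iff]
  have hcard : ∀ z : ℚ, (Finset.univ.filter fun i : Fin 2 => B i = z).card =
      (if B 0 = z then 1 else 0) + (if B 1 = z then 1 else 0) := by
    intro z
    rw [Finset.card_filter, Fin.sum_univ_two]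
  unfold Sym
  simp only [hcard, Fin.sum_univ_two]
  refine and_congr ?_ ?_
  · constructor
    · intro h
      rw [h]
      norm_num
    · intro h
      rw [h]
      norm_num
  · constructor
    · intro h
      by_cases hs : B 0 + B 1 = 0
      · exact Or.inl hs
      right
      have key : ∀ z : ℚ, (B 0 = z ∨ B 1 = z) → z = 0 ∨ z = 1 / 2 ∨ z = -1 / 2 := by
        intro z hz
        by_contra hcon
        push Not at hcon
        have h2 := h z hcon.1 hcon.2.1 (fun h' => hcon.2.2 (by rw [h']; norm_num))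
        have hz0 : z ≠ -z := by
          intro h'
          apply hcon.1
          linarith
        rcases hz with hz | hz
        · have n0 : ¬ B 0 = -z := by rw [hz]; exact hz0
          rw [if_pos hz, if_neg n0] at h2
          by_cases h5 : B 1 = -z
          · exact hs (by rw [hz, h5]; ring)
          · rw [if_neg h5] at h2
            omega
        · have n1 : ¬ B 1 = -z := by rw [hz]; exact hz0
          rw [if_pos hz, if_neg n1] at h2
          by_cases h5 : B 0 = -z
          · exact hs (by rw [hz, h5]; ring)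
          · rw [if_neg h5] at h2
            omega
      exact ⟨key _ (Or.inl rfl), key _ (Or.inr rfl)⟩
    · rintro (hs | ⟨h0, h1'⟩) z hz0 hz1 hz2
      · have h2 : B 1 = -B 0 := by linarith
        rw [h2]
        have h3 : (-B 0 = z) ↔ (B 0 = -z) := by
          constructor <;> intro h <;> linarith
        have h4 : (-B 0 = -z) ↔ (B 0 = z) := by
          constructor <;> intro h <;> linarith
        simp only [h3, h4]
        ring
      · have key : ∀ w : ℚ, (w = 0 ∨ w = 1 / 2 ∨ w = -1 / 2) → ¬ w = z ∧ ¬ w = -z := by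
          rintro w (rfl | rfl | rfl)
          · exact ⟨fun h => hz0 h.symm, fun h => hz0 (by linarith)⟩
          · exact ⟨fun h => hz1 h.symm, fun h => hz2 (by linarith)⟩
          · exact ⟨fun h => hz2 (by linarith), fun h => hz1 (by linarith)⟩
        rw [if_neg (key _ h0).1, if_neg (key _ h0).2, if_neg (key _ h1').1, if_neg (key _ h1').2]

theorem family_posDef_iff (a : ℚ) :
    (!![a, 1 - a; 1 - a, a] : Matrix (Fin 2) (Fin 2) ℚ).PosDef ↔ 1 / 2 < a := by
  refine ⟨fun h => ?_, family_posDef⟩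
  have h1 := (pd_of_posDef h).1.hdet
  simp only [Matrix.of_apply, Matrix.cons_val', Matrix.cons_val_zero, Matrix.cons_val_one] at h1
  have h2 : (0 : ℝ) < 2 * (a : ℝ) - 1 := by
    push_cast at h1
    linarith [h1]
  have h3 : (0 : ℚ) < 2 * a - 1 := by exact_mod_cast h2
  linarith

end Pool.Agent.Lib.MP_8ce23f_nt.R2
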