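import Pool.Agent.Lib.MP_8ce23f_nt.R2.Reg

/-!
# A uniform number of equations suffices

Job Noeth.  Let `e k, F k` be as in `Reg`.  In the Noetherian ring `MvPolynomial (Fin 2 ⊕ Fin 2) PP`
let `G k = rename inl (F k) - rename inr (F k)`.  The ideal generated by all `G k`, `k ≥ 2`, is generated
by `G 2, …, G K` for some `K` (Hilbert's basis theorem; ascending chain
`monotone_stabilizes_iff_noetherian`).  Evaluate at `(ϖ i, z, z₀)`:
`G k ↦ det^(e k) (eval z (D i k) - eval z₀ (D i k))` (the constant coefficient cancels).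
-/

open Filter Topology


namespace Pool.Agent.Lib.MP_8ce23f_nt.R2

/-- evaluation of the parameters and of both pairs of variables -/
noncomputable def Noeth_ev (ϖ : Par) (z z₀ : Fin 2 → ℂ) : MvPolynomial (Fin 2 ⊕ Fin 2) PP →+* ℂ :=
  MvPolynomial.eval₂Hom (MvPolynomial.eval ϖ) (Sum.elim z z₀)

theorem Noeth_eval_spec (ϖ : Par) (z : Fin 2 → ℂ) (F : UP) :
    MvPolynomial.eval z (spec ϖ F) = MvPolynomial.eval₂ (MvPolynomial.eval ϖ) z F := by
  unfold spec
  rw [MvPolynomial.eval_map]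

theorem Noeth_ev_inl (ϖ : Par) (z z₀ : Fin 2 → ℂ) (F : UP) :
    Noeth_ev ϖ z z₀ (MvPolynomial.rename Sum.inl F) = MvPolynomial.eval z (spec ϖ F) := by
  rw [Noeth_eval_spec]
  show MvPolynomial.eval₂ (MvPolynomial.eval ϖ) (Sum.elim z z₀) (MvPolynomial.rename Sum.inl F) = _
  rw [MvPolynomial.eval₂_rename]
  rfl

theorem Noeth_ev_inr (ϖ : Par) (z z₀ : Fin 2 → ℂ) (F : UP) :
    Noeth_ev ϖ z z₀ (MvPolynomial.rename Sum.inr F) = MvPolynomial.eval z₀ (spec ϖ F) := by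
  rw [Noeth_eval_spec]
  show MvPolynomial.eval₂ (MvPolynomial.eval ϖ) (Sum.elim z z₀) (MvPolynomial.rename Sum.inr F) = _
  rw [MvPolynomial.eval₂_rename]
  rfl

theorem exists_uniform {ι : Type*} {ϖ : ι → Par} {D : ι → ℕ → P}
    (hnd : ∀ i, MvPolynomial.eval (ϖ i) detP ≠ 0)
    (hD : ∀ k, 2 ≤ k → Reg ϖ (fun i => D i k - MvPolynomial.C (MvPolynomial.coeff 0 (D i k)))) :
    ∃ K : ℕ, ∀ i (z z₀ : Fin 2 → ℂ),
      (∀ k, 2 ≤ k → k ≤ K → MvPolynomial.eval z (D i k) = MvPolynomial.eval z₀ (D i k)) →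
      ∀ k, 2 ≤ k → MvPolynomial.eval z (D i k) = MvPolynomial.eval z₀ (D i k) := by
  have hD' : ∀ n : ℕ, Reg ϖ (fun i => D i (n + 2) - MvPolynomial.C (MvPolynomial.coeff 0 (D i (n + 2)))) :=
    fun n => hD (n + 2) (by omega)
  choose e F hF using hD'
  let G : ℕ → MvPolynomial (Fin 2 ⊕ Fin 2) PP := fun n =>
    MvPolynomial.rename Sum.inl (F n) - MvPolynomial.rename Sum.inr (F n)
  have hG : ∀ n i (z z₀ : Fin 2 → ℂ), Noeth_ev (ϖ i) z z₀ (G n) =
      MvPolynomial.eval (ϖ i) detP ^ e n *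
        (MvPolynomial.eval z (D i (n + 2)) - MvPolynomial.eval z₀ (D i (n + 2))) := by
    intro n i z z₀
    show Noeth_ev (ϖ i) z z₀ (MvPolynomial.rename Sum.inl (F n) - MvPolynomial.rename Sum.inr (F n)) = _
    rw [map_sub, Noeth_ev_inl, Noeth_ev_inr, ← hF n i, map_mul, map_mul, MvPolynomial.eval_C,
      MvPolynomial.eval_C, map_sub, map_sub, MvPolynomial.eval_C, MvPolynomial.eval_C]
    ring
  let J : ℕ →o Ideal (MvPolynomial (Fin 2 ⊕ Fin 2) PP) :=
    { toFun := fun n => Ideal.span (G '' {m | m ≤ n})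
      monotone' := fun a b hab => Ideal.span_mono (Set.image_mono (fun m (hm : m ≤ a) => le_trans hm hab)) }
  obtain ⟨N, hN⟩ := monotone_stabilizes_iff_noetherian.2
    (inferInstance : IsNoetherian (MvPolynomial (Fin 2 ⊕ Fin 2) PP) (MvPolynomial (Fin 2 ⊕ Fin 2) PP)) J
  refine ⟨N + 2, fun i z z₀ h k hk => ?_⟩
  obtain ⟨m, rfl⟩ : ∃ m, k = m + 2 := ⟨k - 2, by omega⟩
  by_cases hm : m ≤ N
  · exact h (m + 2) (by omega) (by omega)
  · have h1 : G m ∈ J m := Ideal.subset_span ⟨m, le_refl m, rfl⟩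
    have h2 : J N = J m := hN m (by omega)
    rw [← h2] at h1
    have h3 : J N ≤ RingHom.ker (Noeth_ev (ϖ i) z z₀) := by
      refine Ideal.span_le.2 ?_
      rintro _ ⟨a, ha, rfl⟩
      have ha' : a ≤ N := ha
      show Noeth_ev (ϖ i) z z₀ (G a) = 0
      rw [hG, h (a + 2) (by omega) (by omega), sub_self, mul_zero]
    have h4 : Noeth_ev (ϖ i) z z₀ (G m) = 0 := h3 h1
    rw [hG] at h4
    rcases mul_eq_zero.1 h4 with h5 | h5
    · exact absurd h5 (pow_ne_zero _ (hnd i))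
    · exact sub_eq_zero.1 h5

end Pool.Agent.Lib.MP_8ce23f_nt.R2
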