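import Pool.Agent.Lib.MP_8ce23f_nt.R2.Final
import Pool.Agent.Lib.MP_8ce23f_nt.R2.RegD
import Pool.Agent.Lib.MP_8ce23f_nt.R2.Noeth
import Pool.Agent.Lib.MP_8ce23f_nt.R2.CountS

/-!
# An absolute bound for the number of admissible vectors in rank two
-/

open Filter Topology Asymptotics
open scoped MatrixGroups Manifold
open UpperHalfPlane hiding I

namespace Pool.Agent.Lib.MP_8ce23f_nt.R2

/-- Formal data attached to a matrix. -/
structure Data (A : Matrix (Fin 2) (Fin 2) ℚ) where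
  Q₁ : ℝ
  Q₂ : ℝ
  D : ℕ → P
  R : Fin 2 → PowerSeries P
  S : Fin 2 → PowerSeries P
  sol : NahmSol (A 0 0) (A 0 1) (A 1 1) Q₁ Q₂
  fd : FD (Am (A 0 0) (A 0 1) (A 1 1)) (Qv Q₁ Q₂) D R S
  key : ∀ B B₀ : Fin 2 → ℚ, Admissible A B → Admissible A B₀ → ∀ k, 2 ≤ k →
    MvPolynomial.eval (cv B) (D k) = MvPolynomial.eval (cv B₀) (D k)

theorem exists_data (A : Matrix (Fin 2) (Fin 2) ℚ) (hA : A.PosDef) : Nonempty (Data A) := by
  obtain ⟨Q₁, Q₂, D, R, S, h1, h2, h3⟩ := exists_formal A hA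
  exact ⟨⟨Q₁, Q₂, D, R, S, h1, h2, h3⟩⟩

/-- The index type of all positive definite matrices. -/
abbrev PosM : Type := {A : Matrix (Fin 2) (Fin 2) ℚ // A.PosDef}

/-- A choice of formal data. -/
noncomputable def data (A : PosM) : Data A.1 := (exists_data A.1 A.2).some

/-- The parameters of a matrix. -/
noncomputable def par (A : PosM) : Par :=
  ![((A.1 0 0 : ℝ) : ℂ), ((A.1 0 1 : ℝ) : ℂ), ((A.1 1 1 : ℝ) : ℂ), ((data A).Q₁ : ℂ),
    ((data A).Q₂ : ℂ)]

theorem Apar_par (A : PosM) : Apar (par A) = Am (A.1 0 0) (A.1 0 1) (A.1 1 1) := by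
  ext i j
  fin_cases i <;> fin_cases j <;> rfl

theorem Qpar_par (A : PosM) : Qpar (par A) = Qv (data A).Q₁ (data A).Q₂ := by
  funext i
  fin_cases i <;> rfl

theorem fd_par (A : PosM) : FD (Apar (par A)) (Qpar (par A)) (data A).D (data A).R (data A).S := by
  rw [Apar_par, Qpar_par]
  exact (data A).fd

theorem nondeg_par (A : PosM) : MvPolynomial.eval (par A) detP ≠ 0 := by
  rw [← nondeg_iff, Apar_par, Qpar_par]
  have h := (data A).sol
  exact nondeg_Am (pd_of_posDef A.2).1 h.pos₁ h.lt₁ h.pos₂ h.lt₂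

/-- The number of equations which suffices for all matrices. -/
theorem exists_K : ∃ K : ℕ, ∀ (A : PosM) (z z₀ : Fin 2 → ℂ),
    (∀ k, 2 ≤ k → k ≤ K →
      MvPolynomial.eval z ((data A).D k) = MvPolynomial.eval z₀ ((data A).D k)) →
    ∀ k, 2 ≤ k → MvPolynomial.eval z ((data A).D k) = MvPolynomial.eval z₀ ((data A).D k) :=
  exists_uniform (ϖ := par) (D := fun A => (data A).D) nondeg_par fun k hk =>
    reg_D (R := fun A => (data A).R) (S := fun A => (data A).S) fd_par k (by omega)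

/-- The difference polynomials, for `k ≤ K`. -/
noncomputable def dp (A : PosM) (z₀ : Fin 2 → ℂ) (K : ℕ) (k : ℕ) : P :=
  if 2 ≤ k ∧ k ≤ K then
    (data A).D k - MvPolynomial.C (MvPolynomial.eval z₀ ((data A).D k)) else 0

theorem dp_degree (A : PosM) (z₀ : Fin 2 → ℂ) (K : ℕ) (k : ℕ) :
    (dp A z₀ K k).totalDegree ≤ K + 1 := by
  unfold dp
  split_ifs with h
  · refine (MvPolynomial.totalDegree_sub _ _).trans (max_le ?_ ?_)
    · exact ((data A).fd.deg k (by omega)).trans (by omega)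
    · simp
  · simp

theorem dp_zero_iff (A : PosM) (z z₀ : Fin 2 → ℂ) (K : ℕ) :
    (∀ k, MvPolynomial.eval z (dp A z₀ K k) = 0) ↔ ∀ k, 2 ≤ k → k ≤ K →
      MvPolynomial.eval z ((data A).D k) = MvPolynomial.eval z₀ ((data A).D k) := by
  constructor
  · intro h k h2 hK
    have := h k
    rw [dp, if_pos ⟨h2, hK⟩, map_sub, MvPolynomial.eval_C, sub_eq_zero] at this
    exact this
  · intro h k
    unfold dp
    split_ifs with hk
    · rw [map_sub, MvPolynomial.eval_C, sub_eq_zero]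
      exact h k hk.1 hk.2
    · simp

theorem cv_ncard_le {s : Set (Fin 2 → ℚ)} {t : Set (Fin 2 → ℂ)} (h : ∀ B ∈ s, cv B ∈ t)
    (ht : t.Finite) {n : ℕ} (hn : t.ncard ≤ n) : s.Finite ∧ s.ncard ≤ n := by
  have h1 : cv '' s ⊆ t := by
    rintro _ ⟨B, hB, rfl⟩
    exact h B hB
  refine ⟨Set.Finite.of_finite_image (ht.subset h1) cv_injective.injOn, ?_⟩
  rw [← Set.ncard_image_of_injective s cv_injective]
  exact (Set.ncard_le_ncard h1 ht).trans hn

theorem bound_I {K : ℕ} (hK : ∀ (A : PosM) (z z₀ : Fin 2 → ℂ),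
      (∀ k, 2 ≤ k → k ≤ K →
        MvPolynomial.eval z ((data A).D k) = MvPolynomial.eval z₀ ((data A).D k)) →
      ∀ k, 2 ≤ k → MvPolynomial.eval z ((data A).D k) = MvPolynomial.eval z₀ ((data A).D k))
    (A : Matrix (Fin 2) (Fin 2) ℚ) (hA : A.PosDef) (hne : ¬∃ a : ℚ, A = !![a, 1 - a; 1 - a, a]) :
    {B : Fin 2 → ℚ | Admissible A B}.Finite ∧
      {B : Fin 2 → ℚ | Admissible A B}.ncard ≤ (K + 1) * bd (K + 1) := by
  rcases Set.eq_empty_or_nonempty {B : Fin 2 → ℚ | Admissible A B} with h0 | ⟨B₀, hB₀⟩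
  · rw [h0]
    simp
  set A' : PosM := ⟨A, hA⟩ with hA'
  set t : Set (Fin 2 → ℂ) := {z | (∀ k, MvPolynomial.eval z (dp A' (cv B₀) K k) = 0) ∧
    MvPolynomial.eval z (1 : P) ≠ 0} with ht
  have hpd := (pd_of_posDef hA)
  have hsol := (data A').sol
  have hfin : t.Finite := by
    by_contra hinf
    have hinf' : {z : Fin 2 → ℂ | ∀ k, 2 ≤ k → MvPolynomial.eval z ((data A').D k) =
        MvPolynomial.eval (cv B₀) ((data A').D k)}.Infinite := by
      refine Set.Infinite.mono ?_ (show t.Infinite from hinf)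
      intro z hz
      exact hK A' z (cv B₀) ((dp_zero_iff A' z (cv B₀) K).mp hz.1)
    have h1 := formal_I hpd.1 hsol.pos₁ hsol.lt₁ hsol.pos₂ hsol.lt₂ (data A').fd (cv B₀) hinf'
    apply hne
    refine ⟨A 0 0, ?_⟩
    have h2 : A 0 1 = 1 - A 0 0 := by exact_mod_cast h1.1
    have h3 : A 1 1 = A 0 0 := by exact_mod_cast h1.2
    ext i j
    fin_cases i <;> fin_cases j <;> simp [h2, h3, hpd.2]
  refine cv_ncard_le (t := t) ?_ hfin
    (ncard_le_of_finite (dp A' (cv B₀) K) 1 (dp_degree A' (cv B₀) K) hfin)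
  intro B hB
  refine ⟨(dp_zero_iff A' (cv B) (cv B₀) K).mpr fun k hk _ => (data A').key B B₀ hB hB₀ k hk, ?_⟩
  simp

theorem bound_II {K : ℕ} (hK : ∀ (A : PosM) (z z₀ : Fin 2 → ℂ),
      (∀ k, 2 ≤ k → k ≤ K →
        MvPolynomial.eval z ((data A).D k) = MvPolynomial.eval z₀ ((data A).D k)) →
      ∀ k, 2 ≤ k → MvPolynomial.eval z ((data A).D k) = MvPolynomial.eval z₀ ((data A).D k))
    {a : ℚ} (hA : (!![a, 1 - a; 1 - a, a] : Matrix (Fin 2) (Fin 2) ℚ).PosDef) :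
    {B : Fin 2 → ℚ | Admissible !![a, 1 - a; 1 - a, a] B ∧ B 0 + B 1 ≠ 0}.Finite ∧
      {B : Fin 2 → ℚ | Admissible !![a, 1 - a; 1 - a, a] B ∧ B 0 + B 1 ≠ 0}.ncard ≤
        (K + 1) * bd (K + 1) := by
  set A' : PosM := ⟨_, hA⟩ with hA'
  set B₀ : Fin 2 → ℚ := ![0, -0] with hB₀
  set t : Set (Fin 2 → ℂ) := {z | (∀ k, MvPolynomial.eval z (dp A' (cv B₀) K k) = 0) ∧
    MvPolynomial.eval z (MvPolynomial.X 0 + MvPolynomial.X 1 : P) ≠ 0} with ht
  have hpd := (pd_of_posDef hA)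
  have hsol := (data A').sol
  have hadm : ∀ b : ℚ, Admissible !![a, 1 - a; 1 - a, a] ![b, -b] := admissible_family hA
  have hpd' : PD (a : ℝ) (1 - a : ℝ) (a : ℝ) := by simpa using hpd.1
  have hFD' : FD (Am (a : ℝ) (1 - a : ℝ) (a : ℝ)) (Qv (data A').Q₁ (data A').Q₂) (data A').D
      (data A').R (data A').S := by
    have := (data A').fd
    simpa [hA'] using this
  have hcast : ∀ b : ℚ, cv ![b, -b] = ![(b : ℂ), -(b : ℂ)] := by
    intro b
    funext i
    fin_cases i <;> simp [cv]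
  have h1 := formal_II hpd' hsol.pos₁ hsol.lt₁ hsol.pos₂ hsol.lt₂ hFD' (cv B₀) (by
    have hinj : Function.Injective fun b : ℚ => (b : ℂ) := Rat.cast_injective
    refine (Set.infinite_range_of_injective hinj).mono ?_
    rintro _ ⟨b, rfl⟩ k hk
    have := (data A').key ![b, -b] ![0, -0] (hadm b) (hadm 0) k hk
    rw [hcast b] at this
    exact this)
  have hfin : t.Finite := by
    refine h1.subset fun z hz => ⟨?_, ?_⟩
    · exact hK A' z (cv B₀) ((dp_zero_iff A' z (cv B₀) K).mp hz.1)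
    · simpa using hz.2
  refine cv_ncard_le (t := t) ?_ hfin
    (ncard_le_of_finite (dp A' (cv B₀) K) _ (dp_degree A' (cv B₀) K) hfin)
  rintro B ⟨hB, hne⟩
  refine ⟨(dp_zero_iff A' (cv B) (cv B₀) K).mpr fun k hk _ =>
    (data A').key B B₀ hB (hadm 0) k hk, ?_⟩
  have h2 : ((B 0 : ℂ) + (B 1 : ℂ)) ≠ 0 := by exact_mod_cast hne
  simpa [cv] using h2

/-- Admissible vectors in rank two, with an absolute bound. -/
theorem rank_two_uniform : ∃ N : ℕ, ∀ A : Matrix (Fin 2) (Fin 2) ℚ, A.PosDef →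
    ((¬∃ a : ℚ, A = !![a, 1 - a; 1 - a, a]) →
      {B : Fin 2 → ℚ | Admissible A B}.Finite ∧ {B : Fin 2 → ℚ | Admissible A B}.ncard ≤ N) ∧
    ∀ a : ℚ, A = !![a, 1 - a; 1 - a, a] →
      (∀ b : ℚ, Admissible A ![b, -b]) ∧
      {B : Fin 2 → ℚ | Admissible A B ∧ B 0 + B 1 ≠ 0}.Finite ∧
      {B : Fin 2 → ℚ | Admissible A B ∧ B 0 + B 1 ≠ 0}.ncard ≤ N := by
  obtain ⟨K, hK⟩ := exists_K
  refine ⟨(K + 1) * bd (K + 1), fun A hA => ⟨bound_I hK A hA, ?_⟩⟩
  rintro a rfl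
  exact ⟨admissible_family hA, bound_II hK hA⟩

end Pool.Agent.Lib.MP_8ce23f_nt.R2
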