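import Pool.Agent.Lib.MP_8ce23f_nt.R2.Defs

/-!
# Algebra of expansions with polynomially bounded errors

Job PolyExpAlg.  Elementary estimates.  For every polynomial `p : P` there are `M, C` with
`‖ev u v p‖ ≤ C (1+|u|+|v|)^M` for real `u, v` (induction on `p`).  The terms of a product with
exponent `≥ N` go to the error (`t ≤ 1`).  WLOG `0 ≤ C` (replace `C` by `|C|`).
-/

open Filter Topology Asymptotics MeasureTheory
open scoped Real

namespace Pool.Agent.Lib.MP_8ce23f_nt.R2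

/-- functions that are `O(t^N)` up to a polynomially growing factor -/
def PolyExpAlg_Err (N : ℕ) (f : ℝ → ℝ × ℝ → ℂ) : Prop :=
  ∃ (M : ℕ) (C : ℝ), 0 ≤ C ∧ ∀ t ∈ Set.Ioc (0 : ℝ) 1, ∀ w : ℝ × ℝ,
    ‖f t w‖ ≤ C * t ^ N * (1 + |w.1| + |w.2|) ^ M

theorem PolyExpAlg_base (w : ℝ × ℝ) : 1 ≤ 1 + |w.1| + |w.2| := by
  have h1 := abs_nonneg w.1
  have h2 := abs_nonneg w.2
  linarith

theorem PolyExpAlg_add {N : ℕ} {f g : ℝ → ℝ × ℝ → ℂ} (hf : PolyExpAlg_Err N f)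
    (hg : PolyExpAlg_Err N g) : PolyExpAlg_Err N (fun t w => f t w + g t w) := by
  obtain ⟨M, C, hC, h⟩ := hf
  obtain ⟨M', C', hC', h'⟩ := hg
  refine ⟨max M M', C + C', add_nonneg hC hC', fun t ht w => ?_⟩
  have hb := PolyExpAlg_base w
  have ht0 : 0 ≤ t ^ N := pow_nonneg ht.1.le _
  have e1 : (1 + |w.1| + |w.2|) ^ M ≤ (1 + |w.1| + |w.2|) ^ (max M M') :=
    pow_le_pow_right₀ hb (le_max_left _ _)
  have e2 : (1 + |w.1| + |w.2|) ^ M' ≤ (1 + |w.1| + |w.2|) ^ (max M M') :=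
    pow_le_pow_right₀ hb (le_max_right _ _)
  calc ‖f t w + g t w‖ ≤ ‖f t w‖ + ‖g t w‖ := norm_add_le _ _
    _ ≤ C * t ^ N * (1 + |w.1| + |w.2|) ^ M + C' * t ^ N * (1 + |w.1| + |w.2|) ^ M' :=
        add_le_add (h t ht w) (h' t ht w)
    _ ≤ C * t ^ N * (1 + |w.1| + |w.2|) ^ (max M M') +
        C' * t ^ N * (1 + |w.1| + |w.2|) ^ (max M M') :=
        add_le_add (mul_le_mul_of_nonneg_left e1 (mul_nonneg hC ht0))
          (mul_le_mul_of_nonneg_left e2 (mul_nonneg hC' ht0))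
    _ = (C + C') * t ^ N * (1 + |w.1| + |w.2|) ^ (max M M') := by ring

theorem PolyExpAlg_mul {m n : ℕ} {f g : ℝ → ℝ × ℝ → ℂ} (hf : PolyExpAlg_Err m f)
    (hg : PolyExpAlg_Err n g) : PolyExpAlg_Err (m + n) (fun t w => f t w * g t w) := by
  obtain ⟨M, C, hC, h⟩ := hf
  obtain ⟨M', C', hC', h'⟩ := hg
  refine ⟨M + M', C * C', mul_nonneg hC hC', fun t ht w => ?_⟩
  have hb := PolyExpAlg_base w
  have hb0 : 0 ≤ 1 + |w.1| + |w.2| := zero_le_one.trans hb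
  calc ‖f t w * g t w‖ = ‖f t w‖ * ‖g t w‖ := norm_mul _ _
    _ ≤ (C * t ^ m * (1 + |w.1| + |w.2|) ^ M) * (C' * t ^ n * (1 + |w.1| + |w.2|) ^ M') :=
        mul_le_mul (h t ht w) (h' t ht w) (norm_nonneg _)
          (mul_nonneg (mul_nonneg hC (pow_nonneg ht.1.le _)) (pow_nonneg hb0 _))
    _ = C * C' * t ^ (m + n) * (1 + |w.1| + |w.2|) ^ (M + M') := by ring

theorem PolyExpAlg_mono {m n : ℕ} {f : ℝ → ℝ × ℝ → ℂ} (hf : PolyExpAlg_Err n f) (h : m ≤ n) :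
    PolyExpAlg_Err m f := by
  obtain ⟨M, C, hC, hh⟩ := hf
  refine ⟨M, C, hC, fun t ht w => (hh t ht w).trans ?_⟩
  have hb0 : 0 ≤ 1 + |w.1| + |w.2| := zero_le_one.trans (PolyExpAlg_base w)
  exact mul_le_mul_of_nonneg_right
    (mul_le_mul_of_nonneg_left (pow_le_pow_of_le_one ht.1.le ht.2 h) hC) (pow_nonneg hb0 _)

theorem PolyExpAlg_const (c : ℂ) : PolyExpAlg_Err 0 (fun _ _ => c) := by
  refine ⟨0, ‖c‖, norm_nonneg c, fun t _ w => ?_⟩
  simp

theorem PolyExpAlg_zero (N : ℕ) : PolyExpAlg_Err N (fun _ _ => 0) := by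
  refine ⟨0, 0, le_rfl, fun t _ w => ?_⟩
  simp

theorem PolyExpAlg_tpow (k : ℕ) : PolyExpAlg_Err k (fun t _ => (t : ℂ) ^ k) := by
  refine ⟨0, 1, zero_le_one, fun t ht w => ?_⟩
  rw [norm_pow, Complex.norm_real, Real.norm_eq_abs, abs_of_pos ht.1]
  simp

theorem PolyExpAlg_ev (p : P) : PolyExpAlg_Err 0 (fun _ w => ev w.1 w.2 p) := by
  induction p using MvPolynomial.induction_on with
  | C a =>
    have h : (fun (_ : ℝ) (w : ℝ × ℝ) => ev w.1 w.2 (MvPolynomial.C a)) = fun _ _ => a := by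
      funext _ w
      simp [ev]
    rw [h]
    exact PolyExpAlg_const a
  | add p q hp hq =>
    have h : (fun (_ : ℝ) (w : ℝ × ℝ) => ev w.1 w.2 (p + q)) =
        fun _ w => ev w.1 w.2 p + ev w.1 w.2 q := by
      funext _ w
      exact map_add _ _ _
    rw [h]
    exact PolyExpAlg_add hp hq
  | mul_X p i hp =>
    have h : (fun (_ : ℝ) (w : ℝ × ℝ) => ev w.1 w.2 (p * MvPolynomial.X i)) =
        fun _ w => ev w.1 w.2 p * ev w.1 w.2 (MvPolynomial.X i) := by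
      funext _ w
      exact map_mul _ _ _
    rw [h]
    have hX : PolyExpAlg_Err 0 (fun _ w => ev w.1 w.2 (MvPolynomial.X i)) := by
      refine ⟨1, 1, zero_le_one, fun t _ w => ?_⟩
      have h1 := abs_nonneg w.1
      have h2 := abs_nonneg w.2
      fin_cases i
      · simp only [ev, MvPolynomial.eval_X, Fin.zero_eta, Matrix.cons_val_zero, Complex.norm_real,
          Real.norm_eq_abs, pow_zero, mul_one, pow_one, one_mul]
        linarith
      · simp only [ev, MvPolynomial.eval_X, Fin.mk_one, Matrix.cons_val_one,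
          Matrix.cons_val_fin_one, Complex.norm_real, Real.norm_eq_abs, pow_zero, mul_one, pow_one,
          one_mul]
        linarith
    exact PolyExpAlg_mul hp hX

theorem PolyExpAlg_sum {ι : Type*} (s : Finset ι) {N : ℕ} {f : ι → ℝ → ℝ × ℝ → ℂ}
    (hf : ∀ i ∈ s, PolyExpAlg_Err N (f i)) : PolyExpAlg_Err N (fun t w => ∑ i ∈ s, f i t w) := by
  classical
  induction s using Finset.induction_on with
  | empty =>
    simp only [Finset.sum_empty]
    exact PolyExpAlg_zero N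
  | insert a s ha ih =>
    have h : (fun (t : ℝ) (w : ℝ × ℝ) => ∑ i ∈ insert a s, f i t w) =
        fun t w => f a t w + ∑ i ∈ s, f i t w := by
      funext t w
      exact Finset.sum_insert ha
    rw [h]
    exact PolyExpAlg_add (hf a (Finset.mem_insert_self a s))
      (ih fun i hi => hf i (Finset.mem_insert_of_mem hi))

theorem PolyExpAlg_term (k : ℕ) (p : P) :
    PolyExpAlg_Err k (fun t w => (t : ℂ) ^ k * ev w.1 w.2 p) := by
  have := PolyExpAlg_mul (PolyExpAlg_tpow k) (PolyExpAlg_ev p)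
  simpa using this

theorem PolyExpAlg_iff {f : ℝ → ℝ × ℝ → ℂ} {N : ℕ} {p : ℕ → P} :
    PolyExp f N p ↔ PolyExpAlg_Err N
      (fun t w => f t w - ∑ k ∈ Finset.range N, (t : ℂ) ^ k * ev w.1 w.2 (p k)) := by
  constructor
  · rintro ⟨M, C, h⟩
    refine ⟨M, |C|, abs_nonneg C, fun t ht w => (h t ht w).trans ?_⟩
    have hb0 : 0 ≤ 1 + |w.1| + |w.2| := zero_le_one.trans (PolyExpAlg_base w)
    exact mul_le_mul_of_nonneg_right
      (mul_le_mul_of_nonneg_right (le_abs_self C) (pow_nonneg ht.1.le _)) (pow_nonneg hb0 _)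
  · rintro ⟨M, C, _, h⟩
    exact ⟨M, C, h⟩

theorem PolyExpAlg_S (N : ℕ) (p : ℕ → P) :
    PolyExpAlg_Err 0 (fun t w => ∑ k ∈ Finset.range N, (t : ℂ) ^ k * ev w.1 w.2 (p k)) :=
  PolyExpAlg_sum _ fun k _ => PolyExpAlg_mono (PolyExpAlg_term k (p k)) (Nat.zero_le k)

theorem PolyExpAlg_congr {N : ℕ} {f g : ℝ → ℝ × ℝ → ℂ} (hf : PolyExpAlg_Err N f)
    (h : ∀ t w, g t w = f t w) : PolyExpAlg_Err N g := by
  have : g = f := by funext t w; exact h t w
  rw [this]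
  exact hf

theorem PolyExpAlg_B {f : ℝ → ℝ × ℝ → ℂ} {N : ℕ} {p : ℕ → P} (hf : PolyExp f N p) :
    PolyExpAlg_Err 0 f := by
  refine PolyExpAlg_congr (PolyExpAlg_add
    (PolyExpAlg_mono (PolyExpAlg_iff.1 hf) (Nat.zero_le N)) (PolyExpAlg_S N p)) fun t w => ?_
  ring

theorem exists_ev_bound (p : P) : ∃ (M : ℕ) (C : ℝ), 0 ≤ C ∧ ∀ w : ℝ × ℝ,
    ‖ev w.1 w.2 p‖ ≤ C * (1 + |w.1| + |w.2|) ^ M := by
  obtain ⟨M, C, hC, h⟩ := PolyExpAlg_ev p
  refine ⟨M, C, hC, fun w => ?_⟩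
  have := h 1 ⟨one_pos, le_rfl⟩ w
  simpa using this

theorem PolyExp.bound {f : ℝ → ℝ × ℝ → ℂ} {N : ℕ} {p : ℕ → P} (hf : PolyExp f N p) :
    ∃ (M : ℕ) (C : ℝ), 0 ≤ C ∧ ∀ t ∈ Set.Ioc (0 : ℝ) 1, ∀ w : ℝ × ℝ,
      ‖f t w‖ ≤ C * (1 + |w.1| + |w.2|) ^ M := by
  obtain ⟨M, C, hC, h⟩ := PolyExpAlg_B hf
  refine ⟨M, C, hC, fun t ht w => ?_⟩
  have := h t ht w
  simpa using this

theorem PolyExp.add {f f' : ℝ → ℝ × ℝ → ℂ} {N : ℕ} {p p' : ℕ → P} (hf : PolyExp f N p)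
    (hf' : PolyExp f' N p') : PolyExp (fun t w => f t w + f' t w) N (fun k => p k + p' k) := by
  rw [PolyExpAlg_iff] at *
  refine PolyExpAlg_congr (PolyExpAlg_add hf hf') fun t w => ?_
  have h : ∑ k ∈ Finset.range N, (t : ℂ) ^ k * ev w.1 w.2 (p k + p' k) =
      ∑ k ∈ Finset.range N, (t : ℂ) ^ k * ev w.1 w.2 (p k) +
      ∑ k ∈ Finset.range N, (t : ℂ) ^ k * ev w.1 w.2 (p' k) := by
    rw [← Finset.sum_add_distrib]
    refine Finset.sum_congr rfl fun k _ => ?_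
    rw [map_add, mul_add]
  simp only [h]
  ring

theorem PolyExp.const_mul {f : ℝ → ℝ × ℝ → ℂ} {N : ℕ} {p : ℕ → P} (hf : PolyExp f N p) (c : ℂ) :
    PolyExp (fun t w => c * f t w) N (fun k => MvPolynomial.C c * p k) := by
  rw [PolyExpAlg_iff] at *
  have h0 := PolyExpAlg_mul (PolyExpAlg_const c) hf
  rw [Nat.zero_add] at h0
  refine PolyExpAlg_congr h0 fun t w => ?_
  have h : ∑ k ∈ Finset.range N, (t : ℂ) ^ k * ev w.1 w.2 (MvPolynomial.C c * p k) =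
      c * ∑ k ∈ Finset.range N, (t : ℂ) ^ k * ev w.1 w.2 (p k) := by
    rw [Finset.mul_sum]
    refine Finset.sum_congr rfl fun k _ => ?_
    have : ev w.1 w.2 (MvPolynomial.C c) = c := by simp [ev]
    rw [map_mul, this]
    ring
  simp only [h]
  ring

theorem PolyExpAlg_antidiag (N : ℕ) (G : ℕ × ℕ → ℂ) :
    ∑ k ∈ Finset.range N, ∑ ij ∈ Finset.HasAntidiagonal.antidiagonal k, G ij =
      ∑ ij ∈ (Finset.range N ×ˢ Finset.range N).filter (fun ij => ij.1 + ij.2 < N), G ij := by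
  rw [← Finset.sum_fiberwise_of_maps_to (t := Finset.range N) (g := fun ij : ℕ × ℕ => ij.1 + ij.2)]
  · refine Finset.sum_congr rfl fun k hk => ?_
    refine Finset.sum_congr ?_ fun _ _ => rfl
    ext ⟨i, j⟩
    rw [Finset.mem_range] at hk
    simp only [Finset.HasAntidiagonal.mem_antidiagonal, Finset.mem_filter, Finset.mem_product, Finset.mem_range]
    omega
  · intro ij hij
    rw [Finset.mem_filter] at hij
    exact Finset.mem_range.2 hij.2

theorem PolyExp.mul {f f' : ℝ → ℝ × ℝ → ℂ} {N : ℕ} {p p' : ℕ → P} (hf : PolyExp f N p)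
    (hf' : PolyExp f' N p') : PolyExp (fun t w => f t w * f' t w) N
      (fun k => ∑ ij ∈ Finset.HasAntidiagonal.antidiagonal k, p ij.1 * p' ij.2) := by
  have hB := PolyExpAlg_B hf
  rw [PolyExpAlg_iff] at *
  have h1 := PolyExpAlg_mul hB hf'
  rw [Nat.zero_add] at h1
  have h2 := PolyExpAlg_mul hf (PolyExpAlg_S N p')
  rw [Nat.add_zero] at h2
  have h3 : PolyExpAlg_Err N (fun t w => ∑ ij ∈ (Finset.range N ×ˢ Finset.range N).filter
      (fun ij => ¬ ij.1 + ij.2 < N), (t : ℂ) ^ ij.1 * ev w.1 w.2 (p ij.1) *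
        ((t : ℂ) ^ ij.2 * ev w.1 w.2 (p' ij.2))) := by
    refine PolyExpAlg_sum _ fun ij hij => ?_
    rw [Finset.mem_filter, not_lt] at hij
    exact PolyExpAlg_mono (PolyExpAlg_mul (PolyExpAlg_term ij.1 (p ij.1))
      (PolyExpAlg_term ij.2 (p' ij.2))) hij.2
  refine PolyExpAlg_congr (PolyExpAlg_add (PolyExpAlg_add h1 h2) h3) fun t w => ?_
  have e1 : ∑ k ∈ Finset.range N, (t : ℂ) ^ k * ev w.1 w.2
      (∑ ij ∈ Finset.HasAntidiagonal.antidiagonal k, p ij.1 * p' ij.2) =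
      ∑ ij ∈ (Finset.range N ×ˢ Finset.range N).filter (fun ij => ij.1 + ij.2 < N),
        (t : ℂ) ^ ij.1 * ev w.1 w.2 (p ij.1) * ((t : ℂ) ^ ij.2 * ev w.1 w.2 (p' ij.2)) := by
    rw [← PolyExpAlg_antidiag]
    refine Finset.sum_congr rfl fun k _ => ?_
    rw [map_sum, Finset.mul_sum]
    refine Finset.sum_congr rfl fun ij hij => ?_
    rw [Finset.HasAntidiagonal.mem_antidiagonal] at hij
    rw [map_mul, ← hij, pow_add]
    ring
  have e2 : (∑ k ∈ Finset.range N, (t : ℂ) ^ k * ev w.1 w.2 (p k)) *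
      (∑ k ∈ Finset.range N, (t : ℂ) ^ k * ev w.1 w.2 (p' k)) =
      ∑ ij ∈ (Finset.range N ×ˢ Finset.range N).filter (fun ij => ij.1 + ij.2 < N),
        (t : ℂ) ^ ij.1 * ev w.1 w.2 (p ij.1) * ((t : ℂ) ^ ij.2 * ev w.1 w.2 (p' ij.2)) +
      ∑ ij ∈ (Finset.range N ×ˢ Finset.range N).filter (fun ij => ¬ ij.1 + ij.2 < N),
        (t : ℂ) ^ ij.1 * ev w.1 w.2 (p ij.1) * ((t : ℂ) ^ ij.2 * ev w.1 w.2 (p' ij.2)) := by
    rw [Finset.sum_filter_add_sum_filter_not, Finset.sum_mul_sum, Finset.sum_product]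
  rw [e1]
  linear_combination e2

theorem PolyExp.one (N : ℕ) : PolyExp (fun _ _ => 1) N (fun k => if k = 0 then 1 else 0) := by
  rw [PolyExpAlg_iff]
  rcases Nat.eq_zero_or_pos N with h0 | h0
  · subst h0
    simp only [Finset.range_zero, Finset.sum_empty, sub_zero]
    exact PolyExpAlg_const 1
  · refine PolyExpAlg_congr (PolyExpAlg_zero N) fun t w => ?_
    rw [Finset.sum_eq_single 0]
    · simp
    · intro k _ hk
      simp [hk]
    · intro hk
      exact absurd (Finset.mem_range.2 h0) hk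

theorem PolyExp.pow {f : ℝ → ℝ × ℝ → ℂ} {N : ℕ} {p : ℕ → P} (hf : PolyExp f N p) (j : ℕ) :
    ∃ p' : ℕ → P, p' 0 = p 0 ^ j ∧ PolyExp (fun t w => f t w ^ j) N p' := by
  induction j with
  | zero =>
    refine ⟨fun k => if k = 0 then 1 else 0, by simp, ?_⟩
    simp only [pow_zero]
    exact PolyExp.one N
  | succ j ih =>
    obtain ⟨p', h0, h⟩ := ih
    refine ⟨fun k => ∑ ij ∈ Finset.HasAntidiagonal.antidiagonal k, p' ij.1 * p ij.2, ?_, ?_⟩
    · have e : Finset.HasAntidiagonal.antidiagonal 0 = {((0 : ℕ), (0 : ℕ))} := by decide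
      simp only [e, Finset.sum_singleton]
      rw [h0, pow_succ]
    · have := h.mul hf
      simp only [← pow_succ] at this
      exact this

theorem PolyExp.sum {ι : Type*} (s : Finset ι) {f : ι → ℝ → ℝ × ℝ → ℂ} {N : ℕ}
    {p : ι → ℕ → P} (hf : ∀ i ∈ s, PolyExp (f i) N (p i)) :
    PolyExp (fun t w => ∑ i ∈ s, f i t w) N (fun k => ∑ i ∈ s, p i k) := by
  rw [PolyExpAlg_iff]
  refine PolyExpAlg_congr (PolyExpAlg_sum s fun i hi => PolyExpAlg_iff.1 (hf i hi)) fun t w => ?_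
  rw [Finset.sum_sub_distrib, Finset.sum_comm (s := s)]
  congr 1
  refine Finset.sum_congr rfl fun k _ => ?_
  rw [map_sum, Finset.mul_sum]

/-- Multiplication by `t`. -/
theorem PolyExp.t_mul {f : ℝ → ℝ × ℝ → ℂ} {N : ℕ} {p : ℕ → P} (hf : PolyExp f N p) :
    PolyExp (fun t w => (t : ℂ) * f t w) (N + 1) (fun k => if k = 0 then 0 else p (k - 1)) := by
  rw [PolyExpAlg_iff] at *
  have h := PolyExpAlg_mul (PolyExpAlg_tpow 1) hf
  rw [Nat.add_comm] at h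
  refine PolyExpAlg_congr h fun t w => ?_
  rw [Finset.sum_range_succ']
  have e : ∑ k ∈ Finset.range N, (t : ℂ) ^ (k + 1) * ev w.1 w.2
      (if k + 1 = 0 then 0 else p (k + 1 - 1)) =
      (t : ℂ) * ∑ k ∈ Finset.range N, (t : ℂ) ^ k * ev w.1 w.2 (p k) := by
    rw [Finset.mul_sum]
    refine Finset.sum_congr rfl fun k _ => ?_
    rw [if_neg (Nat.succ_ne_zero k), Nat.add_sub_cancel]
    ring
  rw [e]
  simp only [if_true, map_zero, mul_zero, add_zero, pow_one]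
  ring

theorem PolyExp.trunc {f : ℝ → ℝ × ℝ → ℂ} {N n : ℕ} {p : ℕ → P} (hf : PolyExp f N p)
    (hn : n ≤ N) : PolyExp f n p := by
  rw [PolyExpAlg_iff] at *
  have h2 : PolyExpAlg_Err n (fun t w => ∑ k ∈ Finset.Ico n N, (t : ℂ) ^ k * ev w.1 w.2 (p k)) :=
    PolyExpAlg_sum _ fun k hk =>
      PolyExpAlg_mono (PolyExpAlg_term k (p k)) (Finset.mem_Ico.1 hk).1
  refine PolyExpAlg_congr (PolyExpAlg_add (PolyExpAlg_mono hf hn) h2) fun t w => ?_
  have := Finset.sum_range_add_sum_Ico (fun k => (t : ℂ) ^ k * ev w.1 w.2 (p k)) hn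
  rw [← this]
  ring

end Pool.Agent.Lib.MP_8ce23f_nt.R2
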