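import Pool.Agent.Lib.MP_8ce23f_nt.R2.Defs
import Pool.Agent.Lib.MP_8ce23f_nt.Euler

/-!
# `∑ X^n/(q)_n = exp (Lam X)`

Job LamSum.  Put `q = exp (-t²)`, `f X = ∑ X^n/(q)_n` (the series converges absolutely for
`‖X‖ < 1`: `(q)_n` is bounded below by a positive constant, or ratio test).  Then
`f X - f (q X) = X f X`, i.e. `(1 - X) f X = f (q X)`.  Also
`Lam X - Lam (q X) = ∑ X^(m+1)/(m+1) = -log (1 - X)`, so `(1 - X) exp (Lam X) = exp (Lam (q X))`.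
Hence `h X = f X * exp (-Lam X)` satisfies `h X = h (q X) = h (q^n X) → h 0 = 1`
(continuity of `f` and `Lam` at `0` along `q^n X`: dominated convergence
`tendsto_tsum_of_dominated_convergence`).
-/

open Filter Topology Asymptotics MeasureTheory
open scoped Real

namespace Pool.Agent.Lib.MP_8ce23f_nt.R2

theorem lam_ofReal (X t : ℝ) : Lam (X : ℂ) t = (LamR X t : ℂ) := by
  unfold Lam LamR
  rw [Complex.ofReal_tsum]
  refine tsum_congr fun m => ?_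
  push_cast
  rfl

/-! ### The base `q = exp (-t²)` -/

theorem lamsum_q_pos (t : ℝ) : 0 < Real.exp (-t ^ 2) := Real.exp_pos _

theorem lamsum_q_lt {t : ℝ} (ht : 0 < t) : Real.exp (-t ^ 2) < 1 := by
  rw [Real.exp_lt_one_iff]
  have : 0 < t ^ 2 := by positivity
  linarith

theorem lamsum_q_pow (t : ℝ) (m : ℕ) :
    Real.exp (-(((m : ℝ) + 1) * t ^ 2)) = Real.exp (-t ^ 2) ^ (m + 1) := by
  rw [← Real.exp_nat_mul]
  congr 1
  push_cast
  ring

theorem lamsum_norm_q {t : ℝ} (ht : 0 < t) : ‖(Real.exp (-t ^ 2) : ℂ)‖ < 1 := by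
  rw [Complex.norm_real, Real.norm_eq_abs, abs_of_pos (lamsum_q_pos t)]
  exact lamsum_q_lt ht

/-- the terms of `Lam` -/
theorem lamsum_term_eq (X : ℂ) (t : ℝ) (m : ℕ) :
    X ^ (m + 1) / ((m + 1) * (1 - Real.exp (-((m + 1) * t ^ 2))) : ℂ) =
      X ^ (m + 1) / ((m + 1) * (1 - (Real.exp (-t ^ 2) : ℂ) ^ (m + 1))) := by
  rw [lamsum_q_pow]
  push_cast
  rfl

theorem lamsum_norm_term_le (X : ℂ) {t : ℝ} (ht : 0 < t) (m : ℕ) :
    ‖X ^ (m + 1) / ((m + 1) * (1 - Real.exp (-((m + 1) * t ^ 2))) : ℂ)‖ ≤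
      ‖X‖ ^ (m + 1) / (1 - Real.exp (-t ^ 2)) := by
  have hq := lamsum_q_lt ht
  have hq0 := lamsum_q_pos t
  rw [lamsum_term_eq]
  have h1 : ((m + 1 : ℂ) * (1 - (Real.exp (-t ^ 2) : ℂ) ^ (m + 1))) =
      (((m + 1 : ℝ) * (1 - Real.exp (-t ^ 2) ^ (m + 1)) : ℝ) : ℂ) := by push_cast; rfl
  rw [norm_div, norm_pow, h1, Complex.norm_real, Real.norm_eq_abs]
  have h2 : Real.exp (-t ^ 2) ^ (m + 1) ≤ Real.exp (-t ^ 2) := by
    have := pow_le_pow_of_le_one hq0.le hq.le (Nat.succ_le_succ (Nat.zero_le m))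
    simpa using this
  have h3 : 1 - Real.exp (-t ^ 2) ≤ (m + 1 : ℝ) * (1 - Real.exp (-t ^ 2) ^ (m + 1)) := by
    have h4 : (1 : ℝ) ≤ m + 1 := by
      have : (0 : ℝ) ≤ m := Nat.cast_nonneg m
      linarith
    nlinarith
  rw [abs_of_pos (by linarith)]
  have h5 : 0 < 1 - Real.exp (-t ^ 2) := by linarith
  gcongr

theorem summable_lam {X : ℂ} (hX : ‖X‖ < 1) {t : ℝ} (ht : 0 < t) :
    Summable fun m : ℕ =>
      ‖X ^ (m + 1) / ((m + 1) * (1 - Real.exp (-((m + 1) * t ^ 2))) : ℂ)‖ := by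
  refine Summable.of_nonneg_of_le (fun m => norm_nonneg _) (lamsum_norm_term_le X ht) ?_
  exact ((summable_nat_add_iff 1).2
    (summable_geometric_of_lt_one (norm_nonneg X) hX)).div_const _

theorem lamsum_rp_eq (q : ℝ) (n : ℕ) : (rp q n : ℂ) = poch (q : ℂ) n := by
  unfold rp poch
  push_cast
  rfl

theorem rp_pos {q : ℝ} (h0 : 0 ≤ q) (h1 : q < 1) (n : ℕ) : 0 < rp q n := by
  refine Finset.prod_pos fun j _ => ?_
  have h2 : q ^ (j + 1) < 1 := pow_lt_one₀ h0 h1 (Nat.succ_ne_zero j)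
  linarith

/-- `(q)_n` is bounded below. -/
theorem exists_rp_lower {q : ℝ} (h0 : 0 ≤ q) (h1 : q < 1) : ∃ c : ℝ, 0 < c ∧ ∀ n, c ≤ rp q n := by
  have hq : ‖(q : ℂ)‖ < 1 := by
    rw [Complex.norm_real, Real.norm_eq_abs, abs_of_nonneg h0]
    exact h1
  obtain ⟨c, hc, h⟩ := exists_poch_lower hq
  refine ⟨c, hc, fun n => ?_⟩
  have := h n
  rw [← lamsum_rp_eq, Complex.norm_real, Real.norm_eq_abs, abs_of_pos (rp_pos h0 h1 n)] at this
  exact this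

theorem lamsum_norm_div_rp_le (X : ℂ) {q c : ℝ} (h0 : 0 ≤ q) (h1 : q < 1) (hc : 0 < c)
    (h : ∀ n, c ≤ rp q n) (n : ℕ) : ‖X ^ n / (rp q n : ℂ)‖ ≤ ‖X‖ ^ n / c := by
  rw [norm_div, norm_pow, Complex.norm_real, Real.norm_eq_abs, abs_of_pos (rp_pos h0 h1 n)]
  have := h n
  gcongr

theorem summable_pow_div_rp {X : ℂ} (hX : ‖X‖ < 1) {t : ℝ} (ht : 0 < t) :
    Summable fun n : ℕ => ‖X ^ n / (rp (Real.exp (-t ^ 2)) n : ℂ)‖ := by
  obtain ⟨c, hc, h⟩ := exists_rp_lower (lamsum_q_pos t).le (lamsum_q_lt ht)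
  refine Summable.of_nonneg_of_le (fun m => norm_nonneg _)
    (lamsum_norm_div_rp_le X (lamsum_q_pos t).le (lamsum_q_lt ht) hc h) ?_
  exact (summable_geometric_of_lt_one (norm_nonneg X) hX).div_const _

/-- the functional equation of the series -/
theorem lamsum_f_rec {X : ℂ} (hX : ‖X‖ < 1) {t : ℝ} (ht : 0 < t) :
    ∑' n : ℕ, ((Real.exp (-t ^ 2) : ℂ) * X) ^ n / (rp (Real.exp (-t ^ 2)) n : ℂ) =
      (1 - X) * ∑' n : ℕ, X ^ n / (rp (Real.exp (-t ^ 2)) n : ℂ) := by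
  have hn := lamsum_norm_q ht
  have hqX : ‖(Real.exp (-t ^ 2) : ℂ) * X‖ < 1 := by
    rw [norm_mul]
    have := mul_le_mul hn.le hX.le (norm_nonneg _) zero_le_one
    have h3 : ‖(Real.exp (-t ^ 2) : ℂ)‖ * ‖X‖ ≤ 1 * ‖X‖ :=
      mul_le_mul_of_nonneg_right hn.le (norm_nonneg _)
    linarith
  have s1 := (summable_pow_div_rp hX ht).of_norm
  have s2 := (summable_pow_div_rp hqX ht).of_norm
  have h1 : ∀ n : ℕ, X ^ (n + 1) / (rp (Real.exp (-t ^ 2)) (n + 1) : ℂ) -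
      ((Real.exp (-t ^ 2) : ℂ) * X) ^ (n + 1) / (rp (Real.exp (-t ^ 2)) (n + 1) : ℂ) =
      X * (X ^ n / (rp (Real.exp (-t ^ 2)) n : ℂ)) := by
    intro n
    rw [lamsum_rp_eq, lamsum_rp_eq, poch_succ]
    have h2 := one_sub_pow_ne_zero hn n
    have h3 := poch_ne_zero hn n
    field_simp
    ring
  have h4 : ∑' n, (X ^ n / (rp (Real.exp (-t ^ 2)) n : ℂ) -
      ((Real.exp (-t ^ 2) : ℂ) * X) ^ n / (rp (Real.exp (-t ^ 2)) n : ℂ)) =
      X * ∑' n : ℕ, X ^ n / (rp (Real.exp (-t ^ 2)) n : ℂ) := by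
    rw [(s1.sub s2).tsum_eq_zero_add]
    simp only [h1]
    rw [tsum_mul_left]
    simp
  rw [s1.tsum_sub s2] at h4
  linear_combination -h4

theorem lamsum_norm_qX {X : ℂ} (hX : ‖X‖ < 1) {t : ℝ} (ht : 0 < t) :
    ‖(Real.exp (-t ^ 2) : ℂ) * X‖ < 1 := by
  rw [norm_mul]
  have h3 : ‖(Real.exp (-t ^ 2) : ℂ)‖ * ‖X‖ ≤ 1 * ‖X‖ :=
    mul_le_mul_of_nonneg_right (lamsum_norm_q ht).le (norm_nonneg _)
  linarith

/-- the functional equation of `Lam` -/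
theorem lamsum_lam_rec {X : ℂ} (hX : ‖X‖ < 1) {t : ℝ} (ht : 0 < t) :
    Lam X t - Lam ((Real.exp (-t ^ 2) : ℂ) * X) t = -Complex.log (1 - X) := by
  have hn := lamsum_norm_q ht
  have hqX := lamsum_norm_qX hX ht
  have s1 := (summable_lam hX ht).of_norm
  have s2 := (summable_lam hqX ht).of_norm
  unfold Lam
  rw [← s1.tsum_sub s2, ← (Complex.hasSum_taylorSeries_neg_log' hX).tsum_eq]
  refine tsum_congr fun m => ?_
  rw [lamsum_term_eq, lamsum_term_eq]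
  have h2 := one_sub_pow_ne_zero hn m
  have h3 : (m + 1 : ℂ) ≠ 0 := by exact_mod_cast Nat.succ_ne_zero m
  field_simp
  ring

theorem lamsum_h_rec {X : ℂ} (hX : ‖X‖ < 1) {t : ℝ} (ht : 0 < t) :
    (∑' n : ℕ, ((Real.exp (-t ^ 2) : ℂ) * X) ^ n / (rp (Real.exp (-t ^ 2)) n : ℂ)) *
        Complex.exp (-Lam ((Real.exp (-t ^ 2) : ℂ) * X) t) =
      (∑' n : ℕ, X ^ n / (rp (Real.exp (-t ^ 2)) n : ℂ)) * Complex.exp (-Lam X t) := by
  have h1 : (1 - X) ≠ 0 := by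
    intro h
    have : X = 1 := (sub_eq_zero.1 h).symm
    rw [this, norm_one] at hX
    exact lt_irrefl _ hX
  have h2 : -Lam ((Real.exp (-t ^ 2) : ℂ) * X) t = -Lam X t + -Complex.log (1 - X) := by
    rw [← lamsum_lam_rec hX ht]
    ring
  rw [lamsum_f_rec hX ht, h2, Complex.exp_add, Complex.exp_neg (Complex.log (1 - X)),
    Complex.exp_log h1]
  field_simp

theorem lamsum_norm_qpow (X : ℂ) {t : ℝ} (ht : 0 < t) (K : ℕ) :
    ‖(Real.exp (-t ^ 2) : ℂ) ^ K * X‖ ≤ ‖X‖ := by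
  rw [norm_mul, norm_pow]
  exact mul_le_of_le_one_left (norm_nonneg _)
    (pow_le_one₀ (norm_nonneg _) (lamsum_norm_q ht).le)

theorem lamsum_iter {X : ℂ} (hX : ‖X‖ < 1) {t : ℝ} (ht : 0 < t) (K : ℕ) :
    (∑' n : ℕ, ((Real.exp (-t ^ 2) : ℂ) ^ K * X) ^ n / (rp (Real.exp (-t ^ 2)) n : ℂ)) *
        Complex.exp (-Lam ((Real.exp (-t ^ 2) : ℂ) ^ K * X) t) =
      (∑' n : ℕ, X ^ n / (rp (Real.exp (-t ^ 2)) n : ℂ)) * Complex.exp (-Lam X t) := by
  induction K with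
  | zero => simp
  | succ K ih =>
    rw [← ih, pow_succ', mul_assoc]
    exact lamsum_h_rec (lt_of_le_of_lt (lamsum_norm_qpow X ht K) hX) ht

theorem lamsum_tendsto_qpow (X : ℂ) {t : ℝ} (ht : 0 < t) :
    Tendsto (fun K : ℕ => (Real.exp (-t ^ 2) : ℂ) ^ K * X) atTop (𝓝 0) := by
  have := (tendsto_pow_atTop_nhds_zero_of_norm_lt_one (lamsum_norm_q ht)).mul_const X
  simpa using this

theorem lamsum_tendsto_f {X : ℂ} (hX : ‖X‖ < 1) {t : ℝ} (ht : 0 < t) :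
    Tendsto (fun K : ℕ => ∑' n : ℕ, ((Real.exp (-t ^ 2) : ℂ) ^ K * X) ^ n /
      (rp (Real.exp (-t ^ 2)) n : ℂ)) atTop (𝓝 (∑' n : ℕ, if n = 0 then (1 : ℂ) else 0)) := by
  refine tendsto_tsum_of_dominated_convergence
    (bound := fun n => ‖X ^ n / (rp (Real.exp (-t ^ 2)) n : ℂ)‖) (summable_pow_div_rp hX ht) ?_ ?_
  · intro n
    rcases Nat.eq_zero_or_pos n with h | h
    · subst h
      simp [rp]
    · simp only [h.ne', if_false]
      have h4 := ((lamsum_tendsto_qpow X ht).pow n).div_const (rp (Real.exp (-t ^ 2)) n : ℂ)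
      simpa [h.ne'] using h4
  · filter_upwards with K n
    rw [norm_div, norm_div, norm_pow, norm_pow]
    have := lamsum_norm_qpow X ht K
    gcongr

theorem lamsum_tendsto_lam {X : ℂ} (hX : ‖X‖ < 1) {t : ℝ} (ht : 0 < t) :
    Tendsto (fun K : ℕ => Lam ((Real.exp (-t ^ 2) : ℂ) ^ K * X) t) atTop (𝓝 0) := by
  have h : Tendsto (fun K : ℕ => Lam ((Real.exp (-t ^ 2) : ℂ) ^ K * X) t) atTop
      (𝓝 (∑' _ : ℕ, (0 : ℂ))) := by
    refine tendsto_tsum_of_dominated_convergence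
      (bound := fun m : ℕ => ‖X ^ (m + 1) /
        ((m + 1) * (1 - Real.exp (-((m + 1) * t ^ 2))) : ℂ)‖) (summable_lam hX ht) ?_ ?_
    · intro m
      have h4 := ((lamsum_tendsto_qpow X ht).pow (m + 1)).div_const
        ((m + 1) * (1 - Real.exp (-((m + 1) * t ^ 2))) : ℂ)
      simpa using h4
    · filter_upwards with K m
      rw [norm_div, norm_div, norm_pow, norm_pow]
      have := lamsum_norm_qpow X ht K
      gcongr
  simpa using h

theorem tsum_pow_div_rp {X : ℂ} (hX : ‖X‖ < 1) {t : ℝ} (ht : 0 < t) :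
    ∑' n : ℕ, X ^ n / (rp (Real.exp (-t ^ 2)) n : ℂ) = Complex.exp (Lam X t) := by
  have h1 := (lamsum_tendsto_f hX ht).mul
    ((Complex.continuous_exp.tendsto _).comp (lamsum_tendsto_lam hX ht).neg)
  have h2 : Tendsto (fun _ : ℕ => (∑' n : ℕ, X ^ n / (rp (Real.exp (-t ^ 2)) n : ℂ)) *
      Complex.exp (-Lam X t)) atTop
      (𝓝 ((∑' n : ℕ, if n = 0 then (1 : ℂ) else 0) * Complex.exp (-0))) :=
    h1.congr fun K => lamsum_iter hX ht K
  have h3 := tendsto_nhds_unique tendsto_const_nhds h2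
  simp only [tsum_ite_eq, neg_zero, Complex.exp_zero, mul_one] at h3
  rw [Complex.exp_neg] at h3
  have h4 := Complex.exp_ne_zero (Lam X t)
  field_simp at h3
  exact h3

end Pool.Agent.Lib.MP_8ce23f_nt.R2
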