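import Pool.Agent.Lib.MP_8ce23f_nt.R2.ExpRem
import Pool.Agent.Lib.MP_8ce23f_nt.R2.Bern
import Pool.Agent.Lib.MP_8ce23f_nt.R2.LamSum

/-!
# Expansion of `Xi`

`Xi ρ y t = ∑_m ρ^(m+1) (exp (i (m+1) t y) - 1)/((m+1) (1 - exp (-(m+1) t²)))`.
Insert `1/(1 - exp (-u)) = 1/u + ∑_{j<J} c_j u^j + R(u)`, `|R(u)| ≤ C u^J`, `u = (m+1) t²`
(`exists_bern`), and `exp (i φ) - 1 = ∑_{1 ≤ l < K} (i φ)^l/l! + O(|φ|^K/K!)`, `φ = (m+1) t y`
(`exp_sub_sum_le` with `Re z = 0`; `|exp (iφ) - 1| ≤ 2`).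
-/

open Filter Topology Asymptotics MeasureTheory
open scoped Real

namespace Pool.Agent.Lib.MP_8ce23f_nt.R2

/-- Expansions in `t` with polynomial coefficients in `y`, starting with `t¹`. -/
def XCol (N : ℕ) (f : ℝ → ℝ → ℂ) : Prop :=
  ∃ (p : ℕ → Polynomial ℂ) (M : ℕ) (C : ℝ), 0 ≤ C ∧ ∀ t ∈ Set.Ioc (0 : ℝ) 1, ∀ y : ℝ,
    ‖f t y - ∑ k ∈ Finset.range N, (t : ℂ) ^ (k + 1) * (p k).eval (y : ℂ)‖ ≤
      C * t ^ (N + 1) * (1 + |y|) ^ M

lemma one_add_abs_pow_le (y : ℝ) {M M' : ℕ} (h : M ≤ M') : (1 + |y|) ^ M ≤ (1 + |y|) ^ M' :=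
  pow_le_pow_right₀ (by linarith [abs_nonneg y]) h

lemma XCol.add {N : ℕ} {f f' : ℝ → ℝ → ℂ} (h : XCol N f) (h' : XCol N f') :
    XCol N (fun t y => f t y + f' t y) := by
  obtain ⟨p, M, C, hC, hp⟩ := h
  obtain ⟨p', M', C', hC', hp'⟩ := h'
  refine ⟨fun k => p k + p' k, max M M', C + C', by positivity, fun t ht y => ?_⟩
  have h1 := hp t ht y
  have h2 := hp' t ht y
  have ht0 : 0 ≤ t ^ (N + 1) := pow_nonneg ht.1.le _
  have h3 : f t y + f' t y - ∑ k ∈ Finset.range N, (t : ℂ) ^ (k + 1) * (p k + p' k).eval (y : ℂ) =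
      (f t y - ∑ k ∈ Finset.range N, (t : ℂ) ^ (k + 1) * (p k).eval (y : ℂ)) +
      (f' t y - ∑ k ∈ Finset.range N, (t : ℂ) ^ (k + 1) * (p' k).eval (y : ℂ)) := by
    simp only [Polynomial.eval_add, mul_add, Finset.sum_add_distrib]
    ring
  rw [h3]
  refine (norm_add_le _ _).trans ((add_le_add h1 h2).trans ?_)
  have h4 := one_add_abs_pow_le y (le_max_left M M')
  have h5 := one_add_abs_pow_le y (le_max_right M M')
  calc C * t ^ (N + 1) * (1 + |y|) ^ M + C' * t ^ (N + 1) * (1 + |y|) ^ M'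
      ≤ C * t ^ (N + 1) * (1 + |y|) ^ (max M M') + C' * t ^ (N + 1) * (1 + |y|) ^ (max M M') := by
        gcongr
    _ = (C + C') * t ^ (N + 1) * (1 + |y|) ^ (max M M') := by ring

lemma XCol.zero (N : ℕ) : XCol N (fun _ _ => 0) := by
  refine ⟨fun _ => 0, 0, 0, le_rfl, fun t _ y => ?_⟩
  simp

lemma XCol.sum {ι : Type*} {N : ℕ} (s : Finset ι) {f : ι → ℝ → ℝ → ℂ}
    (h : ∀ i ∈ s, XCol N (f i)) : XCol N (fun t y => ∑ i ∈ s, f i t y) := by
  classical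
  induction s using Finset.induction_on with
  | empty => simpa using XCol.zero N
  | insert a s ha ih =>
    simp only [Finset.sum_insert ha]
    exact (h a (by simp)).add (ih fun i hi => h i (by simp [hi]))

lemma XCol.err {N : ℕ} {f : ℝ → ℝ → ℂ} {C : ℝ} {M : ℕ} (hC : 0 ≤ C)
    (h : ∀ t ∈ Set.Ioc (0 : ℝ) 1, ∀ y : ℝ, ‖f t y‖ ≤ C * t ^ (N + 1) * (1 + |y|) ^ M) :
    XCol N f := by
  refine ⟨fun _ => 0, M, C, hC, fun t ht y => ?_⟩
  simpa using h t ht y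

lemma XCol.mono {N : ℕ} {e : ℕ} (he : 1 ≤ e) (l : ℕ) (b : ℂ) :
    XCol N (fun t y => (t : ℂ) ^ e * (b * (y : ℂ) ^ l)) := by
  by_cases h : e ≤ N
  · refine ⟨fun k => if k + 1 = e then Polynomial.C b * Polynomial.X ^ l else 0, 0, 0, le_rfl,
      fun t ht y => ?_⟩
    have h1 : ∑ k ∈ Finset.range N, (t : ℂ) ^ (k + 1) *
        (if k + 1 = e then Polynomial.C b * Polynomial.X ^ l else 0 : Polynomial ℂ).eval (y : ℂ) =
        (t : ℂ) ^ e * (b * (y : ℂ) ^ l) := by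
      rw [Finset.sum_eq_single (e - 1)]
      · have h2 : e - 1 + 1 = e := by omega
        simp [h2]
      · intro k _ hk
        have h2 : k + 1 ≠ e := by omega
        simp [h2]
      · intro h2
        exfalso
        apply h2
        simp only [Finset.mem_range]
        omega
    rw [h1]
    simp
  · refine XCol.err (C := ‖b‖) (M := l) (norm_nonneg _) fun t ht y => ?_
    rw [norm_mul, norm_mul, norm_pow, norm_pow, Complex.norm_real, Complex.norm_real,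
      Real.norm_eq_abs, Real.norm_eq_abs, abs_of_pos ht.1]
    have h1 : t ^ e ≤ t ^ (N + 1) := pow_le_pow_of_le_one ht.1.le ht.2 (by omega)
    have h2 : |y| ^ l ≤ (1 + |y|) ^ l := pow_le_pow_left₀ (abs_nonneg y) (by linarith) _
    calc t ^ e * (‖b‖ * |y| ^ l) ≤ t ^ (N + 1) * (‖b‖ * (1 + |y|) ^ l) := by
          have := ht.1
          gcongr
      _ = ‖b‖ * t ^ (N + 1) * (1 + |y|) ^ l := by ring

section sums

variable {ρ : ℝ} (h0 : 0 < ρ) (h1 : ρ < 1)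
include h0 h1

lemma xi_summable (r : ℕ) : Summable fun m : ℕ => ρ ^ (m + 1) * ((m : ℝ) + 1) ^ r := by
  have h2 : Summable fun n : ℕ => ((n : ℝ) ^ r * ρ ^ n : ℝ) :=
    summable_pow_mul_geometric_of_norm_lt_one r (by rwa [Real.norm_eq_abs, abs_of_pos h0])
  have h3 := (summable_nat_add_iff 1).mpr h2
  refine h3.congr fun m => ?_
  push_cast
  ring

lemma xi_summable_div (r : ℕ) (s : ℕ) :
    Summable fun m : ℕ => ρ ^ (m + 1) * ((m : ℝ) + 1) ^ r / ((m : ℝ) + 1) ^ s := by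
  refine Summable.of_nonneg_of_le (fun m => by positivity) (fun m => ?_) (xi_summable h0 h1 r)
  have h2 : (1 : ℝ) ≤ ((m : ℝ) + 1) ^ s := one_le_pow₀ (by
    have : (0 : ℝ) ≤ m := Nat.cast_nonneg m
    linarith)
  have h3 : 0 ≤ ρ ^ (m + 1) * ((m : ℝ) + 1) ^ r := by positivity
  exact div_le_self h3 h2

lemma xi_tsum_one : ∑' m : ℕ, ρ ^ (m + 1) * ((m : ℝ) + 1) ^ 1 / ((m : ℝ) + 1) ^ 2 =
    -Real.log (1 - ρ) := by
  have h2 := Real.hasSum_pow_div_log_of_abs_lt_one (x := ρ) (by rwa [abs_of_pos h0])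
  rw [← h2.tsum_eq]
  refine tsum_congr fun m => ?_
  have : (m : ℝ) + 1 ≠ 0 := by positivity
  field_simp

lemma xi_tsum_two : ∑' m : ℕ, ρ ^ (m + 1) * ((m : ℝ) + 1) ^ 2 / ((m : ℝ) + 1) ^ 2 =
    ρ / (1 - ρ) := by
  have h2 : ∀ m : ℕ, ρ ^ (m + 1) * ((m : ℝ) + 1) ^ 2 / ((m : ℝ) + 1) ^ 2 = ρ * ρ ^ m := by
    intro m
    have : (m : ℝ) + 1 ≠ 0 := by positivity
    field_simp
    ring
  rw [tsum_congr h2, tsum_mul_left, tsum_geometric_of_lt_one h0.le h1]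
  rfl

end sums

/-- The term of `Xi`. -/
noncomputable def xt (ρ y t : ℝ) (m : ℕ) : ℂ :=
  (ρ : ℂ) ^ (m + 1) * (Complex.exp (((m + 1) * t * y : ℝ) * Complex.I) - 1) /
    ((m + 1) * (1 - Real.exp (-((m + 1) * t ^ 2))))

lemma xt_eq (ρ y t : ℝ) (m : ℕ) : xt ρ y t m =
    (ρ * Complex.exp (t * y * Complex.I)) ^ (m + 1) / ((m + 1) * (1 - Real.exp (-((m + 1) * t ^ 2)))) -
      (ρ : ℂ) ^ (m + 1) / ((m + 1) * (1 - Real.exp (-((m + 1) * t ^ 2)))) := by
  unfold xt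
  rw [mul_pow, ← Complex.exp_nat_mul, ← sub_div]
  congr 1
  rw [mul_sub, mul_one]
  congr 3
  push_cast
  ring

lemma summable_xt {ρ : ℝ} (h0 : 0 < ρ) (h1 : ρ < 1) (y : ℝ) {t : ℝ} (ht : 0 < t) :
    Summable (xt ρ y t) ∧ Xi ρ y t = ∑' m, xt ρ y t m := by
  have hn : ‖(ρ : ℂ) * Complex.exp (t * y * Complex.I)‖ < 1 := by
    have : (t : ℂ) * y * Complex.I = ((t * y : ℝ) : ℂ) * Complex.I := by push_cast; ring
    rw [norm_mul, this, Complex.norm_exp_ofReal_mul_I, mul_one, Complex.norm_real,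
      Real.norm_eq_abs, abs_of_pos h0]
    exact h1
  have hn' : ‖(ρ : ℂ)‖ < 1 := by
    rw [Complex.norm_real, Real.norm_eq_abs, abs_of_pos h0]; exact h1
  have s1 := (summable_lam hn ht).of_norm
  have s2 := (summable_lam hn' ht).of_norm
  have h2 : xt ρ y t = fun m : ℕ =>
    (ρ * Complex.exp (t * y * Complex.I)) ^ (m + 1) / ((m + 1) * (1 - Real.exp (-((m + 1) * t ^ 2)))) -
      (ρ : ℂ) ^ (m + 1) / ((m + 1) * (1 - Real.exp (-((m + 1) * t ^ 2)))) :=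
    funext (xt_eq ρ y t)
  refine ⟨?_, ?_⟩
  · rw [h2]; exact s1.sub s2
  · rw [h2, s1.tsum_sub s2, Xi, ← lam_ofReal]
    rfl

theorem Xi_expansion {ρ : ℝ} (h0 : 0 < ρ) (h1 : ρ < 1) (N : ℕ) :
    ∃ (p : ℕ → Polynomial ℂ) (M : ℕ) (C : ℝ), ∀ t ∈ Set.Ioc (0 : ℝ) 1, ∀ y : ℝ,
      ‖Xi ρ y t - (((-(Real.log (1 - ρ)) * y / t : ℝ) : ℂ) * Complex.I -
          ((ρ / (1 - ρ) * y ^ 2 / 2 : ℝ) : ℂ) +
          ∑ k ∈ Finset.range N, (t : ℂ) ^ (k + 1) * (p k).eval (y : ℂ))‖ ≤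
        C * t ^ (N + 1) * (1 + |y|) ^ M := by
  obtain ⟨c, C0, hc⟩ := exists_bern (N + 1)
  set J := N + 1 with hJ
  set K := N + 3 with hK
  -- the main terms
  set σ : ℕ → ℝ := fun l => ∑' m : ℕ, ρ ^ (m + 1) * ((m : ℝ) + 1) ^ l / ((m : ℝ) + 1) ^ 2 with hσ
  set σ' : ℕ → ℝ := fun l => ∑' m : ℕ, ρ ^ (m + 1) * ((m : ℝ) + 1) ^ l / ((m : ℝ) + 1) ^ 1 with hσ'
  set mt : ℝ → ℝ → ℕ → ℂ := fun t y m =>
    ∑ l ∈ Finset.Ico 1 K, (((y : ℂ) * Complex.I) ^ l / (l.factorial : ℂ) * (t : ℂ) ^ l / (t : ℂ) ^ 2 *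
        ((ρ ^ (m + 1) * ((m : ℝ) + 1) ^ l / ((m : ℝ) + 1) ^ 2 : ℝ) : ℂ) +
      ∑ j ∈ Finset.range J, (c j : ℂ) * (((y : ℂ) * Complex.I) ^ l / (l.factorial : ℂ)) *
        (t : ℂ) ^ (2 * j + l) *
        ((ρ ^ (m + 1) * ((m : ℝ) + 1) ^ (j + l) / ((m : ℝ) + 1) ^ 1 : ℝ) : ℂ)) with hmt
  have hmt_sum : ∀ t y : ℝ, HasSum (mt t y)
      (∑ l ∈ Finset.Ico 1 K, (((y : ℂ) * Complex.I) ^ l / (l.factorial : ℂ) * (t : ℂ) ^ l /
        (t : ℂ) ^ 2 * (σ l : ℂ) +
      ∑ j ∈ Finset.range J, (c j : ℂ) * (((y : ℂ) * Complex.I) ^ l / (l.factorial : ℂ)) *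
        (t : ℂ) ^ (2 * j + l) * (σ' (j + l) : ℂ))) := by
    intro t y
    refine hasSum_sum fun l _ => ?_
    refine HasSum.add ?_ (hasSum_sum fun j _ => ?_)
    · refine HasSum.mul_left _ ?_
      exact Complex.hasSum_ofReal.mpr (xi_summable_div h0 h1 l 2).hasSum
    · refine HasSum.mul_left _ ?_
      exact Complex.hasSum_ofReal.mpr (xi_summable_div h0 h1 (j + l) 1).hasSum
  -- the error
  set C1 : ℝ := (1 + ∑ j ∈ Finset.range J, |c j|) + 2 * |C0| with hC1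
  have hC1nn : 0 ≤ C1 := by
    have : 0 ≤ ∑ j ∈ Finset.range J, |c j| := Finset.sum_nonneg fun j _ => abs_nonneg _
    positivity
  have herr : ∀ t ∈ Set.Ioc (0 : ℝ) 1, ∀ (y : ℝ) (m : ℕ),
      ‖xt ρ y t m - mt t y m‖ ≤
        (C1 * t ^ (N + 1) * (1 + |y|) ^ K) * (ρ ^ (m + 1) * ((m : ℝ) + 1) ^ (J + K)) := by
    intro t ht y m
    have ht0 := ht.1
    have ht1 := ht.2
    set n : ℝ := (m : ℝ) + 1 with hn
    have hn1 : 1 ≤ n := by
      have : (0 : ℝ) ≤ m := Nat.cast_nonneg m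
      linarith
    have hn0 : 0 < n := by linarith
    set u : ℝ := n * t ^ 2 with hu
    have hu0 : 0 < u := by positivity
    set φ : ℝ := n * t * y with hφ
    set b : ℝ := 1 / (1 - Real.exp (-u)) with hb
    set G : ℝ := 1 / u + ∑ j ∈ Finset.range J, c j * u ^ j with hG
    set T : ℂ := ∑ l ∈ Finset.Ico 1 K, ((φ : ℂ) * Complex.I) ^ l / (l.factorial : ℂ) with hT
    set e : ℂ := Complex.exp ((φ : ℂ) * Complex.I) with he
    set a : ℝ := ρ ^ (m + 1) / n with ha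
    have ha0 : 0 ≤ a := by positivity
    have hxt : xt ρ y t m = (a : ℂ) * ((e - 1) * (b : ℂ)) := by
      simp only [xt, ha, hb, he]
      rw [show (((m : ℝ) + 1) * t * y : ℝ) = φ from rfl, show (((m : ℝ) + 1) * t ^ 2 : ℝ) = u from rfl]
      push_cast
      rw [show ((m : ℂ) + 1) = (n : ℂ) by rw [hn]; push_cast; ring, div_eq_mul_inv _ ((n : ℂ) * _),
        mul_inv]
      ring
    have hmt' : mt t y m = (a : ℂ) * ((G : ℂ) * T) := by
      simp only [hmt]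
      rw [hT, hG, ← mul_assoc, Finset.mul_sum]
      refine Finset.sum_congr rfl fun l _ => ?_
      have htc : (t : ℂ) ≠ 0 := by exact_mod_cast ht0.ne'
      have hnc : (n : ℂ) ≠ 0 := by exact_mod_cast hn0.ne'
      rw [ha, hu, hφ]
      push_cast
      rw [show ((m : ℂ) + 1) = (n : ℂ) by rw [hn]; push_cast; ring]
      rw [mul_add, add_mul]
      congr 1
      · field_simp
        ring
      · rw [Finset.mul_sum, Finset.sum_mul]
        refine Finset.sum_congr rfl fun j _ => ?_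
        field_simp
        ring
    have hE : ‖e - 1 - T‖ ≤ |φ| ^ K := by
      have h2 := exp_sub_sum_le ((φ : ℂ) * Complex.I) K
      have h3 : ∑ j ∈ Finset.range K, ((φ : ℂ) * Complex.I) ^ j / (j.factorial : ℂ) = 1 + T := by
        rw [Finset.range_eq_Ico, Finset.sum_eq_sum_Ico_succ_bot (by omega : 0 < K)]
        simp [hT]
      rw [h3] at h2
      have h4 : (((φ : ℂ) * Complex.I)).re = 0 := by simp
      rw [h4, Real.exp_zero, max_self, mul_one, norm_mul, Complex.norm_I, mul_one,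
        Complex.norm_real, Real.norm_eq_abs] at h2
      have h5 : e - 1 - T = e - (1 + T) := by ring
      rw [h5]
      refine h2.trans (div_le_self (by positivity) ?_)
      exact_mod_cast Nat.one_le_iff_ne_zero.mpr (Nat.factorial_ne_zero K)
    have he2 : ‖e - 1‖ ≤ 2 := by
      refine (norm_sub_le _ _).trans ?_
      rw [he, Complex.norm_exp_ofReal_mul_I, norm_one]
      norm_num
    have hR : |b - G| ≤ |C0| * u ^ J := by
      have h2 := hc u hu0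
      have h3 : b - G = 1 / (1 - Real.exp (-u)) - 1 / u - ∑ j ∈ Finset.range J, c j * u ^ j := by
        rw [hb, hG]; ring
      rw [h3]
      refine h2.trans (mul_le_mul_of_nonneg_right (le_abs_self _) (by positivity))
    set W : ℝ := n ^ (J + K) * (t ^ (N + 1) * (1 + |y|) ^ K) with hW
    have hW0 : 0 ≤ W := by positivity
    have hyK : |y| ^ K ≤ (1 + |y|) ^ K := pow_le_pow_left₀ (abs_nonneg y) (by linarith) _
    have hφK : |φ| ^ K = n ^ K * (t ^ K * |y| ^ K) := by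
      rw [hφ, abs_mul, abs_mul, abs_of_pos hn0, abs_of_pos ht0, mul_pow, mul_pow, mul_assoc]
    have key1 : 1 / u * |φ| ^ K ≤ W := by
      have h2 : 1 / u * |φ| ^ K = n ^ (K - 1) * (t ^ (N + 1) * |y| ^ K) := by
        rw [hφK, hu]
        have h3 : n ^ K = n ^ (K - 1) * n := by
          rw [← pow_succ]; congr 1
        have h4 : t ^ K = t ^ (N + 1) * t ^ 2 := by
          rw [← pow_add]
        rw [h3, h4]
        field_simp
      rw [h2]
      have h3 : n ^ (K - 1) ≤ n ^ (J + K) := pow_le_pow_right₀ hn1 (by omega)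
      rw [hW]
      gcongr
    have key2 : ∀ j ∈ Finset.range J, u ^ j * |φ| ^ K ≤ W := by
      intro j hj
      rw [Finset.mem_range] at hj
      have h2 : u ^ j * |φ| ^ K = n ^ (j + K) * (t ^ (2 * j + K) * |y| ^ K) := by
        rw [hφK, hu]; ring_nf
      rw [h2]
      have h3 : n ^ (j + K) ≤ n ^ (J + K) := pow_le_pow_right₀ hn1 (by omega)
      have h4 : t ^ (2 * j + K) ≤ t ^ (N + 1) := pow_le_pow_of_le_one ht0.le ht1 (by omega)
      rw [hW]
      gcongr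
    have key3 : u ^ J ≤ W := by
      have h2 : u ^ J = n ^ J * (t ^ (2 * J) * 1) := by rw [hu]; ring_nf
      rw [h2]
      have h3 : n ^ J ≤ n ^ (J + K) := pow_le_pow_right₀ hn1 (by omega)
      have h4 : t ^ (2 * J) ≤ t ^ (N + 1) := pow_le_pow_of_le_one ht0.le ht1 (by omega)
      have h5 : (1 : ℝ) ≤ (1 + |y|) ^ K := one_le_pow₀ (by linarith [abs_nonneg y])
      rw [hW]
      gcongr
    have hGabs : |G| * |φ| ^ K ≤ (1 + ∑ j ∈ Finset.range J, |c j|) * W := by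
      have h2 : |G| ≤ 1 / u + ∑ j ∈ Finset.range J, |c j| * u ^ j := by
        rw [hG]
        refine (abs_add_le _ _).trans (add_le_add ?_ ?_)
        · rw [abs_of_pos (by positivity)]
        · refine (Finset.abs_sum_le_sum_abs _ _).trans (Finset.sum_le_sum fun j _ => ?_)
          rw [abs_mul, abs_of_pos (pow_pos hu0 j)]
      calc |G| * |φ| ^ K ≤ (1 / u + ∑ j ∈ Finset.range J, |c j| * u ^ j) * |φ| ^ K := by
            gcongr
        _ = 1 / u * |φ| ^ K + ∑ j ∈ Finset.range J, |c j| * (u ^ j * |φ| ^ K) := by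
            rw [add_mul, Finset.sum_mul]
            congr 1
            exact Finset.sum_congr rfl fun j _ => by ring
        _ ≤ W + ∑ j ∈ Finset.range J, |c j| * W := by
            refine add_le_add key1 (Finset.sum_le_sum fun j hj => ?_)
            exact mul_le_mul_of_nonneg_left (key2 j hj) (abs_nonneg _)
        _ = (1 + ∑ j ∈ Finset.range J, |c j|) * W := by
            rw [← Finset.sum_mul]; ring
    have hdiff : xt ρ y t m - mt t y m =
        (a : ℂ) * ((G : ℂ) * (e - 1 - T) + ((b - G : ℝ) : ℂ) * (e - 1)) := by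
      rw [hxt, hmt']
      push_cast
      ring
    rw [hdiff, norm_mul, Complex.norm_real, Real.norm_eq_abs, abs_of_nonneg ha0]
    have h2 : ‖(G : ℂ) * (e - 1 - T) + ((b - G : ℝ) : ℂ) * (e - 1)‖ ≤ C1 * W := by
      refine (norm_add_le _ _).trans ?_
      rw [norm_mul, norm_mul, Complex.norm_real, Complex.norm_real, Real.norm_eq_abs,
        Real.norm_eq_abs]
      have h3 : |G| * ‖e - 1 - T‖ ≤ (1 + ∑ j ∈ Finset.range J, |c j|) * W :=
        (mul_le_mul_of_nonneg_left hE (abs_nonneg _)).trans hGabs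
      have h4 : |b - G| * ‖e - 1‖ ≤ 2 * |C0| * W := by
        calc |b - G| * ‖e - 1‖ ≤ (|C0| * u ^ J) * 2 := by gcongr
          _ ≤ (|C0| * W) * 2 := by gcongr
          _ = 2 * |C0| * W := by ring
      rw [hC1]
      linarith
    calc a * ‖(G : ℂ) * (e - 1 - T) + ((b - G : ℝ) : ℂ) * (e - 1)‖ ≤ a * (C1 * W) := by gcongr
      _ ≤ ρ ^ (m + 1) * (C1 * W) := by
          have h3 : a ≤ ρ ^ (m + 1) := div_le_self (by positivity) hn1
          gcongr
      _ = (C1 * t ^ (N + 1) * (1 + |y|) ^ K) * (ρ ^ (m + 1) * n ^ (J + K)) := by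
          rw [hW]; ring
  -- the sum of the errors
  set S : ℝ := ∑' m : ℕ, ρ ^ (m + 1) * ((m : ℝ) + 1) ^ (J + K) with hS
  have hS0 : 0 ≤ S := tsum_nonneg fun m => by positivity
  set main : ℝ → ℝ → ℂ := fun t y =>
    ∑ l ∈ Finset.Ico 1 K, (((y : ℂ) * Complex.I) ^ l / (l.factorial : ℂ) * (t : ℂ) ^ l /
        (t : ℂ) ^ 2 * (σ l : ℂ) +
      ∑ j ∈ Finset.range J, (c j : ℂ) * (((y : ℂ) * Complex.I) ^ l / (l.factorial : ℂ)) *
        (t : ℂ) ^ (2 * j + l) * (σ' (j + l) : ℂ)) with hmain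
  have hXi : ∀ t ∈ Set.Ioc (0 : ℝ) 1, ∀ y : ℝ,
      ‖Xi ρ y t - main t y‖ ≤ C1 * S * t ^ (N + 1) * (1 + |y|) ^ K := by
    intro t ht y
    obtain ⟨hs, hX⟩ := summable_xt h0 h1 y ht.1
    have h2 : Xi ρ y t - main t y = ∑' m, (xt ρ y t m - mt t y m) := by
      rw [hs.tsum_sub (hmt_sum t y).summable, (hmt_sum t y).tsum_eq, hX]
    have h3 : HasSum (fun m : ℕ => (C1 * t ^ (N + 1) * (1 + |y|) ^ K) *
        (ρ ^ (m + 1) * ((m : ℝ) + 1) ^ (J + K))) ((C1 * t ^ (N + 1) * (1 + |y|) ^ K) * S) :=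
      (xi_summable h0 h1 (J + K)).hasSum.mul_left _
    rw [h2]
    refine (tsum_of_norm_bounded h3 (herr t ht y)).trans_eq ?_
    ring
  -- the main part
  have hcol : XCol N (fun t y =>
      (∑ l ∈ Finset.Ico 3 K, (t : ℂ) ^ (l - 2) *
        ((Complex.I ^ l / (l.factorial : ℂ) * (σ l : ℂ)) * (y : ℂ) ^ l)) +
      (∑ l ∈ Finset.Ico 1 K, ∑ j ∈ Finset.range J, (t : ℂ) ^ (2 * j + l) *
        (((c j : ℂ) * (Complex.I ^ l / (l.factorial : ℂ)) * (σ' (j + l) : ℂ)) * (y : ℂ) ^ l))) := by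
    refine XCol.add (XCol.sum _ fun l hl => ?_) (XCol.sum _ fun l hl => XCol.sum _ fun j _ => ?_)
    · rw [Finset.mem_Ico] at hl
      exact XCol.mono (by omega) _ _
    · rw [Finset.mem_Ico] at hl
      exact XCol.mono (by omega) _ _
  obtain ⟨p, M, C, hC, hp⟩ := hcol
  refine ⟨p, max M K, C + C1 * S, fun t ht y => ?_⟩
  have h2 := hp t ht y
  have h3 := hXi t ht y
  have htc : (t : ℂ) ≠ 0 := by exact_mod_cast ht.1.ne'
  have hmaineq : main t y = ((-(Real.log (1 - ρ)) * y / t : ℝ) : ℂ) * Complex.I -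
          ((ρ / (1 - ρ) * y ^ 2 / 2 : ℝ) : ℂ) +
      ((∑ l ∈ Finset.Ico 3 K, (t : ℂ) ^ (l - 2) *
        ((Complex.I ^ l / (l.factorial : ℂ) * (σ l : ℂ)) * (y : ℂ) ^ l)) +
      (∑ l ∈ Finset.Ico 1 K, ∑ j ∈ Finset.range J, (t : ℂ) ^ (2 * j + l) *
        (((c j : ℂ) * (Complex.I ^ l / (l.factorial : ℂ)) * (σ' (j + l) : ℂ)) * (y : ℂ) ^ l))) := by
    simp only [hmain]
    rw [Finset.sum_add_distrib, ← add_assoc]
    congr 1
    · rw [Finset.sum_eq_sum_Ico_succ_bot (by omega : 1 < K),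
        Finset.sum_eq_sum_Ico_succ_bot (by omega : 1 + 1 < K), ← add_assoc]
      congr 1
      · have e1 : σ 1 = -Real.log (1 - ρ) := xi_tsum_one h0 h1
        have e2 : σ (1 + 1) = ρ / (1 - ρ) := xi_tsum_two h0 h1
        rw [e1, e2]
        simp only [Nat.factorial, Nat.succ_eq_add_one]
        push_cast
        have hI := Complex.I_sq
        field_simp
        ring_nf
        rw [hI]
        ring
      · refine Finset.sum_congr rfl fun l hl => ?_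
        rw [Finset.mem_Ico] at hl
        have h4 : (t : ℂ) ^ l = (t : ℂ) ^ (l - 2) * (t : ℂ) ^ 2 := by
          rw [← pow_add]; congr 1; omega
        rw [h4, mul_pow]
        field_simp
    · refine Finset.sum_congr rfl fun l _ => Finset.sum_congr rfl fun j _ => ?_
      rw [mul_pow]
      ring
  have h5 : Xi ρ y t - (((-(Real.log (1 - ρ)) * y / t : ℝ) : ℂ) * Complex.I -
          ((ρ / (1 - ρ) * y ^ 2 / 2 : ℝ) : ℂ) +
          ∑ k ∈ Finset.range N, (t : ℂ) ^ (k + 1) * (p k).eval (y : ℂ)) =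
      (Xi ρ y t - main t y) +
      (((∑ l ∈ Finset.Ico 3 K, (t : ℂ) ^ (l - 2) *
        ((Complex.I ^ l / (l.factorial : ℂ) * (σ l : ℂ)) * (y : ℂ) ^ l)) +
      (∑ l ∈ Finset.Ico 1 K, ∑ j ∈ Finset.range J, (t : ℂ) ^ (2 * j + l) *
        (((c j : ℂ) * (Complex.I ^ l / (l.factorial : ℂ)) * (σ' (j + l) : ℂ)) * (y : ℂ) ^ l))) -
        ∑ k ∈ Finset.range N, (t : ℂ) ^ (k + 1) * (p k).eval (y : ℂ)) := by
    rw [hmaineq]
    ring
  rw [h5]
  refine (norm_add_le _ _).trans ((add_le_add h3 h2).trans ?_)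
  have h6 := one_add_abs_pow_le y (le_max_left M K)
  have h7 := one_add_abs_pow_le y (le_max_right M K)
  have ht0 : 0 ≤ t ^ (N + 1) := pow_nonneg ht.1.le _
  calc C1 * S * t ^ (N + 1) * (1 + |y|) ^ K + C * t ^ (N + 1) * (1 + |y|) ^ M
      ≤ C1 * S * t ^ (N + 1) * (1 + |y|) ^ (max M K) + C * t ^ (N + 1) * (1 + |y|) ^ (max M K) := by
        gcongr
    _ = (C + C1 * S) * t ^ (N + 1) * (1 + |y|) ^ (max M K) := by ring

end Pool.Agent.Lib.MP_8ce23f_nt.R2
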