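import Pool.Agent.Lib.MP_8ce23f_nt.R2.ExpRem
import Pool.Agent.Lib.MP_8ce23f_nt.R2.XiExp
import Pool.Agent.Lib.MP_8ce23f_nt.R2.XiReg
import Pool.Agent.Lib.MP_8ce23f_nt.R2.PolyExpAlg

/-!
# Expansion of the integrand

Job GExp.  Put `u₁ = Lw1 a w`, `u₂ = Lw2 a h d w`, `E = -((1-Q₁)/Q₁ u₁² + (1-Q₂)/Q₂ u₂²)/2 ≤ 0`,
`Z t w = Xi (1-Q₁) u₁ t + Xi (1-Q₂) u₂ t - i (w·κ)/t - E`.  The linear terms cancel:
`-log (1-ρ_j) = -log Q_j` and `u₁ (-log Q₁) + u₂ (-log Q₂) = w·κ`; also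
`ρ_j/(1-ρ_j) = (1-Q_j)/Q_j`.  So by `Xi_expansion` (substitute the linear forms `u₁, u₂` in the
polynomials), `Z = t * Z₁` with `PolyExp Z₁ N z`.
Then `g = exp (-|w|²/2) exp (E + Z)`, `exp (-qf w) = exp (-|w|²/2) exp E`,
`Re (E + Z) ≤ 0` (`Xi_re_le`), and by `exp_sub_sum_le` with `J = N+1`:
`‖exp (E+Z) - exp E ∑_{j<J} Z^j/j!‖ ≤ exp E ‖Z‖^J/J! max (1, exp (Re Z)) ≤ ‖Z‖^J/J! ≤ C t^J (1+|w|)^M`.
Finally `∑_{j<J} Z^j/j! = ∑_{j<J} t^j Z₁^j/j!` is a `PolyExp` of order `N+1` with `p 0 = 1`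
(`PolyExp.pow`, `PolyExp.t_mul` iterated, `PolyExp.trunc`).
-/

open Filter Topology Asymptotics MeasureTheory
open scoped Real

namespace Pool.Agent.Lib.MP_8ce23f_nt.R2

theorem gexp_congr {f f' : ℝ → ℝ × ℝ → ℂ} {N : ℕ} {p : ℕ → P} (hf : PolyExp f N p)
    (h : ∀ t ∈ Set.Ioc (0 : ℝ) 1, ∀ w, f t w = f' t w) : PolyExp f' N p := by
  obtain ⟨M, C, hC⟩ := hf
  exact ⟨M, C, fun t ht w => by rw [← h t ht w]; exact hC t ht w⟩

theorem gexp_t_pow {f : ℝ → ℝ × ℝ → ℂ} {N : ℕ} {p : ℕ → P} (hf : PolyExp f N p) (j : ℕ) :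
    ∃ p' : ℕ → P, (1 ≤ j → p' 0 = 0) ∧ PolyExp (fun t w => (t : ℂ) ^ j * f t w) (N + j) p' := by
  induction j with
  | zero => exact ⟨p, fun h => absurd h (by omega), by simpa using hf⟩
  | succ j ih =>
    obtain ⟨p', _, h⟩ := ih
    refine ⟨_, fun _ => ?_, gexp_congr h.t_mul ?_⟩
    · simp
    · intro t _ w
      ring

theorem gexp_ev (q : P) (p : Polynomial ℂ) (x y : ℂ) :
    ev x y (Polynomial.aeval q p) = p.eval (ev x y q) := by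
  rw [Polynomial.aeval_def, Polynomial.hom_eval₂]
  have h : (ev x y).comp (algebraMap ℂ P) = RingHom.id ℂ := by
    ext c
    simp [ev, MvPolynomial.algebraMap_eq]
  rw [h, Polynomial.eval₂_id]

/-- the quadratic part of the exponent -/
noncomputable def gexp_E (a h d Q₁ Q₂ : ℝ) (w : ℝ × ℝ) : ℝ :=
  -((1 - Q₁) / Q₁ * Lw1 a w ^ 2 + (1 - Q₂) / Q₂ * Lw2 a h d w ^ 2) / 2

/-- the small part of the exponent -/
noncomputable def gexp_Z (a h d Q₁ Q₂ t : ℝ) (w : ℝ × ℝ) : ℂ :=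
  Xi (1 - Q₁) (Lw1 a w) t + Xi (1 - Q₂) (Lw2 a h d w) t -
    ((w.1 * κ1 a h Q₁ Q₂ + w.2 * κ2 a h d Q₂) / t : ℝ) * Complex.I -
    (gexp_E a h d Q₁ Q₂ w : ℝ)

theorem gexp_bd (l l' : ℝ) (M M' : ℕ) (w : ℝ × ℝ) :
    (1 + |l * w.1 + l' * w.2|) ^ M ≤
      (1 + |l| + |l'|) ^ M * (1 + |w.1| + |w.2|) ^ (M + M') := by
  have h1 : |l * w.1 + l' * w.2| ≤ |l| * |w.1| + |l'| * |w.2| := by
    refine (abs_add_le _ _).trans ?_
    rw [abs_mul, abs_mul]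
  have hl := abs_nonneg l
  have hl' := abs_nonneg l'
  have hw := abs_nonneg w.1
  have hw' := abs_nonneg w.2
  have h2 : 1 + |l * w.1 + l' * w.2| ≤ (1 + |l| + |l'|) * (1 + |w.1| + |w.2|) := by
    have e1 := mul_nonneg hl hw'
    have e2 := mul_nonneg hl' hw
    nlinarith
  calc (1 + |l * w.1 + l' * w.2|) ^ M
      ≤ ((1 + |l| + |l'|) * (1 + |w.1| + |w.2|)) ^ M :=
        pow_le_pow_left₀ (by positivity) h2 M
    _ = (1 + |l| + |l'|) ^ M * (1 + |w.1| + |w.2|) ^ M := mul_pow _ _ _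
    _ ≤ (1 + |l| + |l'|) ^ M * (1 + |w.1| + |w.2|) ^ (M + M') := by
        refine mul_le_mul_of_nonneg_left ?_ (by positivity)
        exact pow_le_pow_right₀ (by linarith) (by omega)

theorem gexp_Z_exp {a h d Q₁ Q₂ : ℝ} (hQ : NahmSol a h d Q₁ Q₂) (N : ℕ) :
    ∃ p : ℕ → P, PolyExp (fun t w => (t : ℂ)⁻¹ * gexp_Z a h d Q₁ Q₂ t w) N p := by
  obtain ⟨p1, M1, C1, h1⟩ := Xi_expansion (ρ := 1 - Q₁) (by linarith [hQ.lt₁])
    (by linarith [hQ.pos₁]) N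
  obtain ⟨p2, M2, C2, h2⟩ := Xi_expansion (ρ := 1 - Q₂) (by linarith [hQ.lt₂])
    (by linarith [hQ.pos₂]) N
  refine ⟨fun k => Polynomial.aeval (MvPolynomial.C ((l11 a : ℝ) : ℂ) * MvPolynomial.X 0 : P) (p1 k)
    + Polynomial.aeval (MvPolynomial.C ((l21 a h : ℝ) : ℂ) * MvPolynomial.X 0
      + MvPolynomial.C ((l22 a h d : ℝ) : ℂ) * MvPolynomial.X 1 : P) (p2 k), M1 + M2,
    |C1| * (1 + |l11 a| + |0|) ^ M1 + |C2| * (1 + |l21 a h| + |l22 a h d|) ^ M2, ?_⟩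
  intro t ht w
  have ht0 : 0 < t := ht.1
  have htc : (t : ℂ) ≠ 0 := by exact_mod_cast ht0.ne'
  have b1 := h1 t ht (Lw1 a w)
  have b2 := h2 t ht (Lw2 a h d w)
  set A := Xi (1 - Q₁) (Lw1 a w) t - (((-(Real.log (1 - (1 - Q₁))) * Lw1 a w / t : ℝ) : ℂ) * Complex.I -
          (((1 - Q₁) / (1 - (1 - Q₁)) * Lw1 a w ^ 2 / 2 : ℝ) : ℂ) +
          ∑ k ∈ Finset.range N, (t : ℂ) ^ (k + 1) * (p1 k).eval ((Lw1 a w : ℝ) : ℂ)) with hA
  set B := Xi (1 - Q₂) (Lw2 a h d w) t - (((-(Real.log (1 - (1 - Q₂))) * Lw2 a h d w / t : ℝ) : ℂ) * Complex.I -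
          (((1 - Q₂) / (1 - (1 - Q₂)) * Lw2 a h d w ^ 2 / 2 : ℝ) : ℂ) +
          ∑ k ∈ Finset.range N, (t : ℂ) ^ (k + 1) * (p2 k).eval ((Lw2 a h d w : ℝ) : ℂ)) with hB
  have key : (t : ℂ)⁻¹ * gexp_Z a h d Q₁ Q₂ t w - ∑ k ∈ Finset.range N, (t : ℂ) ^ k *
      ev w.1 w.2 (Polynomial.aeval (MvPolynomial.C ((l11 a : ℝ) : ℂ) * MvPolynomial.X 0 : P) (p1 k)
    + Polynomial.aeval (MvPolynomial.C ((l21 a h : ℝ) : ℂ) * MvPolynomial.X 0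
      + MvPolynomial.C ((l22 a h d : ℝ) : ℂ) * MvPolynomial.X 1 : P) (p2 k))
      = (t : ℂ)⁻¹ * (A + B) := by
    have e1 : ∀ k, ev w.1 w.2 (Polynomial.aeval (MvPolynomial.C ((l11 a : ℝ) : ℂ) * MvPolynomial.X 0 : P) (p1 k)
    + Polynomial.aeval (MvPolynomial.C ((l21 a h : ℝ) : ℂ) * MvPolynomial.X 0
      + MvPolynomial.C ((l22 a h d : ℝ) : ℂ) * MvPolynomial.X 1 : P) (p2 k))
      = (p1 k).eval ((Lw1 a w : ℝ) : ℂ) + (p2 k).eval ((Lw2 a h d w : ℝ) : ℂ) := by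
      intro k
      rw [map_add, gexp_ev, gexp_ev]
      have f1 : ev w.1 w.2 (MvPolynomial.C ((l11 a : ℝ) : ℂ) * MvPolynomial.X 0 : P)
          = ((Lw1 a w : ℝ) : ℂ) := by
        simp [ev, Lw1]
      have f2 : ev w.1 w.2 (MvPolynomial.C ((l21 a h : ℝ) : ℂ) * MvPolynomial.X 0
          + MvPolynomial.C ((l22 a h d : ℝ) : ℂ) * MvPolynomial.X 1 : P)
          = ((Lw2 a h d w : ℝ) : ℂ) := by
        simp [ev, Lw2]
      rw [f1, f2]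
    have e2 : ∑ k ∈ Finset.range N, (t : ℂ) ^ k *
      ev w.1 w.2 (Polynomial.aeval (MvPolynomial.C ((l11 a : ℝ) : ℂ) * MvPolynomial.X 0 : P) (p1 k)
    + Polynomial.aeval (MvPolynomial.C ((l21 a h : ℝ) : ℂ) * MvPolynomial.X 0
      + MvPolynomial.C ((l22 a h d : ℝ) : ℂ) * MvPolynomial.X 1 : P) (p2 k))
      = (t : ℂ)⁻¹ * (∑ k ∈ Finset.range N, (t : ℂ) ^ (k + 1) * (p1 k).eval ((Lw1 a w : ℝ) : ℂ)
        + ∑ k ∈ Finset.range N, (t : ℂ) ^ (k + 1) * (p2 k).eval ((Lw2 a h d w : ℝ) : ℂ)) := by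
      rw [← Finset.sum_add_distrib, Finset.mul_sum]
      refine Finset.sum_congr rfl fun k _ => ?_
      rw [e1, pow_succ]
      field_simp
    rw [e2, ← mul_sub]
    congr 1
    have e3 : (1 - (1 - Q₁)) = Q₁ := by ring
    have e4 : (1 - (1 - Q₂)) = Q₂ := by ring
    rw [hA, hB, e3, e4]
    unfold gexp_Z gexp_E κ1 κ2 Lw1 Lw2
    push_cast
    field_simp
    ring
  show ‖(t : ℂ)⁻¹ * gexp_Z a h d Q₁ Q₂ t w - ∑ k ∈ Finset.range N, (t : ℂ) ^ k *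
      ev w.1 w.2 (Polynomial.aeval (MvPolynomial.C ((l11 a : ℝ) : ℂ) * MvPolynomial.X 0 : P) (p1 k)
    + Polynomial.aeval (MvPolynomial.C ((l21 a h : ℝ) : ℂ) * MvPolynomial.X 0
      + MvPolynomial.C ((l22 a h d : ℝ) : ℂ) * MvPolynomial.X 1 : P) (p2 k))‖ ≤ _
  rw [key, norm_mul, norm_inv, Complex.norm_real, Real.norm_of_nonneg ht0.le]
  have g1 : (1 + |Lw1 a w|) ^ M1 ≤ (1 + |l11 a| + |0|) ^ M1 * (1 + |w.1| + |w.2|) ^ (M1 + M2) := by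
    have := gexp_bd (l11 a) 0 M1 M2 w
    rw [zero_mul, add_zero] at this
    exact this
  have g2 : (1 + |Lw2 a h d w|) ^ M2 ≤
      (1 + |l21 a h| + |l22 a h d|) ^ M2 * (1 + |w.1| + |w.2|) ^ (M1 + M2) := by
    have := gexp_bd (l21 a h) (l22 a h d) M2 M1 w
    rw [add_comm M2 M1] at this
    exact this
  have c1 : ‖A‖ ≤ |C1| * t ^ (N + 1) * ((1 + |l11 a| + |0|) ^ M1 * (1 + |w.1| + |w.2|) ^ (M1 + M2)) := by
    refine b1.trans ?_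
    refine mul_le_mul (mul_le_mul_of_nonneg_right (le_abs_self _) (by positivity)) g1
      (by positivity) (by positivity)
  have c2 : ‖B‖ ≤ |C2| * t ^ (N + 1) *
      ((1 + |l21 a h| + |l22 a h d|) ^ M2 * (1 + |w.1| + |w.2|) ^ (M1 + M2)) := by
    refine b2.trans ?_
    refine mul_le_mul (mul_le_mul_of_nonneg_right (le_abs_self _) (by positivity)) g2
      (by positivity) (by positivity)
  calc t⁻¹ * ‖A + B‖ ≤ t⁻¹ * (|C1| * t ^ (N + 1) * ((1 + |l11 a| + |0|) ^ M1 * (1 + |w.1| + |w.2|) ^ (M1 + M2))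
        + |C2| * t ^ (N + 1) * ((1 + |l21 a h| + |l22 a h d|) ^ M2 * (1 + |w.1| + |w.2|) ^ (M1 + M2))) := by
        refine mul_le_mul_of_nonneg_left ?_ (by positivity)
        exact (norm_add_le _ _).trans (add_le_add c1 c2)
    _ = (|C1| * (1 + |l11 a| + |0|) ^ M1 + |C2| * (1 + |l21 a h| + |l22 a h d|) ^ M2) * t ^ N *
        (1 + |w.1| + |w.2|) ^ (M1 + M2) := by
        rw [pow_succ]
        field_simp

theorem gexp_main {a h d Q₁ Q₂ : ℝ} (hQ : NahmSol a h d Q₁ Q₂) (N : ℕ) :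
    ∃ p : ℕ → P, p 0 = 1 ∧ PolyExp (fun t w => ∑ j ∈ Finset.range (N + 1),
      (gexp_Z a h d Q₁ Q₂ t w) ^ j / (j.factorial : ℂ)) (N + 1) p := by
  obtain ⟨z, hz⟩ := gexp_Z_exp hQ N
  have h1 : ∀ j : ℕ, ∃ p : ℕ → P, (p 0 = if j = 0 then 1 else 0) ∧
      PolyExp (fun t w => (gexp_Z a h d Q₁ Q₂ t w) ^ j / (j.factorial : ℂ)) (N + 1) p := by
    intro j
    rcases Nat.eq_zero_or_pos j with rfl | hj
    · refine ⟨fun k => if k = 0 then 1 else 0, by simp, ?_⟩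
      exact gexp_congr (PolyExp.one (N + 1)) (fun t _ w => by simp)
    · obtain ⟨q, _, hq⟩ := hz.pow j
      obtain ⟨q', hq'0, hq'⟩ := gexp_t_pow (hq.const_mul ((j.factorial : ℂ)⁻¹)) j
      refine ⟨q', ?_, ?_⟩
      · rw [hq'0 hj, if_neg (by omega)]
      · refine gexp_congr (hq'.trunc (by omega : N + 1 ≤ N + j)) ?_
        intro t ht w
        have htc : (t : ℂ) ≠ 0 := by exact_mod_cast ht.1.ne'
        rw [mul_pow, inv_pow]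
        field_simp
  choose p hp0 hp using h1
  refine ⟨fun k => ∑ j ∈ Finset.range (N + 1), p j k, ?_, ?_⟩
  · show ∑ j ∈ Finset.range (N + 1), p j 0 = 1
    rw [Finset.sum_eq_single 0]
    · rw [hp0, if_pos rfl]
    · intro j _ hj
      rw [hp0, if_neg hj]
    · intro h
      exact absurd (Finset.mem_range.2 (by omega)) h
  · exact PolyExp.sum (Finset.range (N + 1)) (fun j _ => hp j)

theorem g_expansion {a h d Q₁ Q₂ : ℝ} (hA : PD a h d) (hQ : NahmSol a h d Q₁ Q₂) (N : ℕ) :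
    ∃ (p : ℕ → P) (M : ℕ) (C : ℝ), p 0 = 1 ∧ ∀ t ∈ Set.Ioc (0 : ℝ) 1, ∀ w : ℝ × ℝ,
      ‖g a h d Q₁ Q₂ t w - Complex.exp (-(qf a h d Q₁ Q₂ w : ℝ)) *
          ∑ k ∈ Finset.range (N + 1), (t : ℂ) ^ k * ev w.1 w.2 (p k)‖ ≤
        C * t ^ (N + 1) * ((1 + |w.1| + |w.2|) ^ M * Real.exp (-((w.1 ^ 2 + w.2 ^ 2) / 2))) := by
  obtain ⟨p, hp0, M2, C2, hp⟩ := gexp_main hQ N
  obtain ⟨z, hz⟩ := gexp_Z_exp hQ N
  obtain ⟨M1, C1, hC1, hb⟩ := hz.bound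
  refine ⟨p, M1 * (N + 1) + M2, C1 ^ (N + 1) + |C2|, hp0, ?_⟩
  intro t ht w
  have ht0 : 0 < t := ht.1
  have htc : (t : ℂ) ≠ 0 := by exact_mod_cast ht0.ne'
  set Z := gexp_Z a h d Q₁ Q₂ t w with hZ
  set E := gexp_E a h d Q₁ Q₂ w with hE
  set G := Real.exp (-((w.1 ^ 2 + w.2 ^ 2) / 2)) with hG
  have hE0 : E ≤ 0 := by
    have e1 : 0 ≤ (1 - Q₁) / Q₁ := div_nonneg (by linarith [hQ.lt₁]) hQ.pos₁.le
    have e2 : 0 ≤ (1 - Q₂) / Q₂ := div_nonneg (by linarith [hQ.lt₂]) hQ.pos₂.le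
    have e3 := mul_nonneg e1 (sq_nonneg (Lw1 a w))
    have e4 := mul_nonneg e2 (sq_nonneg (Lw2 a h d w))
    rw [hE]
    unfold gexp_E
    linarith
  have hEZ : (E : ℂ) + Z = Xi (1 - Q₁) (Lw1 a w) t + Xi (1 - Q₂) (Lw2 a h d w) t -
      ((w.1 * κ1 a h Q₁ Q₂ + w.2 * κ2 a h d Q₂) / t : ℝ) * Complex.I := by
    rw [hZ, hE]
    unfold gexp_Z
    ring
  have hre : E + Z.re ≤ 0 := by
    have e1 := congrArg Complex.re hEZ
    rw [Complex.add_re, Complex.ofReal_re, Complex.sub_re, Complex.add_re, Complex.re_ofReal_mul,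
      Complex.I_re, mul_zero, sub_zero] at e1
    have e2 := Xi_re_le (ρ := 1 - Q₁) (by linarith [hQ.lt₁]) (by linarith [hQ.pos₁]) (Lw1 a w) ht0
    have e3 := Xi_re_le (ρ := 1 - Q₂) (by linarith [hQ.lt₂]) (by linarith [hQ.pos₂]) (Lw2 a h d w) ht0
    linarith
  have hg : g a h d Q₁ Q₂ t w = (G : ℂ) * (Real.exp E : ℂ) * Complex.exp Z := by
    rw [hG, Complex.ofReal_exp, Complex.ofReal_exp, ← Complex.exp_add, ← Complex.exp_add]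
    unfold g
    congr 1
    rw [Complex.ofReal_neg]
    linear_combination -hEZ
  have hq : Complex.exp (-(qf a h d Q₁ Q₂ w : ℝ)) = (G : ℂ) * (Real.exp E : ℂ) := by
    rw [hG, Complex.ofReal_exp, Complex.ofReal_exp, ← Complex.exp_add]
    congr 1
    rw [hE]
    unfold qf gexp_E
    push_cast
    ring
  have hG0 : 0 < G := Real.exp_pos _
  have hEx0 : 0 < Real.exp E := Real.exp_pos _
  have hEx1 : Real.exp E ≤ 1 := Real.exp_le_one_iff.2 hE0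
  set S := ∑ j ∈ Finset.range (N + 1), Z ^ j / (j.factorial : ℂ) with hS
  set R := ∑ k ∈ Finset.range (N + 1), (t : ℂ) ^ k * ev w.1 w.2 (p k) with hR
  have h1 : ‖Complex.exp Z - S‖ ≤ ‖Z‖ ^ (N + 1) / ((N + 1).factorial : ℝ) * max 1 (Real.exp Z.re) :=
    exp_sub_sum_le Z (N + 1)
  have hW : 1 ≤ 1 + |w.1| + |w.2| := by
    have := abs_nonneg w.1
    have := abs_nonneg w.2
    linarith
  have h2 : ‖Z‖ ≤ t * (C1 * (1 + |w.1| + |w.2|) ^ M1) := by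
    have e1 := hb t ht w
    rw [norm_mul, norm_inv, Complex.norm_real, Real.norm_of_nonneg ht0.le,
      inv_mul_le_iff₀ ht0] at e1
    exact e1
  have h3 : Real.exp E * ‖Complex.exp Z - S‖ ≤ ‖Z‖ ^ (N + 1) := by
    have e1 : Real.exp E * max 1 (Real.exp Z.re) ≤ 1 := by
      rw [mul_max_of_nonneg _ _ hEx0.le, mul_one, ← Real.exp_add]
      exact max_le hEx1 (Real.exp_le_one_iff.2 hre)
    have e2 : (1 : ℝ) ≤ ((N + 1).factorial : ℝ) := by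
      exact_mod_cast Nat.factorial_pos (N + 1)
    have e3 : ‖Z‖ ^ (N + 1) / ((N + 1).factorial : ℝ) ≤ ‖Z‖ ^ (N + 1) :=
      div_le_self (by positivity) e2
    calc Real.exp E * ‖Complex.exp Z - S‖
        ≤ Real.exp E * (‖Z‖ ^ (N + 1) / ((N + 1).factorial : ℝ) * max 1 (Real.exp Z.re)) :=
          mul_le_mul_of_nonneg_left h1 hEx0.le
      _ = (‖Z‖ ^ (N + 1) / ((N + 1).factorial : ℝ)) * (Real.exp E * max 1 (Real.exp Z.re)) := by ring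
      _ ≤ (‖Z‖ ^ (N + 1) / ((N + 1).factorial : ℝ)) * 1 :=
          mul_le_mul_of_nonneg_left e1 (by positivity)
      _ ≤ ‖Z‖ ^ (N + 1) := by rw [mul_one]; exact e3
  have h4 : ‖Z‖ ^ (N + 1) ≤ C1 ^ (N + 1) * t ^ (N + 1) * (1 + |w.1| + |w.2|) ^ (M1 * (N + 1) + M2) := by
    calc ‖Z‖ ^ (N + 1) ≤ (t * (C1 * (1 + |w.1| + |w.2|) ^ M1)) ^ (N + 1) :=
          pow_le_pow_left₀ (norm_nonneg _) h2 _
      _ = C1 ^ (N + 1) * t ^ (N + 1) * (1 + |w.1| + |w.2|) ^ (M1 * (N + 1)) := by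
          rw [mul_pow, mul_pow, ← pow_mul]
          ring
      _ ≤ C1 ^ (N + 1) * t ^ (N + 1) * (1 + |w.1| + |w.2|) ^ (M1 * (N + 1) + M2) := by
          refine mul_le_mul_of_nonneg_left ?_ (by positivity)
          exact pow_le_pow_right₀ hW (by omega)
  have h5 : ‖S - R‖ ≤ |C2| * t ^ (N + 1) * (1 + |w.1| + |w.2|) ^ (M1 * (N + 1) + M2) := by
    have e1 := hp t ht w
    refine e1.trans ?_
    refine mul_le_mul (mul_le_mul_of_nonneg_right (le_abs_self _) (by positivity)) ?_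
      (by positivity) (by positivity)
    exact pow_le_pow_right₀ hW (by omega)
  have h6 : g a h d Q₁ Q₂ t w - Complex.exp (-(qf a h d Q₁ Q₂ w : ℝ)) * R
      = (G : ℂ) * ((Real.exp E : ℂ) * (Complex.exp Z - S) + (Real.exp E : ℂ) * (S - R)) := by
    rw [hg, hq]
    ring
  rw [h6, norm_mul, Complex.norm_real, Real.norm_of_nonneg hG0.le]
  have h7 : ‖(Real.exp E : ℂ) * (Complex.exp Z - S) + (Real.exp E : ℂ) * (S - R)‖ ≤
      (C1 ^ (N + 1) + |C2|) * t ^ (N + 1) * (1 + |w.1| + |w.2|) ^ (M1 * (N + 1) + M2) := by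
    refine (norm_add_le _ _).trans ?_
    rw [norm_mul, norm_mul, Complex.norm_real, Real.norm_of_nonneg hEx0.le]
    have e1 : Real.exp E * ‖S - R‖ ≤ ‖S - R‖ := mul_le_of_le_one_left (norm_nonneg _) hEx1
    calc Real.exp E * ‖Complex.exp Z - S‖ + Real.exp E * ‖S - R‖
        ≤ C1 ^ (N + 1) * t ^ (N + 1) * (1 + |w.1| + |w.2|) ^ (M1 * (N + 1) + M2)
          + |C2| * t ^ (N + 1) * (1 + |w.1| + |w.2|) ^ (M1 * (N + 1) + M2) :=
          add_le_add (h3.trans h4) (e1.trans h5)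
      _ = (C1 ^ (N + 1) + |C2|) * t ^ (N + 1) * (1 + |w.1| + |w.2|) ^ (M1 * (N + 1) + M2) := by ring
  calc G * ‖(Real.exp E : ℂ) * (Complex.exp Z - S) + (Real.exp E : ℂ) * (S - R)‖
      ≤ G * ((C1 ^ (N + 1) + |C2|) * t ^ (N + 1) * (1 + |w.1| + |w.2|) ^ (M1 * (N + 1) + M2)) :=
        mul_le_mul_of_nonneg_left h7 hG0.le
    _ = (C1 ^ (N + 1) + |C2|) * t ^ (N + 1) *
        ((1 + |w.1| + |w.2|) ^ (M1 * (N + 1) + M2) * G) := by ring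

end Pool.Agent.Lib.MP_8ce23f_nt.R2
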