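import Pool.Agent.Lib.MP_8ce23f_nt.R2.IntExp
import Pool.Agent.Lib.MP_8ce23f_nt.R2.Exact
import Pool.Agent.Lib.MP_8ce23f_nt.R2.AsyCalc

/-!
# The asymptotic series

Job Gam.  Combine `FN_eq_integral`, `integral_expansion` with `patch`, `Asy.exp_sq`, `Asy.mul`,
`Asy.const_mul`: `Γ = E2 ((S₁² + S₂²)/2) * C (C (2π)⁻¹) * Γ₁` where `S₁, S₂ : P` are the linear
polynomials with `ev x y S₁ = s1 a x`, `ev x y S₂ = s2 a h d x y`
(`map_ev_E2`).
-/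

open Filter Topology Asymptotics MeasureTheory
open scoped Real

namespace Pool.Agent.Lib.MP_8ce23f_nt.R2

/-- The linear polynomial with values `s1 a x`. -/
private noncomputable def gam_S1 (a : ℝ) : P :=
  MvPolynomial.X 0 * MvPolynomial.C (((l11 a : ℝ) : ℂ)⁻¹)

/-- The linear polynomial with values `s2 a h d x y`. -/
private noncomputable def gam_S2 (a h d : ℝ) : P :=
  (MvPolynomial.X 1 - MvPolynomial.C ((l21 a h : ℝ) : ℂ) * gam_S1 a) *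
    MvPolynomial.C (((l22 a h d : ℝ) : ℂ)⁻¹)

private theorem gam_ev_S1 (a x y : ℝ) : ev x y (gam_S1 a) = ((s1 a x : ℝ) : ℂ) := by
  simp [ev, gam_S1, s1, div_eq_mul_inv]

private theorem gam_ev_S2 (a h d x y : ℝ) :
    ev x y (gam_S2 a h d) = ((s2 a h d x y : ℝ) : ℂ) := by
  have h1 := gam_ev_S1 a x y
  simp only [gam_S2, map_mul, map_sub, h1, s2]
  simp [ev, div_eq_mul_inv]

private theorem gam_ev_sq (a h d x y : ℝ) :
    ev x y (MvPolynomial.C (1 / 2 : ℂ) * (gam_S1 a ^ 2 + gam_S2 a h d ^ 2)) =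
      (((s1 a x ^ 2 + s2 a h d x y ^ 2) / 2 : ℝ) : ℂ) := by
  rw [map_mul, map_add, map_pow, map_pow, gam_ev_S1, gam_ev_S2]
  have h1 : ev x y (MvPolynomial.C (1 / 2 : ℂ)) = 1 / 2 := by simp [ev]
  rw [h1]
  push_cast
  ring

private theorem gam_constantCoeff_E2 (r : P) : PowerSeries.constantCoeff (E2 r) = 1 := by
  rw [← PowerSeries.coeff_zero_eq_constantCoeff_apply, E2, PowerSeries.coeff_mk]
  simp

theorem exists_Gam {a h d Q₁ Q₂ : ℝ} (hA : PD a h d) (hQ : NahmSol a h d Q₁ Q₂) :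
    ∃ (Γ : PowerSeries P) (γ : ℂ), γ ≠ 0 ∧ PowerSeries.constantCoeff Γ = MvPolynomial.C γ ∧
      ∀ x y : ℝ, Asy (fun t => (FN a h d Q₁ Q₂ x y t : ℂ)) (PowerSeries.map (ev x y) Γ) := by
  obtain ⟨Γ₁, hΓ₁, hAsy⟩ := patch (fun x y t => ∫ w : ℝ × ℝ,
      Complex.exp ((t * (w.1 * s1 a x + w.2 * s2 a h d x y) : ℝ) * Complex.I) *
        g a h d Q₁ Q₂ t w)
    (MvPolynomial.C (∫ w : ℝ × ℝ, Complex.exp (-(qf a h d Q₁ Q₂ w : ℝ))))
    (fun N => integral_expansion hA hQ N)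
  have hpi : (2 * π : ℂ)⁻¹ ≠ 0 := by
    apply inv_ne_zero
    exact mul_ne_zero two_ne_zero (by exact_mod_cast Real.pi_ne_zero)
  refine ⟨E2 (MvPolynomial.C (1 / 2 : ℂ) * (gam_S1 a ^ 2 + gam_S2 a h d ^ 2)) *
    (PowerSeries.C (MvPolynomial.C ((2 * π : ℂ)⁻¹)) * Γ₁),
    (2 * π : ℂ)⁻¹ * ∫ w : ℝ × ℝ, Complex.exp (-(qf a h d Q₁ Q₂ w : ℝ)),
    mul_ne_zero hpi (integral_qf_ne_zero hQ), ?_, fun x y => ?_⟩
  · rw [map_mul, map_mul, gam_constantCoeff_E2, hΓ₁, one_mul, PowerSeries.constantCoeff_C,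
      ← MvPolynomial.C_mul]
  · rw [map_mul, map_mul, map_ev_E2, gam_ev_sq, PowerSeries.map_C]
    have hC : ev x y (MvPolynomial.C ((2 * π : ℂ)⁻¹)) = (2 * π : ℂ)⁻¹ := by simp [ev]
    rw [hC]
    refine Asy.congr' ?_ (Asy.mul (Asy.exp_sq _) (Asy.const_mul (hAsy x y) ((2 * π : ℂ)⁻¹)))
    filter_upwards [self_mem_nhdsWithin] with t ht
    rw [FN_eq_integral hA hQ x y ht]
    congr 2
    push_cast
    ring

end Pool.Agent.Lib.MP_8ce23f_nt.R2
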