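import Pool.Agent.Lib.MP_8ce23f_nt.Main
import Pool.Agent.Lib.MP_8ce23f_nt.R2.Defs

/-!
# Scaling and the Hermite normal form

Job HDecomp.  For `γ = (a b; c d)`: `m = (N a, N b; M c, M d)` has determinant `N M > 0`.  With
`e = gcd (N a, M c)`, `(α, β') = (N a/e, M c/e)` is the first column of some `γ' ∈ SL(2,ℤ)` (Bezout), and
`γ'⁻¹ m` is upper triangular `(e, *; 0, N M/e)`; make `0 ≤ r < s = N M/e` by multiplying with a power
of `T`.  `δ = diag(N, M)` acts by `τ ↦ (N/M) τ`, its denominator is `M`; the cocycle relation of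
`denom` gives the last claim (`denom (δ γ) τ = M denom γ τ = denom γ' (u τ) * s`).
-/

open Filter Topology Asymptotics
open scoped Real MatrixGroups Manifold
open UpperHalfPlane hiding I

namespace Pool.Agent.Lib.MP_8ce23f_nt.R2

/-- `τ ↦ α τ`. -/
noncomputable def sc (α : ℝ) (hα : 0 < α) (τ : ℍ) : ℍ :=
  ⟨(α : ℂ) * τ, by simpa using mul_pos hα τ.im_pos⟩

/-- `τ ↦ (p τ + r)/s`. -/
noncomputable def ut (p s : ℕ) (hp : 0 < p) (hs : 0 < s) (r : ℕ) (τ : ℍ) : ℍ :=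
  ⟨((p : ℂ) * τ + r) / s, by
    have h1 : (((p : ℂ) * τ + r) / s).im = p * τ.im / s := by
      simp [Complex.div_natCast_im, Complex.add_im, Complex.mul_im]
    rw [h1]
    have := τ.im_pos
    positivity⟩

theorem coe_ut (p s : ℕ) (hp : 0 < p) (hs : 0 < s) (r : ℕ) (τ : ℍ) :
    ((ut p s hp hs r τ : ℍ) : ℂ) = ((p : ℂ) * τ + r) / s := rfl

theorem hermite_aux (a b c d : ℤ) (N M : ℕ) (hN : 0 < N) (hM : 0 < M) (hdet : a * d - b * c = 1) :
    ∃ (A B C D : ℤ) (p s r : ℕ), 0 < p ∧ 0 < s ∧ r < s ∧ p * s = N * M ∧ A * D - B * C = 1 ∧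
      (N : ℤ) * a = A * p ∧ (N : ℤ) * b = A * r + B * s ∧
      (M : ℤ) * c = C * p ∧ (M : ℤ) * d = C * r + D * s := by
  have hN' : (0 : ℤ) < N := by exact_mod_cast hN
  have hM' : (0 : ℤ) < M := by exact_mod_cast hM
  set e : ℕ := Int.gcd ((N : ℤ) * a) ((M : ℤ) * c) with he
  have hene : e ≠ 0 := by
    intro h
    rw [he, Int.gcd_eq_zero_iff] at h
    obtain ⟨h1, h2⟩ := h
    have ha : a = 0 := by
      rcases mul_eq_zero.1 h1 with h | h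
      · omega
      · exact h
    have hc : c = 0 := by
      rcases mul_eq_zero.1 h2 with h | h
      · omega
      · exact h
    rw [ha, hc] at hdet
    simp at hdet
  have he0 : 0 < e := Nat.pos_of_ne_zero hene
  have he0' : (0 : ℤ) < e := by exact_mod_cast he0
  obtain ⟨α, hα⟩ : (e : ℤ) ∣ (N : ℤ) * a := Int.gcd_dvd_left _ _
  obtain ⟨β, hβ⟩ : (e : ℤ) ∣ (M : ℤ) * c := Int.gcd_dvd_right _ _
  obtain ⟨x0, y0, hxy⟩ : ∃ x0 y0 : ℤ, (e : ℤ) = (N : ℤ) * a * x0 + (M : ℤ) * c * y0 :=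
    ⟨_, _, Int.gcd_eq_gcd_ab _ _⟩
  have hbez : α * x0 + β * y0 = 1 := by
    have : (e : ℤ) * (α * x0 + β * y0) = e * 1 := by
      rw [mul_one]
      conv_rhs => rw [hxy, hα, hβ]
      ring
    exact mul_left_cancel₀ he0'.ne' this
  obtain ⟨s', hs'⟩ : ∃ s' : ℤ, s' = α * (M * d) - β * (N * b) := ⟨_, rfl⟩
  have hes : (e : ℤ) * s' = N * M := by
    rw [hs']
    have h1 : (e : ℤ) * (α * (M * d) - β * (N * b)) = (e * α) * (M * d) - (e * β) * (N * b) := by ring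
    rw [h1, ← hα, ← hβ]
    have h2 : (N : ℤ) * a * (M * d) - M * c * (N * b) = N * M * (a * d - b * c) := by ring
    rw [h2, hdet, mul_one]
  have hs0 : 0 < s' := by
    have : 0 < (e : ℤ) * s' := by rw [hes]; positivity
    exact (mul_pos_iff_of_pos_left he0').1 this
  obtain ⟨s, rfl⟩ : ∃ s : ℕ, (s : ℤ) = s' := ⟨s'.toNat, Int.toNat_of_nonneg hs0.le⟩
  obtain ⟨r0, hr0⟩ : ∃ r0 : ℤ, r0 = x0 * (N * b) + y0 * (M * d) := ⟨_, rfl⟩
  obtain ⟨k, hk⟩ : ∃ k : ℤ, k = r0 / s := ⟨_, rfl⟩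
  have hr1 : 0 ≤ r0 % s := Int.emod_nonneg _ hs0.ne'
  have hr2 : r0 % s < s := Int.emod_lt_of_pos _ hs0
  obtain ⟨r, hr⟩ : ∃ r : ℕ, (r : ℤ) = r0 % s := ⟨(r0 % s).toNat, Int.toNat_of_nonneg hr1⟩
  have hr3 : (r : ℤ) = r0 - s * k := by
    rw [hr, hk, Int.emod_def]
  refine ⟨α, -y0 + α * k, β, x0 + β * k, e, s, r, he0, by exact_mod_cast hs0, ?_, ?_, ?_, ?_, ?_, ?_, ?_⟩
  · have : (r : ℤ) < s := by rw [hr]; exact hr2
    exact_mod_cast this
  · exact_mod_cast hes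
  · linear_combination hbez
  · rw [hα]; ring
  · rw [hr3]
    linear_combination (-(N : ℤ) * b) * hbez - α * hr0 + y0 * hs'
  · rw [hβ]; ring
  · rw [hr3]
    linear_combination (-(M : ℤ) * d) * hbez - β * hr0 - x0 * hs'

theorem sc_smul (N M : ℕ) (hN : 0 < N) (hM : 0 < M) (γ : SL(2, ℤ)) :
    ∃ (γ' : SL(2, ℤ)) (p s : ℕ) (r : ℕ) (hp : 0 < p) (hs : 0 < s), p * s = N * M ∧ r < s ∧
      ∀ τ : ℍ, sc ((N : ℝ) / M) (by positivity) (γ • τ) = γ' • ut p s hp hs r τ ∧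
        (s : ℂ) * denom γ' (ut p s hp hs r τ) = M * denom γ τ := by
  have hdet : γ 0 0 * γ 1 1 - γ 0 1 * γ 1 0 = 1 := by
    have := γ.det_coe
    rw [Matrix.det_fin_two] at this
    exact this
  obtain ⟨A, B, C, D, p, s, r, hp, hs, hr, hps, hdet', h1, h2, h3, h4⟩ :=
    hermite_aux (γ 0 0) (γ 0 1) (γ 1 0) (γ 1 1) N M hN hM hdet
  obtain ⟨γ', hγ'⟩ : ∃ γ' : SL(2, ℤ), (γ' : Matrix (Fin 2) (Fin 2) ℤ) = !![A, B; C, D] :=
    ⟨⟨!![A, B; C, D], by rw [Matrix.det_fin_two_of]; exact hdet'⟩, rfl⟩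
  have g00 : γ' 0 0 = A := by
    rw [hγ']; rfl
  have g01 : γ' 0 1 = B := by
    rw [hγ']; rfl
  have g10 : γ' 1 0 = C := by
    rw [hγ']; rfl
  have g11 : γ' 1 1 = D := by
    rw [hγ']; rfl
  refine ⟨γ', p, s, r, hp, hs, hps, hr, fun τ => ?_⟩
  have hs0 : (s : ℂ) ≠ 0 := by exact_mod_cast hs.ne'
  have hM0 : (M : ℂ) ≠ 0 := by exact_mod_cast hM.ne'
  have c1 : (N : ℂ) * (γ 0 0 : ℤ) = A * p := by exact_mod_cast h1
  have c2 : (N : ℂ) * (γ 0 1 : ℤ) = A * r + B * s := by exact_mod_cast h2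
  have c3 : (M : ℂ) * (γ 1 0 : ℤ) = C * p := by exact_mod_cast h3
  have c4 : (M : ℂ) * (γ 1 1 : ℤ) = C * r + D * s := by exact_mod_cast h4
  have e1 : (s : ℂ) * denom γ' (ut p s hp hs r τ) = M * denom γ τ := by
    rw [ModularGroup.denom_apply, ModularGroup.denom_apply, coe_ut, g10, g11]
    field_simp
    linear_combination (-(τ : ℂ)) * c3 - c4
  refine ⟨?_, e1⟩
  have hd1 : denom γ τ ≠ 0 := denom_ne_zero _ _
  have hd2 : denom γ' (ut p s hp hs r τ) ≠ 0 := denom_ne_zero _ _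
  have n1 : ((γ • τ : ℍ) : ℂ) = ((γ 0 0 : ℤ) * (τ : ℂ) + (γ 0 1 : ℤ)) / denom γ τ := by
    rw [UpperHalfPlane.coe_specialLinearGroup_apply, ModularGroup.denom_apply]
    simp only [algebraMap_int_eq, eq_intCast, Complex.ofReal_intCast]
  have n2 : ((γ' • ut p s hp hs r τ : ℍ) : ℂ) =
      (A * (((p : ℂ) * τ + r) / s) + B) / denom γ' (ut p s hp hs r τ) := by
    rw [UpperHalfPlane.coe_specialLinearGroup_apply, ModularGroup.denom_apply, coe_ut, g00, g01]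
    simp only [algebraMap_int_eq, eq_intCast, Complex.ofReal_intCast, g10, g11]
  apply UpperHalfPlane.ext
  rw [n2]
  change (((N : ℝ) / M : ℝ) : ℂ) * ((γ • τ : ℍ) : ℂ) = _
  rw [n1]
  push_cast
  rw [eq_div_iff hd2]
  have e2 : denom γ' (ut p s hp hs r τ) = M * denom γ τ / s := by
    rw [eq_div_iff hs0, mul_comm, e1]
  rw [e2]
  field_simp
  linear_combination (τ : ℂ) * c1 + c2

end Pool.Agent.Lib.MP_8ce23f_nt.R2
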