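import Pool.Agent.Lib.MP_8ce23f_nt.R2.HScale

/-!
# Eta quotients

Job HEta.  First `α = N` a positive integer.  `(η(Nτ)/η(τ))^24 = Δ(Nτ)/Δ(τ)`, `Good.of_pow` with
`n = 24`.  Modularity of `Δ = ModularForm.discriminant`: `discriminant_S_invariant`,
`discriminant_T_invariant` (generators) give `Δ (γ • τ) = denom γ τ ^ 12 Δ τ` for all `γ`; maybe Mathlib
has `Δ` as a modular form of level one.  By `sc_smul` (`M = 1`):
`Δ(N(γτ))/Δ(γτ) = denom γ' (uτ)^12 Δ(uτ)/(denom γ τ^12 Δ(τ)) = s^(-12) Δ(uτ)/Δ(τ)`, finitely many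
functions; at most poles at the cusps: `Δ τ = q ∏ (1-q^n)^24`, `‖Δ τ‖ exp (2π im τ) → 1`
(`discriminant_eq_q_prod`, `discriminant_bounded_factor`, `exp_isBigO_discriminant`), `modInf_ut`.
General `α = N/M`: `η(ατ)/η(τ) = (η(Nσ)/η(σ)) / (η(Mσ)/η(σ))` at `σ = τ/M`, `good_sc`, `Good.inv`,
`Good.mul`.
-/

open Filter Topology Asymptotics
open scoped Real MatrixGroups Manifold
open UpperHalfPlane hiding I

namespace Pool.Agent.Lib.MP_8ce23f_nt.R2

open scoped ModularForm in
/-- modularity of the discriminant -/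
theorem heta_disc_smul (γ : SL(2, ℤ)) (τ : ℍ) :
    ModularForm.discriminant (γ • τ) = denom γ τ ^ 12 * ModularForm.discriminant τ := by
  have h1 : (ModularForm.discriminant ∣[(12 : ℤ)] γ) = ModularForm.discriminant :=
    SlashInvariantForm.slash_action_generators_SL2Z ModularForm.discriminant_S_invariant
      ModularForm.discriminant_T_invariant γ
  have h2 := congrFun h1 τ
  rw [ModularForm.SL_slash_apply] at h2
  have h3 : denom γ τ ≠ 0 := denom_ne_zero _ _
  rw [← h2, mul_comm, mul_assoc, ← zpow_natCast, ← zpow_add₀ h3]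
  norm_num

theorem heta_eta_pow (τ : ℍ) : ModularForm.eta τ ^ 24 = ModularForm.discriminant τ := rfl

theorem heta_mdiff {α : ℝ} (hα : 0 < α) :
    MDifferentiable 𝓘(ℂ) 𝓘(ℂ)
      (fun τ : ℍ => ModularForm.eta (sc α hα τ) / ModularForm.eta τ) := by
  rw [UpperHalfPlane.mdifferentiable_iff]
  have h1 : DifferentiableOn ℂ (fun z : ℂ => ModularForm.eta ((α : ℂ) * z) / ModularForm.eta z)
      {z | 0 < z.im} := by
    intro z hz
    have hz' : 0 < ((α : ℂ) * z).im := by
      rw [Complex.im_ofReal_mul]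
      exact mul_pos hα hz
    have h2 := ModularForm.differentiableAt_eta_of_mem_upperHalfPlaneSet (z := z) hz
    have h3 := ModularForm.differentiableAt_eta_of_mem_upperHalfPlaneSet (z := (α : ℂ) * z) hz'
    have h4 : DifferentiableAt ℂ (fun z : ℂ => ModularForm.eta ((α : ℂ) * z)) z :=
      h3.comp z (by fun_prop)
    exact (h4.div h2 (ModularForm.eta_ne_zero hz)).differentiableWithinAt
  refine h1.congr fun z hz => ?_
  simp only [Function.comp_apply]
  rw [UpperHalfPlane.ofComplex_apply_of_im_pos hz]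
  rfl

/-- the functions in the orbit -/
noncomputable def heta_F (M : ℕ) (x : ℕ × ℕ × ℕ) (τ : ℍ) : ℂ :=
  ((M : ℂ) / ((x.2.1 + 1 : ℕ) : ℂ)) ^ 12 *
    (ModularForm.discriminant (ut (x.1 + 1) (x.2.1 + 1) (Nat.succ_pos _) (Nat.succ_pos _) x.2.2 τ) /
      ModularForm.discriminant τ)

theorem heta_ut_im (p s : ℕ) (hp : 0 < p) (hs : 0 < s) (r : ℕ) (τ : ℍ) :
    (ut p s hp hs r τ).im = p * τ.im / s := by
  have h1 : (((p : ℂ) * τ + r) / s).im = p * τ.im / s := by
    simp [Complex.div_natCast_im, Complex.add_im, Complex.mul_im]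
  exact h1

theorem heta_tendsto_ut (p s : ℕ) (hp : 0 < p) (hs : 0 < s) (r : ℕ) :
    Tendsto (ut p s hp hs r) atImInfty atImInfty := by
  rw [atImInfty, tendsto_comap_iff]
  have h1 : (UpperHalfPlane.im ∘ ut p s hp hs r) = fun τ : ℍ => (p : ℝ) / s * τ.im := by
    funext τ
    simp only [Function.comp_apply]
    rw [heta_ut_im]
    ring
  rw [h1]
  have h2 : (0 : ℝ) < (p : ℝ) / s := by positivity
  exact (tendsto_comap).const_mul_atTop h2

theorem heta_modInf (M : ℕ) (x : ℕ × ℕ × ℕ) : ModInf (heta_F M x) := by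
  refine ⟨1, ?_⟩
  have h1 : (fun τ : ℍ => ModularForm.discriminant
      (ut (x.1 + 1) (x.2.1 + 1) (Nat.succ_pos _) (Nat.succ_pos _) x.2.2 τ)) =O[atImInfty]
      fun _ : ℍ => (1 : ℝ) := by
    have h2 := ModularForm.discriminant_isZeroAtImInfty
    have h3 : Tendsto ModularForm.discriminant atImInfty (𝓝 0) := h2
    exact (h3.comp (heta_tendsto_ut _ _ _ _ _)).isBigO_one ℝ
  have h4 := ModularForm.exp_isBigO_discriminant
  have h5 : (fun τ : ℍ => qr ((1 : ℕ) : ℝ) τ) =O[atImInfty] ModularForm.discriminant := by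
    refine IsBigO.trans ?_ h4
    refine IsBigO.of_bound 1 (Filter.Eventually.of_forall fun τ => ?_)
    rw [norm_qr, Real.norm_of_nonneg (Real.exp_pos _).le, one_mul]
    refine Real.exp_le_exp.2 (le_of_eq ?_)
    push_cast
    ring
  have h6 : (fun τ : ℍ => qr ((1 : ℕ) : ℝ) τ / ModularForm.discriminant τ) =O[atImInfty]
      fun _ : ℍ => (1 : ℝ) := by
    obtain ⟨C, hC⟩ := h5.bound
    refine IsBigO.of_bound C ?_
    filter_upwards [hC] with τ hτ
    rw [norm_div, div_le_iff₀ (norm_pos_iff.2 (ModularForm.discriminant_ne_zero τ)), norm_one,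
      mul_one]
    exact hτ
  have h7 := (h6.mul h1).const_mul_left (((M : ℂ) / ((x.2.1 + 1 : ℕ) : ℂ)) ^ 12)
  have h8 : (fun τ : ℍ => qr ((1 : ℕ) : ℝ) τ * heta_F M x τ) =O[atImInfty]
      fun _ : ℍ => (1 : ℝ) := by
    refine h7.congr (fun τ => ?_) (fun τ => by norm_num)
    unfold heta_F
    ring
  exact h8

theorem heta_good_disc (N M : ℕ) (hN : 0 < N) (hM : 0 < M) :
    (∀ g ∈ orb (fun τ : ℍ => ModularForm.discriminant (sc ((N : ℝ) / M) (by positivity) τ) /
      ModularForm.discriminant τ), g ∈ heta_F M '' ((Set.Iic (N * M)) ×ˢ (Set.Iic (N * M)) ×ˢ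
        (Set.Iic (N * M)))) := by
  rintro _ ⟨γ, rfl⟩
  obtain ⟨γ', p, s, r, hp, hs, hps, hrs, H⟩ := sc_smul N M hN hM γ
  have hle1 : p ≤ N * M := by rw [← hps]; exact Nat.le_mul_of_pos_right p hs
  have hle2 : s ≤ N * M := by rw [← hps]; exact Nat.le_mul_of_pos_left s hp
  obtain ⟨p, rfl⟩ : ∃ p', p = p' + 1 := ⟨p - 1, by omega⟩
  obtain ⟨s, rfl⟩ : ∃ s', s = s' + 1 := ⟨s - 1, by omega⟩
  refine ⟨(p, s, r), ⟨?_, ?_, ?_⟩, ?_⟩
  · simp only [Set.mem_Iic]; omega
  · simp only [Set.mem_Iic]; omega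
  · simp only [Set.mem_Iic]; omega
  · funext τ
    obtain ⟨H1, H2⟩ := H τ
    simp only [heta_F]
    rw [H1, heta_disc_smul, heta_disc_smul]
    have h3 : denom γ τ ≠ 0 := denom_ne_zero _ _
    have h4 : ModularForm.discriminant τ ≠ 0 := ModularForm.discriminant_ne_zero τ
    have h5 : ((s + 1 : ℕ) : ℂ) ≠ 0 := by exact_mod_cast Nat.succ_ne_zero s
    have h6 : denom γ' (ut (p + 1) (s + 1) hp hs r τ) = (M : ℂ) * denom γ τ / ((s + 1 : ℕ) : ℂ) := by
      rw [eq_div_iff h5, mul_comm]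
      exact H2
    rw [h6]
    field_simp

theorem heta_main (N M : ℕ) (hN : 0 < N) (hM : 0 < M) :
    Good (fun τ : ℍ => ModularForm.eta (sc ((N : ℝ) / M) (by positivity) τ) /
      ModularForm.eta τ) := by
  have hα : (0 : ℝ) < (N : ℝ) / M := by positivity
  have hne : ∀ τ : ℍ, ModularForm.eta (sc ((N : ℝ) / M) hα τ) / ModularForm.eta τ ≠ 0 := fun τ =>
    div_ne_zero (ModularForm.eta_ne_zero (sc ((N : ℝ) / M) hα τ).2) (ModularForm.eta_ne_zero τ.2)
  have hpow : (fun τ : ℍ => (ModularForm.eta (sc ((N : ℝ) / M) hα τ) / ModularForm.eta τ) ^ 24) =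
      fun τ : ℍ => ModularForm.discriminant (sc ((N : ℝ) / M) hα τ) /
        ModularForm.discriminant τ := by
    funext τ
    rw [div_pow, heta_eta_pow, heta_eta_pow]
  refine Good.of_pow (heta_mdiff hα) (n := 24) (by norm_num) ⟨?_, fun τ => pow_ne_zero _ (hne τ), ?_, ?_⟩
  · have : ∀ n : ℕ, MDifferentiable 𝓘(ℂ) 𝓘(ℂ)
        (fun τ : ℍ => (ModularForm.eta (sc ((N : ℝ) / M) hα τ) / ModularForm.eta τ) ^ n) := by
      intro n
      induction n with
      | zero => simpa using mdifferentiable_const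
      | succ n ih =>
        simp only [pow_succ]
        exact ih.mul (heta_mdiff hα)
    exact this 24
  · rw [hpow]
    exact ((((Set.finite_Iic (N * M)).prod ((Set.finite_Iic (N * M)).prod
      (Set.finite_Iic (N * M)))).image _).subset (heta_good_disc N M hN hM))
  · rw [hpow]
    intro g hg
    obtain ⟨x, -, rfl⟩ := heta_good_disc N M hN hM g hg
    exact heta_modInf M x

theorem good_eta_quot {α : ℚ} (hα : 0 < (α : ℝ)) :
    Good (fun τ => ModularForm.eta (sc α hα τ) / ModularForm.eta τ) := by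
  have h1 : 0 < α := by exact_mod_cast hα
  have h2 : 0 < α.num := Rat.num_pos.2 h1
  have h3 : ((α.num.toNat : ℕ) : ℝ) / ((α.den : ℕ) : ℝ) = (α : ℝ) := by
    have h4 : ((α.num.toNat : ℕ) : ℤ) = α.num := Int.toNat_of_nonneg h2.le
    have h5 : ((α.num.toNat : ℕ) : ℝ) = ((α.num : ℤ) : ℝ) := by
      rw [← h4]
      push_cast
      rfl
    rw [h5]
    exact_mod_cast Rat.num_div_den α
  have h6 := heta_main α.num.toNat α.den (by omega) α.den_pos
  have h7 : (fun τ : ℍ => ModularForm.eta (sc (((α.num.toNat : ℕ) : ℝ) / ((α.den : ℕ) : ℝ))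
      (by rw [h3]; exact hα) τ) / ModularForm.eta τ) =
      fun τ : ℍ => ModularForm.eta (sc α hα τ) / ModularForm.eta τ := by
    funext τ
    congr 2
    simp only [sc, h3]
  rw [← h7]
  exact h6

end Pool.Agent.Lib.MP_8ce23f_nt.R2
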