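import Pool.Agent.Lib.MP_8ce23f_nt.R2.HDecomp

/-!
# `Good` is closed under rational scaling

Job HScale.  `α = N/M`.  By `sc_smul` `f (α (γ τ)) = f (γ' (u τ)) = g (u τ)` with `g ∈ orb f`
(finite) and `u` in the finite set `p s = N M`, `r < s`.  Growth: `ModInf g` and
`im (u τ) = (p/s) im τ`: `‖g σ‖ ≤ K exp (2π m im σ)` for `im σ ≥ Y`.  Holomorphy:
`mdifferentiable_iff`, composition with an affine map preserving the upper half plane.
-/

open Filter Topology Asymptotics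
open scoped Real MatrixGroups Manifold
open UpperHalfPlane hiding I

namespace Pool.Agent.Lib.MP_8ce23f_nt.R2

theorem sc_mdiff {f : ℍ → ℂ} (hf : MDifferentiable 𝓘(ℂ) 𝓘(ℂ) f) {α : ℝ} (hα : 0 < α) :
    MDifferentiable 𝓘(ℂ) 𝓘(ℂ) (fun τ => f (sc α hα τ)) := by
  rw [UpperHalfPlane.mdifferentiable_iff] at hf ⊢
  have hmaps : Set.MapsTo (fun z : ℂ => (α : ℂ) * z) {z : ℂ | 0 < z.im} {z : ℂ | 0 < z.im} := by
    intro z hz
    simp only [Set.mem_ofPred_eq] at hz ⊢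
    simpa using mul_pos hα hz
  have hd : DifferentiableOn ℂ (fun z : ℂ => (α : ℂ) * z) {z : ℂ | 0 < z.im} :=
    (differentiable_id.const_mul (α : ℂ)).differentiableOn
  refine (hf.comp hd hmaps).congr fun z hz => ?_
  have hz' : 0 < z.im := hz
  have hz2 : 0 < ((α : ℂ) * z).im := hmaps hz
  simp only [Function.comp_apply, ofComplex_apply_of_im_pos hz', ofComplex_apply_of_im_pos hz2]
  congr 1

private theorem hscale_ut_im (p s : ℕ) (hp : 0 < p) (hs : 0 < s) (r : ℕ) (τ : ℍ) :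
    (ut p s hp hs r τ).im = p * τ.im / s := by
  have h1 : (ut p s hp hs r τ).im = (((p : ℂ) * τ + r) / s).im := by
    rw [← coe_ut p s hp hs r τ]
    rfl
  rw [h1]
  simp [Complex.div_natCast_im, Complex.add_im, Complex.mul_im]

/-- A function built from finitely many `g` and finitely many `u` has at most a pole. -/
theorem modInf_ut {g : ℍ → ℂ} (hg : ModInf g) (p s : ℕ) (hp : 0 < p) (hs : 0 < s) (r : ℕ) :
    ModInf (fun τ => g (ut p s hp hs r τ)) := by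
  obtain ⟨m, hm⟩ := hg
  rw [isBoundedAtImInfty_iff] at hm
  obtain ⟨K, A, hKA⟩ := hm
  refine ⟨m * p, ?_⟩
  rw [isBoundedAtImInfty_iff]
  have hp' : (0 : ℝ) < p := by exact_mod_cast hp
  have hs' : (0 : ℝ) < s := by exact_mod_cast hs
  have hs1 : (1 : ℝ) ≤ s := by exact_mod_cast hs
  refine ⟨K, A * s / p, fun τ hτ => ?_⟩
  set u : ℍ := ut p s hp hs r τ with hu
  have him : u.im = p * τ.im / s := hscale_ut_im p s hp hs r τ
  have hA : A ≤ u.im := by
    rw [him, le_div_iff₀ hs', mul_comm (p : ℝ)]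
    rwa [div_le_iff₀ hp'] at hτ
  have h1 := hKA u hA
  rw [norm_mul, norm_qr] at h1 ⊢
  have h2 : Real.exp (-(2 * π * ((m * p : ℕ) : ℝ) * τ.im)) ≤
      Real.exp (-(2 * π * (m : ℝ) * u.im)) := by
    apply Real.exp_le_exp.mpr
    rw [him]
    push_cast
    have h3 : 0 ≤ 2 * π * (m : ℝ) * (p * τ.im) := by
      have := τ.im_pos
      positivity
    have h4 : 2 * π * (m : ℝ) * (p * τ.im / s) ≤ 2 * π * (m : ℝ) * (p * τ.im) := by
      have h5 : 2 * π * (m : ℝ) * (p * τ.im / s) = (2 * π * (m : ℝ) * (p * τ.im)) / s := by ring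
      rw [h5]
      exact div_le_self h3 hs1
    have h6 : 2 * π * ((m : ℝ) * p) * τ.im = 2 * π * (m : ℝ) * (p * τ.im) := by ring
    rw [h6]
    linarith
  exact (mul_le_mul_of_nonneg_right h2 (norm_nonneg _)).trans h1

private theorem hscale_sc_congr {α β : ℝ} (hα : 0 < α) (hβ : 0 < β) (h : α = β) (τ : ℍ) :
    sc α hα τ = sc β hβ τ := by
  subst h
  rfl

open Classical in
/-- The finitely many candidates. -/
private noncomputable def hscale_cand (x : (ℍ → ℂ) × (ℕ × ℕ) × ℕ) : ℍ → ℂ :=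
  if h : 0 < x.2.1.1 ∧ 0 < x.2.1.2 then fun τ => x.1 (ut x.2.1.1 x.2.1.2 h.1 h.2 x.2.2 τ) else x.1

private theorem hscale_orb {f : ℍ → ℂ} (N M : ℕ) (hN : 0 < N) (hM : 0 < M) (α : ℝ) (hα : 0 < α)
    (h : α = (N : ℝ) / M) (γ : SL(2, ℤ)) :
    ∃ (γ' : SL(2, ℤ)) (p s : ℕ) (r : ℕ) (hp : 0 < p) (hs : 0 < s), p * s = N * M ∧ r < s ∧
      (fun τ => f (sc α hα (γ • τ))) = fun τ => f (γ' • ut p s hp hs r τ) := by
  obtain ⟨γ', p, s, r, hp, hs, hps, hrs, hall⟩ := sc_smul N M hN hM γ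
  refine ⟨γ', p, s, r, hp, hs, hps, hrs, funext fun τ => ?_⟩
  rw [← (hall τ).1]
  congr 1
  exact hscale_sc_congr hα (by positivity) h _

theorem good_sc {f : ℍ → ℂ} (hf : Good f) {α : ℚ} (hα : 0 < (α : ℝ)) :
    Good (fun τ => f (sc α hα τ)) := by
  have hα' : 0 < α := by exact_mod_cast hα
  set N : ℕ := α.num.toNat with hN
  set M : ℕ := α.den with hM
  have hnum : 0 < α.num := Rat.num_pos.mpr hα'
  have hN0 : 0 < N := by omega
  have hM0 : 0 < M := α.den_pos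
  have hαNM : (α : ℝ) = (N : ℝ) / M := by
    have h1 : ((α.num : ℤ) : ℝ) = (N : ℝ) := by
      have h2 : (α.num : ℤ) = (N : ℤ) := by omega
      rw [h2]
      simp
    rw [← h1]
    exact Rat.cast_def α
  refine ⟨sc_mdiff hf.mdiff hα, fun τ => hf.ne_zero _, ?_, ?_⟩
  · have hfin : ((orb f) ×ˢ (((Set.Iic (N * M)) ×ˢ (Set.Iic (N * M)) : Set (ℕ × ℕ)) ×ˢ
        (Set.Iic (N * M) : Set ℕ))).Finite :=
      hf.fin.prod (((Set.finite_Iic _).prod (Set.finite_Iic _)).prod (Set.finite_Iic _))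
    refine (hfin.image hscale_cand).subset ?_
    rintro _ ⟨γ, rfl⟩
    obtain ⟨γ', p, s, r, hp, hs, hps, hrs, heq⟩ :=
      hscale_orb (f := f) N M hN0 hM0 (α : ℝ) hα hαNM γ
    refine ⟨((fun τ => f (γ' • τ)), (p, s), r), ?_, ?_⟩
    · have h1 : p ≤ N * M := by
        rw [← hps]
        exact Nat.le_mul_of_pos_right p hs
      have h2 : s ≤ N * M := by
        rw [← hps]
        exact Nat.le_mul_of_pos_left s hp
      refine Set.mem_prod.mpr ⟨⟨γ', rfl⟩, Set.mem_prod.mpr ⟨Set.mem_prod.mpr ⟨h1, h2⟩, ?_⟩⟩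
      change r ≤ N * M
      omega
    · change _ = fun τ => f (sc (α : ℝ) hα (γ • τ))
      rw [heq]
      simp only [hscale_cand, hp, hs, and_self, dite_true]
  · rintro _ ⟨γ, rfl⟩
    obtain ⟨γ', p, s, r, hp, hs, hps, hrs, heq⟩ :=
      hscale_orb (f := f) N M hN0 hM0 (α : ℝ) hα hαNM γ
    change ModInf (fun τ => f (sc (α : ℝ) hα (γ • τ)))
    rw [heq]
    exact modInf_ut (hf.growth _ ⟨γ', rfl⟩) p s hp hs r

end Pool.Agent.Lib.MP_8ce23f_nt.R2
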