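import Pool.Agent.Lib.MP_8ce23f_nt.R2.PolyExpAlg
import Pool.Agent.Lib.MP_8ce23f_nt.R2.XiReg

/-!
# Moments are polynomials

Job Moments.  `qf w ≥ |w|²/2`, so polynomial times `exp (-qf)` is integrable.  Expand
`(w₁ s₁ + w₂ s₂)^j` by the binomial theorem; `s₁, s₂` are linear polynomials in `x, y`
(`s1 a x = x/l11`, `s2 a h d x y = (y - l21 x/l11)/l22`; division by the constants is
multiplication by the inverse), and the integrals over `w` are constants.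
`∫ exp (-qf) > 0`: the integrand is continuous, integrable and positive.
-/

open Filter Topology Asymptotics MeasureTheory
open scoped Real

namespace Pool.Agent.Lib.MP_8ce23f_nt.R2

private theorem moments_cont_ev (p : P) : Continuous fun w : ℝ × ℝ => ev w.1 w.2 p := by
  have h1 : Continuous fun w : ℝ × ℝ => (![(w.1 : ℂ), (w.2 : ℂ)] : Fin 2 → ℂ) := by
    refine continuous_pi fun i => ?_
    fin_cases i
    · exact Complex.continuous_ofReal.comp continuous_fst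
    · exact Complex.continuous_ofReal.comp continuous_snd
  exact (MvPolynomial.continuous_eval p).comp h1

private theorem moments_cont_qf (a h d Q₁ Q₂ : ℝ) :
    Continuous fun w : ℝ × ℝ => qf a h d Q₁ Q₂ w := by
  unfold qf Lw1 Lw2
  fun_prop

private theorem moments_qf_ge {a h d Q₁ Q₂ : ℝ} (hQ : NahmSol a h d Q₁ Q₂) (w : ℝ × ℝ) :
    (w.1 ^ 2 + w.2 ^ 2) / 2 ≤ qf a h d Q₁ Q₂ w := by
  have h1 : 0 ≤ (1 - Q₁) / Q₁ * Lw1 a w ^ 2 :=
    mul_nonneg (div_nonneg (sub_nonneg.2 hQ.lt₁.le) hQ.pos₁.le) (sq_nonneg _)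
  have h2 : 0 ≤ (1 - Q₂) / Q₂ * Lw2 a h d w ^ 2 :=
    mul_nonneg (div_nonneg (sub_nonneg.2 hQ.lt₂.le) hQ.pos₂.le) (sq_nonneg _)
  unfold qf
  linarith

private theorem moments_norm_exp (a h d Q₁ Q₂ : ℝ) (w : ℝ × ℝ) :
    ‖Complex.exp (-(qf a h d Q₁ Q₂ w : ℝ))‖ = Real.exp (-(qf a h d Q₁ Q₂ w)) := by
  rw [Complex.norm_exp, Complex.neg_re, Complex.ofReal_re]

theorem integrable_poly_qf {a h d Q₁ Q₂ : ℝ} (hQ : NahmSol a h d Q₁ Q₂)
    (p : P) : Integrable fun w : ℝ × ℝ =>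
      Complex.exp (-(qf a h d Q₁ Q₂ w : ℝ)) * ev w.1 w.2 p := by
  obtain ⟨M, C, hC, hb⟩ := exists_ev_bound p
  refine ((integrable_gauss_poly M).const_mul C).mono' ?_ (Eventually.of_forall fun w => ?_)
  · refine Continuous.aestronglyMeasurable (Continuous.mul ?_ (moments_cont_ev p))
    exact Complex.continuous_exp.comp
      (Complex.continuous_ofReal.comp (moments_cont_qf a h d Q₁ Q₂)).neg
  · rw [norm_mul, moments_norm_exp]
    have h1 : Real.exp (-(qf a h d Q₁ Q₂ w)) ≤ Real.exp (-((w.1 ^ 2 + w.2 ^ 2) / 2)) :=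
      Real.exp_le_exp.2 (neg_le_neg (moments_qf_ge hQ w))
    calc Real.exp (-(qf a h d Q₁ Q₂ w)) * ‖ev w.1 w.2 p‖
        ≤ Real.exp (-((w.1 ^ 2 + w.2 ^ 2) / 2)) * (C * (1 + |w.1| + |w.2|) ^ M) :=
          mul_le_mul h1 (hb w) (norm_nonneg _) (Real.exp_pos _).le
      _ = C * ((1 + |w.1| + |w.2|) ^ M * Real.exp (-((w.1 ^ 2 + w.2 ^ 2) / 2))) := by ring

private theorem moments_ev_lin (x y : ℝ) (c d : ℂ) :
    ev x y (MvPolynomial.C c * MvPolynomial.X 0 + MvPolynomial.C d * MvPolynomial.X 1) =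
      c * x + d * y := by
  simp [ev]

private theorem moments_integrable {a h d Q₁ Q₂ : ℝ} (hQ : NahmSol a h d Q₁ Q₂)
    (j : ℕ) (p : P) (c e : ℝ) : Integrable fun w : ℝ × ℝ =>
      Complex.exp (-(qf a h d Q₁ Q₂ w : ℝ)) *
        (((w.1 * c + w.2 * e : ℝ) : ℂ) ^ j * ev w.1 w.2 p) := by
  have h1 := integrable_poly_qf hQ
    ((MvPolynomial.C (c : ℂ) * MvPolynomial.X 0 + MvPolynomial.C (e : ℂ) * MvPolynomial.X 1) ^ j * p)
  refine h1.congr (Eventually.of_forall fun w => ?_)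
  show Complex.exp (-(qf a h d Q₁ Q₂ w : ℝ)) * ev w.1 w.2
    ((MvPolynomial.C (c : ℂ) * MvPolynomial.X 0 + MvPolynomial.C (e : ℂ) * MvPolynomial.X 1) ^ j * p) =
    Complex.exp (-(qf a h d Q₁ Q₂ w : ℝ)) *
        (((w.1 * c + w.2 * e : ℝ) : ℂ) ^ j * ev w.1 w.2 p)
  rw [map_mul, map_pow, moments_ev_lin]
  push_cast
  ring

theorem exists_moment {a h d Q₁ Q₂ : ℝ} (hQ : NahmSol a h d Q₁ Q₂)
    (j : ℕ) (p : P) : ∃ m : P, ∀ x y : ℝ,
      ∫ w : ℝ × ℝ, Complex.exp (-(qf a h d Q₁ Q₂ w : ℝ)) *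
        (((w.1 * s1 a x + w.2 * s2 a h d x y : ℝ) : ℂ) ^ j * ev w.1 w.2 p) = ev x y m := by
  obtain ⟨S₁, hS₁⟩ : ∃ S : P, ∀ x y : ℝ, ev x y S = ((s1 a x : ℝ) : ℂ) := by
    refine ⟨MvPolynomial.C ((l11 a : ℂ))⁻¹ * MvPolynomial.X 0 +
      MvPolynomial.C 0 * MvPolynomial.X 1, fun x y => ?_⟩
    rw [moments_ev_lin]
    unfold s1
    push_cast
    ring
  obtain ⟨S₂, hS₂⟩ : ∃ S : P, ∀ x y : ℝ, ev x y S = ((s2 a h d x y : ℝ) : ℂ) := by
    refine ⟨MvPolynomial.C (-((l21 a h : ℂ) * ((l11 a : ℂ))⁻¹ * ((l22 a h d : ℂ))⁻¹)) *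
      MvPolynomial.X 0 + MvPolynomial.C ((l22 a h d : ℂ))⁻¹ * MvPolynomial.X 1, fun x y => ?_⟩
    rw [moments_ev_lin]
    unfold s2 s1
    push_cast
    ring
  induction j generalizing p with
  | zero =>
    refine ⟨MvPolynomial.C (∫ w : ℝ × ℝ, Complex.exp (-(qf a h d Q₁ Q₂ w : ℝ)) *
      ev w.1 w.2 p), fun x y => ?_⟩
    simp only [pow_zero, one_mul]
    simp [ev]
  | succ j ih =>
    obtain ⟨m₁, hm₁⟩ := ih (MvPolynomial.X 0 * p)
    obtain ⟨m₂, hm₂⟩ := ih (MvPolynomial.X 1 * p)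
    refine ⟨S₁ * m₁ + S₂ * m₂, fun x y => ?_⟩
    rw [map_add, map_mul, map_mul, ← hm₁ x y, ← hm₂ x y, hS₁, hS₂, ← integral_const_mul,
      ← integral_const_mul, ← integral_add
        ((moments_integrable hQ j (MvPolynomial.X 0 * p) (s1 a x) (s2 a h d x y)).const_mul _)
        ((moments_integrable hQ j (MvPolynomial.X 1 * p) (s1 a x) (s2 a h d x y)).const_mul _)]
    refine integral_congr_ae (Eventually.of_forall fun w => ?_)
    have e0 : ev w.1 w.2 (MvPolynomial.X 0 : P) = (w.1 : ℂ) := by simp [ev]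
    have e1 : ev w.1 w.2 (MvPolynomial.X 1 : P) = (w.2 : ℂ) := by simp [ev]
    simp only [map_mul, e0, e1]
    push_cast
    ring

theorem integral_qf_ne_zero {a h d Q₁ Q₂ : ℝ} (hQ : NahmSol a h d Q₁ Q₂) :
    ∫ w : ℝ × ℝ, Complex.exp (-(qf a h d Q₁ Q₂ w : ℝ)) ≠ 0 := by
  have h1 : ∀ w : ℝ × ℝ, Complex.exp (-(qf a h d Q₁ Q₂ w : ℝ)) =
      ((Real.exp (-(qf a h d Q₁ Q₂ w)) : ℝ) : ℂ) := by
    intro w
    rw [Complex.ofReal_exp, Complex.ofReal_neg]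
  have h2 : Integrable fun w : ℝ × ℝ => Real.exp (-(qf a h d Q₁ Q₂ w)) := by
    have h3 := integrable_gauss_poly 0
    refine h3.mono' ?_ (Eventually.of_forall fun w => ?_)
    · exact (Real.continuous_exp.comp (moments_cont_qf a h d Q₁ Q₂).neg).aestronglyMeasurable
    · rw [Real.norm_eq_abs, abs_of_pos (Real.exp_pos _), pow_zero, one_mul]
      exact Real.exp_le_exp.2 (neg_le_neg (moments_qf_ge hQ w))
  have h3 := integral_exp_pos h2
  simp_rw [h1]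
  rw [integral_complex_ofReal]
  exact Complex.ofReal_ne_zero.2 h3.ne'

end Pool.Agent.Lib.MP_8ce23f_nt.R2
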