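import Pool.Agent.Lib.MP_8ce23f_nt.R2.GExp
import Pool.Agent.Lib.MP_8ce23f_nt.R2.Moments

/-!
# Expansion of the integral

Job IntExp.  Fix `x, y` and put `σ = w₁ s₁ + w₂ s₂` (`|σ| ≤ C (1+|w₁|+|w₂|)`).  By
`exp_sub_sum_le` (`Re = 0`) `exp (i t σ) = ∑_{j ≤ N} (i t σ)^j/j! + O(t^(N+1) |σ|^(N+1))`; with
`g_expansion`, `norm_g_le` and `exp (-qf) ≤ exp (-|w|²/2)`:
`exp (i t σ) g = exp (-qf) ∑_{j,k ≤ N} t^(j+k) (i σ)^j/j! p_k + O(t^(N+1) (1+|w|)^M exp (-|w|²/2))`,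
integrate (`integrable_gauss_poly`), use `exists_moment` for the coefficients, and move the terms
with `j+k > N` to the error.
-/

open Filter Topology Asymptotics MeasureTheory
open scoped Real

namespace Pool.Agent.Lib.MP_8ce23f_nt.R2

theorem intExp_qf {a h d Q₁ Q₂ : ℝ} (hQ : NahmSol a h d Q₁ Q₂) (w : ℝ × ℝ) :
    (w.1 ^ 2 + w.2 ^ 2) / 2 ≤ qf a h d Q₁ Q₂ w := by
  unfold qf
  have h1 : 0 ≤ (1 - Q₁) / Q₁ * Lw1 a w ^ 2 :=
    mul_nonneg (div_nonneg (by linarith [hQ.lt₁]) hQ.pos₁.le) (sq_nonneg _)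
  have h2 : 0 ≤ (1 - Q₂) / Q₂ * Lw2 a h d w ^ 2 :=
    mul_nonneg (div_nonneg (by linarith [hQ.lt₂]) hQ.pos₂.le) (sq_nonneg _)
  linarith

theorem intExp_norm {a h d Q₁ Q₂ : ℝ} (hQ : NahmSol a h d Q₁ Q₂) (w : ℝ × ℝ) :
    ‖Complex.exp (-(qf a h d Q₁ Q₂ w : ℝ))‖ ≤ Real.exp (-((w.1 ^ 2 + w.2 ^ 2) / 2)) := by
  rw [Complex.norm_exp]
  apply Real.exp_le_exp.2
  have := intExp_qf hQ w
  simp only [Complex.neg_re, Complex.ofReal_re]
  linarith

/-- the coefficients of the exponential -/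
noncomputable def intExp_q (u v : ℝ) (j : ℕ) : P :=
  MvPolynomial.C (Complex.I ^ j / (j.factorial : ℂ)) *
    (MvPolynomial.C (u : ℂ) * MvPolynomial.X 0 + MvPolynomial.C (v : ℂ) * MvPolynomial.X 1) ^ j

theorem intExp_ev_q (u v : ℝ) (j : ℕ) (w : ℝ × ℝ) :
    ev w.1 w.2 (intExp_q u v j) =
      Complex.I ^ j / (j.factorial : ℂ) * ((w.1 * u + w.2 * v : ℝ) : ℂ) ^ j := by
  unfold intExp_q ev
  simp only [map_mul, map_pow, map_add, MvPolynomial.eval_C, MvPolynomial.eval_X]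
  simp only [Matrix.cons_val_zero, Matrix.cons_val_one]
  push_cast
  ring

theorem intExp_exp (u v : ℝ) (N : ℕ) :
    PolyExp (fun t w => Complex.exp ((t * (w.1 * u + w.2 * v) : ℝ) * Complex.I)) N (intExp_q u v) := by
  refine ⟨N, (|u| + |v|) ^ N, ?_⟩
  intro t ht w
  have h1 := exp_sub_sum_le ((t * (w.1 * u + w.2 * v) : ℝ) * Complex.I) N
  have h2 : ∑ j ∈ Finset.range N, ((t * (w.1 * u + w.2 * v) : ℝ) * Complex.I) ^ j / (j.factorial : ℂ) =
      ∑ k ∈ Finset.range N, (t : ℂ) ^ k * ev w.1 w.2 (intExp_q u v k) := by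
    refine Finset.sum_congr rfl (fun j _ => ?_)
    rw [intExp_ev_q, Complex.ofReal_mul, mul_pow, mul_pow]
    ring
  rw [h2] at h1
  refine h1.trans ?_
  have h3 : (((t * (w.1 * u + w.2 * v) : ℝ) : ℂ) * Complex.I).re = 0 := by
    simp
  rw [h3, Real.exp_zero, max_self, mul_one]
  have h4 : ‖((t * (w.1 * u + w.2 * v) : ℝ) : ℂ) * Complex.I‖ = t * |w.1 * u + w.2 * v| := by
    rw [norm_mul, Complex.norm_I, mul_one, Complex.norm_real, Real.norm_eq_abs, abs_mul,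
      abs_of_pos ht.1]
  rw [h4, mul_pow]
  have h5 : |w.1 * u + w.2 * v| ≤ (|u| + |v|) * (1 + |w.1| + |w.2|) := by
    calc |w.1 * u + w.2 * v| ≤ |w.1 * u| + |w.2 * v| := abs_add_le _ _
      _ = |w.1| * |u| + |w.2| * |v| := by rw [abs_mul, abs_mul]
      _ ≤ _ := by nlinarith [abs_nonneg w.1, abs_nonneg w.2, abs_nonneg u, abs_nonneg v,
          mul_nonneg (abs_nonneg w.1) (abs_nonneg v), mul_nonneg (abs_nonneg w.2) (abs_nonneg u)]
  have h6 : |w.1 * u + w.2 * v| ^ N ≤ (|u| + |v|) ^ N * (1 + |w.1| + |w.2|) ^ N := by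
    rw [← mul_pow]
    exact pow_le_pow_left₀ (abs_nonneg _) h5 N
  have h7 : (1 : ℝ) ≤ (N.factorial : ℝ) := by exact_mod_cast Nat.factorial_pos N
  have h8 : 0 ≤ t ^ N * |w.1 * u + w.2 * v| ^ N :=
    mul_nonneg (pow_nonneg ht.1.le _) (pow_nonneg (abs_nonneg _) _)
  calc t ^ N * |w.1 * u + w.2 * v| ^ N / (N.factorial : ℝ) ≤ t ^ N * |w.1 * u + w.2 * v| ^ N :=
        div_le_self h8 h7
    _ ≤ t ^ N * ((|u| + |v|) ^ N * (1 + |w.1| + |w.2|) ^ N) :=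
        mul_le_mul_of_nonneg_left h6 (pow_nonneg ht.1.le _)
    _ = _ := by ring

/-- a finite sum is its own expansion -/
theorem intExp_poly (p : ℕ → P) (N : ℕ) :
    PolyExp (fun t w => ∑ k ∈ Finset.range N, (t : ℂ) ^ k * ev w.1 w.2 (p k)) N p := by
  refine ⟨0, 0, fun t _ w => ?_⟩
  simp

/-- pointwise expansion of the integrand -/
theorem intExp_point {a h d Q₁ Q₂ : ℝ} (hQ : NahmSol a h d Q₁ Q₂) (N : ℕ) (p : ℕ → P) (M : ℕ) (C : ℝ)
    (hg : ∀ t ∈ Set.Ioc (0 : ℝ) 1, ∀ w : ℝ × ℝ,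
      ‖g a h d Q₁ Q₂ t w - Complex.exp (-(qf a h d Q₁ Q₂ w : ℝ)) *
          ∑ k ∈ Finset.range (N + 1), (t : ℂ) ^ k * ev w.1 w.2 (p k)‖ ≤
        C * t ^ (N + 1) * ((1 + |w.1| + |w.2|) ^ M * Real.exp (-((w.1 ^ 2 + w.2 ^ 2) / 2))))
    (u v : ℝ) :
    ∃ (M' : ℕ) (C' : ℝ), ∀ t ∈ Set.Ioc (0 : ℝ) 1, ∀ w : ℝ × ℝ,
      ‖Complex.exp ((t * (w.1 * u + w.2 * v) : ℝ) * Complex.I) * g a h d Q₁ Q₂ t w -
          ∑ n ∈ Finset.range (N + 1), (t : ℂ) ^ n * (Complex.exp (-(qf a h d Q₁ Q₂ w : ℝ)) *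
            ev w.1 w.2 (∑ ij ∈ Finset.HasAntidiagonal.antidiagonal n, intExp_q u v ij.1 * p ij.2))‖ ≤
        t ^ (N + 1) * (C * ((1 + |w.1| + |w.2|) ^ M * Real.exp (-((w.1 ^ 2 + w.2 ^ 2) / 2))) +
          C' * ((1 + |w.1| + |w.2|) ^ M' * Real.exp (-((w.1 ^ 2 + w.2 ^ 2) / 2)))) := by
  obtain ⟨M', C', h1⟩ := (intExp_exp u v (N + 1)).mul (intExp_poly p (N + 1))
  refine ⟨M', C', fun t ht w => ?_⟩
  have h2 := h1 t ht w
  have h3 := hg t ht w
  set E := Complex.exp ((t * (w.1 * u + w.2 * v) : ℝ) * Complex.I) with hE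
  set G := g a h d Q₁ Q₂ t w
  set q := Complex.exp (-(qf a h d Q₁ Q₂ w : ℝ)) with hq
  set f := ∑ k ∈ Finset.range (N + 1), (t : ℂ) ^ k * ev w.1 w.2 (p k)
  have e1 : ∑ n ∈ Finset.range (N + 1), (t : ℂ) ^ n * (q *
      ev w.1 w.2 (∑ ij ∈ Finset.HasAntidiagonal.antidiagonal n, intExp_q u v ij.1 * p ij.2)) =
      q * ∑ n ∈ Finset.range (N + 1), (t : ℂ) ^ n *
      ev w.1 w.2 (∑ ij ∈ Finset.HasAntidiagonal.antidiagonal n, intExp_q u v ij.1 * p ij.2) := by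
    rw [Finset.mul_sum]
    exact Finset.sum_congr rfl (fun n _ => by ring)
  rw [e1]
  set Z := ∑ n ∈ Finset.range (N + 1), (t : ℂ) ^ n *
      ev w.1 w.2 (∑ ij ∈ Finset.HasAntidiagonal.antidiagonal n, intExp_q u v ij.1 * p ij.2)
  have e2 : E * G - q * Z = E * (G - q * f) + q * (E * f - Z) := by ring
  have hEn : ‖E‖ = 1 := by
    rw [hE, Complex.norm_exp_ofReal_mul_I]
  have hqn : ‖q‖ ≤ Real.exp (-((w.1 ^ 2 + w.2 ^ 2) / 2)) := intExp_norm hQ w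
  rw [e2]
  refine (norm_add_le _ _).trans ?_
  rw [norm_mul, norm_mul, hEn, one_mul]
  have h4 : ‖q‖ * ‖E * f - Z‖ ≤ Real.exp (-((w.1 ^ 2 + w.2 ^ 2) / 2)) *
      (C' * t ^ (N + 1) * (1 + |w.1| + |w.2|) ^ M') :=
    mul_le_mul hqn h2 (norm_nonneg _) (Real.exp_pos _).le
  calc _ ≤ C * t ^ (N + 1) * ((1 + |w.1| + |w.2|) ^ M * Real.exp (-((w.1 ^ 2 + w.2 ^ 2) / 2))) +
      Real.exp (-((w.1 ^ 2 + w.2 ^ 2) / 2)) * (C' * t ^ (N + 1) * (1 + |w.1| + |w.2|) ^ M') :=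
        add_le_add h3 h4
    _ = _ := by ring

theorem intExp_integrable {a h d Q₁ Q₂ : ℝ} (hQ : NahmSol a h d Q₁ Q₂) (u v : ℝ) {t : ℝ} (ht : 0 < t) :
    Integrable fun w : ℝ × ℝ => Complex.exp ((t * (w.1 * u + w.2 * v) : ℝ) * Complex.I) *
      g a h d Q₁ Q₂ t w := by
  have h0 := integrable_gauss_poly 0
  refine h0.mono' ?_ ?_
  · apply Continuous.aestronglyMeasurable
    refine Continuous.mul ?_ (continuous_g hQ ht)
    fun_prop
  · refine Filter.Eventually.of_forall (fun w => ?_)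
    rw [norm_mul, Complex.norm_exp_ofReal_mul_I, one_mul, pow_zero, one_mul]
    exact norm_g_le hQ ht w

theorem integral_expansion {a h d Q₁ Q₂ : ℝ} (hA : PD a h d) (hQ : NahmSol a h d Q₁ Q₂) (N : ℕ) :
    ∃ p : ℕ → P,
      p 0 = MvPolynomial.C (∫ w : ℝ × ℝ, Complex.exp (-(qf a h d Q₁ Q₂ w : ℝ))) ∧
      ∀ x y : ℝ, (fun t : ℝ => (∫ w : ℝ × ℝ,
          Complex.exp ((t * (w.1 * s1 a x + w.2 * s2 a h d x y) : ℝ) * Complex.I) *
            g a h d Q₁ Q₂ t w) -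
          ∑ k ∈ Finset.range (N + 1), ev x y (p k) * (t : ℂ) ^ k)
        =O[𝓝[>] 0] fun t : ℝ => t ^ (N + 1) := by
  obtain ⟨p, M, C, hp0, hg⟩ := g_expansion hA hQ N
  choose m hm using fun (j : ℕ) (k : ℕ) => exists_moment (a := a) (h := h) (d := d) hQ j (p k)
  refine ⟨fun n => if n = 0 then MvPolynomial.C (∫ w : ℝ × ℝ, Complex.exp (-(qf a h d Q₁ Q₂ w : ℝ))) else
    ∑ ij ∈ Finset.HasAntidiagonal.antidiagonal n,
      MvPolynomial.C (Complex.I ^ ij.1 / (ij.1.factorial : ℂ)) * m ij.1 ij.2, by simp, ?_⟩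
  intro x y
  -- the coefficients are integrals
  have hco : ∀ n : ℕ, ev x y (if n = 0 then
      MvPolynomial.C (∫ w : ℝ × ℝ, Complex.exp (-(qf a h d Q₁ Q₂ w : ℝ))) else
      ∑ ij ∈ Finset.HasAntidiagonal.antidiagonal n,
      MvPolynomial.C (Complex.I ^ ij.1 / (ij.1.factorial : ℂ)) * m ij.1 ij.2) =
      ∫ w : ℝ × ℝ, Complex.exp (-(qf a h d Q₁ Q₂ w : ℝ)) * ev w.1 w.2
        (∑ ij ∈ Finset.HasAntidiagonal.antidiagonal n,
          intExp_q (s1 a x) (s2 a h d x y) ij.1 * p ij.2) := by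
    intro n
    by_cases hn : n = 0
    · subst hn
      rw [if_pos rfl]
      have e1 : ∀ w : ℝ × ℝ, Complex.exp (-(qf a h d Q₁ Q₂ w : ℝ)) * ev w.1 w.2
        (∑ ij ∈ Finset.HasAntidiagonal.antidiagonal 0,
          intExp_q (s1 a x) (s2 a h d x y) ij.1 * p ij.2) = Complex.exp (-(qf a h d Q₁ Q₂ w : ℝ)) := by
        intro w
        rw [show Finset.HasAntidiagonal.antidiagonal 0 = {((0 : ℕ), (0 : ℕ))} from rfl, Finset.sum_singleton, map_mul, intExp_ev_q, hp0, map_one]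
        simp
      simp_rw [e1]
      unfold ev
      rw [MvPolynomial.eval_C]
    · rw [if_neg hn]
      have e1 : ∀ w : ℝ × ℝ, Complex.exp (-(qf a h d Q₁ Q₂ w : ℝ)) * ev w.1 w.2
        (∑ ij ∈ Finset.HasAntidiagonal.antidiagonal n,
          intExp_q (s1 a x) (s2 a h d x y) ij.1 * p ij.2) =
          ∑ ij ∈ Finset.HasAntidiagonal.antidiagonal n, (Complex.I ^ ij.1 / (ij.1.factorial : ℂ)) *
            (Complex.exp (-(qf a h d Q₁ Q₂ w : ℝ)) *
              (((w.1 * s1 a x + w.2 * s2 a h d x y : ℝ) : ℂ) ^ ij.1 * ev w.1 w.2 (p ij.2))) := by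
        intro w
        rw [map_sum, Finset.mul_sum]
        refine Finset.sum_congr rfl (fun ij _ => ?_)
        rw [map_mul, intExp_ev_q]
        ring
      simp_rw [e1]
      rw [integral_finsetSum]
      · rw [map_sum]
        refine Finset.sum_congr rfl (fun ij _ => ?_)
        rw [map_mul, integral_const_mul, hm]
        congr 1
        unfold ev
        rw [MvPolynomial.eval_C]
      · intro ij _
        apply Integrable.const_mul
        have h5 := integrable_poly_qf (a := a) (h := h) (d := d) hQ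
          ((MvPolynomial.C (s1 a x : ℂ) * MvPolynomial.X 0 +
            MvPolynomial.C (s2 a h d x y : ℂ) * MvPolynomial.X 1) ^ ij.1 * p ij.2)
        refine h5.congr (Filter.Eventually.of_forall (fun w => ?_))
        simp only
        congr 1
        rw [map_mul]
        congr 1
        unfold ev
        simp only [map_mul, map_pow, map_add, MvPolynomial.eval_C, MvPolynomial.eval_X]
        simp only [Matrix.cons_val_zero, Matrix.cons_val_one]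
        push_cast
        ring
  obtain ⟨M', C', hpt⟩ := intExp_point hQ N p M C hg (s1 a x) (s2 a h d x y)
  have hI1 := (integrable_gauss_poly M).const_mul C
  have hI2 := (integrable_gauss_poly M').const_mul C'
  have hI := hI1.add hI2
  refine IsBigO.of_bound (∫ w : ℝ × ℝ, (C * ((1 + |w.1| + |w.2|) ^ M *
    Real.exp (-((w.1 ^ 2 + w.2 ^ 2) / 2))) +
          C' * ((1 + |w.1| + |w.2|) ^ M' * Real.exp (-((w.1 ^ 2 + w.2 ^ 2) / 2))))) ?_
  have hev : ∀ᶠ t : ℝ in 𝓝[>] 0, t ∈ Set.Ioc (0 : ℝ) 1 := Ioc_mem_nhdsGT one_pos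
  filter_upwards [hev] with t ht
  have hint : ∀ n : ℕ, Integrable fun w : ℝ × ℝ => (t : ℂ) ^ n * (Complex.exp (-(qf a h d Q₁ Q₂ w : ℝ)) *
            ev w.1 w.2 (∑ ij ∈ Finset.HasAntidiagonal.antidiagonal n,
              intExp_q (s1 a x) (s2 a h d x y) ij.1 * p ij.2)) :=
    fun n => (integrable_poly_qf hQ _).const_mul _
  have e3 : ∑ k ∈ Finset.range (N + 1), ev x y (if k = 0 then
      MvPolynomial.C (∫ w : ℝ × ℝ, Complex.exp (-(qf a h d Q₁ Q₂ w : ℝ))) else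
      ∑ ij ∈ Finset.HasAntidiagonal.antidiagonal k,
      MvPolynomial.C (Complex.I ^ ij.1 / (ij.1.factorial : ℂ)) * m ij.1 ij.2) * (t : ℂ) ^ k =
      ∫ w : ℝ × ℝ, ∑ n ∈ Finset.range (N + 1), (t : ℂ) ^ n * (Complex.exp (-(qf a h d Q₁ Q₂ w : ℝ)) *
            ev w.1 w.2 (∑ ij ∈ Finset.HasAntidiagonal.antidiagonal n,
              intExp_q (s1 a x) (s2 a h d x y) ij.1 * p ij.2)) := by
    rw [integral_finsetSum _ (fun n _ => hint n)]
    refine Finset.sum_congr rfl (fun n _ => ?_)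
    rw [hco, integral_const_mul]
    ring
  rw [e3, ← integral_sub (intExp_integrable hQ _ _ ht.1) (integrable_finsetSum _ (fun n _ => hint n))]
  have h6 := norm_integral_le_of_norm_le (hI.const_mul (t ^ (N + 1)))
    (Filter.Eventually.of_forall (fun w => hpt t ht w))
  refine h6.trans ?_
  rw [integral_const_mul, mul_comm]
  apply le_of_eq
  congr 1
  rw [Real.norm_eq_abs, abs_of_nonneg (pow_nonneg ht.1.le _)]

end Pool.Agent.Lib.MP_8ce23f_nt.R2
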