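import Pool.Agent.Lib.MP_8ce23f_nt.R2.AtIy

/-!
# Functional equation and symmetry of Nahm sums

Job NahmShift.  `nahmSum_shift`: either directly (`(1 - q^{n₀})/(q)_{n₀} = 1/(q)_{n₀-1}`, as in FShift.lean, now
for complex `q`), or by the identity theorem: both sides are holomorphic (`nahmSum_mdiff`) and agree
on the imaginary axis (`nahmSum_tp`, `F_shift₁`); see `UpperHalfPlane.eq_zero_of_frequently`.
`nahmSum_swap`: reindex by the swap of `Fin 2`.
-/

open Filter Topology Asymptotics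
open scoped Real MatrixGroups Manifold
open UpperHalfPlane hiding I

namespace Pool.Agent.Lib.MP_8ce23f_nt.R2

theorem NahmShift_summable {A : Matrix (Fin 2) (Fin 2) ℚ} (hA : A.PosDef) (B : Fin 2 → ℚ) (C : ℚ)
    (τ : ℍ) : Summable fun n : Fin 2 → ℕ => qPow (nahmExp A B C n) τ / ∏ i, qFac (n i) τ := by
  obtain ⟨K, hK, hexp⟩ := Holo_nahmExp_lower hA B C
  obtain ⟨c, hc, hcl⟩ := exists_poch_lower (q := qr 1 τ) (norm_qr_one_lt τ)
  set r : ℝ := Real.exp (-(2 * π * τ.im)) with hr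
  have him : 0 < τ.im := τ.im_pos
  have hr0 : 0 < r := Real.exp_pos _
  have hr1 : r < 1 := by
    rw [hr, Real.exp_lt_one_iff]
    have := Real.pi_pos
    have : 0 < 2 * π * τ.im := by positivity
    linarith
  have hsum : Summable fun n : Fin 2 → ℕ =>
      Real.exp (2 * π * K * τ.im) * (r ^ (n 0) * r ^ (n 1)) / (c * c) :=
    ((Holo_summable hr0.le hr1).mul_left _).div_const _
  refine Summable.of_norm_bounded hsum fun n => ?_
  rw [norm_div]
  have hden : c * c ≤ ‖∏ i, qFac (n i) τ‖ := by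
    rw [Fin.prod_univ_two, norm_mul]
    have h1 : ∀ m, c ≤ ‖qFac m τ‖ := by
      intro m
      rw [qFac_eq]
      exact hcl m
    exact mul_le_mul (h1 _) (h1 _) hc.le (norm_nonneg _)
  have hnum : ‖qPow (nahmExp A B C n) τ‖ ≤
      Real.exp (2 * π * K * τ.im) * (r ^ (n 0) * r ^ (n 1)) := by
    rw [qPow_eq, norm_qr, hr, ← Real.exp_nat_mul, ← Real.exp_nat_mul, ← Real.exp_add,
      ← Real.exp_add]
    apply Real.exp_le_exp.2
    have h3 := hexp n
    have h4 : ((n 0 : ℝ) + n 1 - K) * τ.im ≤ ((nahmExp A B C n : ℚ) : ℝ) * τ.im :=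
      mul_le_mul_of_nonneg_right h3 him.le
    have h8 := mul_le_mul_of_nonneg_left h4 (mul_pos two_pos Real.pi_pos).le
    linarith
  exact div_le_div₀ (by positivity) hnum (mul_pos hc hc) hden

theorem NahmShift_qPow_add (x y : ℚ) (τ : ℍ) : qPow (x + y) τ = qPow x τ * qPow y τ := by
  unfold qPow
  rw [← Complex.exp_add]
  congr 1
  push_cast
  ring

theorem NahmShift_qFac_succ (m : ℕ) (τ : ℍ) :
    qFac (m + 1) τ = qFac m τ * (1 - qPow ((m : ℚ) + 1) τ) := by
  unfold qFac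
  rw [Finset.prod_range_succ]

theorem NahmShift_qFac_ne (m : ℕ) (τ : ℍ) : qFac m τ ≠ 0 := by
  rw [qFac_eq]
  exact poch_ne_zero (norm_qr_one_lt _) _

theorem NahmShift_exp (A : Matrix (Fin 2) (Fin 2) ℚ) (B : Fin 2 → ℚ) (C : ℚ) (n : Fin 2 → ℕ) :
    nahmExp A B C n = 1 / 2 * (A 0 0 * n 0 ^ 2 + (A 0 1 + A 1 0) * n 0 * n 1 + A 1 1 * n 1 ^ 2) +
      (B 0 * n 0 + B 1 * n 1) + C := by
  simp only [nahmExp, Fin.sum_univ_two]
  ring

theorem nahmSum_shift {A : Matrix (Fin 2) (Fin 2) ℚ} (hA : A.PosDef) (x y C : ℚ) (τ : ℍ) :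
    nahmSum A ![x, y] C τ - nahmSum A ![x + 1, y] C τ =
      qPow (A 0 0 / 2 + x) τ * nahmSum A ![x + A 0 0, y + A 0 1] C τ := by
  have h10 := (pd_of_posDef hA).2
  unfold nahmSum
  rw [← (NahmShift_summable hA _ _ τ).tsum_sub (NahmShift_summable hA _ _ τ), ← tsum_mul_left]
  have hexp1 : ∀ n : Fin 2 → ℕ, qPow (nahmExp A ![x + 1, y] C n) τ =
      qPow (nahmExp A ![x, y] C n) τ * qPow (n 0 : ℚ) τ := by
    intro n
    rw [← NahmShift_qPow_add, NahmShift_exp, NahmShift_exp]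
    congr 1
    simp only [Matrix.cons_val_zero, Matrix.cons_val_one]
    ring
  have hinj : Function.Injective (fun n : Fin 2 → ℕ => (![n 0 + 1, n 1] : Fin 2 → ℕ)) := by
    intro m n h
    have h0 := congrFun h 0
    have h1 := congrFun h 1
    simp only [Matrix.cons_val_zero, Matrix.cons_val_one] at h0 h1
    funext i
    fin_cases i
    · show m 0 = n 0
      omega
    · exact h1
  rw [← hinj.tsum_eq]
  · refine tsum_congr fun n => ?_
    rw [hexp1]
    have e1 : nahmExp A ![x, y] C ![n 0 + 1, n 1] =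
        (A 0 0 / 2 + x) + nahmExp A ![x + A 0 0, y + A 0 1] C n := by
      rw [NahmShift_exp, NahmShift_exp, h10]
      simp only [Matrix.cons_val_zero, Matrix.cons_val_one]
      push_cast
      ring
    have e2 : (((![n 0 + 1, n 1] : Fin 2 → ℕ) 0 : ℕ) : ℚ) = (n 0 : ℚ) + 1 := by
      simp only [Matrix.cons_val_zero]
      push_cast
      ring
    rw [e1, e2, NahmShift_qPow_add, Fin.prod_univ_two, Fin.prod_univ_two]
    have e3 : (![n 0 + 1, n 1] : Fin 2 → ℕ) 0 = n 0 + 1 := rfl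
    have e4 : (![n 0 + 1, n 1] : Fin 2 → ℕ) 1 = n 1 := rfl
    rw [e3, e4, NahmShift_qFac_succ]
    have h1 := NahmShift_qFac_ne (n 0) τ
    have h2 := NahmShift_qFac_ne (n 1) τ
    have h3 := NahmShift_qFac_ne (n 0 + 1) τ
    rw [NahmShift_qFac_succ] at h3
    have h4 := right_ne_zero_of_mul h3
    field_simp
  · intro n hn
    rcases h0 : n 0 with _ | m
    · exfalso
      apply hn
      show qPow (nahmExp A ![x, y] C n) τ / ∏ i, qFac (n i) τ -
        qPow (nahmExp A ![x + 1, y] C n) τ / ∏ i, qFac (n i) τ = 0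
      rw [hexp1, h0]
      have e5 : qPow ((0 : ℕ) : ℚ) τ = 1 := by
        unfold qPow
        simp
      rw [e5, mul_one, sub_self]
    · refine ⟨![m, n 1], ?_⟩
      funext i
      fin_cases i
      · show m + 1 = n 0
        exact h0.symm
      · rfl

theorem nahmSum_swap (a h x y C : ℚ) (τ : ℍ) :
    nahmSum !![a, h; h, a] ![x, y] C τ = nahmSum !![a, h; h, a] ![y, x] C τ := by
  unfold nahmSum
  rw [← (Equiv.arrowCongr (Equiv.swap (0 : Fin 2) 1) (Equiv.refl ℕ)).tsum_eq]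
  refine tsum_congr fun n => ?_
  have e0 : (Equiv.arrowCongr (Equiv.swap (0 : Fin 2) 1) (Equiv.refl ℕ)) n 0 = n 1 := by
    simp [Equiv.arrowCongr]
  have e1 : (Equiv.arrowCongr (Equiv.swap (0 : Fin 2) 1) (Equiv.refl ℕ)) n 1 = n 0 := by
    simp [Equiv.arrowCongr]
  rw [Fin.prod_univ_two, Fin.prod_univ_two, NahmShift_exp, NahmShift_exp, e0, e1]
  have a00 : (!![a, h; h, a] : Matrix (Fin 2) (Fin 2) ℚ) 0 0 = a := rfl
  have a01 : (!![a, h; h, a] : Matrix (Fin 2) (Fin 2) ℚ) 0 1 = h := rfl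
  have a10 : (!![a, h; h, a] : Matrix (Fin 2) (Fin 2) ℚ) 1 0 = h := rfl
  have a11 : (!![a, h; h, a] : Matrix (Fin 2) (Fin 2) ℚ) 1 1 = a := rfl
  have x0 : (![x, y] : Fin 2 → ℚ) 0 = x := rfl
  have x1 : (![x, y] : Fin 2 → ℚ) 1 = y := rfl
  have y0 : (![y, x] : Fin 2 → ℚ) 0 = y := rfl
  have y1 : (![y, x] : Fin 2 → ℚ) 1 = x := rfl
  rw [a00, a01, a10, a11, x0, x1, y0, y1]
  congr 1
  · congr 1
    ring
  · exact mul_comm _ _

theorem nahmSum_add_C {r : ℕ} (A : Matrix (Fin r) (Fin r) ℚ) (B : Fin r → ℚ) (C C' : ℚ) (τ : ℍ) :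
    nahmSum A B (C + C') τ = qPow C' τ * nahmSum A B C τ := by
  unfold nahmSum
  rw [← tsum_mul_left]
  refine tsum_congr fun n => ?_
  have h : nahmExp A B (C + C') n = C' + nahmExp A B C n := by
    unfold nahmExp
    ring
  rw [h, NahmShift_qPow_add, mul_div_assoc]

end Pool.Agent.Lib.MP_8ce23f_nt.R2
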