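import Pool.Agent.Lib.MP_8ce23f_nt.R2.Defs

/-!
# Families of polynomials depending polynomially on parameters

Job Reg.  The parameters are `ϖ = (A₀₀, A₀₁, A₁₁, Q₀, Q₁)`.  A family `f i : P` (`i ∈ ι`) is
*regular* if `det^e f i` is the specialisation at `ϖ i` of one polynomial with coefficients in
`ℂ[ϖ]`.  Everything is proved by exhibiting the corresponding operation on `UP` and commuting it
with `spec` (`MvPolynomial.map`): ring operations, `pderiv`, `homogeneousComponent` (coefficientwise),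
shift by a vector with entries in `PP`.
-/

open Filter Topology


namespace Pool.Agent.Lib.MP_8ce23f_nt.R2

/-- The parameters. -/
abbrev Par : Type := Fin 5 → ℂ

/-- Polynomials in the parameters. -/
abbrev PP : Type := MvPolynomial (Fin 5) ℂ

/-- Polynomials in two variables with coefficients depending on the parameters. -/
abbrev UP : Type := MvPolynomial (Fin 2) PP

/-- Specialisation of the parameters. -/
noncomputable def spec (ϖ : Par) : UP →+* P := MvPolynomial.map (MvPolynomial.eval ϖ)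

/-- The matrix attached to the parameters. -/
def Apar (ϖ : Par) : Matrix (Fin 2) (Fin 2) ℂ := !![ϖ 0, ϖ 1; ϖ 1, ϖ 2]

/-- The vector `Q` attached to the parameters. -/
def Qpar (ϖ : Par) : Fin 2 → ℂ := ![ϖ 3, ϖ 4]

/-- The universal matrix. -/
noncomputable def AU : Matrix (Fin 2) (Fin 2) PP :=
  !![MvPolynomial.X 0, MvPolynomial.X 1; MvPolynomial.X 1, MvPolynomial.X 2]

/-- The universal `Q`. -/
noncomputable def QU : Fin 2 → PP := ![MvPolynomial.X 3, MvPolynomial.X 4]

theorem eval_AU (ϖ : Par) (i j : Fin 2) : MvPolynomial.eval ϖ (AU i j) = Apar ϖ i j := by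
  fin_cases i <;> fin_cases j <;> simp [AU, Apar]

theorem eval_QU (ϖ : Par) (i : Fin 2) : MvPolynomial.eval ϖ (QU i) = Qpar ϖ i := by
  fin_cases i <;> simp [QU, Qpar]

/-- The universal determinant. -/
noncomputable def detP : PP :=
  (QU 0 + (1 - QU 0) * AU 0 0) * (QU 1 + (1 - QU 1) * AU 1 1) -
    ((1 - QU 0) * AU 0 1) * ((1 - QU 1) * AU 1 0)

theorem nondeg_iff (ϖ : Par) : Nondeg (Apar ϖ) (Qpar ϖ) ↔ MvPolynomial.eval ϖ detP ≠ 0 := by
  unfold Nondeg detP
  simp only [map_sub, map_mul, map_add, map_one, eval_AU, eval_QU]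

/-- Regular families. -/
def Reg {ι : Type*} (ϖ : ι → Par) (f : ι → P) : Prop :=
  ∃ (e : ℕ) (F : UP), ∀ i, MvPolynomial.C (MvPolynomial.eval (ϖ i) detP ^ e) * f i = spec (ϖ i) F

variable {ι : Type*} {ϖ : ι → Par} {f f' : ι → P}

theorem reg_spec_C (ϖ : Par) (c : PP) :
    spec ϖ (MvPolynomial.C c) = MvPolynomial.C (MvPolynomial.eval ϖ c) := by
  unfold spec
  rw [MvPolynomial.map_C]

theorem reg_spec_X (ϖ : Par) (l : Fin 2) : spec ϖ (MvPolynomial.X l) = MvPolynomial.X l := by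
  unfold spec
  rw [MvPolynomial.map_X]

theorem Reg.const (F : UP) : Reg ϖ (fun i => spec (ϖ i) F) := by
  exact ⟨0, F, fun i => by simp⟩

theorem Reg.C (c : PP) : Reg ϖ (fun i => MvPolynomial.C (MvPolynomial.eval (ϖ i) c)) := by
  refine ⟨0, MvPolynomial.C c, fun i => ?_⟩
  rw [reg_spec_C, pow_zero, map_one, one_mul]

theorem Reg.X (l : Fin 2) : Reg ϖ (fun _ => (MvPolynomial.X l : P)) := by
  refine ⟨0, MvPolynomial.X l, fun i => ?_⟩
  rw [reg_spec_X, pow_zero, map_one, one_mul]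

theorem Reg.Cc (c : ℂ) : Reg ϖ (fun _ => (MvPolynomial.C c : P)) := by
  refine ⟨0, MvPolynomial.C (MvPolynomial.C c), fun i => ?_⟩
  rw [reg_spec_C, MvPolynomial.eval_C, pow_zero, map_one, one_mul]

theorem Reg.add (h : Reg ϖ f) (h' : Reg ϖ f') : Reg ϖ (fun i => f i + f' i) := by
  obtain ⟨e, F, hF⟩ := h
  obtain ⟨e', F', hF'⟩ := h'
  refine ⟨e + e', MvPolynomial.C (detP ^ e') * F + MvPolynomial.C (detP ^ e) * F', fun i => ?_⟩
  rw [map_add, map_mul, map_mul, reg_spec_C, reg_spec_C, ← hF i, ← hF' i]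
  simp only [map_pow, pow_add, map_mul]
  ring

theorem Reg.neg (h : Reg ϖ f) : Reg ϖ (fun i => -f i) := by
  obtain ⟨e, F, hF⟩ := h
  exact ⟨e, -F, fun i => by rw [map_neg, ← hF i, mul_neg]⟩

theorem Reg.sub (h : Reg ϖ f) (h' : Reg ϖ f') : Reg ϖ (fun i => f i - f' i) := by
  simp only [sub_eq_add_neg]
  exact h.add h'.neg

theorem Reg.mul (h : Reg ϖ f) (h' : Reg ϖ f') : Reg ϖ (fun i => f i * f' i) := by
  obtain ⟨e, F, hF⟩ := h
  obtain ⟨e', F', hF'⟩ := h'
  refine ⟨e + e', F * F', fun i => ?_⟩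
  rw [map_mul, ← hF i, ← hF' i, pow_add, map_mul]
  ring

theorem Reg.sum {κ : Type*} (s : Finset κ) {g : κ → ι → P} (h : ∀ k ∈ s, Reg ϖ (g k)) :
    Reg ϖ (fun i => ∑ k ∈ s, g k i) := by
  classical
  induction s using Finset.induction_on with
  | empty =>
    refine ⟨0, 0, fun i => ?_⟩
    simp
  | insert a s ha ih =>
    have h1 := (h a (Finset.mem_insert_self a s)).add
      (ih (fun k hk => h k (Finset.mem_insert_of_mem hk)))
    refine Eq.mp (congrArg (Reg ϖ) (funext fun i => ?_)) h1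
    rw [Finset.sum_insert ha]

theorem Reg.of_det_mul
    (h : Reg ϖ (fun i => MvPolynomial.C (MvPolynomial.eval (ϖ i) detP) * f i)) : Reg ϖ f := by
  obtain ⟨e, F, hF⟩ := h
  refine ⟨e + 1, F, fun i => ?_⟩
  rw [← hF i, pow_succ, map_mul, mul_assoc]

theorem Reg.pderiv (h : Reg ϖ f) (l : Fin 2) : Reg ϖ (fun i => MvPolynomial.pderiv l (f i)) := by
  obtain ⟨e, F, hF⟩ := h
  refine ⟨e, MvPolynomial.pderiv l F, fun i => ?_⟩
  rw [← MvPolynomial.pderiv_C_mul, hF i, spec, MvPolynomial.pderiv_map]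

theorem Reg.hom (h : Reg ϖ f) (k : ℕ) :
    Reg ϖ (fun i => MvPolynomial.homogeneousComponent k (f i)) := by
  obtain ⟨e, F, hF⟩ := h
  refine ⟨e, MvPolynomial.homogeneousComponent k F, fun i => ?_⟩
  rw [← MvPolynomial.homogeneousComponent_C_mul, hF i, spec]
  ext d
  rw [MvPolynomial.coeff_homogeneousComponent, MvPolynomial.coeff_map, MvPolynomial.coeff_map,
    MvPolynomial.coeff_homogeneousComponent]
  split_ifs
  · rfl
  · rw [map_zero]

/-- the universal shift -/
noncomputable def regShU (w : Fin 2 → PP) : UP →ₐ[PP] UP :=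
  MvPolynomial.aeval fun i => MvPolynomial.X i + MvPolynomial.C (w i)

theorem reg_sh_spec (ϖ : Par) (w : Fin 2 → PP) (F : UP) :
    sh (fun j => MvPolynomial.eval ϖ (w j)) (spec ϖ F) = spec ϖ (regShU w F) := by
  have h : ((sh (fun j => MvPolynomial.eval ϖ (w j)) : P →ₐ[ℂ] P) : P →+* P).comp (spec ϖ) =
      (spec ϖ).comp ((regShU w : UP →ₐ[PP] UP) : UP →+* UP) := by
    refine MvPolynomial.ringHom_ext ?_ ?_
    · intro c
      rw [RingHom.comp_apply, RingHom.comp_apply, reg_spec_C]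
      simp only [RingHom.coe_coe, sh, regShU, MvPolynomial.aeval_C, MvPolynomial.algebraMap_eq]
      rw [reg_spec_C]
    · intro i
      rw [RingHom.comp_apply, RingHom.comp_apply, reg_spec_X]
      simp only [RingHom.coe_coe, sh, regShU, MvPolynomial.aeval_X]
      rw [map_add, reg_spec_X, reg_spec_C]
  exact RingHom.congr_fun h F

theorem reg_sh {w : Fin 2 → PP} (h : Reg ϖ f) :
    Reg ϖ (fun i => sh (fun j => MvPolynomial.eval (ϖ i) (w j)) (f i)) := by
  obtain ⟨e, F, hF⟩ := h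
  refine ⟨e, regShU w F, fun i => ?_⟩
  rw [← reg_sh_spec, ← hF i, map_mul]
  congr 1
  simp [sh]

theorem Reg.sh_e (h : Reg ϖ f) (l : Fin 2) : Reg ϖ (fun i => sh (Pi.single l 1) (f i)) := by
  have h1 := reg_sh (w := fun j : Fin 2 => (Pi.single l 1 : Fin 2 → PP) j) h
  refine Eq.mp (congrArg (Reg ϖ) (funext fun i => ?_)) h1
  congr 2
  funext j
  by_cases hj : j = l
  · subst hj
    simp
  · simp [hj]

theorem Reg.sh_A (h : Reg ϖ f) (l : Fin 2) : Reg ϖ (fun i => sh (Apar (ϖ i) l) (f i)) := by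
  have h1 := reg_sh (w := fun j : Fin 2 => AU l j) h
  refine Eq.mp (congrArg (Reg ϖ) (funext fun i => ?_)) h1
  congr 2
  funext j
  exact eval_AU (ϖ i) l j

end Pool.Agent.Lib.MP_8ce23f_nt.R2
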