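import Pool.Agent.Lib.MP_8ce23f_nt.R2.Reg
import Pool.Agent.Lib.MP_8ce23f_nt.R2.Hom
import Pool.Agent.Lib.MP_8ce23f_nt.R2.Degree

/-!
# Inverting the difference operators in regular families

Job RegInv.  `T l D = Q_l (sh e_l D - D) + (1 - Q_l) (sh (A_l) D - D)`.  Downward induction on
`j = m, …, 1`: `hom_j D` is regular.  `hom_{j-1} (T l D) = ∑_{j' ≥ j} hom_{j-1} (T l (hom_{j'} D))`
(the operator lowers the degree by at least one), and
`hom_{j-1} (T l (hom_j D)) = ∑_n M_{ln} ∂_n (hom_j D)`, `M_{ln} = Q_l δ_{ln} + (1-Q_l) A_{ln}`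
(`hom_shift₁`).  So `∑_n M_{ln} ∂_n (hom_j D) =: G_l` is regular; Cramer's rule:
`det * ∂_n (hom_j D)` is a combination of `G_0, G_1`, hence regular, `Reg.of_det_mul`;
`j hom_j D = ∑_n X_n ∂_n (hom_j D)` (Euler).  Finally
`D - C (constant coefficient) = ∑_{1 ≤ j ≤ m} hom_j D`.
-/

open Filter Topology


namespace Pool.Agent.Lib.MP_8ce23f_nt.R2

variable {ι : Type*} {ϖ : ι → Par}

/-- The difference operator. -/
noncomputable def RegInv_T (A : Matrix (Fin 2) (Fin 2) ℂ) (Q : Fin 2 → ℂ) (l : Fin 2)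
    (p : P) : P :=
  MvPolynomial.C (Q l) * (sh (Pi.single l 1) p - p) +
    MvPolynomial.C (1 - Q l) * (sh (A l) p - p)

theorem RegInv_T_sub (A : Matrix (Fin 2) (Fin 2) ℂ) (Q : Fin 2 → ℂ) (l : Fin 2) (p q : P) :
    RegInv_T A Q l (p - q) = RegInv_T A Q l p - RegInv_T A Q l q := by
  unfold RegInv_T
  rw [map_sub (sh (Pi.single l 1)), map_sub (sh (A l))]
  ring

theorem RegInv_hom_T (A : Matrix (Fin 2) (Fin 2) ℂ) (Q : Fin 2 → ℂ) (l : Fin 2) {p : P} {k : ℕ}
    (hp : p.totalDegree ≤ k + 1) :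
    MvPolynomial.homogeneousComponent k (RegInv_T A Q l p) =
      MvPolynomial.C (Q l) *
        MvPolynomial.pderiv l (MvPolynomial.homogeneousComponent (k + 1) p) +
      MvPolynomial.C (1 - Q l) *
        (MvPolynomial.C (A l 0) *
          MvPolynomial.pderiv 0 (MvPolynomial.homogeneousComponent (k + 1) p) +
        MvPolynomial.C (A l 1) *
          MvPolynomial.pderiv 1 (MvPolynomial.homogeneousComponent (k + 1) p)) := by
  unfold RegInv_T
  rw [map_add, MvPolynomial.homogeneousComponent_C_mul, MvPolynomial.homogeneousComponent_C_mul,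
    hom_shift₁ hp, hom_shift₁ hp]
  congr 1
  · congr 1
    rw [Fin.sum_univ_two]
    fin_cases l
    · simp
    · simp
  · rw [Fin.sum_univ_two]

theorem RegInv_congr {f g : ι → P} (h : Reg ϖ f) (hfg : ∀ i, f i = g i) : Reg ϖ g := by
  have : f = g := funext hfg
  rwa [← this]

theorem RegInv_reg_T {D : ι → P} (h : Reg ϖ D) (l : Fin 2) :
    Reg ϖ (fun i => RegInv_T (Apar (ϖ i)) (Qpar (ϖ i)) l (D i)) := by
  have hQ : Reg ϖ (fun i => MvPolynomial.C (Qpar (ϖ i) l)) :=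
    RegInv_congr (Reg.C (ϖ := ϖ) (QU l)) fun i => by rw [eval_QU]
  have hQ' : Reg ϖ (fun i => MvPolynomial.C (1 - Qpar (ϖ i) l)) :=
    RegInv_congr (Reg.C (ϖ := ϖ) (1 - QU l)) fun i => by rw [map_sub, map_one, eval_QU]
  exact (hQ.mul ((h.sh_e l).sub h)).add (hQ'.mul ((h.sh_A l).sub h))

theorem RegInv_cramer {D : ι → P} {k : ℕ} (hm : ∀ i, (D i).totalDegree ≤ k + 1)
    (h : ∀ l : Fin 2, Reg ϖ (fun i => RegInv_T (Apar (ϖ i)) (Qpar (ϖ i)) l (D i)))
    (n : Fin 2) :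
    Reg ϖ (fun i => MvPolynomial.pderiv n (MvPolynomial.homogeneousComponent (k + 1) (D i))) := by
  have hG : ∀ l : Fin 2, Reg ϖ (fun i => MvPolynomial.homogeneousComponent k
      (RegInv_T (Apar (ϖ i)) (Qpar (ϖ i)) l (D i))) := fun l => (h l).hom k
  apply Reg.of_det_mul
  have hdet : ∀ i, MvPolynomial.eval (ϖ i) detP =
      (Qpar (ϖ i) 0 + (1 - Qpar (ϖ i) 0) * Apar (ϖ i) 0 0) *
        (Qpar (ϖ i) 1 + (1 - Qpar (ϖ i) 1) * Apar (ϖ i) 1 1) -
      ((1 - Qpar (ϖ i) 0) * Apar (ϖ i) 0 1) * ((1 - Qpar (ϖ i) 1) * Apar (ϖ i) 1 0) := by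
    intro i
    unfold detP
    simp only [map_sub, map_add, map_mul, map_one, eval_QU, eval_AU]
  have hn : n = 0 ∨ n = 1 := by
    fin_cases n
    · exact Or.inl rfl
    · exact Or.inr rfl
  rcases hn with rfl | rfl
  · refine RegInv_congr (((Reg.C (ϖ := ϖ) (QU 1 + (1 - QU 1) * AU 1 1)).mul (hG 0)).sub
      ((Reg.C (ϖ := ϖ) ((1 - QU 0) * AU 0 1)).mul (hG 1))) fun i => ?_
    rw [RegInv_hom_T _ _ 0 (hm i), RegInv_hom_T _ _ 1 (hm i), hdet i]
    simp only [map_sub, map_add, map_mul, map_one, eval_QU, eval_AU]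
    ring
  · refine RegInv_congr (((Reg.C (ϖ := ϖ) (QU 0 + (1 - QU 0) * AU 0 0)).mul (hG 1)).sub
      ((Reg.C (ϖ := ϖ) ((1 - QU 1) * AU 1 0)).mul (hG 0))) fun i => ?_
    rw [RegInv_hom_T _ _ 0 (hm i), RegInv_hom_T _ _ 1 (hm i), hdet i]
    simp only [map_sub, map_add, map_mul, map_one, eval_QU, eval_AU]
    ring

theorem RegInv_top {D : ι → P} {k : ℕ} (hm : ∀ i, (D i).totalDegree ≤ k + 1)
    (h : ∀ l : Fin 2, Reg ϖ (fun i => RegInv_T (Apar (ϖ i)) (Qpar (ϖ i)) l (D i))) :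
    Reg ϖ (fun i => MvPolynomial.homogeneousComponent (k + 1) (D i)) := by
  have h0 := RegInv_cramer hm h 0
  have h1 := RegInv_cramer hm h 1
  refine RegInv_congr ((Reg.Cc (ϖ := ϖ) (((k + 1 : ℕ) : ℂ)⁻¹)).mul
    (((Reg.X (ϖ := ϖ) 0).mul h0).add ((Reg.X (ϖ := ϖ) 1).mul h1))) fun i => ?_
  have he := (MvPolynomial.homogeneousComponent_isHomogeneous (k + 1) (D i)).sum_X_mul_pderiv
  rw [Fin.sum_univ_two] at he
  rw [he, nsmul_eq_mul]
  have hk : ((k + 1 : ℕ) : ℂ) ≠ 0 := Nat.cast_ne_zero.2 (Nat.succ_ne_zero k)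
  have hc : (MvPolynomial.C (((k + 1 : ℕ) : ℂ)⁻¹) : P) * ((k + 1 : ℕ) : P) = 1 := by
    rw [← MvPolynomial.C_eq_coe_nat, ← MvPolynomial.C_mul, inv_mul_cancel₀ hk, MvPolynomial.C_1]
  rw [← mul_assoc, hc, one_mul]

theorem RegInv_totalDegree {p : P} {k : ℕ} (hp : p.totalDegree ≤ k + 1) :
    (p - MvPolynomial.homogeneousComponent (k + 1) p).totalDegree ≤ k := by
  classical
  unfold MvPolynomial.totalDegree
  refine Finset.sup_le fun s hs => ?_
  rw [MvPolynomial.mem_support_iff, MvPolynomial.coeff_sub,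
    MvPolynomial.coeff_homogeneousComponent] at hs
  have hdeg : (s.sum fun _ e => e) = s.degree := rfl
  have hsp : s ∈ p.support := by
    rw [MvPolynomial.mem_support_iff]
    intro h0
    apply hs
    rw [h0]
    split_ifs <;> simp
  have h1 : (s.sum fun _ e => e) ≤ k + 1 := (MvPolynomial.le_totalDegree hsp).trans hp
  have h2 : s.degree ≠ k + 1 := by
    intro h3
    apply hs
    rw [if_pos h3, sub_self]
  omega

theorem RegInv_coeff {p : P} {k : ℕ} :
    MvPolynomial.coeff 0 (p - MvPolynomial.homogeneousComponent (k + 1) p) =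
      MvPolynomial.coeff 0 p := by
  classical
  rw [MvPolynomial.coeff_sub, MvPolynomial.coeff_homogeneousComponent, if_neg, sub_zero]
  rw [map_zero]
  omega

theorem RegInv_main (m : ℕ) : ∀ (D : ι → P), (∀ i, (D i).totalDegree ≤ m) →
    (∀ l : Fin 2, Reg ϖ (fun i => RegInv_T (Apar (ϖ i)) (Qpar (ϖ i)) l (D i))) →
    Reg ϖ (fun i => D i - MvPolynomial.C (MvPolynomial.coeff 0 (D i))) := by
  induction m with
  | zero =>
    intro D hD _
    refine RegInv_congr (Reg.Cc (ϖ := ϖ) 0) fun i => ?_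
    have h0 : (D i).totalDegree = 0 := Nat.le_zero.1 (hD i)
    rw [MvPolynomial.C_0, eq_comm, sub_eq_zero]
    exact MvPolynomial.totalDegree_eq_zero_iff_eq_C.1 h0
  | succ k ih =>
    intro D hD hT
    have hH := RegInv_top hD hT
    have h1 := ih (fun i => D i - MvPolynomial.homogeneousComponent (k + 1) (D i))
      (fun i => RegInv_totalDegree (hD i))
      (fun l => RegInv_congr ((hT l).sub (RegInv_reg_T hH l)) fun i => by
        rw [RegInv_T_sub])
    refine RegInv_congr (h1.add hH) fun i => ?_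
    rw [RegInv_coeff]
    ring

theorem Reg.inv_T {D : ι → P} {m : ℕ} (hm : ∀ i, (D i).totalDegree ≤ m)
    (h : ∀ l : Fin 2, Reg ϖ (fun i => MvPolynomial.C (Qpar (ϖ i) l) *
        (sh (Pi.single l 1) (D i) - D i) +
      MvPolynomial.C (1 - Qpar (ϖ i) l) * (sh (Apar (ϖ i) l) (D i) - D i))) :
    Reg ϖ (fun i => D i - MvPolynomial.C (MvPolynomial.coeff 0 (D i))) :=
  RegInv_main m D hm h

end Pool.Agent.Lib.MP_8ce23f_nt.R2
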