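import Pool.Agent.Lib.MP_8ce23f_nt.R2.TMaps
import Pool.Agent.Lib.MP_8ce23f_nt.R2.Degree

/-!
# The symbol identities

Job Symbol.  Write `G i = mk fun k => if k = 0 then 0 else sh e_i (D k) - D k`, `WB (G i)`
(as `totalDegree (D k) ≤ k + 1`), and `Rθ` says `θ (R i) = θ (G i) * R i`.  Similarly with
`H i = mk fun k => if k = 0 then 0 else sh (A i) (D k) - D k - (if k = 1 then X_i + C (A_ii/2) else 0)`
and `S i`.
(a) `θ (T0 (R i)) = θ (T0 (G i)) * T0 (R i)`, and `coeff k (T0 (G i)) = ∂_i (V D k)` (`k ≥ 1`,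
`hom_shift₁`); `coeff k (T0 (H i)) = ∑_l A_il ∂_l (V D k) - (if k = 1 then X_i)`.
(b) `dc l (T0 (R i)) = T0 (R i) * dc l (T0 (G i))`: the difference `y` satisfies
`θ y = θ (T0 (G i)) * y` with zero constant coefficient (`ode_unique`).
(c) `T1 (R i) = T0 (R i) * T1 (G i)`: the difference satisfies `θ y + y = θ (T0 (G i)) * y`
(`ode_unique'`); `coeff k (T1 (G i)) = (1/2) ∂_i ∂_i (V D (k+1)) + ∂_i (S' D (k+1))` (`hom_shift₂`),
`coeff k (T1 (H i)) = (1/2) ∑∑ A_il A_im ∂_l ∂_m (V D (k+1)) + ∑ A_il ∂_l (S' D (k+1)) - (if k = 0 then A_ii/2)`.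
(d) apply `T0`, `dc j ∘ T0` and `T1` to `fe` and evaluate at `β`:
`q i = C (Q i) * map (eval β) (T0 (R i))`, `1 - q i = C (1 - Q i) * map (eval β) (T0 (S i))`.
Remove the factor `X` (`τ`) where necessary: `X * derivative q = q * X * U`.
Note `dc j` of `T0 (G i)` has coefficient `∂_j ∂_i (V D k)`, i.e. it is `X * Ms` after evaluation.
-/

open Filter Topology
open scoped Real

namespace Pool.Agent.Lib.MP_8ce23f_nt.R2

open MvPolynomial in
theorem symbol_pderiv_comm (i j : Fin 2) (p : P) :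
    pderiv i (pderiv j p) = pderiv j (pderiv i p) := by
  have h : ⁅(pderiv i : Derivation ℂ P P), (pderiv j : Derivation ℂ P P)⁆ = 0 := by
    apply MvPolynomial.derivation_ext
    intro k
    rw [Derivation.commutator_apply, pderiv_X, pderiv_X, Pi.single_apply, Pi.single_apply]
    split_ifs <;> simp
  have h2 := congrArg (fun d : Derivation ℂ P P => d p) h
  simp only [Derivation.commutator_apply] at h2
  exact sub_eq_zero.1 h2

/-- the logarithmic derivative -/
noncomputable def symbol_W (D : ℕ → P) (v : Fin 2 → ℂ) (c : P) : PowerSeries P :=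
  PowerSeries.mk fun k => (k : P) * (sh v (D k) - D k) - if k = 1 then c else 0

/-- the top symbol of the logarithm -/
noncomputable def symbol_g0 (D : ℕ → P) (v : Fin 2 → ℂ) (c : P) : PowerSeries P :=
  PowerSeries.mk fun k => if k = 0 then 0 else
    (∑ l, MvPolynomial.C (v l) * MvPolynomial.pderiv l (V D k)) -
      if k = 1 then MvPolynomial.homogeneousComponent 1 c else 0

/-- the second symbol of the logarithm -/
noncomputable def symbol_g1 (D : ℕ → P) (v : Fin 2 → ℂ) (c : P) : PowerSeries P :=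
  PowerSeries.mk fun k => MvPolynomial.C (1 / 2) * (∑ l, ∑ m, MvPolynomial.C (v l * v m) *
      MvPolynomial.pderiv l (MvPolynomial.pderiv m (V D (k + 1)))) +
    (∑ l, MvPolynomial.C (v l) * MvPolynomial.pderiv l (S' D (k + 1))) -
      if k = 0 then MvPolynomial.homogeneousComponent 0 c else 0

theorem symbol_totalDegree_natCast_mul (k : ℕ) (p : P) :
    ((k : P) * p).totalDegree ≤ p.totalDegree := by
  have h : (k : P) * p = MvPolynomial.C (k : ℂ) * p := by
    rw [map_natCast]
  rw [h]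
  refine (MvPolynomial.totalDegree_mul _ _).trans ?_
  rw [MvPolynomial.totalDegree_C, zero_add]

theorem symbol_hom_natCast_mul (k n : ℕ) (p : P) :
    MvPolynomial.homogeneousComponent n ((k : P) * p) =
      (k : P) * MvPolynomial.homogeneousComponent n p := by
  have h : ∀ p : P, (k : P) * p = MvPolynomial.C (k : ℂ) * p := by
    intro p
    rw [map_natCast]
  rw [h, h, MvPolynomial.homogeneousComponent_C_mul]

theorem symbol_W_WB {D : ℕ → P} (hD : ∀ k : ℕ, 1 ≤ k → (D k).totalDegree ≤ k + 1)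
    (v : Fin 2 → ℂ) {c : P} (hc : c.totalDegree ≤ 1) : WB (symbol_W D v c) := by
  intro k
  rw [symbol_W, PowerSeries.coeff_mk]
  refine (MvPolynomial.totalDegree_sub _ _).trans (max_le ?_ ?_)
  · rcases Nat.eq_zero_or_pos k with hk | hk
    · subst hk
      simp
    · exact (symbol_totalDegree_natCast_mul _ _).trans (totalDegree_sh_sub_le v (hD k hk))
  · split_ifs with h1
    · rw [h1]; exact hc
    · simp

theorem symbol_g0_zero (D : ℕ → P) (v : Fin 2 → ℂ) (c : P) :
    PowerSeries.constantCoeff (symbol_g0 D v c) = 0 := by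
  rw [← PowerSeries.coeff_zero_eq_constantCoeff_apply, symbol_g0, PowerSeries.coeff_mk]
  simp

theorem symbol_T0W {D : ℕ → P} (hD : ∀ k : ℕ, 1 ≤ k → (D k).totalDegree ≤ k + 1)
    (v : Fin 2 → ℂ) (c : P) : T0 (symbol_W D v c) = θ (symbol_g0 D v c) := by
  ext1 k
  rw [coeff_θ, T0, symbol_W, symbol_g0, PowerSeries.coeff_mk, PowerSeries.coeff_mk,
    PowerSeries.coeff_mk, map_sub, symbol_hom_natCast_mul]
  rcases Nat.eq_zero_or_pos k with hk | hk
  · subst hk
    simp
  · rw [hom_shift₁ (hD k hk), if_neg (Nat.pos_iff_ne_zero.1 hk), mul_sub]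
    congr 1
    split_ifs with h1
    · subst h1
      simp
    · simp

theorem symbol_T1W {D : ℕ → P} (hD : ∀ k : ℕ, 1 ≤ k → (D k).totalDegree ≤ k + 1)
    (v : Fin 2 → ℂ) (c : P) :
    T1 (symbol_W D v c) = θ (symbol_g1 D v c) + symbol_g1 D v c := by
  ext1 k
  rw [map_add, coeff_θ, T1, symbol_W, symbol_g1, PowerSeries.coeff_mk, PowerSeries.coeff_mk,
    PowerSeries.coeff_mk, map_sub, symbol_hom_natCast_mul, hom_shift₂ (hD (k + 1) (by omega))]
  have e : ∀ y : P, (k : P) * y + y = ((k + 1 : ℕ) : P) * y := by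
    intro y
    push_cast
    ring
  rw [e, mul_sub]
  congr 1
  rcases Nat.eq_zero_or_pos k with hk | hk
  · subst hk
    simp
  · rw [if_neg (by omega), if_neg (by omega), map_zero, mul_zero]

theorem symbol_θ_mul (a b : PowerSeries P) : θ (a * b) = a * θ b + b * θ a := by
  rw [θ, θ, θ, Derivation.leibniz, smul_eq_mul, smul_eq_mul]
  ring

theorem symbol_θ_sub (a b : PowerSeries P) : θ (a - b) = θ a - θ b := by
  rw [θ, θ, θ, map_sub, mul_sub]

theorem symbol_dc_const {l : Fin 2} {y : PowerSeries P} {z : ℂ}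
    (h : PowerSeries.constantCoeff y = MvPolynomial.C z) :
    PowerSeries.constantCoeff (dc l y) = 0 := by
  rw [← PowerSeries.coeff_zero_eq_constantCoeff_apply, dc, PowerSeries.coeff_mk,
    PowerSeries.coeff_zero_eq_constantCoeff_apply, h, MvPolynomial.pderiv_C]

theorem symbol_T0_const {R : PowerSeries P} (h : PowerSeries.constantCoeff R = 1) :
    PowerSeries.constantCoeff (T0 R) = 1 := by
  rw [← PowerSeries.coeff_zero_eq_constantCoeff_apply, T0, PowerSeries.coeff_mk,
    PowerSeries.coeff_zero_eq_constantCoeff_apply, h, MvPolynomial.homogeneousComponent_zero]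
  simp

theorem symbol_ode0 {R W : PowerSeries P} {g0 : PowerSeries P} (hR : WB R) (hW : WB W)
    (h : θ R = W * R) (h0 : T0 W = θ g0) : θ (T0 R) = θ g0 * T0 R := by
  rw [← T0_θ, h, T0_mul hW hR, h0]

theorem symbol_θ_const (y : PowerSeries P) : PowerSeries.constantCoeff (θ y) = 0 := by
  rw [← PowerSeries.coeff_zero_eq_constantCoeff_apply, coeff_θ]
  simp

theorem symbol_dc0 {R W : PowerSeries P} {g0 : PowerSeries P} (hR : WB R) (hW : WB W)
    (hc : PowerSeries.constantCoeff R = 1) (hg : PowerSeries.constantCoeff g0 = 0)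
    (h : θ R = W * R) (h0 : T0 W = θ g0) (j : Fin 2) : dc j (T0 R) = T0 R * dc j g0 := by
  have h1 := symbol_ode0 hR hW h h0
  have hdc : dc j (θ (T0 R)) = θ g0 * dc j (T0 R) + θ (dc j g0) * T0 R := by
    rw [h1, dc_mul, dc_θ]
  rw [dc_θ] at hdc
  have hy : θ (dc j (T0 R) - T0 R * dc j g0) = θ g0 * (dc j (T0 R) - T0 R * dc j g0) := by
    rw [symbol_θ_sub, symbol_θ_mul, hdc, h1]
    ring
  have hz : PowerSeries.constantCoeff (dc j (T0 R) - T0 R * dc j g0) = 0 := by
    rw [map_sub, map_mul, symbol_dc_const (z := 1) (by rw [symbol_T0_const hc, map_one]),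
      symbol_dc_const (z := 0) (by rw [hg, map_zero]), mul_zero, sub_zero]
  exact sub_eq_zero.1 (ode_unique (symbol_θ_const g0) hz hy)

theorem symbol_T1R {R W : PowerSeries P} {g0 g1 : PowerSeries P} (hR : WB R) (hW : WB W)
    (h : θ R = W * R) (h0 : T0 W = θ g0) (hg1 : T1 W = θ g1 + g1) : T1 R = T0 R * g1 := by
  have h1 := symbol_ode0 hR hW h h0
  have h2 : θ (T1 R) + T1 R = θ g0 * T1 R + (θ g1 + g1) * T0 R := by
    rw [← T1_θ, h, T1_mul hW hR, h0, hg1]
  have hy : θ (T1 R - T0 R * g1) + (T1 R - T0 R * g1) = θ g0 * (T1 R - T0 R * g1) := by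
    rw [symbol_θ_sub, symbol_θ_mul, h1]
    linear_combination h2
  exact sub_eq_zero.1 (ode_unique' (symbol_θ_const g0) hy)

/-- evaluation of coefficients -/
noncomputable def symbol_φ (β : Fin 2 → ℂ) : PowerSeries P →+* PowerSeries ℂ :=
  PowerSeries.map (MvPolynomial.eval β)

theorem symbol_coeff_φ (β : Fin 2 → ℂ) (y : PowerSeries P) (k : ℕ) :
    PowerSeries.coeff k (symbol_φ β y) = MvPolynomial.eval β (PowerSeries.coeff k y) := by
  rw [symbol_φ, PowerSeries.coeff_map]

theorem symbol_φ_θ (β : Fin 2 → ℂ) (y : PowerSeries P) :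
    symbol_φ β (θ y) = PowerSeries.X * PowerSeries.derivative ℂ (symbol_φ β y) := by
  ext1 k
  rw [symbol_coeff_φ, coeff_θ, map_mul, map_natCast]
  rcases k with _ | k
  · simp
  · rw [PowerSeries.coeff_succ_X_mul, PowerSeries.coeff_derivative, symbol_coeff_φ]
    push_cast
    ring

theorem symbol_X_cancel {a b : PowerSeries ℂ} (h : PowerSeries.X * a = PowerSeries.X * b) :
    a = b := mul_left_cancel₀ PowerSeries.X_ne_zero h

theorem symbol_φ_Cmul (β : Fin 2 → ℂ) (z : ℂ) (y : PowerSeries P) :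
    symbol_φ β (PowerSeries.C (MvPolynomial.C z) * y) = PowerSeries.C z * symbol_φ β y := by
  rw [map_mul]
  congr 1
  rw [symbol_φ, PowerSeries.map_C, MvPolynomial.eval_C]

/-- the derivative of the evaluated logarithm -/
theorem symbol_φ_g0 (D : ℕ → P) (v : Fin 2 → ℂ) (c : P) (β : Fin 2 → ℂ) :
    PowerSeries.derivative ℂ (symbol_φ β (symbol_g0 D v c)) =
      (∑ l, PowerSeries.C (v l) * Us D β l) -
        PowerSeries.C (MvPolynomial.eval β (MvPolynomial.homogeneousComponent 1 c)) := by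
  ext1 k
  rw [PowerSeries.coeff_derivative, symbol_coeff_φ, symbol_g0, PowerSeries.coeff_mk,
    if_neg (Nat.succ_ne_zero k), map_sub, map_sum, map_sub, map_sum, sub_mul, Finset.sum_mul]
  congr 1
  · refine Finset.sum_congr rfl fun l _ => ?_
    rw [map_mul, MvPolynomial.eval_C, PowerSeries.coeff_C_mul, Us, PowerSeries.coeff_mk]
    ring
  · rw [PowerSeries.coeff_C]
    rcases Nat.eq_zero_or_pos k with hk | hk
    · subst hk
      simp
    · rw [if_neg (by omega), if_neg (by omega)]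
      simp

theorem symbol_φ_dcg0 (D : ℕ → P) (v : Fin 2 → ℂ) (c : P) (β : Fin 2 → ℂ) (j : Fin 2) :
    symbol_φ β (dc j (symbol_g0 D v c)) =
      PowerSeries.X * ((∑ l, PowerSeries.C (v l) * Ms D β l j) -
        PowerSeries.C (MvPolynomial.eval β (MvPolynomial.pderiv j
          (MvPolynomial.homogeneousComponent 1 c)))) := by
  ext1 k
  rw [symbol_coeff_φ, dc, PowerSeries.coeff_mk, symbol_g0, PowerSeries.coeff_mk]
  rcases k with _ | k
  · simp
  · rw [if_neg (Nat.succ_ne_zero k), PowerSeries.coeff_succ_X_mul, map_sub, map_sub, map_sub,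
      map_sum, map_sum, map_sum]
    congr 1
    · refine Finset.sum_congr rfl fun l _ => ?_
      rw [MvPolynomial.pderiv_C_mul, map_mul, MvPolynomial.eval_C, PowerSeries.coeff_C_mul, Ms,
        PowerSeries.coeff_mk, symbol_pderiv_comm]
    · rw [PowerSeries.coeff_C]
      rcases Nat.eq_zero_or_pos k with hk | hk
      · subst hk
        simp
      · rw [if_neg (by omega), if_neg (by omega)]
        simp

theorem symbol_φ_g1 (D : ℕ → P) (v : Fin 2 → ℂ) (c : P) (β : Fin 2 → ℂ) :
    symbol_φ β (symbol_g1 D v c) =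
      PowerSeries.C (1 / 2) * (∑ l, ∑ m, PowerSeries.C (v l * v m) * Ms D β l m) +
        (∑ l, PowerSeries.C (v l) * Zs D β l) -
          PowerSeries.C (MvPolynomial.eval β (MvPolynomial.homogeneousComponent 0 c)) := by
  ext1 k
  rw [symbol_coeff_φ, symbol_g1, PowerSeries.coeff_mk, map_sub, map_sub, map_add, map_add,
    map_mul, MvPolynomial.eval_C, PowerSeries.coeff_C_mul]
  have e1 : MvPolynomial.eval β (∑ l, ∑ m, MvPolynomial.C (v l * v m) *
      MvPolynomial.pderiv l (MvPolynomial.pderiv m (V D (k + 1)))) =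
      PowerSeries.coeff k (∑ l, ∑ m, PowerSeries.C (v l * v m) * Ms D β l m) := by
    rw [map_sum, map_sum]
    refine Finset.sum_congr rfl fun l _ => ?_
    rw [map_sum, map_sum]
    refine Finset.sum_congr rfl fun m _ => ?_
    rw [map_mul, MvPolynomial.eval_C, PowerSeries.coeff_C_mul, Ms, PowerSeries.coeff_mk]
  have e2 : MvPolynomial.eval β (∑ l, MvPolynomial.C (v l) *
      MvPolynomial.pderiv l (S' D (k + 1))) =
      PowerSeries.coeff k (∑ l, PowerSeries.C (v l) * Zs D β l) := by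
    rw [map_sum, map_sum]
    refine Finset.sum_congr rfl fun l _ => ?_
    rw [map_mul, MvPolynomial.eval_C, PowerSeries.coeff_C_mul, Zs, PowerSeries.coeff_mk]
  rw [e1, e2]
  congr 1
  rw [PowerSeries.coeff_C]
  split_ifs with h1
  · rfl
  · simp

theorem symbol_θR {A : Matrix (Fin 2) (Fin 2) ℂ} {Q : Fin 2 → ℂ} {D : ℕ → P}
    {R S : Fin 2 → PowerSeries P} (h : FD A Q D R S) (i : Fin 2) :
    θ (R i) = symbol_W D (Pi.single i 1) 0 * R i := by
  ext1 k
  rw [coeff_θ, h.Rθ, PowerSeries.coeff_mul]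
  refine Finset.sum_congr rfl fun p _ => ?_
  rw [symbol_W, PowerSeries.coeff_mk, ite_self, sub_zero]

theorem symbol_θS {A : Matrix (Fin 2) (Fin 2) ℂ} {Q : Fin 2 → ℂ} {D : ℕ → P}
    {R S : Fin 2 → PowerSeries P} (h : FD A Q D R S) (i : Fin 2) :
    θ (S i) = symbol_W D (A i) (MvPolynomial.X i + MvPolynomial.C (A i i / 2)) * S i := by
  ext1 k
  rw [coeff_θ, h.Sθ, PowerSeries.coeff_mul]
  refine Finset.sum_congr rfl fun p _ => ?_
  rw [symbol_W, PowerSeries.coeff_mk]

theorem symbol_cdeg (i : Fin 2) (z : ℂ) :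
    (MvPolynomial.X i + MvPolynomial.C z : P).totalDegree ≤ 1 := by
  refine (MvPolynomial.totalDegree_add _ _).trans (max_le ?_ ?_)
  · rw [MvPolynomial.totalDegree_X]
  · rw [MvPolynomial.totalDegree_C]; exact Nat.zero_le _

theorem symbol_chom1 (i : Fin 2) (z : ℂ) :
    MvPolynomial.homogeneousComponent 1 (MvPolynomial.X i + MvPolynomial.C z : P) =
      MvPolynomial.X i := by
  rw [map_add, MvPolynomial.homogeneousComponent_eq_self (MvPolynomial.isHomogeneous_X ℂ i),
    MvPolynomial.homogeneousComponent_eq_zero 1 (MvPolynomial.C z : P)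
      (by rw [MvPolynomial.totalDegree_C]; exact Nat.one_pos), add_zero]

theorem symbol_chom0 (i : Fin 2) (z : ℂ) :
    MvPolynomial.homogeneousComponent 0 (MvPolynomial.X i + MvPolynomial.C z : P) =
      MvPolynomial.C z := by
  rw [MvPolynomial.homogeneousComponent_zero]
  simp

theorem symbol_identities {A : Matrix (Fin 2) (Fin 2) ℂ} {Q : Fin 2 → ℂ} {D : ℕ → P}
    {R S : Fin 2 → PowerSeries P} (h : FD A Q D R S) (β : Fin 2 → ℂ) :
    ∃ q : Fin 2 → PowerSeries ℂ,
      (∀ i, PowerSeries.constantCoeff (q i) = Q i) ∧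
      (∀ i, PowerSeries.derivative ℂ (q i) = q i * Us D β i) ∧
      (∀ i, -PowerSeries.derivative ℂ (q i) =
        (1 - q i) * (∑ l, PowerSeries.C (A i l) * Us D β l - PowerSeries.C (β i))) ∧
      (∀ i j, q i * Ms D β i j + (1 - q i) *
        (∑ l, PowerSeries.C (A i l) * Ms D β l j - PowerSeries.C (if i = j then 1 else 0)) = 0) ∧
      (∀ i, q i * (PowerSeries.C (1 / 2) * Ms D β i i + Zs D β i) + (1 - q i) *
        (PowerSeries.C (1 / 2) * ∑ l, ∑ m, PowerSeries.C (A i l * A i m) * Ms D β l m +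
          ∑ l, PowerSeries.C (A i l) * Zs D β l - PowerSeries.C (A i i / 2)) = 0) := by
  have hWR : ∀ i, WB (R i) := fun i k => h.Rdeg i k
  have hWS : ∀ i, WB (S i) := fun i k => h.Sdeg i k
  have hWr : ∀ i : Fin 2, WB (symbol_W D (Pi.single i 1) 0) := fun i =>
    symbol_W_WB h.deg _ (by simp)
  have hWs : ∀ i : Fin 2, WB (symbol_W D (A i) (MvPolynomial.X i + MvPolynomial.C (A i i / 2))) :=
    fun i => symbol_W_WB h.deg _ (symbol_cdeg i _)
  have odeR : ∀ i, θ (T0 (R i)) = θ (symbol_g0 D (Pi.single i 1) 0) * T0 (R i) := fun i =>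
    symbol_ode0 (hWR i) (hWr i) (symbol_θR h i) (symbol_T0W h.deg _ _)
  have odeS : ∀ i, θ (T0 (S i)) =
      θ (symbol_g0 D (A i) (MvPolynomial.X i + MvPolynomial.C (A i i / 2))) * T0 (S i) := fun i =>
    symbol_ode0 (hWS i) (hWs i) (symbol_θS h i) (symbol_T0W h.deg _ _)
  have dcR : ∀ i j, dc j (T0 (R i)) = T0 (R i) * dc j (symbol_g0 D (Pi.single i 1) 0) :=
    fun i j => symbol_dc0 (hWR i) (hWr i) (h.R0 i) (symbol_g0_zero _ _ _) (symbol_θR h i)
      (symbol_T0W h.deg _ _) j
  have dcS : ∀ i j, dc j (T0 (S i)) = T0 (S i) *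
      dc j (symbol_g0 D (A i) (MvPolynomial.X i + MvPolynomial.C (A i i / 2))) :=
    fun i j => symbol_dc0 (hWS i) (hWs i) (h.S0 i) (symbol_g0_zero _ _ _) (symbol_θS h i)
      (symbol_T0W h.deg _ _) j
  have t1R : ∀ i, T1 (R i) = T0 (R i) * symbol_g1 D (Pi.single i 1) 0 := fun i =>
    symbol_T1R (hWR i) (hWr i) (symbol_θR h i) (symbol_T0W h.deg _ _) (symbol_T1W h.deg _ _)
  have t1S : ∀ i, T1 (S i) = T0 (S i) *
      symbol_g1 D (A i) (MvPolynomial.X i + MvPolynomial.C (A i i / 2)) := fun i =>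
    symbol_T1R (hWS i) (hWs i) (symbol_θS h i) (symbol_T0W h.deg _ _) (symbol_T1W h.deg _ _)
  have fe0 : ∀ i, PowerSeries.C (MvPolynomial.C (Q i)) * T0 (R i) +
      PowerSeries.C (MvPolynomial.C (1 - Q i)) * T0 (S i) = 1 := by
    intro i
    rw [← T0_Cmul, ← T0_Cmul, ← T0_add, h.fe i, T0_one]
  have fe1 : ∀ i, PowerSeries.C (MvPolynomial.C (Q i)) * T1 (R i) +
      PowerSeries.C (MvPolynomial.C (1 - Q i)) * T1 (S i) = 0 := by
    intro i
    rw [← T1_Cmul, ← T1_Cmul, ← T1_add, h.fe i, T1_one]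
  have hdcC : ∀ (j : Fin 2) (z : ℂ), dc j (PowerSeries.C (MvPolynomial.C z)) = 0 := by
    intro j z
    ext1 k
    rw [dc, PowerSeries.coeff_mk, PowerSeries.coeff_C]
    split_ifs
    · rw [MvPolynomial.pderiv_C, map_zero]
    · rw [map_zero, map_zero]
  have hdcadd : ∀ (j : Fin 2) (y z : PowerSeries P), dc j (y + z) = dc j y + dc j z := by
    intro j y z
    ext1 k
    rw [map_add, dc, dc, dc, PowerSeries.coeff_mk, PowerSeries.coeff_mk, PowerSeries.coeff_mk,
      map_add, map_add]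
  have fed : ∀ i j, PowerSeries.C (MvPolynomial.C (Q i)) * dc j (T0 (R i)) +
      PowerSeries.C (MvPolynomial.C (1 - Q i)) * dc j (T0 (S i)) = 0 := by
    intro i j
    have h1 := congrArg (dc j) (fe0 i)
    rw [hdcadd, dc_mul, dc_mul, hdcC, hdcC, zero_mul, zero_mul, add_zero, add_zero] at h1
    rw [h1]
    have h2 : (1 : PowerSeries P) = PowerSeries.C (MvPolynomial.C 1) := by
      rw [map_one, map_one]
    rw [h2, hdcC]
  have hS : ∀ i, 1 - PowerSeries.C (Q i) * symbol_φ β (T0 (R i)) =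
      PowerSeries.C (1 - Q i) * symbol_φ β (T0 (S i)) := by
    intro i
    have h1 := congrArg (symbol_φ β) (fe0 i)
    rw [map_add, symbol_φ_Cmul, symbol_φ_Cmul, map_one] at h1
    rw [← h1]
    ring
  have hder : ∀ (z : ℂ) (y : PowerSeries ℂ), PowerSeries.derivative ℂ (PowerSeries.C z * y) =
      PowerSeries.C z * PowerSeries.derivative ℂ y := by
    intro z y
    rw [Derivation.leibniz, PowerSeries.derivative_C, smul_zero, add_zero, smul_eq_mul]
  have dR : ∀ i, PowerSeries.derivative ℂ (symbol_φ β (T0 (R i))) =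
      symbol_φ β (T0 (R i)) * Us D β i := by
    intro i
    apply symbol_X_cancel
    rw [← symbol_φ_θ, odeR, map_mul, symbol_φ_θ, symbol_φ_g0]
    have h1 : ∑ l, PowerSeries.C ((Pi.single i 1 : Fin 2 → ℂ) l) * Us D β l = Us D β i := by
      rw [Finset.sum_eq_single i]
      · rw [Pi.single_eq_same, map_one, one_mul]
      · intro b _ hb
        rw [Pi.single_eq_of_ne hb, map_zero, zero_mul]
      · intro hi
        exact absurd (Finset.mem_univ i) hi
    rw [h1, map_zero, map_zero, map_zero, sub_zero]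
    ring
  have dS : ∀ i, PowerSeries.derivative ℂ (symbol_φ β (T0 (S i))) =
      symbol_φ β (T0 (S i)) * (∑ l, PowerSeries.C (A i l) * Us D β l - PowerSeries.C (β i)) := by
    intro i
    apply symbol_X_cancel
    rw [← symbol_φ_θ, odeS, map_mul, symbol_φ_θ, symbol_φ_g0, symbol_chom1, MvPolynomial.eval_X]
    ring
  refine ⟨fun i => PowerSeries.C (Q i) * symbol_φ β (T0 (R i)), ?_, ?_, ?_, ?_, ?_⟩
  · intro i
    have h1 : PowerSeries.constantCoeff (symbol_φ β (T0 (R i))) = 1 := by
      rw [← PowerSeries.coeff_zero_eq_constantCoeff_apply, symbol_coeff_φ,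
        PowerSeries.coeff_zero_eq_constantCoeff_apply, symbol_T0_const (h.R0 i), map_one]
    rw [map_mul, h1, PowerSeries.constantCoeff_C, mul_one]
  · intro i
    simp only
    rw [hder, dR]
    ring
  · intro i
    simp only
    rw [hS]
    have h1 := congrArg (PowerSeries.derivative ℂ) (hS i)
    rw [map_sub, PowerSeries.derivative_one, zero_sub, hder (1 - Q i), dS] at h1
    rw [h1]
    ring
  · intro i j
    simp only
    rw [hS]
    have h1 := congrArg (symbol_φ β) (fed i j)
    rw [map_add, symbol_φ_Cmul, symbol_φ_Cmul, map_zero, dcR, dcS, map_mul, map_mul,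
      symbol_φ_dcg0, symbol_φ_dcg0, symbol_chom1, MvPolynomial.pderiv_X] at h1
    have h2 : ∑ l, PowerSeries.C ((Pi.single i 1 : Fin 2 → ℂ) l) * Ms D β l j = Ms D β i j := by
      rw [Finset.sum_eq_single i]
      · rw [Pi.single_eq_same, map_one, one_mul]
      · intro b _ hb
        rw [Pi.single_eq_of_ne hb, map_zero, zero_mul]
      · intro hi
        exact absurd (Finset.mem_univ i) hi
    rw [h2, map_zero, map_zero, map_zero, map_zero, sub_zero] at h1
    have h3 : MvPolynomial.eval β ((Pi.single j 1 : Fin 2 → P) i) = if i = j then 1 else 0 := by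
      rw [Pi.single_apply]
      split_ifs with h4
      · rw [map_one]
      · rw [map_zero]
    rw [h3] at h1
    apply symbol_X_cancel
    rw [mul_zero]
    linear_combination h1
  · intro i
    simp only
    rw [hS]
    have h1 := congrArg (symbol_φ β) (fe1 i)
    rw [map_add, symbol_φ_Cmul, symbol_φ_Cmul, map_zero, t1R, t1S, map_mul, map_mul,
      symbol_φ_g1, symbol_φ_g1, symbol_chom0, MvPolynomial.eval_C] at h1
    have h2 : ∑ l, PowerSeries.C ((Pi.single i 1 : Fin 2 → ℂ) l) * Zs D β l = Zs D β i := by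
      rw [Finset.sum_eq_single i]
      · rw [Pi.single_eq_same, map_one, one_mul]
      · intro b _ hb
        rw [Pi.single_eq_of_ne hb, map_zero, zero_mul]
      · intro hi
        exact absurd (Finset.mem_univ i) hi
    have h3 : ∑ l, ∑ m, PowerSeries.C ((Pi.single i 1 : Fin 2 → ℂ) l *
        (Pi.single i 1 : Fin 2 → ℂ) m) * Ms D β l m = Ms D β i i := by
      rw [Finset.sum_eq_single i, Finset.sum_eq_single i]
      · rw [Pi.single_eq_same, mul_one, map_one, one_mul]
      · intro b _ hb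
        rw [Pi.single_eq_of_ne hb, mul_zero, map_zero, zero_mul]
      · intro hi
        exact absurd (Finset.mem_univ i) hi
      · intro b _ hb
        refine Finset.sum_eq_zero fun m _ => ?_
        rw [Pi.single_eq_of_ne hb, zero_mul, map_zero, zero_mul]
      · intro hi
        exact absurd (Finset.mem_univ i) hi
    rw [h2, h3, map_zero, map_zero, map_zero, sub_zero] at h1
    linear_combination h1

theorem euler_U (D : ℕ → P) (β : Fin 2 → ℂ) (k : ℕ) :
    PowerSeries.coeff k (∑ j, PowerSeries.C (β j) * Us D β j) =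
      ((k : ℂ) + 1) * ((k : ℂ) + 2) * MvPolynomial.eval β (V D (k + 1)) := by
  have h1 : (V D (k + 1)).IsHomogeneous (k + 2) :=
    MvPolynomial.homogeneousComponent_isHomogeneous _ _
  have h2 := euler_hom h1 β
  rw [map_sum]
  simp only [PowerSeries.coeff_C_mul, Us, PowerSeries.coeff_mk]
  push_cast at h2
  have h3 : ∑ x, β x * (((k : ℂ) + 1) *
      MvPolynomial.eval β (MvPolynomial.pderiv x (V D (k + 1)))) =
      ((k : ℂ) + 1) * ∑ x, β x * MvPolynomial.eval β (MvPolynomial.pderiv x (V D (k + 1))) := by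
    rw [Finset.mul_sum]
    refine Finset.sum_congr rfl fun x _ => ?_
    ring
  rw [h3, h2]
  ring

theorem euler_Z (D : ℕ → P) (β : Fin 2 → ℂ) (k : ℕ) :
    PowerSeries.coeff k (∑ j, PowerSeries.C (β j) * Zs D β j) =
      ((k : ℂ) + 1) * MvPolynomial.eval β (S' D (k + 1)) := by
  have h1 : (S' D (k + 1)).IsHomogeneous (k + 1) :=
    MvPolynomial.homogeneousComponent_isHomogeneous _ _
  have h2 := euler_hom h1 β
  rw [map_sum]
  simp only [PowerSeries.coeff_C_mul, Zs, PowerSeries.coeff_mk]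
  push_cast at h2
  exact h2

end Pool.Agent.Lib.MP_8ce23f_nt.R2
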