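import Pool.Agent.Lib.MP_8ce23f_nt.R2.Degree

/-!
# Degree bounds

Job TDDeg.  Strong induction on `j`.  Claim(j): if `j` is odd then `(coeff j L).totalDegree = 0`
and `coeff j (R i) = coeff j (S i) = 0`; if `j = 2 k`, `k ≥ 1`, then `(coeff j L).totalDegree ≤ k + 1`
and `coeff j (R i)`, `coeff j (S i)` have `totalDegree ≤ k`.
Coefficient `j ≥ 1` of `Rθ`: `j R_i[j] = ∑_{l=1}^{j} (Δ_i L[l]) R_i[j-l]
 = Δ_{e_i} L[j] + (terms with 1 ≤ l < j)`, `Δ_v = sh v - 1`; similarly for `S` with the extra term at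
`l = 2`.  Coefficient `j` of `fe`: `Q_i R_i[j] + (1-Q_i) S_i[j] = 0`.  Hence
`Q_i Δ_{e_i} L[j] + (1-Q_i) Δ_{A_i} L[j]` has `totalDegree ≤ k` (`j = 2k`), or vanishes (`j` odd: each
product contains a factor with odd index, which is zero), and `degree_lemma`,
`degree_lemma_zero` apply.
-/

open Filter Topology
open scoped Real

namespace Pool.Agent.Lib.MP_8ce23f_nt.R2

/-- vanishing in odd index, degree at most half of the index in even index -/
def TDDeg_W (p : P) (j : ℕ) : Prop :=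
  (Odd j → p = 0) ∧ (∀ k, j = 2 * k → p.totalDegree ≤ k)

theorem TDDeg_W_zero (j : ℕ) : TDDeg_W 0 j := by
  refine ⟨fun _ => rfl, fun k _ => ?_⟩
  simp

theorem TDDeg_W_add {p q : P} {j : ℕ} (hp : TDDeg_W p j) (hq : TDDeg_W q j) :
    TDDeg_W (p + q) j := by
  refine ⟨fun h => ?_, fun k hk => ?_⟩
  · rw [hp.1 h, hq.1 h, add_zero]
  · exact (MvPolynomial.totalDegree_add _ _).trans (max_le (hp.2 k hk) (hq.2 k hk))

theorem TDDeg_W_neg {p : P} {j : ℕ} (hp : TDDeg_W p j) : TDDeg_W (-p) j := by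
  refine ⟨fun h => ?_, fun k hk => ?_⟩
  · rw [hp.1 h, neg_zero]
  · rw [MvPolynomial.totalDegree_neg]
    exact hp.2 k hk

theorem TDDeg_W_sum {ι : Type*} (s : Finset ι) (f : ι → P) {j : ℕ}
    (h : ∀ i ∈ s, TDDeg_W (f i) j) : TDDeg_W (∑ i ∈ s, f i) j := by
  classical
  induction s using Finset.induction_on with
  | empty => simpa using TDDeg_W_zero j
  | insert a s ha ih =>
    rw [Finset.sum_insert ha]
    exact TDDeg_W_add (h a (Finset.mem_insert_self a s))
      (ih fun i hi => h i (Finset.mem_insert_of_mem hi))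

theorem TDDeg_W_mul {p q : P} {a b j : ℕ} (hp : TDDeg_W p a) (hq : TDDeg_W q b)
    (hj : a + b = j) : TDDeg_W (p * q) j := by
  subst hj
  rcases Nat.even_or_odd a with ha | ha
  · rcases Nat.even_or_odd b with hb | hb
    · refine ⟨fun h => ?_, fun k hk => ?_⟩
      · exact absurd (ha.add hb) (Nat.not_even_iff_odd.2 h)
      · obtain ⟨a', ha'⟩ := ha
        obtain ⟨b', hb'⟩ := hb
        have h1 := hp.2 a' (by omega)
        have h2 := hq.2 b' (by omega)
        have h3 := MvPolynomial.totalDegree_mul p q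
        omega
    · rw [hq.1 hb, mul_zero]
      exact TDDeg_W_zero _
  · rw [hp.1 ha, zero_mul]
    exact TDDeg_W_zero _

theorem TDDeg_W_C_mul {p : P} {j : ℕ} (c : ℂ) (hp : TDDeg_W p j) :
    TDDeg_W (MvPolynomial.C c * p) j := by
  refine TDDeg_W_mul (a := 0) ⟨fun h => ?_, fun k _ => ?_⟩ hp (by omega)
  · exact absurd h (by decide)
  · rw [MvPolynomial.totalDegree_C]
    omega

/-- the inductive statement -/
def TDDeg_K (L : PowerSeries P) (R S : Fin 2 → PowerSeries P) (j : ℕ) : Prop :=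
  (Odd j → (PowerSeries.coeff j L).totalDegree = 0) ∧
  (∀ k, j = 2 * k → 1 ≤ k → (PowerSeries.coeff j L).totalDegree ≤ k + 1) ∧
  ∀ i, TDDeg_W (PowerSeries.coeff j (R i)) j ∧ TDDeg_W (PowerSeries.coeff j (S i)) j

theorem TDDeg_K.sh {L : PowerSeries P} {R S : Fin 2 → PowerSeries P} {j : ℕ}
    (h : TDDeg_K L R S j) (h0 : PowerSeries.constantCoeff L = 0) (v : Fin 2 → ℂ) :
    TDDeg_W (sh v (PowerSeries.coeff j L) - PowerSeries.coeff j L) j := by
  rcases Nat.eq_zero_or_pos j with rfl | hj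
  · rw [PowerSeries.coeff_zero_eq_constantCoeff_apply, h0, map_zero, sub_zero]
    exact TDDeg_W_zero 0
  · refine ⟨fun ho => totalDegree_sh_sub_le' v (h.1 ho), fun k hk => ?_⟩
    exact totalDegree_sh_sub_le v (h.2.1 k hk (by omega))

theorem TDDeg_coeff_X_mul_derivative (f : PowerSeries P) (m : ℕ) :
    PowerSeries.coeff (m + 1) (PowerSeries.X * PowerSeries.derivative P f) =
      MvPolynomial.C ((m : ℂ) + 1) * PowerSeries.coeff (m + 1) f := by
  rw [PowerSeries.coeff_succ_X_mul]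
  have := PowerSeries.coeff_derivative f m
  rw [this]
  rw [map_add, map_one, MvPolynomial.C_eq_coe_nat, mul_comm]

/-- the remainder in the recursion -/
noncomputable def TDDeg_rem (F : PowerSeries P) (L : PowerSeries P) (v : Fin 2 → ℂ) (m : ℕ) : P :=
  ∑ x ∈ Finset.HasAntidiagonal.antidiagonal m, PowerSeries.coeff (x.1 + 1) F *
    (sh v (PowerSeries.coeff x.2 L) - PowerSeries.coeff x.2 L)

theorem TDDeg_coeff_mul (F : PowerSeries P) (L : PowerSeries P) (v : Fin 2 → ℂ) (m : ℕ)
    (hF : PowerSeries.constantCoeff F = 1) :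
    PowerSeries.coeff (m + 1) (F * (PowerSeries.map (sh v : P →+* P) L - L)) =
      (sh v (PowerSeries.coeff (m + 1) L) - PowerSeries.coeff (m + 1) L) +
        TDDeg_rem F L v m := by
  rw [PowerSeries.coeff_mul, Finset.Nat.sum_antidiagonal_succ]
  congr 1
  · rw [PowerSeries.coeff_zero_eq_constantCoeff_apply, hF, one_mul, map_sub,
      PowerSeries.coeff_map]
    rfl

theorem TDDeg_rem_W {L : PowerSeries P} {R S : Fin 2 → PowerSeries P} {m : ℕ}
    (h : ∀ j < m + 1, TDDeg_K L R S j) (h0 : PowerSeries.constantCoeff L = 0) (v : Fin 2 → ℂ)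
    (F : PowerSeries P) (hF : ∀ j < m + 1, TDDeg_W (PowerSeries.coeff j F) j) :
    TDDeg_W (TDDeg_rem F L v m) (m + 1) := by
  apply TDDeg_W_sum
  intro x hx
  rw [Finset.HasAntidiagonal.mem_antidiagonal] at hx
  rcases Nat.eq_zero_or_pos x.2 with h2 | h2
  · rw [h2, PowerSeries.coeff_zero_eq_constantCoeff_apply, h0, map_zero, sub_zero, mul_zero]
    exact TDDeg_W_zero _
  · exact TDDeg_W_mul (hF (x.1 + 1) (by omega)) ((h x.2 (by omega)).sh h0 v) (by omega)

theorem TDDeg_main {A : Matrix (Fin 2) (Fin 2) ℂ} {Q : Fin 2 → ℂ} {L : PowerSeries P}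
    {R S : Fin 2 → PowerSeries P} (hnd : Nondeg A Q) (h : TD A Q L R S) (j : ℕ) :
    TDDeg_K L R S j := by
  induction j using Nat.strong_induction_on with
  | _ j ih =>
  rcases Nat.eq_zero_or_pos j with rfl | hj
  · refine ⟨fun ho => absurd ho (by decide), fun k hk hk1 => by omega, fun i => ⟨?_, ?_⟩⟩
    · rw [PowerSeries.coeff_zero_eq_constantCoeff_apply, h.R0]
      refine ⟨fun ho => absurd ho (by decide), fun k hk => ?_⟩
      simp
    · rw [PowerSeries.coeff_zero_eq_constantCoeff_apply, h.S0]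
      refine ⟨fun ho => absurd ho (by decide), fun k hk => ?_⟩
      simp
  · obtain ⟨m, rfl⟩ : ∃ m, j = m + 1 := ⟨j - 1, by omega⟩
    have hm : ((m : ℂ) + 1) ≠ 0 := by exact_mod_cast Nat.succ_ne_zero m
    -- the two recursions
    have hR : ∀ i, MvPolynomial.C ((m : ℂ) + 1) * PowerSeries.coeff (m + 1) (R i) =
        (sh (Pi.single i 1) (PowerSeries.coeff (m + 1) L) - PowerSeries.coeff (m + 1) L) +
          TDDeg_rem (R i) L (Pi.single i 1) m := by
      intro i
      rw [← TDDeg_coeff_X_mul_derivative, h.Rθ i, TDDeg_coeff_mul _ _ _ _ (h.R0 i)]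
    have hRW : ∀ i, TDDeg_W (TDDeg_rem (R i) L (Pi.single i 1) m) (m + 1) := fun i =>
      TDDeg_rem_W ih h.L0 _ _ fun j hj => ((ih j hj).2.2 i).1
    have hS : ∀ i, ∃ s : P, TDDeg_W s (m + 1) ∧
        MvPolynomial.C ((m : ℂ) + 1) * PowerSeries.coeff (m + 1) (S i) =
        (sh (A i) (PowerSeries.coeff (m + 1) L) - PowerSeries.coeff (m + 1) L) + s := by
      intro i
      have hW : TDDeg_W (TDDeg_rem (S i) L (A i) m) (m + 1) :=
        TDDeg_rem_W ih h.L0 _ _ fun j hj => ((ih j hj).2.2 i).2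
      set u : P := MvPolynomial.X i + MvPolynomial.C (A i i / 2) with hu
      have e1 : S i * (PowerSeries.map (sh (A i) : P →+* P) L - L -
          2 * PowerSeries.X ^ 2 * PowerSeries.C u) =
          S i * (PowerSeries.map (sh (A i) : P →+* P) L - L) +
            - (PowerSeries.X ^ 2 * (PowerSeries.C (2 * u) * S i)) := by
        rw [map_mul, map_ofNat]
        ring
      refine ⟨TDDeg_rem (S i) L (A i) m +
        - (if 2 ≤ m + 1 then 2 * u * PowerSeries.coeff (m + 1 - 2) (S i) else 0), ?_, ?_⟩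
      · apply TDDeg_W_add hW
        apply TDDeg_W_neg
        split_ifs with h2
        · have hs := ((ih (m + 1 - 2) (by omega)).2.2 i).2
          refine TDDeg_W_mul (a := 2) (b := m + 1 - 2) ⟨fun ho => absurd ho (by decide), ?_⟩ hs
            (by omega)
          intro k hk
          have : u.totalDegree ≤ 1 := by
            rw [hu]
            refine (MvPolynomial.totalDegree_add _ _).trans ?_
            rw [MvPolynomial.totalDegree_X, MvPolynomial.totalDegree_C]
            simp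
          have h3 : (2 * u : P) = MvPolynomial.C 2 * u := by
            rw [map_ofNat]
          rw [h3]
          have h4 := MvPolynomial.totalDegree_mul (MvPolynomial.C (2 : ℂ)) u
          rw [MvPolynomial.totalDegree_C] at h4
          omega
        · exact TDDeg_W_zero _
      · rw [← TDDeg_coeff_X_mul_derivative, h.Sθ i, e1, map_add,
          TDDeg_coeff_mul _ _ _ _ (h.S0 i), map_neg, PowerSeries.coeff_X_pow_mul',
          PowerSeries.coeff_C_mul, add_assoc]
    choose s hsW hS using hS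
    -- the functional equation
    have hfe : ∀ i, MvPolynomial.C (Q i) * PowerSeries.coeff (m + 1) (R i) +
        MvPolynomial.C (1 - Q i) * PowerSeries.coeff (m + 1) (S i) = 0 := by
      intro i
      have := congrArg (PowerSeries.coeff (m + 1)) (h.fe i)
      rw [map_add, PowerSeries.coeff_C_mul, PowerSeries.coeff_C_mul, PowerSeries.coeff_one,
        if_neg (Nat.succ_ne_zero m)] at this
      exact this
    have hD : ∀ i, MvPolynomial.C (Q i) *
        (sh (Pi.single i 1) (PowerSeries.coeff (m + 1) L) - PowerSeries.coeff (m + 1) L) +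
        MvPolynomial.C (1 - Q i) *
        (sh (A i) (PowerSeries.coeff (m + 1) L) - PowerSeries.coeff (m + 1) L) =
        - (MvPolynomial.C (Q i) * TDDeg_rem (R i) L (Pi.single i 1) m +
          MvPolynomial.C (1 - Q i) * s i) := by
      intro i
      linear_combination MvPolynomial.C ((m : ℂ) + 1) * hfe i - MvPolynomial.C (Q i) * hR i -
        MvPolynomial.C (1 - Q i) * hS i
    have hDW : ∀ i, TDDeg_W (MvPolynomial.C (Q i) *
        (sh (Pi.single i 1) (PowerSeries.coeff (m + 1) L) - PowerSeries.coeff (m + 1) L) +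
        MvPolynomial.C (1 - Q i) *
        (sh (A i) (PowerSeries.coeff (m + 1) L) - PowerSeries.coeff (m + 1) L)) (m + 1) := by
      intro i
      rw [hD i]
      exact TDDeg_W_neg (TDDeg_W_add (TDDeg_W_C_mul _ (hRW i)) (TDDeg_W_C_mul _ (hsW i)))
    have hL : (Odd (m + 1) → (PowerSeries.coeff (m + 1) L).totalDegree = 0) ∧
        (∀ k, m + 1 = 2 * k → 1 ≤ k → (PowerSeries.coeff (m + 1) L).totalDegree ≤ k + 1) := by
      refine ⟨fun ho => ?_, fun k hk _ => ?_⟩
      · exact degree_lemma_zero hnd fun i => (hDW i).1 ho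
      · exact degree_lemma hnd fun i => (hDW i).2 k hk
    have hsh : ∀ v, TDDeg_W (sh v (PowerSeries.coeff (m + 1) L) -
        PowerSeries.coeff (m + 1) L) (m + 1) := by
      intro v
      refine ⟨fun ho => totalDegree_sh_sub_le' v (hL.1 ho), fun k hk => ?_⟩
      exact totalDegree_sh_sub_le v (hL.2 k hk (by omega))
    have hinv : ∀ f g : P, MvPolynomial.C ((m : ℂ) + 1) * f = g → TDDeg_W g (m + 1) →
        TDDeg_W f (m + 1) := by
      intro f g hfg hg
      have : f = MvPolynomial.C ((m : ℂ) + 1)⁻¹ * g := by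
        rw [← hfg, ← mul_assoc, ← map_mul, inv_mul_cancel₀ hm, map_one, one_mul]
      rw [this]
      exact TDDeg_W_C_mul _ hg
    refine ⟨hL.1, hL.2, fun i => ⟨?_, ?_⟩⟩
    · exact hinv _ _ (hR i) (TDDeg_W_add (hsh _) (hRW i))
    · exact hinv _ _ (hS i) (TDDeg_W_add (hsh _) (hsW i))

theorem TD_degrees {A : Matrix (Fin 2) (Fin 2) ℂ} {Q : Fin 2 → ℂ} {L : PowerSeries P}
    {R S : Fin 2 → PowerSeries P} (hnd : Nondeg A Q) (h : TD A Q L R S) (j : ℕ) :
    (Odd j → (PowerSeries.coeff j L).totalDegree = 0 ∧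
      ∀ i, PowerSeries.coeff j (R i) = 0 ∧ PowerSeries.coeff j (S i) = 0) ∧
    (∀ k, j = 2 * k → 1 ≤ k → (PowerSeries.coeff j L).totalDegree ≤ k + 1 ∧
      ∀ i, (PowerSeries.coeff j (R i)).totalDegree ≤ k ∧
        (PowerSeries.coeff j (S i)).totalDegree ≤ k) := by
  obtain ⟨h1, h2, h3⟩ := TDDeg_main hnd h j
  refine ⟨fun ho => ⟨h1 ho, fun i => ⟨(h3 i).1.1 ho, (h3 i).2.1 ho⟩⟩, fun k hk hk1 => ?_⟩
  exact ⟨h2 k hk hk1, fun i => ⟨(h3 i).1.2 k hk, (h3 i).2.2 k hk⟩⟩

end Pool.Agent.Lib.MP_8ce23f_nt.R2
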