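import Pool.Agent.Lib.MP_8ce23f_nt.R2.Hom

/-!
# The symbol maps

Job TMaps.  `T0` is multiplicative and `T1` is a derivation over `T0` on series whose
`k`-th coefficient has degree `≤ k` (`hom_mul`, `hom_mul'`; for `T1` reindex the antidiagonal
of `k+1`).  `ode_unique`: coefficientwise strong induction.
-/

open Filter Topology
open scoped Real

namespace Pool.Agent.Lib.MP_8ce23f_nt.R2

/-- The degree condition. -/
def WB (R : PowerSeries P) : Prop := ∀ k : ℕ, (PowerSeries.coeff k R).totalDegree ≤ k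

/-- The top symbol. -/
noncomputable def T0 (R : PowerSeries P) : PowerSeries P :=
  PowerSeries.mk fun k => MvPolynomial.homogeneousComponent k (PowerSeries.coeff k R)

/-- The subleading symbol. -/
noncomputable def T1 (R : PowerSeries P) : PowerSeries P :=
  PowerSeries.mk fun k => MvPolynomial.homogeneousComponent k (PowerSeries.coeff (k + 1) R)

theorem TMaps_coeff_T0 (R : PowerSeries P) (k : ℕ) :
    PowerSeries.coeff k (T0 R) = MvPolynomial.homogeneousComponent k (PowerSeries.coeff k R) :=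
  PowerSeries.coeff_mk _ _

theorem TMaps_coeff_T1 (R : PowerSeries P) (k : ℕ) :
    PowerSeries.coeff k (T1 R) =
      MvPolynomial.homogeneousComponent k (PowerSeries.coeff (k + 1) R) :=
  PowerSeries.coeff_mk _ _

theorem TMaps_natCast (k : ℕ) : (k : P) = MvPolynomial.C (k : ℂ) := by
  rw [map_natCast]

theorem WB.mul {R S : PowerSeries P} (hR : WB R) (hS : WB S) : WB (R * S) := by
  intro k
  rw [PowerSeries.coeff_mul]
  refine MvPolynomial.totalDegree_finsetSum_le fun p hp => ?_
  rw [Finset.HasAntidiagonal.mem_antidiagonal] at hp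
  refine (MvPolynomial.totalDegree_mul _ _).trans ?_
  have h1 := hR p.1
  have h2 := hS p.2
  omega

theorem T0_mul {R S : PowerSeries P} (hR : WB R) (hS : WB S) : T0 (R * S) = T0 R * T0 S := by
  ext1 k
  rw [TMaps_coeff_T0, PowerSeries.coeff_mul, PowerSeries.coeff_mul, map_sum]
  refine Finset.sum_congr rfl fun p hp => ?_
  rw [Finset.HasAntidiagonal.mem_antidiagonal] at hp
  rw [← hp, hom_mul (hR p.1) (hS p.2), TMaps_coeff_T0, TMaps_coeff_T0]

theorem T1_mul {R S : PowerSeries P} (hR : WB R) (hS : WB S) :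
    T1 (R * S) = T0 R * T1 S + T1 R * T0 S := by
  ext1 k
  rw [TMaps_coeff_T1, PowerSeries.coeff_mul, map_add, PowerSeries.coeff_mul,
    PowerSeries.coeff_mul, map_sum]
  have h1 : ∀ p ∈ Finset.HasAntidiagonal.antidiagonal (k + 1),
      MvPolynomial.homogeneousComponent k
        (PowerSeries.coeff p.1 R * PowerSeries.coeff p.2 S) =
      MvPolynomial.homogeneousComponent p.1 (PowerSeries.coeff p.1 R) *
          h1 p.2 (PowerSeries.coeff p.2 S) +
        h1 p.1 (PowerSeries.coeff p.1 R) *
          MvPolynomial.homogeneousComponent p.2 (PowerSeries.coeff p.2 S) := by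
    intro p hp
    rw [Finset.HasAntidiagonal.mem_antidiagonal] at hp
    exact hom_mul' (hR p.1) (hS p.2) hp
  rw [Finset.sum_congr rfl h1, Finset.sum_add_distrib, Finset.Nat.sum_antidiagonal_succ',
    Finset.Nat.sum_antidiagonal_succ]
  have e1 : ∀ q : P, R2.h1 0 q = 0 := fun q => if_pos rfl
  have e2 : ∀ (j : ℕ) (q : P), R2.h1 (j + 1) q = MvPolynomial.homogeneousComponent j q :=
    fun j q => if_neg (Nat.succ_ne_zero j)
  simp only [e1, e2, mul_zero, zero_mul, zero_add, TMaps_coeff_T0, TMaps_coeff_T1]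

theorem T0_add (R S : PowerSeries P) : T0 (R + S) = T0 R + T0 S := by
  ext1 k
  rw [TMaps_coeff_T0, map_add, map_add, map_add, TMaps_coeff_T0, TMaps_coeff_T0]

theorem T1_add (R S : PowerSeries P) : T1 (R + S) = T1 R + T1 S := by
  ext1 k
  rw [TMaps_coeff_T1, map_add, map_add, map_add, TMaps_coeff_T1, TMaps_coeff_T1]

theorem T0_Cmul (z : ℂ) (R : PowerSeries P) :
    T0 (PowerSeries.C (MvPolynomial.C z) * R) = PowerSeries.C (MvPolynomial.C z) * T0 R := by
  ext1 k
  rw [TMaps_coeff_T0, PowerSeries.coeff_C_mul, PowerSeries.coeff_C_mul,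
    MvPolynomial.homogeneousComponent_C_mul, TMaps_coeff_T0]

theorem T1_Cmul (z : ℂ) (R : PowerSeries P) :
    T1 (PowerSeries.C (MvPolynomial.C z) * R) = PowerSeries.C (MvPolynomial.C z) * T1 R := by
  ext1 k
  rw [TMaps_coeff_T1, PowerSeries.coeff_C_mul, PowerSeries.coeff_C_mul,
    MvPolynomial.homogeneousComponent_C_mul, TMaps_coeff_T1]

theorem T0_one : T0 1 = 1 := by
  ext1 k
  rw [TMaps_coeff_T0, PowerSeries.coeff_one]
  split_ifs with h
  · subst h
    rw [MvPolynomial.homogeneousComponent_zero, MvPolynomial.coeff_zero_one, map_one]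
  · rw [map_zero]

theorem T1_one : T1 1 = 0 := by
  ext1 k
  rw [TMaps_coeff_T1, PowerSeries.coeff_one, if_neg (Nat.succ_ne_zero k), map_zero, map_zero]

/-- The operator `τ d/dτ`. -/
noncomputable def θ (y : PowerSeries P) : PowerSeries P := PowerSeries.X * PowerSeries.derivative P y

theorem coeff_θ (y : PowerSeries P) (k : ℕ) :
    PowerSeries.coeff k (θ y) = (k : P) * PowerSeries.coeff k y := by
  unfold θ
  rcases k with _ | k
  · rw [PowerSeries.coeff_zero_X_mul, Nat.cast_zero, zero_mul]
  · rw [PowerSeries.coeff_succ_X_mul, PowerSeries.coeff_derivative]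
    push_cast
    ring

theorem T0_θ (R : PowerSeries P) : T0 (θ R) = θ (T0 R) := by
  ext1 k
  rw [TMaps_coeff_T0, coeff_θ, coeff_θ, TMaps_coeff_T0, TMaps_natCast,
    MvPolynomial.homogeneousComponent_C_mul]

theorem T1_θ (R : PowerSeries P) : T1 (θ R) = θ (T1 R) + T1 R := by
  ext1 k
  rw [TMaps_coeff_T1, coeff_θ, map_add, coeff_θ, TMaps_coeff_T1, TMaps_natCast,
    MvPolynomial.homogeneousComponent_C_mul, ← TMaps_natCast]
  push_cast
  ring

theorem WB.theta {R : PowerSeries P} (hR : WB R) : WB (θ R) := by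
  intro k
  rw [coeff_θ, TMaps_natCast]
  refine (MvPolynomial.totalDegree_mul _ _).trans ?_
  rw [MvPolynomial.totalDegree_C, zero_add]
  exact hR k

theorem TMaps_mul_zero {w y : PowerSeries P} (hw : PowerSeries.constantCoeff w = 0) {k : ℕ}
    (h : ∀ j < k, PowerSeries.coeff j y = 0) : PowerSeries.coeff k (w * y) = 0 := by
  rw [PowerSeries.coeff_mul]
  refine Finset.sum_eq_zero fun p hp => ?_
  rw [Finset.HasAntidiagonal.mem_antidiagonal] at hp
  rcases Nat.eq_zero_or_pos p.1 with h0 | h0
  · rw [h0, PowerSeries.coeff_zero_eq_constantCoeff_apply, hw, zero_mul]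
  · rw [h p.2 (by omega), mul_zero]

/-- Uniqueness for `θ y = w y`. -/
theorem ode_unique {w y : PowerSeries P} (hw : PowerSeries.constantCoeff w = 0)
    (hy : PowerSeries.constantCoeff y = 0) (h : θ y = w * y) : y = 0 := by
  ext1 k
  rw [map_zero]
  induction k using Nat.strong_induction_on with
  | _ k ih =>
    rcases Nat.eq_zero_or_pos k with h0 | h0
    · rw [h0, PowerSeries.coeff_zero_eq_constantCoeff_apply, hy]
    · have h1 := congrArg (PowerSeries.coeff k) h
      rw [coeff_θ, TMaps_mul_zero hw ih] at h1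
      have h2 : (k : P) ≠ 0 := Nat.cast_ne_zero.2 (by omega)
      exact (mul_eq_zero.1 h1).resolve_left h2

/-- Uniqueness for `θ y + y = w y`. -/
theorem ode_unique' {w y : PowerSeries P} (hw : PowerSeries.constantCoeff w = 0)
    (h : θ y + y = w * y) : y = 0 := by
  ext1 k
  rw [map_zero]
  induction k using Nat.strong_induction_on with
  | _ k ih =>
    have h1 := congrArg (PowerSeries.coeff k) h
    rw [map_add, coeff_θ, TMaps_mul_zero hw ih] at h1
    have h2 : ((k + 1 : ℕ) : P) ≠ 0 := Nat.cast_ne_zero.2 (by omega)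
    have h3 : ((k + 1 : ℕ) : P) * PowerSeries.coeff k y = 0 := by
      rw [← h1]
      push_cast
      ring
    exact (mul_eq_zero.1 h3).resolve_left h2

/-- The coefficientwise partial derivative. -/
noncomputable def dc (l : Fin 2) (y : PowerSeries P) : PowerSeries P :=
  PowerSeries.mk fun k => MvPolynomial.pderiv l (PowerSeries.coeff k y)

theorem TMaps_coeff_dc (l : Fin 2) (y : PowerSeries P) (k : ℕ) :
    PowerSeries.coeff k (dc l y) = MvPolynomial.pderiv l (PowerSeries.coeff k y) :=
  PowerSeries.coeff_mk _ _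

theorem dc_mul (l : Fin 2) (y z : PowerSeries P) : dc l (y * z) = y * dc l z + dc l y * z := by
  ext1 k
  rw [TMaps_coeff_dc, PowerSeries.coeff_mul, map_add, PowerSeries.coeff_mul,
    PowerSeries.coeff_mul, map_sum, ← Finset.sum_add_distrib]
  refine Finset.sum_congr rfl fun p _ => ?_
  rw [Derivation.leibniz, TMaps_coeff_dc, TMaps_coeff_dc, smul_eq_mul, smul_eq_mul]
  ring

theorem dc_θ (l : Fin 2) (y : PowerSeries P) : dc l (θ y) = θ (dc l y) := by
  ext1 k
  rw [TMaps_coeff_dc, coeff_θ, coeff_θ, TMaps_coeff_dc, TMaps_natCast,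
    ← MvPolynomial.smul_eq_C_mul, ← MvPolynomial.smul_eq_C_mul, Derivation.map_smul]

end Pool.Agent.Lib.MP_8ce23f_nt.R2
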